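import Pool.Agent.Lib.MP_743898_gt.CPing

set_option autoImplicit false

/-! Coset tables of the ten cusped arithmetic Tan groups in the Picard group. -/

namespace Pool.Agent.Lib.MP_743898_gt

open M2 Complex Cl

namespace Ar

def zm (a a' b b' c c' d d' : ℤ) : ZM := ⟨⟨a, 0, 0, a'⟩, ⟨b, 0, 0, b'⟩, ⟨c, 0, 0, c'⟩, ⟨d, 0, 0, d'⟩⟩

theorem evM_zm (a a' b b' c c' d d' : ℤ) : evM (zm a a' b b' c c' d d') =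
    ⟨a + a' * I, b + b' * I, c + c' * I, d + d' * I⟩ := by simp only [evM, zm, evG]

/-- Data of an arithmetic model pair. -/
structure AM (F G : M2) : Prop where
  tr : Tr (Kq quadI) F G
  int : IntG F G
  big : Big F G
  tab : ∃ rs, Tab0 F G rs

theorem am_of {F G : ZM} (b : Base) (rs : List ZM) (cs : List (List (ℕ × List ℕ)))
    (h1 : baseChk isG F G b = true) (h2 : tab0B F G rs rs cs = true)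
    (h3 : rs.head? = some ZM.one) : AM (evM F) (evM G) := by
  obtain ⟨a1, a2, a3⟩ := baseChk_sound quadI isG (fun _ => isG_sound) h1
  exact ⟨a1, a2, a3, _, tab0_of rs cs h2 h3⟩

def gHp : ZM := zm 0 0 (-1) 0 (-1) 1 0 0
def bHp : Base := ⟨⟨2, 0, 0, 0⟩, ⟨0, 0, 0, 0⟩, ⟨1, 0, 0, 1⟩, [0, 0, 1, 0, 0, 1], ⟨-4, 0, 0, 0⟩, [0, 1, 0, 0, 1, 0], ⟨-4, 0, 0, 0⟩⟩
def rHp : List ZM := [zm 1 0 0 0 0 0 1 0,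
  zm 1 0 1 0 0 0 1 0,
  zm 0 0 (-1) 0 1 0 0 0,
  zm 0 0 (-1) 0 1 0 1 0,
  zm 1 0 (-1) 0 1 0 0 0,
  zm 0 1 (-1) 0 1 0 0 0]
def tHp : List (List (ℕ × List ℕ)) := [[(1, []), (1, [2, 3, 2, 3, 2, 2, 1, 0, 1, 2]), (1, [2, 3, 2, 3, 2, 1, 0, 1]), (1, [1, 2, 1, 2, 1, 0, 1, 2]), (2, [])],
  [(0, [0, 1, 2, 1, 0, 0, 1, 0, 1, 0]), (0, []), (0, [0, 1, 2, 1, 0, 1, 0, 1]), (0, [1, 2, 1, 0, 1, 0, 1, 0]), (3, [])],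
  [(4, []), (4, [1, 0, 1, 2, 1, 0, 1, 0]), (5, []), (5, [3, 2, 3, 2, 3, 2, 1, 0]), (0, [])],
  [(5, [3, 2, 3, 2, 3, 0, 1, 2, 1, 0, 1, 0]), (5, [3, 2, 2, 1, 0, 0, 1, 0, 1, 0]), (4, [1, 0, 1, 0, 0, 1, 2, 1, 0, 1, 0, 1]), (4, [1, 0, 0, 1, 0, 0, 1, 0, 1, 0]), (1, [])],
  [(2, [2, 3, 2, 3, 0, 3, 2, 1]), (2, []), (3, [2, 3, 2, 3, 2, 2, 3, 0, 0, 1]), (3, [1, 2, 1, 2, 1, 0, 1, 0, 0, 1, 2, 1]), (5, [3, 2, 3, 2])],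
  [(3, [2, 3, 2, 3, 2, 2, 3, 0, 0, 1]), (3, [2, 1, 2, 1, 0, 1, 2, 1, 0, 1, 0, 1]), (2, [2, 3, 0, 1, 0, 1, 0, 1]), (2, []), (4, [0, 1, 0, 1])]]

def gHm : ZM := zm 0 0 (-1) 0 1 1 0 0
def bHm : Base := ⟨⟨2, 0, 0, 0⟩, ⟨0, 0, 0, 0⟩, ⟨1, 0, 0, -1⟩, [0, 0, 1, 0, 0, 1], ⟨-4, 0, 0, 0⟩, [0, 1, 0, 0, 1, 0], ⟨-4, 0, 0, 0⟩⟩
def rHm : List ZM := [zm 1 0 0 0 0 0 1 0,
  zm 1 0 1 0 0 0 1 0,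
  zm 0 0 (-1) 0 1 0 0 0,
  zm 0 0 (-1) 0 1 0 1 0,
  zm 1 0 (-1) 0 1 0 0 0,
  zm 0 1 (-1) 0 1 0 0 0]
def tHm : List (List (ℕ × List ℕ)) := [[(1, []), (1, [3, 0, 3, 0, 0, 1, 2, 1, 0, 0]), (1, [3, 0, 3, 2, 1, 2, 1, 2]), (1, [3, 0, 3, 0, 3, 2, 1, 0]), (2, [])],
  [(0, [0, 0, 1, 0, 1, 0, 0, 1, 2, 1]), (0, []), (0, [2, 1, 0, 1, 2, 1, 2, 1]), (0, [0, 1, 0, 1, 0, 1, 2, 1]), (3, [])],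
  [(4, []), (4, [0, 1, 2, 1, 2, 1, 2, 1]), (5, []), (5, [0, 3, 0, 3, 2, 3, 0, 1]), (0, [])],
  [(5, [0, 3, 0, 3, 2, 3, 2, 1, 2, 1, 2, 1]), (5, [0, 3, 0, 0, 1, 0, 0, 1, 2, 1]), (4, [0, 1, 2, 1, 2, 1, 0, 1, 2, 1, 2, 1]), (4, [0, 1, 0, 0, 1, 0, 0, 1, 2, 1]), (1, [])],
  [(2, [3, 0, 3, 0, 3, 0, 1, 2]), (2, []), (3, [3, 0, 3, 2, 2, 3, 2, 2, 1, 2]), (3, [3, 0, 3, 2, 2, 3, 2, 3, 2, 3, 0, 1]), (5, [0, 3, 0, 3, 2, 2])],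
  [(3, [3, 0, 3, 2, 2, 3, 2, 2, 1, 2]), (3, [3, 0, 3, 2, 2, 3, 0, 1, 2, 1, 2, 1]), (2, [3, 2, 1, 0, 1, 2, 1, 2]), (2, []), (4, [0, 0, 1, 2, 1, 2])]]

def gA : ZM := zm 1 0 1 0 1 0 0 0
def bA : Base := ⟨⟨2, 0, 0, 0⟩, ⟨-1, 0, 0, 0⟩, ⟨0, 0, 0, -1⟩, [1, 1], ⟨9, 0, 0, 0⟩, [0, 1, 1], ⟨4, 0, 0, 3⟩⟩
def rA : List ZM := [zm 1 0 0 0 0 0 1 0,
  zm 1 0 1 0 0 0 1 0]
def tA : List (List (ℕ × List ℕ)) := [[(1, []), (1, [3, 0, 0, 3, 3]), (1, [0, 1, 0, 3]), (1, [2, 1, 2, 3]), (1, [0, 0, 1])],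
  [(0, [1, 1, 0, 0, 1]), (0, []), (0, [1, 0, 3, 0]), (0, [1, 2, 3, 2]), (0, [3, 0, 0])]]

def gB : ZM := zm 1 1 1 0 1 1 0 0
def bB : Base := ⟨⟨2, 0, 0, 0⟩, ⟨-1, 0, 0, -1⟩, ⟨1, 0, 0, -1⟩, [1, 1], ⟨8, 0, 0, 6⟩, [0, 1, 1], ⟨0, 0, 0, 4⟩⟩
def rB : List ZM := [zm 1 0 0 0 0 0 1 0,
  zm 1 0 1 0 0 0 1 0,
  zm 0 0 (-1) 0 1 0 0 0,
  zm 0 0 (-1) 0 1 0 1 0,
  zm 1 0 (-1) 0 1 0 0 0,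
  zm 0 1 (-1) 0 1 0 0 0]
def tB : List (List (ℕ × List ℕ)) := [[(1, []), (1, [0, 0, 1, 0, 0, 3]), (1, [0, 1, 0, 3]), (1, [2, 1, 2, 3]), (2, [])],
  [(0, [1, 0, 0, 3, 0, 0]), (0, []), (0, [1, 0, 3, 0]), (0, [1, 2, 3, 2]), (3, [])],
  [(4, []), (4, [2, 3, 2, 1]), (5, []), (5, [0, 3, 0, 1]), (0, [])],
  [(5, [2, 1, 0, 1]), (5, [0, 0, 3, 3, 0, 0]), (4, [2, 3, 0, 3, 0, 0]), (4, [0, 0, 3, 3, 0, 0]), (1, [])],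
  [(2, [3, 0, 1, 0]), (2, []), (3, [0, 0, 1, 1, 0, 0]), (3, [0, 0, 1, 2, 1, 0]), (5, [0, 0, 3, 0, 0, 3])],
  [(3, [0, 0, 1, 1, 0, 0]), (3, [3, 2, 3, 0]), (2, [3, 2, 1, 2]), (2, []), (4, [1, 2, 2, 1, 0, 0])]]

def gC : ZM := zm 2 0 1 0 2 0 0 0
def bC : Base := ⟨⟨2, 0, 0, 0⟩, ⟨-2, 0, 0, 0⟩, ⟨0, 0, 0, -2⟩, [1, 1], ⟨16, 0, 0, 0⟩, [0, 1, 1], ⟨6, 0, 0, 8⟩⟩
def rC : List ZM := [zm 1 0 0 0 0 0 1 0,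
  zm 1 0 1 0 0 0 1 0,
  zm 0 0 (-1) 0 1 0 0 0,
  zm 0 0 (-1) 0 1 0 1 0,
  zm 1 0 (-1) 0 1 0 0 0,
  zm (-1) 0 (-1) 0 1 0 0 0,
  zm 0 1 (-1) 0 1 0 0 0,
  zm 0 (-1) (-1) 0 1 0 0 0,
  zm 1 1 (-1) 0 1 0 0 0,
  zm 1 (-1) (-1) 0 1 0 0 0,
  zm (-1) 0 0 0 1 1 (-1) 0,
  zm (-1) 0 0 0 1 (-1) (-1) 0]
def tC : List (List (ℕ × List ℕ)) := [[(1, []), (1, [2, 2, 1, 2, 2, 3]), (1, [0, 1, 0, 3]), (1, [2, 1, 2, 3]), (2, [])],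
  [(0, [1, 0, 0, 3, 0, 0]), (0, []), (0, [1, 0, 3, 0]), (0, [1, 2, 3, 2]), (3, [])],
  [(4, []), (5, []), (6, []), (7, []), (0, [])],
  [(5, [3, 2, 2, 3, 0, 0]), (4, [0, 0, 3, 3, 0, 0]), (7, [2, 3, 0, 3, 0, 0]), (6, [0, 3, 2, 3, 0, 0]), (1, [])],
  [(3, [0, 0, 1, 1, 0, 0]), (2, []), (8, []), (9, []), (4, [1, 2, 2, 1, 0, 0])],
  [(2, []), (3, [2, 2, 1, 2, 2, 1]), (9, [2, 3, 2, 1]), (8, [0, 3, 0, 1]), (5, [3, 2, 2, 3, 0, 0])],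
  [(8, []), (9, [2, 3, 2, 1]), (3, [2, 2, 1, 0, 1, 2]), (2, []), (7, [2, 3, 2, 2, 3, 0])],
  [(9, []), (8, [0, 3, 0, 1]), (2, []), (3, [2, 2, 1, 2, 1, 0]), (6, [2, 1, 0, 0, 1, 0])],
  [(7, [3, 2, 1, 2]), (6, []), (5, [3, 2, 1, 2]), (4, []), (10, [])],
  [(6, [3, 0, 1, 0]), (7, []), (4, []), (5, [3, 0, 1, 0]), (11, [])],
  [(10, [2, 2, 3, 0, 3, 0]), (10, [2, 1, 2, 1, 0, 0]), (10, [1, 0, 1, 2]), (10, [0, 3, 2, 3]), (8, [])],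
  [(11, [0, 0, 3, 2, 3, 2]), (11, [0, 1, 0, 1, 0, 0]), (11, [2, 3, 0, 3]), (11, [1, 2, 1, 0]), (9, [])]]

def gD : ZM := zm 2 1 1 0 2 1 0 0
def bD : Base := ⟨⟨2, 0, 0, 0⟩, ⟨-2, 0, 0, -1⟩, ⟨1, 0, 0, -2⟩, [1, 1], ⟨15, 0, 0, 8⟩, [0, 1, 1], ⟨0, 0, 0, 9⟩⟩
def rD : List ZM := [zm 1 0 0 0 0 0 1 0,
  zm 1 0 1 0 0 0 1 0,
  zm 0 0 (-1) 0 1 0 0 0,
  zm 0 0 (-1) 0 1 0 1 0,
  zm 1 0 (-1) 0 1 0 0 0,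
  zm (-1) 0 (-1) 0 1 0 0 0,
  zm 0 1 (-1) 0 1 0 0 0,
  zm 0 (-1) (-1) 0 1 0 0 0,
  zm 1 0 0 0 1 0 1 0,
  zm (-1) 0 (-2) 0 1 0 1 0,
  zm 0 1 (-1) 1 1 0 1 0,
  zm 0 (-1) (-1) (-1) 1 0 1 0]
def tD : List (List (ℕ × List ℕ)) := [[(1, []), (1, [2, 2, 1, 0, 0, 3]), (1, [0, 1, 0, 3]), (1, [2, 1, 2, 3]), (2, [])],
  [(0, [1, 0, 0, 3, 0, 0]), (0, []), (0, [1, 0, 3, 0]), (0, [1, 2, 3, 2]), (3, [])],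
  [(4, []), (5, []), (6, []), (7, []), (0, [])],
  [(8, []), (9, []), (10, []), (11, []), (1, [])],
  [(11, [0, 0, 1, 1, 0, 0]), (2, []), (9, [2, 2, 1, 1, 0, 0]), (10, [2, 2, 1, 2, 1, 0]), (9, [2, 2, 1, 2, 2, 3])],
  [(2, []), (10, [2, 2, 1, 0, 0, 1]), (11, [0, 0, 1, 0, 1, 2]), (8, [2, 2, 1, 0, 0, 1]), (8, [])],
  [(9, [2, 2, 1, 1, 0, 0]), (11, [0, 0, 1, 0, 1, 2]), (8, [2, 2, 1, 0, 1, 2]), (2, []), (10, [2, 2, 1, 0, 3, 0])],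
  [(10, [2, 2, 1, 2, 1, 0]), (8, [2, 2, 1, 0, 0, 1]), (2, []), (9, [2, 2, 1, 2, 1, 0]), (11, [0, 1, 0, 3, 0, 0])],
  [(7, [3, 0, 0, 3, 0, 0]), (3, []), (5, [3, 0, 0, 3, 0, 0]), (6, [0, 3, 2, 3, 0, 0]), (5, [])],
  [(3, []), (6, [2, 2, 3, 3, 0, 0]), (7, [2, 3, 0, 3, 0, 0]), (4, [0, 0, 3, 3, 0, 0]), (4, [1, 2, 2, 3, 0, 0])],
  [(5, [3, 0, 0, 3, 0, 0]), (7, [2, 3, 0, 3, 0, 0]), (4, [2, 3, 0, 3, 0, 0]), (3, []), (6, [2, 1, 2, 3, 0, 0])],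
  [(6, [0, 3, 2, 3, 0, 0]), (4, [0, 0, 3, 3, 0, 0]), (3, []), (5, [0, 3, 2, 3, 0, 0]), (7, [0, 1, 0, 3, 0, 0])]]

def gE : ZM := zm 2 (-1) 1 0 2 (-1) 0 0
def bE : Base := ⟨⟨2, 0, 0, 0⟩, ⟨-2, 0, 0, 1⟩, ⟨-1, 0, 0, -2⟩, [1, 1], ⟨15, 0, 0, -8⟩, [0, 1, 1], ⟨12, 0, 0, 5⟩⟩
def rE : List ZM := [zm 1 0 0 0 0 0 1 0,
  zm 1 0 1 0 0 0 1 0,
  zm 0 0 (-1) 0 1 0 0 0,
  zm 0 0 (-1) 0 1 0 1 0,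
  zm 1 0 (-1) 0 1 0 0 0,
  zm (-1) 0 (-1) 0 1 0 0 0,
  zm 0 1 (-1) 0 1 0 0 0,
  zm 0 (-1) (-1) 0 1 0 0 0,
  zm 1 0 0 0 1 0 1 0,
  zm (-1) 0 (-2) 0 1 0 1 0,
  zm 0 1 (-1) 1 1 0 1 0,
  zm 0 (-1) (-1) (-1) 1 0 1 0]
def tE : List (List (ℕ × List ℕ)) := [[(1, []), (1, [2, 2, 1, 2, 2, 3]), (1, [0, 1, 0, 3]), (1, [2, 1, 2, 3]), (2, [])],
  [(0, [1, 0, 0, 3, 0, 0]), (0, []), (0, [1, 0, 3, 0]), (0, [1, 2, 3, 2]), (3, [])],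
  [(4, []), (5, []), (6, []), (7, []), (0, [])],
  [(8, []), (9, []), (10, []), (11, []), (1, [])],
  [(10, [2, 2, 1, 1, 0, 0]), (2, []), (11, [0, 0, 1, 0, 1, 2]), (9, [0, 0, 1, 1, 0, 0]), (9, [2, 2, 1, 2, 2, 3])],
  [(2, []), (11, [0, 0, 1, 0, 0, 1]), (8, [2, 2, 1, 0, 0, 1]), (10, [2, 2, 1, 2, 1, 0]), (8, [])],
  [(11, [0, 0, 1, 0, 1, 2]), (8, [2, 2, 1, 0, 0, 1]), (9, [2, 2, 1, 0, 1, 2]), (2, []), (10, [2, 2, 1, 0, 3, 0])],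
  [(9, [0, 0, 1, 1, 0, 0]), (10, [2, 2, 1, 2, 1, 0]), (2, []), (8, [2, 2, 1, 2, 1, 0]), (11, [0, 1, 0, 3, 0, 0])],
  [(6, [3, 0, 0, 3, 0, 0]), (3, []), (7, [2, 3, 0, 3, 0, 0]), (5, [3, 0, 0, 3, 0, 0]), (5, [])],
  [(3, []), (7, [0, 0, 3, 3, 0, 0]), (4, [0, 0, 3, 3, 0, 0]), (6, [0, 3, 2, 3, 0, 0]), (4, [1, 2, 2, 3, 0, 0])],
  [(7, [2, 3, 0, 3, 0, 0]), (4, [0, 0, 3, 3, 0, 0]), (5, [2, 3, 0, 3, 0, 0]), (3, []), (6, [2, 1, 2, 3, 0, 0])],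
  [(5, [3, 0, 0, 3, 0, 0]), (6, [0, 3, 2, 3, 0, 0]), (3, []), (4, [0, 3, 2, 3, 0, 0]), (7, [0, 1, 0, 3, 0, 0])]]

def gF : ZM := zm 2 2 1 0 2 2 0 0
def bF : Base := ⟨⟨2, 0, 0, 0⟩, ⟨-2, 0, 0, -2⟩, ⟨2, 0, 0, -2⟩, [1, 1], ⟨12, 0, 0, 16⟩, [0, 1, 1], ⟨-6, 0, 0, 8⟩⟩
def rF : List ZM := [zm 1 0 0 0 0 0 1 0,
  zm 1 0 1 0 0 0 1 0,
  zm 0 0 (-1) 0 1 0 0 0,
  zm 0 0 (-1) 0 1 0 1 0,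
  zm 1 0 (-1) 0 1 0 0 0,
  zm (-1) 0 (-1) 0 1 0 0 0,
  zm 0 1 (-1) 0 1 0 0 0,
  zm 0 (-1) (-1) 0 1 0 0 0,
  zm 1 0 0 0 1 0 1 0,
  zm (-1) 0 (-2) 0 1 0 1 0,
  zm 0 1 (-1) 1 1 0 1 0,
  zm 0 (-1) (-1) (-1) 1 0 1 0,
  zm 2 0 (-1) 0 1 0 0 0,
  zm 1 1 (-1) 0 1 0 0 0,
  zm 1 (-1) (-1) 0 1 0 0 0,
  zm (-1) 1 (-1) 0 1 0 0 0,
  zm (-1) (-1) (-1) 0 1 0 0 0,
  zm 0 2 (-1) 0 1 0 0 0,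
  zm (-1) 0 0 0 2 0 (-1) 0,
  zm (-1) 0 0 0 1 1 (-1) 0,
  zm (-1) 0 0 0 1 (-1) (-1) 0,
  zm (-1) 0 0 0 (-1) 1 (-1) 0,
  zm (-1) 0 0 0 (-1) (-1) (-1) 0,
  zm (-1) 0 0 0 0 2 (-1) 0]
def tF : List (List (ℕ × List ℕ)) := [[(1, []), (1, [2, 2, 1, 0, 0, 3]), (1, [0, 1, 0, 3]), (1, [2, 1, 2, 3]), (2, [])],
  [(0, [1, 0, 0, 3, 0, 0]), (0, []), (0, [1, 0, 3, 0]), (0, [1, 2, 3, 2]), (3, [])],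
  [(4, []), (5, []), (6, []), (7, []), (0, [])],
  [(8, []), (9, []), (10, []), (11, []), (1, [])],
  [(12, []), (2, []), (13, []), (14, []), (9, [2, 2, 1, 2, 2, 3])],
  [(2, []), (12, [2, 3, 2, 1]), (15, []), (16, []), (8, [])],
  [(13, []), (15, []), (17, []), (2, []), (10, [2, 2, 1, 0, 3, 0])],
  [(14, []), (16, []), (2, []), (17, [0, 3, 0, 1]), (11, [0, 1, 0, 3, 0, 0])],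
  [(17, [0, 3, 2, 3, 0, 0]), (3, []), (16, [3, 0, 0, 3, 0, 0]), (15, [0, 3, 2, 3, 0, 0]), (5, [])],
  [(3, []), (17, [0, 0, 3, 3, 0, 0]), (14, [2, 3, 0, 3, 0, 0]), (13, [2, 2, 3, 3, 0, 0]), (4, [1, 0, 0, 3, 0, 0])],
  [(16, [3, 0, 0, 3, 0, 0]), (14, [2, 3, 0, 3, 0, 0]), (12, [2, 3, 0, 3, 0, 0]), (3, []), (6, [2, 1, 2, 3, 0, 0])],
  [(15, [0, 3, 2, 3, 0, 0]), (13, [2, 2, 3, 3, 0, 0]), (3, []), (12, [2, 2, 3, 3, 0, 0]), (7, [0, 1, 0, 3, 0, 0])],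
  [(5, [3, 0, 1, 0]), (4, []), (11, [0, 0, 1, 1, 0, 0]), (10, [2, 2, 1, 2, 1, 0]), (18, [])],
  [(11, [0, 0, 1, 1, 0, 0]), (6, []), (9, [2, 2, 1, 1, 0, 0]), (4, []), (19, [])],
  [(10, [2, 2, 1, 2, 1, 0]), (7, []), (4, []), (9, [2, 2, 1, 2, 1, 0]), (20, [])],
  [(6, []), (11, [0, 0, 1, 0, 1, 2]), (8, [2, 2, 1, 0, 1, 2]), (5, []), (21, [])],
  [(7, []), (10, [2, 2, 1, 0, 0, 1]), (5, []), (8, [2, 2, 1, 0, 0, 1]), (22, [])],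
  [(9, [2, 2, 1, 1, 0, 0]), (8, [2, 2, 1, 0, 1, 2]), (7, [3, 2, 1, 2]), (6, []), (23, [])],
  [(23, [2, 2, 3, 2, 2, 3]), (23, [0, 3, 2, 3, 0, 0, 3, 0, 1, 0]), (23, [2, 1, 0, 1, 0, 0]), (23, [0, 3, 0, 1, 0, 1, 0, 0, 1, 0]), (12, [])],
  [(20, [2, 3, 2, 2, 3, 0]), (20, [0, 1, 0, 1, 0, 0]), (21, [2, 2, 1, 0, 0, 1, 0, 0]), (21, [0, 3, 2, 3]), (13, [])],
  [(19, [2, 2, 3, 2, 3, 2]), (19, [2, 1, 0, 0, 1, 0]), (22, [3, 0, 0, 3]), (22, [0, 0, 1, 0, 1, 0]), (14, [])],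
  [(22, [0, 1, 0, 0, 1, 2]), (22, [3, 2, 3, 0]), (19, [1, 0, 1, 2]), (19, [2, 2, 3, 0, 0, 3, 0, 0]), (15, [])],
  [(21, [2, 1, 0, 1]), (21, [0, 3, 0, 0, 3, 2]), (20, [2, 3, 2, 3, 0, 0]), (20, [1, 0, 0, 1]), (16, [])],
  [(18, [2, 3, 2, 1, 0, 0, 1, 0, 1, 2]), (18, [1, 0, 0, 1, 0, 0]), (18, [2, 3, 2, 2, 3, 2, 3, 2, 1, 2]), (18, [2, 2, 3, 2, 3, 0]), (17, [])]]

def gG : ZM := zm 3 1 1 0 3 1 0 0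
def bG : Base := ⟨⟨2, 0, 0, 0⟩, ⟨-3, 0, 0, -1⟩, ⟨1, 0, 0, -3⟩, [1, 1], ⟨24, 0, 0, 10⟩, [0, 1, 1], ⟨0, 0, 0, 16⟩⟩
def rG : List ZM := [zm 1 0 0 0 0 0 1 0,
  zm 1 0 1 0 0 0 1 0,
  zm 0 0 (-1) 0 1 0 0 0,
  zm 0 0 (-1) 0 1 0 1 0,
  zm 1 0 (-1) 0 1 0 0 0,
  zm (-1) 0 (-1) 0 1 0 0 0,
  zm 0 1 (-1) 0 1 0 0 0,
  zm 0 (-1) (-1) 0 1 0 0 0,
  zm 1 0 0 0 1 0 1 0,
  zm (-1) 0 (-2) 0 1 0 1 0,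
  zm 0 1 (-1) 1 1 0 1 0,
  zm 0 (-1) (-1) (-1) 1 0 1 0,
  zm 2 0 (-1) 0 1 0 0 0,
  zm 1 1 (-1) 0 1 0 0 0,
  zm 1 (-1) (-1) 0 1 0 0 0,
  zm (-2) 0 (-1) 0 1 0 0 0,
  zm (-1) 1 (-1) 0 1 0 0 0,
  zm (-1) (-1) (-1) 0 1 0 0 0,
  zm 0 2 (-1) 0 1 0 0 0,
  zm 0 (-2) (-1) 0 1 0 0 0,
  zm 2 (-1) (-1) 0 1 0 0 0,
  zm (-1) 0 0 0 2 0 (-1) 0,
  zm 1 2 (-1) 0 1 0 0 0,
  zm (-1) 0 0 0 1 1 (-1) 0,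
  zm (-1) 0 0 0 1 (-1) (-1) 0,
  zm (-1) 0 0 0 (-2) 0 (-1) 0,
  zm (-1) 0 0 0 (-1) 1 (-1) 0,
  zm (-1) 0 0 0 (-1) (-1) (-1) 0,
  zm (-1) 0 0 0 0 2 (-1) 0,
  zm (-1) 0 0 0 0 (-2) (-1) 0,
  zm (-1) 0 0 0 2 (-1) (-1) 0,
  zm (-1) (-2) 0 1 2 0 (-1) 0,
  zm (-1) 0 0 0 1 2 (-1) 0,
  zm (-2) 1 0 (-1) 1 1 (-1) 0,
  zm 1 (-1) (-1) 0 2 (-1) (-1) 0,
  zm 0 2 0 (-1) 2 (-1) (-1) 0]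
def tG : List (List (ℕ × List ℕ)) := [[(1, []), (1, [2, 2, 1, 0, 0, 3]), (1, [0, 1, 0, 3]), (1, [2, 1, 2, 3]), (2, [])],
  [(0, [1, 0, 0, 3, 0, 0]), (0, []), (0, [1, 0, 3, 0]), (0, [1, 2, 3, 2]), (3, [])],
  [(4, []), (5, []), (6, []), (7, []), (0, [])],
  [(8, []), (9, []), (10, []), (11, []), (1, [])],
  [(12, []), (2, []), (13, []), (14, []), (9, [2, 2, 1, 2, 2, 3])],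
  [(2, []), (15, []), (16, []), (17, []), (8, [])],
  [(13, []), (16, []), (18, []), (2, []), (10, [2, 2, 1, 0, 3, 0])],
  [(14, []), (17, []), (2, []), (19, []), (11, [0, 1, 0, 3, 2, 2])],
  [(17, [3, 0, 0, 3, 0, 0]), (3, []), (15, [3, 0, 0, 3, 0, 0]), (18, [0, 3, 2, 3, 0, 0]), (5, [])],
  [(3, []), (13, [2, 2, 3, 3, 0, 0]), (19, [2, 3, 0, 3, 0, 0]), (12, [2, 2, 3, 3, 0, 0]), (4, [1, 0, 0, 3, 0, 0])],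
  [(15, [3, 0, 0, 3, 0, 0]), (19, [2, 3, 0, 3, 0, 0]), (14, [2, 3, 0, 3, 0, 0]), (3, []), (6, [2, 1, 2, 3, 0, 0])],
  [(18, [0, 3, 2, 3, 0, 0]), (12, [2, 2, 3, 3, 0, 0]), (3, []), (16, [0, 3, 2, 3, 0, 0]), (7, [0, 0, 1, 2, 3, 2])],
  [(11, [0, 0, 1, 1, 0, 0]), (4, []), (9, [2, 2, 1, 1, 0, 0]), (20, []), (21, [])],
  [(9, [2, 2, 1, 1, 0, 0]), (6, []), (22, []), (4, []), (23, [])],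
  [(20, []), (7, []), (4, []), (10, [2, 2, 1, 2, 1, 0]), (24, [])],
  [(5, []), (10, [2, 2, 1, 0, 0, 1]), (20, [2, 3, 2, 1]), (8, [2, 2, 1, 0, 0, 1]), (25, [])],
  [(6, []), (20, [2, 3, 2, 1]), (11, [0, 0, 1, 0, 1, 2]), (5, []), (26, [])],
  [(7, []), (8, [2, 2, 1, 0, 0, 1]), (5, []), (22, [0, 3, 0, 1]), (27, [])],
  [(22, []), (11, [0, 0, 1, 0, 1, 2]), (8, [2, 2, 1, 0, 1, 2]), (6, []), (28, [])],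
  [(10, [2, 2, 1, 2, 1, 0]), (22, [0, 3, 0, 1]), (7, []), (9, [2, 2, 1, 2, 1, 0]), (29, [])],
  [(16, [3, 0, 1, 0]), (14, []), (12, []), (15, [3, 0, 1, 0]), (30, [])],
  [(23, [2, 2, 3, 0, 0, 3]), (24, [0, 1, 0, 1, 0, 0]), (26, [2, 2, 1, 0, 0, 1, 0, 0]), (31, []), (12, [])],
  [(19, [3, 2, 1, 2]), (18, []), (17, [3, 2, 1, 2]), (13, []), (32, [])],
  [(29, [2, 3, 0, 0, 3, 0]), (21, [1, 0, 0, 1, 0, 0]), (33, []), (28, [0, 3, 2, 3]), (13, [])],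
  [(21, [2, 2, 3, 2, 3, 2]), (33, [2, 1, 0, 0, 1, 0, 0, 1, 0, 0, 1, 0]), (25, [3, 0, 0, 3]), (29, [0, 1, 0, 0, 1, 0]), (14, [])],
  [(26, [2, 1, 0, 1]), (27, [3, 0, 0, 3, 0, 0]), (31, [1, 0, 0, 1, 0, 0, 1, 0, 1, 0, 0, 1, 0, 0, 1, 0, 0, 1, 0, 1]), (24, [1, 0, 0, 1]), (15, [])],
  [(33, [2, 2, 3, 2, 2, 3, 2, 2, 3, 2, 2, 3, 0, 0]), (25, [3, 2, 3, 0]), (28, [2, 1, 0, 0, 1, 2]), (21, [2, 2, 3, 0, 0, 3, 0, 0]), (16, [])],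
  [(25, [0, 0, 1, 0, 0, 1]), (28, [0, 3, 0, 0, 3, 2]), (29, [2, 3, 2, 3, 0, 0]), (33, [2, 1, 0, 0, 1, 0, 0, 1, 0, 0, 1, 0, 1, 0, 0, 1, 0, 0, 1, 0, 0, 1]), (17, [])],
  [(27, [0, 1, 0, 0, 1, 2]), (31, [1, 0, 0, 1, 0, 0, 1, 0, 1, 2]), (23, [1, 0, 1, 2]), (26, [0, 3, 0, 0, 3, 0]), (18, [])],
  [(31, [2, 2, 3, 2, 3, 2, 2, 3, 2, 2, 3, 2]), (23, [2, 1, 0, 0, 1, 0]), (24, [2, 3, 2, 2, 3, 2]), (27, [0, 0, 1, 0, 1, 0]), (19, [])],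
  [(34, []), (34, [1, 0, 0, 1, 0, 0, 1, 0, 0, 1, 0, 1, 0, 0, 1, 0, 0, 1, 0, 1, 0, 0]), (35, []), (35, [1, 0, 0, 1, 0, 0, 1, 0, 1, 0, 0, 1, 0, 0, 1, 0, 0, 1, 0, 0, 1, 0]), (20, [])],
  [(28, [0, 3, 2, 3, 0, 0, 3, 0, 0, 3]), (29, [0, 1, 0, 0, 1, 0, 0, 1, 0, 1, 0, 0]), (21, []), (25, [3, 2, 3, 0, 0, 3, 0, 0, 3, 0, 0, 3, 2, 3, 0, 0, 3, 0, 0, 3]), (35, [2, 2, 3, 2, 3, 2, 2, 3, 2, 2, 3, 2, 2, 3, 2, 3, 0, 0, 3, 0, 0, 3])],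
  [(35, [2, 2, 3, 2, 3, 2, 2, 3, 2, 2, 3, 0]), (35, [1, 0, 0, 1, 0, 0, 1, 0, 0, 1, 0, 0]), (34, [2, 3, 0, 0, 3, 0, 0, 3, 0, 0, 3, 2, 3, 2, 1, 2]), (34, [1, 0, 0, 1, 0, 0, 1, 0, 0, 1, 0, 0]), (22, [])],
  [(24, [2, 3, 2, 2, 3, 0, 0, 3, 0, 0, 3, 0]), (26, [2, 2, 1, 0, 0, 1, 0, 0, 1, 0, 0, 1, 0, 0]), (27, [3, 0, 0, 3, 0, 0, 3, 0, 0, 3, 2, 3, 0, 0, 3, 0, 0, 3, 0, 0, 3, 0]), (23, []), (34, [2, 3, 2, 2, 3, 0, 0, 3, 0, 0, 3, 0])],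
  [(30, [2, 2, 3, 2, 3, 0, 0, 3, 0, 0, 3, 2, 3, 0, 0, 3, 0, 0, 3, 0, 0, 3]), (30, []), (32, [2, 2, 3, 2, 2, 3, 0, 0, 3, 0, 0, 3]), (32, [0, 3, 0, 1, 0, 1, 0, 0, 1, 0, 0, 1, 0, 0, 1, 0]), (33, [2, 1, 0, 0, 1, 0, 0, 1, 0, 0, 1, 0])],
  [(32, [2, 2, 3, 2, 2, 3, 0, 0, 3, 0, 0, 3]), (32, [2, 1, 0, 0, 1, 0, 0, 1, 0, 1, 0, 0]), (30, [2, 3, 2, 2, 3, 0, 0, 3, 0, 0, 3, 0, 0, 3, 2, 3, 0, 0, 3, 0, 0, 3]), (30, []), (31, [2, 2, 3, 2, 3, 2, 2, 3, 2, 2, 3, 2, 2, 3, 2, 3, 0, 0, 3, 0, 0, 3])]]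

def gH : ZM := zm 3 (-1) 1 0 3 (-1) 0 0
def bH : Base := ⟨⟨2, 0, 0, 0⟩, ⟨-3, 0, 0, 1⟩, ⟨-1, 0, 0, -3⟩, [1, 1], ⟨24, 0, 0, -10⟩, [0, 1, 1], ⟨16, 0, 0, 12⟩⟩
def rH : List ZM := [zm 1 0 0 0 0 0 1 0,
  zm 1 0 1 0 0 0 1 0,
  zm 0 0 (-1) 0 1 0 0 0,
  zm 0 0 (-1) 0 1 0 1 0,
  zm 1 0 (-1) 0 1 0 0 0,
  zm (-1) 0 (-1) 0 1 0 0 0,
  zm 0 1 (-1) 0 1 0 0 0,
  zm 0 (-1) (-1) 0 1 0 0 0,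
  zm 1 0 0 0 1 0 1 0,
  zm (-1) 0 (-2) 0 1 0 1 0,
  zm 0 1 (-1) 1 1 0 1 0,
  zm 0 (-1) (-1) (-1) 1 0 1 0,
  zm 2 0 (-1) 0 1 0 0 0,
  zm 1 1 (-1) 0 1 0 0 0,
  zm 1 (-1) (-1) 0 1 0 0 0,
  zm (-2) 0 (-1) 0 1 0 0 0,
  zm (-1) 1 (-1) 0 1 0 0 0,
  zm (-1) (-1) (-1) 0 1 0 0 0,
  zm 0 2 (-1) 0 1 0 0 0,
  zm 0 (-2) (-1) 0 1 0 0 0,
  zm 2 1 (-1) 0 1 0 0 0,
  zm (-1) 0 0 0 2 0 (-1) 0,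
  zm (-1) 0 0 0 1 1 (-1) 0,
  zm 1 (-2) (-1) 0 1 0 0 0,
  zm (-1) 0 0 0 1 (-1) (-1) 0,
  zm (-1) 0 0 0 (-2) 0 (-1) 0,
  zm (-1) 0 0 0 (-1) 1 (-1) 0,
  zm (-1) 0 0 0 (-1) (-1) (-1) 0,
  zm (-1) 0 0 0 0 2 (-1) 0,
  zm (-1) 0 0 0 0 (-2) (-1) 0,
  zm (-1) 0 0 0 2 1 (-1) 0,
  zm (-1) 2 0 (-1) 2 0 (-1) 0,
  zm (-2) (-1) 1 0 1 1 (-1) 0,
  zm (-1) 0 0 0 1 (-2) (-1) 0,
  zm 1 1 (-1) 0 2 1 (-1) 0,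
  zm (-2) 2 0 (-1) 2 1 (-1) 0]
def tH : List (List (ℕ × List ℕ)) := [[(1, []), (1, [2, 2, 1, 0, 0, 3]), (1, [0, 1, 0, 3]), (1, [2, 1, 2, 3]), (2, [])],
  [(0, [1, 0, 0, 3, 0, 0]), (0, []), (0, [1, 0, 3, 0]), (0, [1, 2, 3, 2]), (3, [])],
  [(4, []), (5, []), (6, []), (7, []), (0, [])],
  [(8, []), (9, []), (10, []), (11, []), (1, [])],
  [(12, []), (2, []), (13, []), (14, []), (9, [2, 2, 1, 2, 2, 3])],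
  [(2, []), (15, []), (16, []), (17, []), (8, [])],
  [(13, []), (16, []), (18, []), (2, []), (10, [2, 2, 1, 0, 3, 0])],
  [(14, []), (17, []), (2, []), (19, []), (11, [0, 1, 0, 3, 2, 2])],
  [(16, [3, 0, 0, 3, 0, 0]), (3, []), (19, [2, 3, 0, 3, 0, 0]), (15, [3, 0, 0, 3, 0, 0]), (5, [])],
  [(3, []), (14, [0, 0, 3, 3, 0, 0]), (12, [0, 0, 3, 3, 0, 0]), (18, [0, 3, 2, 3, 0, 0]), (4, [1, 0, 0, 3, 0, 0])],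
  [(19, [2, 3, 0, 3, 0, 0]), (12, [0, 0, 3, 3, 0, 0]), (17, [2, 3, 0, 3, 0, 0]), (3, []), (6, [2, 1, 2, 3, 0, 0])],
  [(15, [3, 0, 0, 3, 0, 0]), (18, [0, 3, 2, 3, 0, 0]), (3, []), (13, [0, 3, 2, 3, 0, 0]), (7, [0, 1, 0, 3, 0, 0])],
  [(10, [2, 2, 1, 1, 0, 0]), (4, []), (20, []), (9, [2, 2, 1, 1, 0, 0]), (21, [])],
  [(20, []), (6, []), (11, [0, 0, 1, 0, 1, 2]), (4, []), (22, [])],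
  [(9, [2, 2, 1, 1, 0, 0]), (7, []), (4, []), (23, []), (24, [])],
  [(5, []), (11, [0, 0, 1, 0, 0, 1]), (8, [2, 2, 1, 0, 0, 1]), (20, [0, 3, 0, 1]), (25, [])],
  [(6, []), (8, [2, 2, 1, 0, 0, 1]), (23, [2, 3, 2, 1]), (5, []), (26, [])],
  [(7, []), (20, [0, 3, 0, 1]), (5, []), (10, [2, 2, 1, 2, 1, 0]), (27, [])],
  [(11, [0, 0, 1, 0, 1, 2]), (23, [2, 3, 2, 1]), (9, [2, 2, 1, 0, 1, 2]), (6, []), (28, [])],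
  [(23, []), (10, [2, 2, 1, 2, 1, 0]), (7, []), (8, [2, 2, 1, 2, 1, 0]), (29, [])],
  [(17, [3, 2, 1, 2]), (13, []), (15, [3, 2, 1, 2]), (12, []), (30, [])],
  [(24, [2, 2, 3, 0, 0, 3]), (22, [2, 1, 2, 1, 0, 0]), (31, []), (27, [0, 0, 1, 0, 0, 1, 0, 0]), (12, [])],
  [(21, [2, 2, 3, 0, 3, 0]), (32, []), (28, [2, 1, 0, 0, 1, 2]), (25, [3, 0, 0, 3]), (13, [])],
  [(18, [3, 0, 1, 0]), (19, []), (14, []), (16, [3, 0, 1, 0]), (33, [])],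
  [(28, [0, 3, 0, 0, 3, 2]), (21, [1, 0, 0, 1, 0, 0]), (29, [2, 3, 0, 3]), (32, [0, 3, 0, 0, 3, 0, 0, 3, 0, 0, 3, 2]), (14, [])],
  [(27, [0, 1, 2, 1]), (26, [3, 0, 0, 3, 0, 0]), (22, [1, 0, 0, 1]), (31, [1, 0, 0, 1, 0, 0, 1, 2, 1, 0, 0, 1, 0, 0, 1, 0, 0, 1, 2, 1]), (15, [])],
  [(25, [2, 2, 1, 0, 0, 1]), (29, [2, 3, 2, 2, 3, 0]), (32, [1, 2, 2, 1, 2, 2, 1, 2, 2, 1]), (28, [0, 3, 0, 3, 0, 0]), (16, [])],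
  [(32, [1, 2, 2, 1, 2, 2, 1, 2, 2, 1, 2, 1, 2, 2, 1, 2, 2, 1, 2, 2, 1, 0]), (25, [3, 0, 3, 2]), (21, [0, 0, 3, 0, 0, 3, 0, 0]), (29, [0, 1, 0, 0, 1, 0]), (17, [])],
  [(31, [2, 2, 3, 0, 3, 2, 2, 3, 2, 2, 3, 0]), (24, [0, 1, 0, 0, 1, 2]), (26, [2, 2, 1, 2, 1, 2]), (22, [0, 3, 0, 0, 3, 0]), (18, [])],
  [(26, [2, 1, 0, 0, 1, 0]), (31, [1, 0, 0, 1, 0, 0, 1, 2, 1, 0]), (27, [2, 3, 0, 0, 3, 2]), (24, [1, 2, 1, 0]), (19, [])],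
  [(34, []), (34, [1, 0, 0, 1, 0, 0, 1, 0, 0, 1, 2, 1, 0, 0, 1, 0, 0, 1, 2, 1, 0, 0]), (35, []), (35, [0, 3, 0, 0, 3, 0, 0, 3, 0, 0, 3, 0, 0, 3, 0, 3, 0, 0, 3, 0, 0, 3]), (20, [])],
  [(29, [2, 3, 0, 3, 0, 0, 3, 0, 0, 3]), (28, [2, 1, 0, 0, 1, 0, 0, 1, 2, 1, 0, 0]), (25, [3, 0, 3, 0, 0, 3, 0, 0, 3, 0, 0, 3, 0, 3, 0, 0, 3, 0, 0, 3]), (21, []), (35, [0, 3, 0, 1, 2, 2])],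
  [(22, []), (27, [2, 3, 0, 0, 3, 0, 0, 3, 0, 0, 3, 0, 3, 0, 0, 3, 0, 0, 3, 0, 0, 3]), (24, [0, 1, 0, 0, 1, 0, 0, 1, 0, 0, 1, 2]), (26, [3, 0, 0, 3, 0, 0, 3, 0, 0, 3]), (34, [])],
  [(35, [0, 3, 0, 1, 2, 2, 1, 2, 2, 1, 2, 2, 1, 2, 1, 0]), (35, [0, 3, 0, 0, 3, 0, 0, 3, 0, 0, 3, 0, 3, 0, 1, 0]), (34, [1, 0, 0, 1, 0, 0, 1, 0, 0, 1, 0, 0]), (34, [0, 3, 0, 0, 3, 0, 0, 3, 0, 0, 3, 0, 3, 0, 1, 0]), (23, [])],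
  [(30, [2, 2, 3, 0, 3, 0, 0, 3, 0, 0, 3, 0, 3, 0, 0, 3, 0, 0, 3, 0, 0, 3]), (30, []), (33, [2, 3, 2, 1, 2, 1, 0, 0, 1, 0, 0, 1, 0, 0, 1, 2]), (33, [2, 2, 3, 0, 0, 3, 0, 0, 3, 0, 0, 3]), (32, [])],
  [(33, [2, 3, 2, 1, 2, 1, 0, 0, 1, 0, 0, 1, 0, 0, 1, 2]), (33, [2, 3, 0, 3, 0, 0, 3, 0, 0, 3, 0, 0, 3, 2, 1, 2]), (30, [1, 0, 0, 1, 0, 0, 1, 2, 1, 2, 2, 1, 0, 0, 1, 0, 0, 1, 0, 0, 1, 2]), (30, []), (31, [2, 2, 3, 2, 1, 2])]]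
theorem amHp : AM (evM zA) (evM gHp) :=
  am_of bHp rHp tHp (by decide +kernel) (by decide +kernel) rfl
theorem amHm : AM (evM zA) (evM gHm) :=
  am_of bHm rHm tHm (by decide +kernel) (by decide +kernel) rfl
theorem amA : AM (evM zM) (evM gA) :=
  am_of bA rA tA (by decide +kernel) (by decide +kernel) rfl
theorem amB : AM (evM zM) (evM gB) :=
  am_of bB rB tB (by decide +kernel) (by decide +kernel) rfl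
theorem amC : AM (evM zM) (evM gC) :=
  am_of bC rC tC (by decide +kernel) (by decide +kernel) rfl
theorem amD : AM (evM zM) (evM gD) :=
  am_of bD rD tD (by decide +kernel) (by decide +kernel) rfl
theorem amE : AM (evM zM) (evM gE) :=
  am_of bE rE tE (by decide +kernel) (by decide +kernel) rfl
theorem amF : AM (evM zM) (evM gF) :=
  am_of bF rF tF (by decide +kernel) (by decide +kernel) rfl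
theorem amG : AM (evM zM) (evM gG) :=
  am_of bG rG tG (by decide +kernel) (by decide +kernel) rfl
theorem amH : AM (evM zM) (evM gH) :=
  am_of bH rH tH (by decide +kernel) (by decide +kernel) rfl

end Ar

end Pool.Agent.Lib.MP_743898_gt
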