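import Pool.Agent.Lib.MP_743898_gt.CArData

set_option autoImplicit false

/-! The cusped arithmetic Tan groups. -/

namespace Pool.Agent.Lib.MP_743898_gt

open M2 Complex Cl Ar

theorem Big.cj {F G P : M2} (hP : det P = 1) (h : Big F G) : Big (cj P F) (cj P G) := by
  obtain ⟨X, Y, a1, a2, a3, a4, a5, a6, a7⟩ := h
  exact ⟨_, _, a1.cj hP, a2.cj hP, by rw [det_cj hP, a3], by rw [det_cj hP, a4],
    by rwa [tr_cj _ _ hP], by rwa [tr_cj _ _ hP], by rwa [gam_cj _ _ _ hP]⟩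

theorem orb_of_am {Γ : Subgroup PSL} {F G : M2} (hM : AM F G) (hR : RepC Γ F G) {f g : SL2}
    (hfg : Rep Γ (toM f) (toM g)) (hγ : gam (toM f) (toM g) ≠ 0) : IsOrbifoldGroup Γ := by
  obtain ⟨P, hP, hR⟩ := hR
  obtain ⟨rs, hT⟩ := hM.tab
  refine ⟨nonelem_of_big (fun A hA => (hR A).2 hA) (hM.big.cj hP), ?_,
    finCov_of_cof (fun A hA => (hR A).2 hA) (hT.cof.cj hP)⟩
  refine discrete_of_inO quadI hfg hγ fun Y hY dY => ?_
  obtain ⟨A, rfl⟩ := exists_lift dY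
  have hP' : det (adj P) = 1 := by rw [det_adj, hP]
  have := ((wd_cj_iff hP).1 ((hR A).1 ((hfg A).2 hY))).inO quadI hM.tr hM.int
    (by rw [det_cj hP', dY])
  rwa [tr_cj _ _ hP'] at this

theorem conj4_iff {Γ : Subgroup PSL} {μ : ℂ} (h0 : μ ≠ 0) :
    Conjugate Γ (fam4 μ) ↔ RepC Γ ⟨I, 0, 0, 1⟩ ⟨1, μ, 1, 0⟩ :=
  conj_iff Γ _ _ (by simp [det, mM]) (by simp [det, mM, h0])

theorem rep4 {Γ : Subgroup PSL} {c : ℂ} (c0 : c ≠ 0) (h : Conjugate Γ (fam4 c⁻¹)) :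
    RepC Γ ⟨I, 0, 0, 1⟩ ⟨c, 1, c, 0⟩ := by
  have := ((conj4_iff (inv_ne_zero c0)).1 h).eqv (Eqv.sc _ _ one_ne_zero c0)
  rw [sc_one] at this
  convert this using 1
  ext <;> simp [sc, c0]

theorem repH2 {Γ : Subgroup PSL} {ζ : ℂ} (hζ : ζ = I ∨ ζ = -I) (h : Conjugate Γ (grpH ζ)) :
    RepC Γ ⟨I, 1, 0, 1⟩ ⟨0, -1, I * (1 + ζ), 0⟩ := by
  have n1 : 1 + ζ ≠ 0 := by
    intro h0
    rcases hζ with rfl | rfl <;> simpa using congrArg Complex.re h0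
  have n2 : ζ - 1 ≠ 0 := by
    intro h0
    rcases hζ with rfl | rfl <;> simpa using congrArg Complex.re h0
  obtain ⟨f, g, hR, hP⟩ := pairH n1 h
  refine hR.repC.model hP.df hP.dg (by simp [det]) (by simp [det, n1]) (by rwa [hP.gm]) ?_ ?_ ?_ ?_
  · rw [hP.tf]; simp only [det, tr]; linear_combination -I_mul_I
  · rw [hP.tg]; simp [tr]
  · rw [hP.tfg]; simp only [det, tr, mul_a, mul_d]; ring
  · rw [hP.gm]; simp only [gamh, det, tr, adj, mul_a, mul_b, mul_c, mul_d]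
    linear_combination (-I * (1 + ζ)) * I_mul_I

theorem g0_F (c : ℂ) {b : ℂ} (hb : GI b) : G0 c ⟨I, b, 0, 1⟩ :=
  ⟨GI.i, hb, GI.one, ⟨0, GI.zero, by simp⟩, by simp [det]⟩

theorem n0_F (c : ℂ) {b : ℂ} (hb : GI b) : N0 c ⟨I, b, 0, 1⟩ :=
  ⟨1, one_ne_zero, _, g0_F c hb, Or.inl (sc_one _).symm⟩

theorem n0_G (c : ℂ) : N0 c ⟨c, 1, c, 0⟩ :=
  ⟨1, one_ne_zero, ⟨1, 0, -c, -1⟩, ⟨GI.one, GI.zero, GI.one.neg, ⟨-1, GI.one.neg, by simp⟩,
    by simp only [det]; norm_num⟩, Or.inr (by ext <;> simp [sc, io])⟩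

theorem g0_one (c : ℂ) : G0 c one2 :=
  ⟨GI.one, GI.zero, GI.one, ⟨0, GI.zero, by simp [one2]⟩, by rw [det_one2, one_pow]⟩

theorem n0_Hp : N0 (1 + I) ⟨0, -1, I * (1 + I), 0⟩ :=
  ⟨1, one_ne_zero, _, g0_F _ GI.zero, Or.inr (by ext <;> simp [sc, io]; ring)⟩

theorem n0_Hm : N0 (1 + I) ⟨0, -1, I * (1 + -I), 0⟩ :=
  ⟨1, one_ne_zero, _, g0_one _, Or.inr (by ext <;> simp [sc, io, one2, mul_add, add_comm])⟩

/-- The level of each of the ten groups. -/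
noncomputable def lev : Fin 10 → ℂ :=
  ![1 + I, 1 + I, 1, 1 + I, 2, 2 + I, 2 - I, 2 + 2 * I, 3 + I, 3 - I]

theorem lev_gi (k : Fin 10) : GI (lev k) := by
  fin_cases k
  · exact ⟨1, 1, by simp [lev]⟩
  · exact ⟨1, 1, by simp [lev]⟩
  · exact ⟨1, 0, by simp [lev]⟩
  · exact ⟨1, 1, by simp [lev]⟩
  · exact ⟨2, 0, by simp [lev]⟩
  · exact ⟨2, 1, by simp [lev]⟩
  · exact ⟨2, -1, by simp [lev, sub_eq_add_neg]⟩
  · exact ⟨2, 2, by simp [lev]⟩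
  · exact ⟨3, 1, by simp [lev]⟩
  · exact ⟨3, -1, by simp [lev, sub_eq_add_neg]⟩

def nlev : Fin 10 → ℤ := ![2, 2, 1, 2, 4, 5, 5, 8, 10, 10]

theorem normSq_lev (k : Fin 10) : normSq (lev k) = nlev k := by
  fin_cases k <;> simp [lev, nlev, normSq_apply] <;> norm_num

theorem lev_ne (k : Fin 10) : lev k ≠ 0 := by
  intro h
  have := normSq_lev k
  rw [h, map_zero] at this
  have h2 : nlev k = 0 := by exact_mod_cast this.symm
  revert h2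
  fin_cases k <;> simp [nlev]

theorem cusp_fam {Γ : Subgroup PSL} {k : Fin 10} (hk : 2 ≤ k.1) (h : Conjugate Γ (cuspTan k)) :
    Conjugate Γ (fam4 (lev k)⁻¹) := by
  fin_cases k
  · simp at hk
  · simp at hk
  · simpa [lev, cuspTan] using h
  all_goals exact h

theorem am4 {k : Fin 10} (hk : 2 ≤ k.1) : AM ⟨I, 0, 0, 1⟩ ⟨lev k, 1, lev k, 0⟩ := by
  rw [← evM_zM]
  fin_cases k
  · simp at hk
  · simp at hk
  · convert amA using 1; simp [Ar.gA, evM_zm, lev]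
  · convert amB using 1; simp [Ar.gB, evM_zm, lev]
  · convert amC using 1; simp [Ar.gC, evM_zm, lev]
  · convert amD using 1; simp [Ar.gD, evM_zm, lev]
  · convert amE using 1; simp [Ar.gE, evM_zm, lev, sub_eq_add_neg]
  · convert amF using 1; simp [Ar.gF, evM_zm, lev]
  · convert amG using 1; simp [Ar.gG, evM_zm, lev]
  · convert amH using 1; simp [Ar.gH, evM_zm, lev, sub_eq_add_neg]

theorem amP : AM ⟨I, 1, 0, 1⟩ ⟨0, -1, I * (1 + I), 0⟩ := by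
  rw [← evM_zA]
  convert amHp using 1
  simp [gHp, evM_zm, mul_add, add_comm]

theorem amM : AM ⟨I, 1, 0, 1⟩ ⟨0, -1, I * (1 + -I), 0⟩ := by
  rw [← evM_zA]
  convert amHm using 1
  simp [gHm, evM_zm, mul_add, add_comm]

theorem cusp_model {Γ : Subgroup PSL} {k : Fin 10} (h : Conjugate Γ (cuspTan k)) :
    ∃ F G, AM F G ∧ RepC Γ F G ∧ N0 (lev k) F ∧ N0 (lev k) G := by
  by_cases hk : 2 ≤ k.1
  · exact ⟨_, _, am4 hk, rep4 (lev_ne k) (cusp_fam hk h), n0_F _ GI.zero, n0_G _⟩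
  · fin_cases k
    · exact ⟨_, _, amP, repH2 (Or.inl rfl) h, n0_F _ GI.one, n0_Hp⟩
    · exact ⟨_, _, amM, repH2 (Or.inr rfl) h, n0_F _ GI.one, n0_Hm⟩
    all_goals simp at hk

theorem cusp_arith {Γ : Subgroup PSL} {k : Fin 10} (h : Conjugate Γ (cuspTan k)) :
    CuspArith Γ := by
  obtain ⟨F, G, a, b, c, d⟩ := cusp_model h
  obtain ⟨rs, hT⟩ := a.tab
  exact cuspArith_of_model (lev_gi k) (lev_ne k) b c d hT

theorem cusp_suff {Γ : Subgroup PSL} {k : Fin 10} (h : Conjugate Γ (cuspTan k)) :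
    IsOrbifoldGroup Γ ∧ IsTan Γ := by
  by_cases hk : 2 ≤ k.1
  · obtain ⟨f, g, a1, a2, a3⟩ := pair4 (inv_ne_zero (lev_ne k)) (cusp_fam hk h)
    exact ⟨orb_of_am (am4 hk) (rep4 (lev_ne k) (cusp_fam hk h)) a1 (by rw [a3]; norm_num),
      isTan_of_pair (ζ := -1) a1 a2 (by rw [a3]; norm_num) (by simp)⟩
  · fin_cases k
    · exact suffH (ζ := I) (by simp) h
    · exact suffH (ζ := -I) (by simp) h
    all_goals simp at hk

theorem cusp_not_cocompact {Γ : Subgroup PSL} {k : Fin 10} (h : Conjugate Γ (cuspTan k)) :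
    ¬ Cocompact Γ := by
  obtain ⟨F, G, -, b, -⟩ := cusp_model h
  exact not_cocompact_of_arith (cusp_suff h).1.2.1 b (cusp_arith h)

theorem closed_not_arith {Γ : Subgroup PSL} {k : Fin 4} (h : Conjugate Γ (closedTan k)) :
    ¬ CuspArith Γ := by
  obtain ⟨f, g, _, _, a, -⟩ := closed_pair h
  exact fun hc => not_cocompact_of_arith (closed_suff h).1.2.1 a.repC hc (closed_cocompact h)

/-! Necessity. -/

theorem wd_tl {μ : ℂ} (h0 : μ ≠ 0) : Wd (⟨I, 0, 0, 1⟩ : M2) ⟨1, μ, 1, 0⟩ (tl (-1 + I)) := by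
  refine Wd.of_sc (u := -(I * μ)) (neg_ne_zero.2 (mul_ne_zero I_ne_zero h0)) ?_
  have e : sc (-(I * μ)) (tl (-1 + I)) = (⟨I, 0, 0, 1⟩ : M2) * ⟨1, μ, 1, 0⟩ * ⟨I, 0, 0, 1⟩
      * adj ⟨1, μ, 1, 0⟩ := by
    ext <;> simp only [sc, tl, adj, mul_a, mul_b, mul_c, mul_d] <;> ring_nf
  rw [e]
  exact (((Wd.l _ _).mul (Wd.r _ _)).mul (Wd.l _ _)).mul (Wd.r _ _).adj

theorem wd_tl' {μ : ℂ} (h0 : μ ≠ 0) :
    Wd (⟨I, 0, 0, 1⟩ : M2) ⟨1, μ, 1, 0⟩ (tl (I * (-1 + I))) := by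
  refine Wd.of_sc I_ne_zero ?_
  have e : sc I (tl (I * (-1 + I))) = (⟨I, 0, 0, 1⟩ : M2) * tl (-1 + I) * adj ⟨I, 0, 0, 1⟩ := by
    ext <;> simp only [sc, tl, adj, mul_a, mul_b, mul_c, mul_d] <;> ring
  rw [e]
  exact ((Wd.l _ _).mul (wd_tl h0)).mul (Wd.l _ _).adj

theorem int_gi {d : ℕ} (hd : 0 < d) {x : ℂ} (x0 : x ≠ 0) {n m : ℕ} (hm : 0 < m)
    (h1 : n * x ∈ intRing d) (h2 : m * (I * x) ∈ intRing d) (hn : 0 < n) (y : ℂ) :
    y ∈ intRing d ↔ GI y := by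
  obtain ⟨-, a, b, e1⟩ := mem_intRing.1 h1
  obtain ⟨-, a', b', e2⟩ := mem_intRing.1 h2
  have hs : (√d : ℝ) * √d = d := Real.mul_self_sqrt (Nat.cast_nonneg d)
  have hs0 : (0 : ℝ) < √d := Real.sqrt_pos.2 (by exact_mod_cast hd)
  set s : ℝ := √d with hs'
  have e3 : (n : ℂ) * (a' + b' * (s * I)) = m * I * (a + b * (s * I)) := by
    rw [← e1, ← e2]; ring
  have r1 := congrArg Complex.re e3
  have r2 := congrArg Complex.im e3
  simp at r1 r2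
  have hm' : (m : ℝ) ≠ 0 := by exact_mod_cast hm.ne'
  have hn' : (n : ℂ) ≠ 0 := by exact_mod_cast hn.ne'
  obtain ⟨q, hq⟩ : ∃ q : ℚ, s = q := by
    by_cases hb : b = 0
    · have ha : a ≠ 0 := by
        rintro rfl
        rw [hb] at e1
        simp [hn.ne', x0] at e1
      have hb' : b' ≠ 0 := by
        rintro rfl
        simp [hm.ne', ha] at r2
      have hb'' : (b' : ℝ) ≠ 0 := by exact_mod_cast hb'
      have hn'' : (n : ℝ) ≠ 0 := by exact_mod_cast hn.ne'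
      exact ⟨m * a / (n * b'), by push_cast; field_simp; linarith⟩
    · have hb'' : (b : ℝ) ≠ 0 := by exact_mod_cast hb
      exact ⟨-(n * a') / (m * b), by push_cast; field_simp; linarith⟩
  have q0 : (q : ℂ) ≠ 0 := by
    have : (q : ℝ) ≠ 0 := hq ▸ hs0.ne'
    exact_mod_cast this
  rw [mem_intRing, ← hs', hq, ofReal_ratCast]
  constructor
  · rintro ⟨h, u, v, rfl⟩
    exact inO_of_kq quadI ⟨u, v * q, by push_cast; ring⟩ h
  · intro h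
    refine ⟨InO.integral quadI h, ?_⟩
    obtain ⟨u, v, rfl⟩ := h
    exact ⟨u, v / q, by push_cast; field_simp⟩

theorem arith4 {Γ : Subgroup PSL} {μ : ℂ} (h0 : μ ≠ 0) (hR : RepC Γ ⟨I, 0, 0, 1⟩ ⟨1, μ, 1, 0⟩)
    (h : CuspArith Γ) : GI μ⁻¹ ∧ ¬ Avoid ⟨I, 0, 0, 1⟩ ⟨1, μ, 1, 0⟩ := by
  obtain ⟨d, R, hd, dR, h1, h2⟩ := cmm_of h hR
  have dt : ∀ k, det (tl k) = 1 := fun k => by simp [det, tl]
  have k0 : (-1 + I : ℂ) ≠ 0 := fun h => by simpa using congrArg Complex.re h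
  obtain ⟨n, hn, a⟩ := h1 _ (wd_tl h0) (dt _)
  obtain ⟨m, hm, b⟩ := h1 _ (wd_tl' h0) (dt _)
  rw [pw_tl] at a b
  have eb : ∀ x, (cj R (tl x)).b = x * R.d ^ 2 := fun x => by simp [cj, adj, tl]; ring
  have ec : ∀ x, (cj R (tl x)).c = x * -R.c ^ 2 := fun x => by simp [cj, adj, tl]; ring
  have key : ∀ y, y ∈ intRing d ↔ GI y := by
    by_cases hc : R.c = 0
    · have hd0 : R.d ≠ 0 := by intro h; simp [det, hc, h] at dR
      refine int_gi hd (x := (-1 + I) * R.d ^ 2) (mul_ne_zero k0 (pow_ne_zero _ hd0)) hm ?_ ?_ hn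
      · have := a.2.1; rwa [eb, mul_assoc] at this
      · have := b.2.1; rwa [eb, mul_assoc, mul_assoc] at this
    · refine int_gi hd (x := (-1 + I) * -R.c ^ 2)
        (mul_ne_zero k0 (neg_ne_zero.2 (pow_ne_zero _ hc))) hm ?_ ?_ hn
      · have := a.2.2.1; rwa [ec, mul_assoc] at this
      · have := b.2.2.1; rwa [ec, mul_assoc, mul_assoc] at this
  refine ⟨?_, not_avoid (fun x hx => (key x).2 hx) dR h2⟩
  obtain ⟨t, t0, ht⟩ := exists_normalize (X := ⟨1, μ, 1, 0⟩) (by simp [det, h0])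
  have wg : Wd (⟨I, 0, 0, 1⟩ : M2) ⟨1, μ, 1, 0⟩ (sc t ⟨1, μ, 1, 0⟩) := (Wd.r _ _).sc t0
  have ht2 : μ⁻¹ = -t ^ 2 := by
    rw [det_sc] at ht
    simp only [det] at ht
    exact inv_eq_of_mul_eq_one_right (by linear_combination ht)
  have gtr : ∀ X Y : M2, Ent (intRing d) X → Ent (intRing d) Y → GI (tr (X * Y)) := by
    rintro X Y ⟨x1, x2, x3, x4⟩ ⟨y1, y2, y3, y4⟩
    rw [← key]
    exact add_mem (add_mem (mul_mem x1 y1) (mul_mem x2 y3)) (add_mem (mul_mem x3 y2) (mul_mem x4 y4))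
  obtain ⟨l, hl, c⟩ := h1 _ wg ht
  have i1 : IsIntegral ℤ t := by
    have := gtr _ one2 c ⟨one_mem _, zero_mem _, zero_mem _, one_mem _⟩
    rw [mu_one, tr_cj _ _ dR] at this
    simpa [tr, sc] using integral_of_pw ht hl (InO.integral quadI this)
  have dg : det (adj (sc t ⟨1, μ, 1, 0⟩)) = 1 := by rw [det_adj, ht]
  obtain ⟨j, hj, e⟩ := h1 (cj (adj (sc t ⟨1, μ, 1, 0⟩)) (tl (-1 + I)))
    (by rw [cj, adj_adj]; exact (wg.mul (wd_tl h0)).mul wg.adj) (by rw [det_cj dg, dt])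
  rw [cj_pw dg, pw_tl] at e
  have i2 := gtr _ _ a e
  rw [cj_mul _ _ _ dR, tr_cj _ _ dR] at i2
  have e4 : tr (tl (n * (-1 + I)) * cj (adj (sc t ⟨1, μ, 1, 0⟩)) (tl (j * (-1 + I))))
      = 2 + 2 * n * j * I * t ^ 2 := by
    rw [det_sc] at ht
    simp only [det] at ht
    simp only [tr, cj, adj, tl, sc, mul_a, mul_b, mul_c, mul_d]
    linear_combination 2 * ht - n * j * t ^ 2 * I_mul_I
  rw [e4] at i2
  obtain ⟨u, v, i2⟩ := i2
  have hn' : (n : ℂ) ≠ 0 := by exact_mod_cast hn.ne'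
  have hj' : (j : ℂ) ≠ 0 := by exact_mod_cast hj.ne'
  rw [ht2]
  refine GI.neg (inO_of_kq quadI ⟨v / (2 * n * j), (2 - u) / (2 * n * j), ?_⟩ (i1.pow 2))
  push_cast
  field_simp
  linear_combination -I * i2 + (2 * n * j * t ^ 2 - v) * I_mul_I

theorem rot4 {Γ : Subgroup PSL} {c : ℂ} (h : RepC Γ ⟨I, 0, 0, 1⟩ ⟨1, c⁻¹, 1, 0⟩) :
    RepC Γ ⟨I, 0, 0, 1⟩ ⟨1, (I * c)⁻¹, 1, 0⟩ := by
  have e : (⟨1, c⁻¹, 1, 0⟩ : M2) * ⟨I, 0, 0, 1⟩ = sc I ⟨1, (I * c)⁻¹, 1, 0⟩ := by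
    ext <;> simp [sc]
    linear_combination c⁻¹ * I_mul_I
  have e' : (⟨1, (I * c)⁻¹, 1, 0⟩ : M2) * adj ⟨I, 0, 0, 1⟩ = ⟨1, c⁻¹, 1, 0⟩ := by
    ext <;> simp [adj]
    linear_combination -c⁻¹ * I_mul_I
  refine h.eqv ⟨Wd.l _ _, ?_, Wd.l _ _, ?_⟩
  · rw [← e']; exact (Wd.r _ _).mul (Wd.l _ _).adj
  · refine Wd.of_sc I_ne_zero ?_
    rw [← e]; exact (Wd.r _ _).mul (Wd.l _ _)

theorem fin4 {Γ : Subgroup PSL} (h : CuspArith Γ) {m n : ℤ} (h1 : 0 < m) (h2 : -m < n)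
    (h3 : n ≤ m) (hR : RepC Γ ⟨I, 0, 0, 1⟩ ⟨1, ((m : ℂ) + n * I)⁻¹, 1, 0⟩) :
    ∃ k, Conjugate Γ (cuspTan k) := by
  have c0 : (m : ℂ) + n * I ≠ 0 := fun h0 => by
    have := congrArg Complex.re h0
    simp at this; omega
  have hA := (arith4 (inv_ne_zero c0) hR h).2
  have hC := (conj4_iff (inv_ne_zero c0)).2 hR
  by_cases hb : 16 ≤ m ^ 2 + n ^ 2
  · refine absurd (free_big ?_).avoid hA
    rw [norm_inv, one_div]
    refine inv_anti₀ (by norm_num) (le_of_sq_le_sq ?_ (norm_nonneg _))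
    rw [← normSq_eq_norm_sq, normSq_apply]
    have : ((16 : ℤ) : ℝ) ≤ ((m ^ 2 + n ^ 2 : ℤ) : ℝ) := by exact_mod_cast hb
    simp at this ⊢
    nlinarith
  have h4 : m ≤ 3 := by nlinarith [sq_nonneg n]
  interval_cases m <;> interval_cases n
  · exact ⟨2, by simpa [cuspTan] using hC⟩
  · exact ⟨3, by simpa [cuspTan] using hC⟩
  · exact ⟨6, by simpa [cuspTan, ← sub_eq_add_neg] using hC⟩
  · exact ⟨4, by simpa [cuspTan] using hC⟩
  · exact ⟨5, by simpa [cuspTan] using hC⟩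
  · exact ⟨7, by simpa [cuspTan] using hC⟩
  · exact absurd (free_32 (s := -1) (Or.inr rfl)).avoid (by simpa using hA)
  · exact ⟨9, by simpa [cuspTan, ← sub_eq_add_neg] using hC⟩
  · exact absurd avoid3 (by simpa using hA)
  · exact ⟨8, by simpa [cuspTan] using hC⟩
  · exact absurd (free_32 (s := 1) (Or.inl rfl)).avoid (by simpa using hA)
  · norm_num at hb

theorem cusp_nec {Γ : Subgroup PSL} (h : CuspArith Γ) {μ : ℂ} (h0 : μ ≠ 0)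
    (hC : Conjugate Γ (fam4 μ)) : ∃ k, Conjugate Γ (cuspTan k) := by
  have hR := (conj4_iff h0).1 hC
  obtain ⟨m, n, e⟩ := (arith4 h0 hR h).1
  have hne : m ≠ 0 ∨ n ≠ 0 := by
    by_contra hc
    push Not at hc
    simp [hc.1, hc.2, h0] at e
  rw [← inv_inv μ, e] at hR
  have rot : ∀ a b : ℤ, RepC Γ ⟨I, 0, 0, 1⟩ ⟨1, ((a : ℂ) + b * I)⁻¹, 1, 0⟩ →
      RepC Γ ⟨I, 0, 0, 1⟩ ⟨1, (((-b : ℤ) : ℂ) + a * I)⁻¹, 1, 0⟩ := by
    intro a b h
    have := rot4 h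
    rwa [show I * ((a : ℂ) + b * I) = ((-b : ℤ) : ℂ) + a * I by
      push_cast; linear_combination b * I_mul_I] at this
  have r1 := rot _ _ hR
  have r2 := rot _ _ r1
  have r3 := rot _ _ r2
  by_cases c0 : 0 < m ∧ -m < n ∧ n ≤ m
  · exact fin4 h c0.1 c0.2.1 c0.2.2 hR
  by_cases c1 : 0 < -n ∧ - -n < m ∧ m ≤ -n
  · exact fin4 h c1.1 c1.2.1 c1.2.2 r1
  by_cases c2 : 0 < -m ∧ - -m < -n ∧ -n ≤ -m
  · exact fin4 h c2.1 c2.2.1 c2.2.2 r2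
  · exact fin4 h (by omega) (by omega) (by omega) r3

/-! The ten groups are pairwise non-conjugate. -/

/-- `x` is the squared trace of an element. -/
def HasTr (Γ : Subgroup PSL) (x : ℂ) : Prop := ∃ A : SL2, (A : PSL) ∈ Γ ∧ tr (toM A) ^ 2 = x

theorem hasTr_of {Γ : Subgroup PSL} {F G W : M2} (hR : RepC Γ F G) (hW : Wd F G W)
    (d0 : det W ≠ 0) {x : ℂ} (hx : tr W ^ 2 = x * det W) : HasTr Γ x := by
  obtain ⟨P, hP, hR⟩ := hR
  obtain ⟨t, t0, ht⟩ := exists_normalize d0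
  obtain ⟨A, hA⟩ := exists_lift (show det (cj P (sc t W)) = 1 by rw [det_cj hP, ht])
  refine ⟨A, (hR A).2 (hA ▸ (hW.sc t0).cj hP), ?_⟩
  rw [det_sc] at ht
  rw [hA, tr_cj _ _ hP, tr_sc, mul_pow, hx]
  linear_combination x * ht

theorem HasTr.wd {Γ : Subgroup PSL} {F G : M2} (hR : RepC Γ F G) {x : ℂ} (h : HasTr Γ x) :
    ∃ X, Wd F G X ∧ det X = 1 ∧ tr X ^ 2 = x := by
  obtain ⟨P, hP, hR⟩ := hR
  obtain ⟨A, hA, rfl⟩ := h
  have hP' : det (adj P) = 1 := by rw [det_adj, hP]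
  exact ⟨_, (wd_cj_iff hP).1 ((hR A).1 hA), by rw [det_cj hP', toM_det], by rw [tr_cj _ _ hP']⟩

theorem hasTr4 {Γ : Subgroup PSL} {c : ℂ} (c0 : c ≠ 0) (hR : RepC Γ ⟨I, 0, 0, 1⟩ ⟨c, 1, c, 0⟩) :
    HasTr Γ c ∧ HasTr Γ (-I * c) :=
  ⟨hasTr_of hR ((Wd.l _ _).mul ((Wd.l _ _).mul (Wd.r _ _))) (by simp [det, c0])
    (by simp only [det, tr, mul_a, mul_b, mul_c, mul_d]
        linear_combination c ^ 2 * I * I * I_mul_I),
   hasTr_of hR ((Wd.l _ _).mul (Wd.r _ _)) (by simp [det, c0])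
    (by simp only [det, tr, mul_a, mul_b, mul_c, mul_d]; ring)⟩

theorem hasTrH {Γ : Subgroup PSL} {y : ℂ} (y0 : y ≠ 0)
    (hR : RepC Γ ⟨I, 1, 0, 1⟩ ⟨0, -1, I * y, 0⟩) : HasTr Γ y :=
  hasTr_of hR ((Wd.l _ _).mul (Wd.r _ _)) (by simp [det, y0])
    (by simp only [det, tr, mul_a, mul_b, mul_c, mul_d]; ring)

theorem tr_sc_eq {t x : ℂ} {M : M2} (hd : det (sc t M) = 1) (hx : tr (sc t M) ^ 2 = x) :
    x * det M = tr M ^ 2 := by
  rw [det_sc] at hd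
  rw [← hx, tr_sc]
  linear_combination tr M ^ 2 * hd

theorem tr_io_eq {c t x e : ℂ} {M : M2} (he : M.c = c * e) (hd : det (sc t (io c * M)) = 1)
    (hx : tr (sc t (io c * M)) ^ 2 = x) : x * det M = c * (M.b - e) ^ 2 := by
  rw [det_sc, det_mul] at hd
  rw [← hx, tr_sc]
  simp only [tr, io, mul_a, mul_d, he]
  simp only [io, det] at hd ⊢
  linear_combination c * (M.b - e) ^ 2 * hd

theorem gi_nsq {x : ℂ} (h : GI x) : ∃ n : ℤ, 0 ≤ n ∧ normSq x = n := by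
  obtain ⟨a, b, rfl⟩ := h
  exact ⟨a ^ 2 + b ^ 2, by positivity, by simp [normSq_apply]; ring⟩

theorem nsq_unit {u : ℂ} (h : u ^ 4 = 1) : normSq u = 1 := by
  rw [normSq_eq_norm_sq, Complex.norm_eq_one_of_pow_eq_one h (by norm_num), one_pow]

theorem gi_unit {y : ℂ} (h : GI y) (h1 : normSq y = 1) : y ^ 2 = 1 ∨ y ^ 2 = -1 := by
  obtain ⟨a, b, rfl⟩ := h
  have e : a ^ 2 + b ^ 2 = 1 := by
    have : ((a ^ 2 + b ^ 2 : ℤ) : ℝ) = 1 := by rw [← h1]; simp [normSq_apply]; ring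
    exact_mod_cast this
  have a1 : a ≤ 1 := by nlinarith
  have a2 : -1 ≤ a := by nlinarith
  have b1 : b ≤ 1 := by nlinarith
  have b2 : -1 ≤ b := by nlinarith
  interval_cases a <;> interval_cases b <;> simp at e ⊢

theorem gi_par {a : ℂ} (h : GI a) : ∃ q, GI q ∧ (a = (1 + I) * q ∨ a = 1 + (1 + I) * q) := by
  obtain ⟨m, n, rfl⟩ := h
  rcases Int.even_or_odd' (m + n) with ⟨k, hk | hk⟩
  · refine ⟨k + (n - k : ℤ) * I, ⟨_, _, rfl⟩, Or.inl ?_⟩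
    rw [show m = 2 * k - n by omega]; push_cast; linear_combination (k - n : ℂ) * I_mul_I
  · refine ⟨k + (n - k : ℤ) * I, ⟨_, _, rfl⟩, Or.inr ?_⟩
    rw [show m = 2 * k + 1 - n by omega]; push_cast; linear_combination (k - n : ℂ) * I_mul_I

theorem nsq_pi : normSq (1 + I) = 2 := by simp [normSq_apply]; norm_num

theorem not_pi {q u : ℂ} (hq : GI q) (hu : normSq u = 1) : u ≠ (1 + I) * q := by
  intro h
  obtain ⟨n, -, hn⟩ := gi_nsq hq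
  rw [h, normSq_mul, nsq_pi, hn] at hu
  have : 2 * n = 1 := by exact_mod_cast hu
  omega

theorem gi_odd {a d w u : ℂ} (ha : GI a) (hd : GI d) (hw : GI w) (hu : normSq u = 1)
    (e : a * d - (1 + I) * w = u) : ∃ q, GI q ∧ a = 1 + (1 + I) * q := by
  obtain ⟨q, hq, h | h⟩ := gi_par ha
  · exact absurd (by rw [← e, h]; ring) (not_pi ((hq.mul hd).sub hw) hu)
  · exact ⟨q, hq, h⟩

theorem G0.odd {w : ℂ} (hw : GI w) {M : M2} (h : G0 ((1 + I) * w) M) :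
    (∃ q, GI q ∧ M.a = 1 + (1 + I) * q) ∧ ∃ q, GI q ∧ M.d = 1 + (1 + I) * q := by
  obtain ⟨a1, a2, a3, ⟨e, a4, a5⟩, a6⟩ := h
  have k := (a2.mul hw).mul a4
  exact ⟨gi_odd a1 a3 k (nsq_unit a6) (by simp only [det, a5]; ring),
    gi_odd a3 a1 k (nsq_unit a6) (by simp only [det, a5]; ring)⟩

/-- Norms of squared traces. -/
theorem N0.nsq {c x : ℂ} {X : M2} (h : N0 c X) (hd : det X = 1) (hx : tr X ^ 2 = x) :
    ∃ n : ℤ, 0 ≤ n ∧ (normSq x = n ^ 2 ∨ normSq x = normSq c * n ^ 2) := by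
  obtain ⟨t, -, M, ⟨a1, a2, a3, ⟨e, a4, a5⟩, a6⟩, rfl | rfl⟩ := h
  · obtain ⟨n, h0, hn⟩ := gi_nsq (a1.add a3)
    have := congrArg normSq (tr_sc_eq hd hx)
    rw [normSq_mul, nsq_unit a6, mul_one, map_pow, tr, hn] at this
    exact ⟨n, h0, Or.inl this⟩
  · obtain ⟨n, h0, hn⟩ := gi_nsq (a2.sub a4)
    have := congrArg normSq (tr_io_eq a5 hd hx)
    rw [normSq_mul, nsq_unit a6, mul_one, normSq_mul, map_pow, hn] at this
    exact ⟨n, h0, Or.inr this⟩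

theorem N0.not_one {X : M2} (h : N0 2 X) (hd : det X = 1) : tr X ^ 2 ≠ 1 := by
  intro hx
  obtain ⟨t, -, M, hM, rfl | rfl⟩ := h
  · have e := congrArg normSq (tr_sc_eq hd hx)
    have hM' : G0 ((1 + I) * (1 - I)) M := by
      rwa [show (1 + I) * (1 - I) = (2 : ℂ) by linear_combination -I_mul_I]
    obtain ⟨⟨q, hq, e1⟩, q', hq', e2⟩ := hM'.odd (GI.one.sub GI.i)
    rw [one_mul, nsq_unit hM.2.2.2.2, map_pow] at e
    have e3 : normSq (tr M) = 1 := by nlinarith [normSq_nonneg (tr M)]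
    exact not_pi (((GI.one.sub GI.i).add hq).add hq') e3
      (by rw [tr, e1, e2]; linear_combination I_mul_I)
  · obtain ⟨a1, a2, a3, ⟨e, a4, a5⟩, a6⟩ := hM
    obtain ⟨n, h0, hn⟩ := gi_nsq (a2.sub a4)
    have := congrArg normSq (tr_io_eq a5 hd hx)
    rw [one_mul, nsq_unit a6, normSq_mul, map_pow, hn, show normSq 2 = 4 by
      norm_num [normSq_apply]] at this
    have h4 : 1 = 4 * n ^ 2 := by exact_mod_cast this
    omega

theorem N0.not_conj {m : ℤ} (hm : m = 2 ∨ m = 3) {X : M2} (h : N0 (m - I) X) (hd : det X = 1) :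
    tr X ^ 2 ≠ m + I := by
  intro hx
  have n1 : normSq ((m : ℂ) + I) = m ^ 2 + 1 := by simp [normSq_apply]; ring
  have n2 : normSq ((m : ℂ) - I) = m ^ 2 + 1 := by simp [normSq_apply]; ring
  obtain ⟨t, -, M, ⟨a1, a2, a3, ⟨e, a4, a5⟩, a6⟩, rfl | rfl⟩ := h
  · obtain ⟨n, h0, hn⟩ := gi_nsq (a1.add a3)
    have := congrArg normSq (tr_sc_eq hd hx)
    rw [normSq_mul, nsq_unit a6, mul_one, map_pow, tr, hn, n1] at this
    have h4 : m ^ 2 + 1 = n ^ 2 := by exact_mod_cast this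
    have : n ≤ 4 := by rcases hm with rfl | rfl <;> nlinarith
    rcases hm with rfl | rfl <;> interval_cases n <;> norm_num at h4
  · have e1 := tr_io_eq a5 hd hx
    obtain ⟨n, h0, hn⟩ := gi_nsq (a2.sub a4)
    have := congrArg normSq e1
    rw [normSq_mul, nsq_unit a6, mul_one, normSq_mul, map_pow, hn, n1, n2] at this
    have h4 : m ^ 2 + 1 = (m ^ 2 + 1) * n ^ 2 := by exact_mod_cast this
    have h5 : n = 1 := by rcases hm with rfl | rfl <;> nlinarith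
    rw [h5, Int.cast_one] at hn
    rcases gi_unit (a2.sub a4) hn with h | h <;> rw [h] at e1 <;>
      rcases unit_cases a6 with u | u | u | u <;> rw [u] at e1 <;>
      rcases hm with rfl | rfl <;> norm_num [Complex.ext_iff] at e1

/-- The parity character on matrices that are triangular modulo `1 + i`. -/
def Ch (k : ℤ) (M : M2) : Prop :=
  G0 (1 + I) M ∧ ∃ e q, GI e ∧ GI q ∧ M.c = (1 + I) * e ∧
    M.b + e + (1 - det M ^ 2) / 2 + k = (1 + I) * q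

theorem gi_eps {u : ℂ} (h : u ^ 4 = 1) : GI ((1 - u ^ 2) / 2) := by
  rcases unit_cases h with rfl | rfl | rfl | rfl
  · exact ⟨0, 0, by simp⟩
  · exact ⟨0, 0, by simp⟩
  · exact ⟨1, 0, by simp⟩
  · exact ⟨1, 0, by simp⟩

theorem gi_pi : GI (1 + I) := GI.one.add GI.i

theorem Ch.mul {k l : ℤ} {M N : M2} (hM : Ch k M) (hN : Ch l N) : Ch (k + l) (M * N) := by
  obtain ⟨a, e, q, a1, a2, a3, a4⟩ := hM
  obtain ⟨b, e', q', b1, b2, b3, b4⟩ := hN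
  obtain ⟨⟨x, x1, x2⟩, y, y1, y2⟩ := G0.odd (w := 1) GI.one (by rwa [mul_one] : G0 _ M)
  obtain ⟨⟨z, z1, z2⟩, w, w1, w2⟩ := G0.odd (w := 1) GI.one (by rwa [mul_one] : G0 _ N)
  refine ⟨a.mul gi_pi b, e * N.a + M.d * e',
    q + q' + (x * N.b + M.b * w + e * z + y * e')
      - (1 - I) * ((1 - det M ^ 2) / 2 * ((1 - det N ^ 2) / 2)),
    (a1.mul b.1).add (a.2.2.1.mul b1),
    ((a2.add b2).add ((((x1.mul b.2.1).add (a.2.1.mul w1)).add (a1.mul z1)).add (y1.mul b1))).sub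
      ((GI.one.sub GI.i).mul ((gi_eps a.2.2.2.2).mul (gi_eps b.2.2.2.2))), ?_, ?_⟩
  · rw [mul_c, a3, b3]; ring
  · rw [det_mul, mul_b, x2, y2, z2, w2]
    push_cast
    linear_combination a4 + b4 - (1 - det M ^ 2) / 2 * ((1 - det N ^ 2) / 2) * I_mul_I

theorem Ch.adj {k : ℤ} {M : M2} (hM : Ch k M) : Ch k (adj M) := by
  obtain ⟨a, e, q, a1, a2, a3, a4⟩ := hM
  refine ⟨a.adj, -e, q - (1 - I) * (M.b + e), a1.neg,
    a2.sub ((GI.one.sub GI.i).mul (a.2.1.add a1)), by simp [M2.adj, a3], ?_⟩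
  rw [det_adj]
  simp only [M2.adj]
  linear_combination a4 - (M.b + e) * I_mul_I

theorem Ch.io {k : ℤ} {M : M2} (hM : Ch k M) :
    ∃ M', Ch k M' ∧ M * io (1 + I) = io (1 + I) * M' := by
  obtain ⟨⟨a1, a2, a3, -, a6⟩, e, q, a4, a7, a5, a8⟩ := hM
  have hd : det ⟨M.d, -e, -((1 + I) * M.b), M.a⟩ = det M := by simp only [det, a5]; ring
  refine ⟨⟨M.d, -e, -((1 + I) * M.b), M.a⟩, ⟨⟨a3, a4.neg, a1, ⟨-M.b, a2.neg, by ring⟩,
    by rwa [hd]⟩, -M.b, q - (1 - I) * (M.b + e), a2.neg,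
    a7.sub ((GI.one.sub GI.i).mul (a2.add a4)), by ring, ?_⟩, ?_⟩
  · rw [hd]
    linear_combination a8 - (M.b + e) * I_mul_I
  · ext <;> simp [MP_743898_gt.io, a5] <;> ring

theorem Ch.two {k : ℤ} {M : M2} (hM : Ch (k + k) M) : Ch 0 M := by
  obtain ⟨a, e, q, a1, a2, a3, a4⟩ := hM
  refine ⟨a, e, q - (1 - I) * k, a1, a2.sub ((GI.one.sub GI.i).mul (GI.int k)), a3, ?_⟩
  push_cast at a4 ⊢
  linear_combination a4 - k * I_mul_I

def N1 (k : ℤ) (X : M2) : Prop :=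
  ∃ t : ℂ, t ≠ 0 ∧ ∃ M, (Ch 0 M ∧ X = sc t M) ∨ (Ch k M ∧ X = sc t (io (1 + I) * M))

theorem ch_one : Ch 0 one2 :=
  ⟨g0_one _, 0, 0, GI.zero, GI.zero, by simp [one2], by rw [det_one2]; simp [one2]⟩

theorem N1.wd {k : ℤ} {F G : M2} (hF : N1 k F) (hG : N1 k G) {X : M2} (hX : Wd F G X) :
    N1 k X := by
  have c0 : (1 + I : ℂ) ≠ 0 := lev_ne 0
  obtain ⟨t, ht, W, hW, rfl⟩ := hX
  have : N1 k W := by
    induction hW with
    | one => exact ⟨1, one_ne_zero, one2, Or.inl ⟨ch_one, (sc_one _).symm⟩⟩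
    | l => exact hF
    | r => exact hG
    | mul _ _ h1 h2 =>
      obtain ⟨s, hs, M, e1⟩ := h1
      obtain ⟨u, hu, N, e2⟩ := h2
      rcases e1 with ⟨hM, rfl⟩ | ⟨hM, rfl⟩ <;> rcases e2 with ⟨hN, rfl⟩ | ⟨hN, rfl⟩
      · exact ⟨_, mul_ne_zero hs hu, _, Or.inl ⟨hM.mul hN, by rw [sc_mul, mul_sc, sc_sc]⟩⟩
      · obtain ⟨M', hM', e3⟩ := hM.io
        exact ⟨_, mul_ne_zero hs hu, _, Or.inr ⟨by simpa using hM'.mul hN,
          by rw [sc_mul, mul_sc, sc_sc, ← mul_as, e3, mul_as]⟩⟩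
      · exact ⟨_, mul_ne_zero hs hu, _, Or.inr ⟨by simpa using hM.mul hN,
          by rw [sc_mul, mul_sc, sc_sc, mul_as]⟩⟩
      · obtain ⟨M', hM', e3⟩ := hM.io
        exact ⟨_, mul_ne_zero (mul_ne_zero hs hu) (neg_ne_zero.2 c0), _, Or.inl ⟨(hM'.mul hN).two,
          by rw [sc_mul, mul_sc, sc_sc, mul_as, ← mul_as M, e3, mul_as, io_io, sc_sc]⟩⟩
    | adj _ h1 =>
      obtain ⟨s, hs, M, ⟨hM, rfl⟩ | ⟨hM, rfl⟩⟩ := h1
      · exact ⟨s, hs, _, Or.inl ⟨hM.adj, adj_sc _ _⟩⟩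
      · obtain ⟨M', hM', e3⟩ := hM.adj.io
        exact ⟨_, mul_ne_zero hs (neg_ne_zero.2 one_ne_zero), _,
          Or.inr ⟨hM', by rw [adj_sc, adj_mu, adj_io, mul_sc, sc_sc, e3]⟩⟩
  obtain ⟨s, hs, M, e⟩ := this
  refine ⟨t * s, mul_ne_zero ht hs, M, ?_⟩
  rcases e with ⟨h, rfl⟩ | ⟨h, rfl⟩
  · exact Or.inl ⟨h, sc_sc _ _ _⟩
  · exact Or.inr ⟨h, sc_sc _ _ _⟩

theorem N1.not_tr {k : ℤ} {v : ℂ} (hv : (k = 0 ∧ v = 1) ∨ (k = 1 ∧ v = -I)) {X : M2} (h : N1 k X)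
    (hd : det X = 1) : tr X ^ 2 ≠ v * (1 + I) := by
  intro hx
  have c0 : (1 + I : ℂ) ≠ 0 := lev_ne 0
  have nv : normSq v = 1 := by rcases hv with ⟨-, rfl⟩ | ⟨-, rfl⟩ <;> simp
  obtain ⟨t, -, M, ⟨⟨⟨a1, a2, a3, -, a6⟩, -⟩, rfl⟩ | ⟨⟨⟨a1, a2, a3, -, a6⟩, e, q, a4, a7, a5, a8⟩, rfl⟩⟩ := h
  · obtain ⟨n, h0, hn⟩ := gi_nsq (a1.add a3)
    have := congrArg normSq (tr_sc_eq hd hx)
    rw [normSq_mul, nsq_unit a6, mul_one, map_pow, tr, hn, normSq_mul, nv, nsq_pi] at this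
    have h4 : 1 * 2 = n ^ 2 := by exact_mod_cast this
    have : n ≤ 2 := by nlinarith
    interval_cases n <;> norm_num at h4
  · have e1 : v * det M = (M.b - e) ^ 2 :=
      mul_left_cancel₀ c0 (by linear_combination tr_io_eq a5 hd hx)
    have e2 := congrArg normSq e1
    rw [normSq_mul, nv, nsq_unit a6, map_pow] at e2
    have e3 : normSq (M.b - e) = 1 := by nlinarith [normSq_nonneg (M.b - e)]
    have e4 : (v * det M) ^ 2 = 1 := by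
      rw [e1]; rcases gi_unit (a2.sub a4) e3 with h | h <;> rw [h] <;> norm_num
    rcases hv with ⟨rfl, rfl⟩ | ⟨rfl, rfl⟩
    · refine not_pi (a7.sub ((GI.one.sub GI.i).mul a4)) e3 ?_
      push_cast at a8
      linear_combination a8 + (1 / 2 : ℂ) * e4 - e * I_mul_I
    · refine not_pi (a7.sub ((GI.one.sub GI.i).mul (a4.add GI.one))) e3 ?_
      push_cast at a8
      linear_combination a8 - (1 / 2 : ℂ) * e4 - (e + 1 - det M ^ 2 / 2) * I_mul_I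

theorem n1_F (k : ℤ) : N1 k ⟨I, 1, 0, 1⟩ :=
  ⟨1, one_ne_zero, _, Or.inl ⟨⟨g0_F _ GI.one, 0, 1 - I, GI.zero, GI.one.sub GI.i, by simp,
    by simp only [det]; push_cast; linear_combination (1 / 2 : ℂ) * I_mul_I⟩, (sc_one _).symm⟩⟩

theorem not_trP {Γ : Subgroup PSL} (h : Conjugate Γ (grpH I)) : ¬ HasTr Γ (-I * (1 + I)) := by
  intro hx
  obtain ⟨X, a, b, c⟩ := hx.wd (repH2 (Or.inl rfl) h)
  refine N1.not_tr (Or.inr ⟨rfl, rfl⟩) (N1.wd (n1_F 1) ?_ a) b c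
  exact ⟨1, one_ne_zero, ⟨I, 0, 0, 1⟩, Or.inr ⟨⟨g0_F _ GI.zero, 0, 1 - I, GI.zero,
    GI.one.sub GI.i, by simp,
    by simp only [det]; push_cast; linear_combination (1 / 2 : ℂ) * I_mul_I⟩,
    by ext <;> simp [sc, io]; ring⟩⟩

theorem not_trM {Γ : Subgroup PSL} (h : Conjugate Γ (grpH (-I))) : ¬ HasTr Γ (1 + I) := by
  intro hx
  obtain ⟨X, a, b, c⟩ := hx.wd (repH2 (Or.inr rfl) h)
  refine N1.not_tr (Or.inl ⟨rfl, rfl⟩) (N1.wd (n1_F 0) ?_ a) b (by rw [c, one_mul])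
  exact ⟨1, one_ne_zero, _, Or.inr ⟨ch_one,
    by ext <;> simp [sc, io, one2, mul_add, add_comm]⟩⟩

theorem cusp_tr {Γ : Subgroup PSL} {k : Fin 10} (h : Conjugate Γ (cuspTan k)) :
    (k ≠ 1 → HasTr Γ (lev k)) ∧ (k ≠ 0 → HasTr Γ (-I * lev k)) := by
  by_cases hk : 2 ≤ k.1
  · have := hasTr4 (lev_ne k) (rep4 (lev_ne k) (cusp_fam hk h))
    exact ⟨fun _ => this.1, fun _ => this.2⟩
  · fin_cases k
    · exact ⟨fun _ => hasTrH (lev_ne 0) (repH2 (Or.inl rfl) h), fun h => absurd rfl h⟩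
    · refine ⟨fun h => absurd rfl h, fun _ => ?_⟩
      have := hasTrH (fun h => by simpa using congrArg Complex.re h) (repH2 (Or.inr rfl) h)
      convert this using 1
      simp only [lev, Matrix.cons_val_one, Matrix.cons_val_zero, Fin.mk_one]
      linear_combination -I_mul_I
    all_goals simp at hk

theorem cusp_nsq {Γ : Subgroup PSL} {j k : Fin 10} (hj : Conjugate Γ (cuspTan j))
    (hk : Conjugate Γ (cuspTan k)) :
    ∃ n : Fin 4, nlev j = n ^ 2 ∨ nlev j = nlev k * n ^ 2 := by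
  obtain ⟨x, hx, ex⟩ : ∃ x, HasTr Γ x ∧ normSq x = nlev j := by
    by_cases h1 : j = 1
    · exact ⟨_, (cusp_tr hj).2 (by rw [h1]; decide), by simp [normSq_lev]⟩
    · exact ⟨_, (cusp_tr hj).1 h1, normSq_lev j⟩
  obtain ⟨F, G, -, b, c, d⟩ := cusp_model hk
  obtain ⟨X, a1, a2, a3⟩ := hx.wd b
  obtain ⟨n, h0, hn⟩ := (N0.wd (lev_gi k) (lev_ne k) c d a1).nsq a2 a3
  rw [ex, normSq_lev] at hn
  have hn' : nlev j = n ^ 2 ∨ nlev j = nlev k * n ^ 2 := by exact_mod_cast hn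
  have b1 : nlev j ≤ 10 := by fin_cases j <;> simp [nlev]
  have b2 : 1 ≤ nlev k := by fin_cases k <;> simp [nlev]
  have b3 : n < 4 := by rcases hn' with h | h <;> nlinarith [sq_nonneg n]
  obtain ⟨n, rfl⟩ := Int.eq_ofNat_of_zero_le h0
  exact ⟨⟨n, by omega⟩, hn'⟩

theorem cusp_comb : ∀ j k : Fin 10, (∃ n : Fin 4, nlev j = n ^ 2 ∨ nlev j = nlev k * n ^ 2) →
    (∃ n : Fin 4, nlev k = n ^ 2 ∨ nlev k = nlev j * n ^ 2) → j.1 < k.1 →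
    (j = 0 ∧ k = 1) ∨ (j = 0 ∧ k = 3) ∨ (j = 1 ∧ k = 3) ∨ (j = 2 ∧ k = 4) ∨ (j = 5 ∧ k = 6) ∨
      (j = 8 ∧ k = 9) := by decide

theorem cusp_lt {Γ : Subgroup PSL} {j k : Fin 10} (hj : Conjugate Γ (cuspTan j))
    (hk : Conjugate Γ (cuspTan k)) : ¬ j.1 < k.1 := by
  intro h
  have key : ∀ x, HasTr Γ x → ∃ X, N0 (lev k) X ∧ det X = 1 ∧ tr X ^ 2 = x := by
    intro x hx
    obtain ⟨F, G, -, b, c, d⟩ := cusp_model hk
    obtain ⟨X, a1, a2, a3⟩ := hx.wd b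
    exact ⟨X, N0.wd (lev_gi k) (lev_ne k) c d a1, a2, a3⟩
  rcases cusp_comb j k (cusp_nsq hj hk) (cusp_nsq hk hj) h with
    ⟨rfl, rfl⟩ | ⟨rfl, rfl⟩ | ⟨rfl, rfl⟩ | ⟨rfl, rfl⟩ | ⟨rfl, rfl⟩ | ⟨rfl, rfl⟩
  · exact not_trP hj ((cusp_tr hk).2 (by decide))
  · exact not_trP hj ((cusp_tr hk).2 (by decide))
  · exact not_trM hj ((cusp_tr hk).1 (by decide))
  · obtain ⟨X, a, b, c⟩ := key _ ((cusp_tr hj).1 (by decide))
    exact N0.not_one a b c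
  · obtain ⟨X, a, b, c⟩ := key _ ((cusp_tr hj).1 (by decide))
    exact N0.not_conj (m := 2) (Or.inl rfl) (by simpa [lev] using a) b (by simpa [lev] using c)
  · obtain ⟨X, a, b, c⟩ := key _ ((cusp_tr hj).1 (by decide))
    exact N0.not_conj (m := 3) (Or.inr rfl) (by simpa [lev] using a) b (by simpa [lev] using c)

theorem cusp_inj {Γ : Subgroup PSL} {j k : Fin 10} (hj : Conjugate Γ (cuspTan j))
    (hk : Conjugate Γ (cuspTan k)) : j = k :=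
  Fin.ext (le_antisymm (not_lt.1 (cusp_lt hk hj)) (not_lt.1 (cusp_lt hj hk)))

end Pool.Agent.Lib.MP_743898_gt
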