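import Pool.Agent.Lib.MP_743898_gt.CClosed

set_option autoImplicit false

/-! Commensurability with Bianchi groups. -/

namespace Pool.Agent.Lib.MP_743898_gt

open M2 Complex Cl

/-- Coset table for the Picard group. -/
structure Tab0 (F G : M2) (rs : List M2) : Prop where
  one : one2 ∈ rs
  dt : ∀ r ∈ rs, det r = 1
  step : ∀ s, s = tl 1 ∨ s = tl (-1) ∨ s = tl I ∨ s = tl (-I) ∨ s = sw0 →
    ∀ r ∈ rs, ∃ r' ∈ rs, Wd F G (adj r' * (s * r))

section
variable {F G : M2} {rs : List M2}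

theorem Tab0.move (h : Tab0 F G rs) {U s : M2}
    (hs : s = tl 1 ∨ s = tl (-1) ∨ s = tl I ∨ s = tl (-I) ∨ s = sw0)
    (hU : ∃ r ∈ rs, Wd F G (adj r * U)) : ∃ r ∈ rs, Wd F G (adj r * (s * U)) := by
  obtain ⟨r, hr, k⟩ := hU
  obtain ⟨r', hr', k'⟩ := h.step s hs r hr
  refine ⟨r', hr', ?_⟩
  have := k'.mul k
  rwa [mul_as, mul_as, ← mul_as r, mul_adj1 (h.dt r hr), one_mu] at this

theorem Tab0.om_tl (h : Tab0 F G rs) {U : M2} (hU : Om F G rs U) (m n : ℤ) :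
    Om F G rs (tl (m + n * I) * U) := by
  obtain ⟨h1, h2, h3, h4, h5, h6⟩ := hU
  refine ⟨by rw [det_mul, h1]; simp [tl, M2.det], ?_, ?_, by simpa [tl] using h4,
    by simpa [tl] using h5, ?_⟩
  · simpa [tl] using h2.add_mul h4 ⟨m, n, rfl⟩
  · simpa [tl] using h3.add_mul h5 ⟨m, n, rfl⟩
  · have e0 : tl 0 * U = U := by ext <;> simp [tl]
    have k1 : ∃ r ∈ rs, Wd F G (adj r * (tl (n * I) * U)) := by
      induction n using Int.induction_on with
      | zero => simpa [e0] using h6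
      | succ i ih =>
        have := h.move (s := tl I) (by simp) ih
        rw [tl_tl] at this
        rwa [show ((i + 1 : ℤ) : ℂ) * I = I + ((i : ℤ) : ℂ) * I by push_cast; ring]
      | pred i ih =>
        have := h.move (s := tl (-I)) (by simp) ih
        rw [tl_tl] at this
        rwa [show ((-i - 1 : ℤ) : ℂ) * I = -I + ((-i : ℤ) : ℂ) * I by push_cast; ring]
    induction m using Int.induction_on with
    | zero => simpa using k1
    | succ i ih =>
      have := h.move (s := tl 1) (by simp) ih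
      rw [tl_tl] at this
      rwa [show ((i + 1 : ℤ) : ℂ) + n * I = 1 + (((i : ℤ) : ℂ) + n * I) by push_cast; ring]
    | pred i ih =>
      have := h.move (s := tl (-1)) (by simp) ih
      rw [tl_tl] at this
      rwa [show ((-i - 1 : ℤ) : ℂ) + n * I = -1 + (((-i : ℤ) : ℂ) + n * I) by push_cast; ring]

theorem Tab0.om_sw (h : Tab0 F G rs) {U : M2} (hU : Om F G rs U) : Om F G rs (sw0 * U) := by
  obtain ⟨h1, h2, h3, h4, h5, h6⟩ := hU
  exact ⟨by rw [det_mul, h1]; simp [sw0, M2.det], by simpa [sw0] using h4.neg,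
    by simpa [sw0] using h5.neg, by simpa [sw0] using h2, by simpa [sw0] using h3,
    h.move (by simp) h6⟩

theorem Tab0.om_one (h : Tab0 F G rs) : Om F G rs one2 :=
  ⟨det_one2, ⟨1, 0, by simp [one2]⟩, ⟨0, 0, by simp [one2]⟩, ⟨0, 0, by simp [one2]⟩,
    ⟨1, 0, by simp [one2]⟩, one2, h.one, by rw [adj_one2, one_mu]; exact Wd.one _ _⟩

theorem Tab0.siegel (h : Tab0 F G rs) (X : M2) (hX : det X = 1) :
    ∃ U, Om F G rs U ∧ nb (U * X) ≤ 2 ∧ ‖ip (U * X)‖ ≤ nb (U * X) := by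
  set A : Set ℝ := {r | ∃ U, Om F G rs U ∧ r = nb (U * X)} with hA
  have hne : A.Nonempty := ⟨_, one2, h.om_one, rfl⟩
  have hlow : ∀ r ∈ A, 1 / (n2 X + 1) ≤ r := by
    rintro _ ⟨U, ⟨h1, _, _, h4, h5, _⟩, rfl⟩
    have k1 : 1 ≤ normSq U.c + normSq U.d := by
      by_cases hc : U.c = 0
      · have hd : U.d ≠ 0 := by
          intro hd; simp [M2.det, hc, hd] at h1
        linarith [h5.one_le hd, normSq_nonneg U.c]
      · linarith [h4.one_le hc, normSq_nonneg U.d]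
    have hX' : X.a * X.d - X.b * X.c = 1 := hX
    have e1 : U.c = (U * X).c * X.d + (U * X).d * -X.c := by
      simp only [mul_c, mul_d]; linear_combination (-U.c) * hX'
    have e2 : U.d = (U * X).c * -X.b + (U * X).d * X.a := by
      simp only [mul_c, mul_d]; linear_combination (-U.d) * hX'
    have k2 := cs2 (U * X).c (U * X).d X.d (-X.c)
    have k3 := cs2 (U * X).c (U * X).d (-X.b) X.a
    rw [← e1, normSq_neg] at k2
    rw [← e2, normSq_neg] at k3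
    have hn := n2_nonneg X
    rw [div_le_iff₀ (by linarith)]
    have hb : 0 ≤ nb (U * X) := add_nonneg (normSq_nonneg _) (normSq_nonneg _)
    unfold nb n2 at *
    nlinarith
  have hbd : BddBelow A := ⟨_, hlow⟩
  have hpos : 0 < sInf A := lt_of_lt_of_le (by have := n2_nonneg X; positivity)
    (le_csInf hne hlow)
  obtain ⟨_, ⟨U, hU, rfl⟩, hlt⟩ := exists_lt_of_csInf_lt hne
    (show sInf A < 11 / 10 * sInf A by linarith)
  have hd : det (U * X) = 1 := by rw [det_mul, hU.1, hX, one_mul]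
  have hp := nb_pos hd
  set z : ℂ := ip (U * X) / (nb (U * X) : ℝ) with hz
  set k : ℂ := (-round z.re : ℤ) + (-round z.im : ℤ) * I with hk
  have hU' := h.om_tl hU (-round z.re) (-round z.im)
  rw [← hk] at hU'
  have e1 : nb (tl k * U * X) = nb (U * X) := by simp [nb, tl]
  have hpc : ((nb (U * X) : ℝ) : ℂ) ≠ 0 := by exact_mod_cast hp.ne'
  have e2 : ip (tl k * U * X) = (z + k) * (nb (U * X) : ℝ) := by
    rw [add_mul, hz, div_mul_cancel₀ _ hpc, mul_as]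
    generalize U * X = M
    simp only [ip, nb, tl, mul_a, mul_b, mul_c, mul_d]
    push_cast
    rw [← mul_conj, ← mul_conj]
    simp only [zero_mul, one_mul, zero_add]
    ring
  have e3 : normSq (z + k) ≤ 1 / 2 := by
    have a1 := abs_le.1 (abs_sub_round z.re)
    have a2 := abs_le.1 (abs_sub_round z.im)
    have b1 : (z + k).re = z.re - round z.re := by simp [hk]; ring
    have b2 : (z + k).im = z.im - round z.im := by simp [hk]; ring
    rw [normSq_apply, b1, b2]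
    nlinarith
  have hd' : det (tl k * U * X) = 1 := by rw [det_mul, hU'.1, hX, one_mul]
  have hL := rows_lagrange hd'
  rw [e1, e2, normSq_mul, normSq_ofReal] at hL
  have hlow2 : sInf A ≤ normSq (tl k * U * X).a + normSq (tl k * U * X).b := by
    refine csInf_le hbd ⟨_, h.om_sw hU', ?_⟩
    rw [mul_as sw0]
    generalize tl k * U * X = M
    simp [nb, sw0]
  refine ⟨_, hU', ?_, ?_⟩
  · rw [e1]
    by_contra hc
    rw [not_le] at hc
    have q1 : nb (U * X) * nb (U * X) ≤ 11 / 10 * ((normSq (tl k * U * X).a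
        + normSq (tl k * U * X).b) * nb (U * X)) := by nlinarith
    have q2 : normSq (z + k) * (nb (U * X) * nb (U * X)) ≤ 1 / 2 * (nb (U * X) * nb (U * X)) :=
      mul_le_mul_of_nonneg_right e3 (by positivity)
    nlinarith
  · rw [e1, e2, norm_mul, norm_real, Real.norm_of_nonneg hp.le]
    refine mul_le_of_le_one_left hp.le ?_
    rw [normSq_eq_norm_sq] at e3
    nlinarith [norm_nonneg (z + k)]

theorem Tab0.cof (h : Tab0 F G rs) : Cof F G := by
  refine ⟨rs, 2, h.dt, fun X hX => ?_⟩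
  obtain ⟨U, ⟨h1, _, _, _, _, r, hr, k⟩, k1, k2⟩ := h.siegel X hX
  refine ⟨r, hr, adj r * U, k, by rw [det_mul, det_adj, h.dt r hr, h1, one_mul], ?_⟩
  rw [← mul_as, mul_adj1 (h.dt r hr), one_mu]
  have hp := nb_pos (show M2.det (U * X) = 1 by rw [det_mul, h1, hX, one_mul])
  exact ⟨k1, by linarith⟩

end

def tab0B (F G : ZM) (rs : List ZM) : List ZM → List (List (ℕ × List ℕ)) → Bool
  | [], _ => true
  | r :: l, c :: cs => rowB F G rs r zgens c && r.det.beq ⟨1, 0, 0, 0⟩ && tab0B F G rs l cs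
  | _ :: _, [] => false

theorem tab0B_sound (F G : ZM) (rs : List ZM) :
    ∀ (l : List ZM) (cs : List (List (ℕ × List ℕ))), tab0B F G rs l cs = true →
    ∀ r ∈ l, (∀ s ∈ zgens, ∃ r' ∈ rs, Wd (evM F) (evM G) (adj (evM r') * (evM s * evM r))) ∧
      det (evM r) = 1
  | [], _, _ => by simp
  | r :: l, c :: cs, h => by
    simp only [tab0B, Bool.and_eq_true] at h
    intro x hx
    rcases List.mem_cons.1 hx with rfl | hx
    · exact ⟨rowB_sound F G rs x _ _ h.1.1, by rw [evM_det, Z12.eq_of_beq h.1.2, ev_one]⟩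
    · exact tab0B_sound F G rs l cs h.2 x hx
  | _ :: _, [], h => by simp [tab0B] at h

theorem tab0_of {F G : ZM} (rs : List ZM) (cs : List (List (ℕ × List ℕ)))
    (h2 : tab0B F G rs rs cs = true) (h3 : rs.head? = some ZM.one) :
    Tab0 (evM F) (evM G) (rs.map evM) := by
  have a4 := tab0B_sound F G rs rs cs h2
  refine ⟨List.mem_map.2 ⟨ZM.one, List.mem_of_head? h3, evM_one⟩, ?_, ?_⟩
  · intro r hr
    obtain ⟨x, hx, rfl⟩ := List.mem_map.1 hr
    exact (a4 x hx).2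
  · intro s hs r hr
    obtain ⟨x, hx, rfl⟩ := List.mem_map.1 hr
    obtain ⟨y, hy, rfl⟩ : ∃ y ∈ zgens, s = evM y := by
      rcases hs with rfl | rfl | rfl | rfl | rfl
      · exact ⟨zT ⟨1, 0, 0, 0⟩, by simp [zgens], by rw [evM_zT, ev_one]⟩
      · exact ⟨zT ⟨-1, 0, 0, 0⟩, by simp [zgens], by rw [evM_zT]; simp [ev]⟩
      · exact ⟨zT ⟨0, 0, 0, 1⟩, by simp [zgens], by rw [evM_zT]; simp [ev, zt3]⟩
      · exact ⟨zT ⟨0, 0, 0, -1⟩, by simp [zgens], by rw [evM_zT]; simp [ev, zt3]⟩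
      · exact ⟨zS, by simp [zgens], by ext <;> simp [evM, zS, sw0, ev]⟩
    obtain ⟨r', hr', k⟩ := (a4 x hx).1 y hy
    exact ⟨evM r', List.mem_map.2 ⟨r', hr', rfl⟩, k⟩

/-! The Bianchi groups in matrix form. -/

def Ent (B : Subring ℂ) (Y : M2) : Prop := Y.a ∈ B ∧ Y.b ∈ B ∧ Y.c ∈ B ∧ Y.d ∈ B

theorem mem_intRing {d : ℕ} {x : ℂ} :
    x ∈ intRing d ↔ IsIntegral ℤ x ∧ ∃ a b : ℚ, x = a + b * (((√d : ℝ) : ℂ) * I) := by
  have hs : (((√d : ℝ) : ℂ) * I) * (((√d : ℝ) : ℂ) * I) = -d := by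
    have : ((√d : ℝ) : ℂ) * ((√d : ℝ) : ℂ) = d := by
      exact_mod_cast Real.mul_self_sqrt (Nat.cast_nonneg d)
    linear_combination (d : ℂ) * I_mul_I + I * I * this
  refine and_congr Iff.rfl ⟨fun h => ?_, ?_⟩
  · change x ∈ Algebra.adjoin ℚ {((√d : ℝ) : ℂ) * I} at h
    induction h using Algebra.adjoin_induction with
    | mem y hy => exact ⟨0, 1, by rw [Set.mem_singleton_iff.1 hy]; simp⟩
    | algebraMap r => exact ⟨r, 0, by simp⟩
    | add y z _ _ h1 h2 =>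
      obtain ⟨a, b, rfl⟩ := h1
      obtain ⟨c, e, rfl⟩ := h2
      exact ⟨a + c, b + e, by push_cast; ring⟩
    | mul y z _ _ h1 h2 =>
      obtain ⟨a, b, rfl⟩ := h1
      obtain ⟨c, e, rfl⟩ := h2
      exact ⟨a * c - d * b * e, a * e + b * c, by push_cast; linear_combination (b * e : ℂ) * hs⟩
  · rintro ⟨a, b, rfl⟩
    change _ ∈ Algebra.adjoin ℚ {((√d : ℝ) : ℂ) * I}
    exact add_mem (Subalgebra.algebraMap_mem _ a)
      (mul_mem (Subalgebra.algebraMap_mem _ b) (Algebra.subset_adjoin rfl))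

theorem mem_intRing_one {x : ℂ} : x ∈ intRing 1 ↔ GI x := by
  rw [mem_intRing]
  simp only [Nat.cast_one, Real.sqrt_one, ofReal_one, one_mul]
  exact ⟨fun h => inO_of_kq quadI h.2 h.1, fun h => ⟨InO.integral quadI h, InO.kq quadI h⟩⟩

theorem mem_bianchi {d : ℕ} (A : SL2) : (A : PSL) ∈ bianchi d ↔ Ent (intRing d) (toM A) := by
  constructor
  · rintro ⟨g, hg⟩
    have hg' : ((Matrix.SpecialLinearGroup.map (intRing d).subtype g : SL2) : PSL) = A := hg
    obtain ⟨t, ht⟩ := (mk_eq_iff _ _).1 hg'.symm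
    have h1 := toM_det A
    rw [ht, det_sc, toM_det, mul_one] at h1
    have ht' : t ∈ intRing d := by
      rcases sq_eq_one_iff.1 h1 with rfl | rfl
      · exact one_mem _
      · exact neg_mem (one_mem _)
    rw [ht]
    exact ⟨mul_mem ht' (g.1 0 0).2, mul_mem ht' (g.1 0 1).2, mul_mem ht' (g.1 1 0).2,
      mul_mem ht' (g.1 1 1).2⟩
  · rintro ⟨h1, h2, h3, h4⟩
    refine ⟨⟨!![⟨_, h1⟩, ⟨_, h2⟩; ⟨_, h3⟩, ⟨_, h4⟩], ?_⟩, ?_⟩
    · rw [Matrix.det_fin_two_of]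
      exact Subtype.ext (toM_det A)
    · change ((_ : SL2) : PSL) = A
      congr 1
      ext i j
      fin_cases i <;> fin_cases j <;> rfl

theorem relIndex_ne_zero_of_cover {H K : Subgroup PSL} (T : Set M2) (hT : T.Finite)
    (h : ∀ A : SL2, (A : PSL) ∈ K → ∃ τ ∈ T, det τ ≠ 0 ∧
      ∀ (B : SL2) (s : ℂ), s ≠ 0 → toM B = sc s (adj τ * toM A) → (B : PSL) ∈ H) :
    H.relIndex K ≠ 0 := by
  have key : ∀ τ : M2, ∃ B0 : SL2, det τ ≠ 0 → ∃ s, s ≠ 0 ∧ toM B0 = sc s τ := by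
    intro τ
    by_cases h0 : det τ = 0
    · exact ⟨1, fun h => absurd h0 h⟩
    · obtain ⟨s, hs0, hs⟩ := exists_normalize h0
      obtain ⟨B0, hB⟩ := exists_lift hs
      exact ⟨B0, fun _ => ⟨s, hs0, hB⟩⟩
  choose φ hφ using key
  have cov : ∀ x : K, ∃ τ : T, ((φ τ : SL2) : PSL)⁻¹ * x ∈ H := by
    rintro ⟨x, hx⟩
    obtain ⟨A, rfl⟩ := QuotientGroup.mk_surjective x
    obtain ⟨τ, hτ, d0, k⟩ := h A hx
    obtain ⟨s, hs0, hs⟩ := hφ τ d0
    exact ⟨⟨τ, hτ⟩, k ((φ τ)⁻¹ * A) s hs0 (by rw [toM_mul, toM_inv, hs, adj_sc, sc_mul])⟩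
  choose ψ hψ using cov
  have := hT.to_subtype
  rw [Subgroup.relIndex, Subgroup.index_ne_zero_iff_finite]
  refine Finite.of_injective (fun q : K ⧸ H.subgroupOf K => ψ q.out) fun p q hpq => ?_
  rw [← p.out_eq, ← q.out_eq]
  refine QuotientGroup.eq.2 (Subgroup.mem_subgroupOf.2 ?_)
  have h1 := hψ p.out
  have h2 := hψ q.out
  simp only at hpq
  rw [hpq] at h1
  have := H.mul_mem (H.inv_mem h1) h2
  simpa [mul_assoc] using this

/-- Matrices that are upper triangular modulo `c`, with unit determinant. -/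
def G0 (c : ℂ) (M : M2) : Prop :=
  GI M.a ∧ GI M.b ∧ GI M.d ∧ (∃ e, GI e ∧ M.c = c * e) ∧ det M ^ 4 = 1

def io (c : ℂ) : M2 := ⟨0, -1, c, 0⟩

/-- Multiples of elements of the group generated by `G0 c` and the involution `io c`. -/
def N0 (c : ℂ) (X : M2) : Prop := ∃ t : ℂ, t ≠ 0 ∧ ∃ M, G0 c M ∧ (X = sc t M ∨ X = sc t (io c * M))

theorem GI.add {x y : ℂ} (hx : GI x) (hy : GI y) : GI (x + y) := by
  simpa using hx.add_mul hy (k := 1) ⟨1, 0, by simp⟩
theorem GI.mul {x y : ℂ} (hx : GI x) (hy : GI y) : GI (x * y) := by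
  simpa using GI.add_mul (x := 0) ⟨0, 0, by simp⟩ hy hx
theorem GI.sub {x y : ℂ} (hx : GI x) (hy : GI y) : GI (x - y) := by
  simpa [sub_eq_add_neg] using hx.add hy.neg
theorem GI.int (n : ℤ) : GI n := ⟨n, 0, by simp⟩
theorem GI.zero : GI 0 := ⟨0, 0, by simp⟩
theorem GI.one : GI 1 := ⟨1, 0, by simp⟩
theorem GI.i : GI I := ⟨0, 1, by simp⟩

theorem G0.mul {c : ℂ} (hc : GI c) {M N : M2} (hM : G0 c M) (hN : G0 c N) : G0 c (M * N) := by
  obtain ⟨a1, a2, a3, ⟨e, a4, a5⟩, a6⟩ := hM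
  obtain ⟨b1, b2, b3, ⟨e', b4, b5⟩, b6⟩ := hN
  refine ⟨?_, ?_, ?_, ⟨e * N.a + M.d * e', (a4.mul b1).add (a3.mul b4), ?_⟩, ?_⟩
  · rw [mul_a, b5]; exact (a1.mul b1).add (a2.mul (hc.mul b4))
  · rw [mul_b]; exact (a1.mul b2).add (a2.mul b3)
  · rw [mul_d, a5]; exact ((hc.mul a4).mul b2).add (a3.mul b3)
  · rw [mul_c, a5, b5]; ring
  · rw [det_mul, mul_pow, a6, b6, one_mul]

theorem G0.adj {c : ℂ} {M : M2} (hM : G0 c M) : G0 c (adj M) := by
  obtain ⟨a1, a2, a3, ⟨e, a4, a5⟩, a6⟩ := hM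
  exact ⟨a3, a2.neg, a1, ⟨-e, a4.neg, by simp [M2.adj, a5]⟩, by rwa [det_adj]⟩

theorem G0.io {c : ℂ} {M : M2} (hM : G0 c M) : ∃ M', G0 c M' ∧ M * io c = io c * M' := by
  obtain ⟨a1, a2, a3, ⟨e, a4, a5⟩, a6⟩ := hM
  refine ⟨⟨M.d, -e, -(c * M.b), M.a⟩, ⟨a3, a4.neg, a1, ⟨-M.b, a2.neg, by ring⟩, ?_⟩, ?_⟩
  · rw [← a6]; congr 1; simp only [det, a5]; ring
  · ext <;> simp [MP_743898_gt.io, a5] <;> ring

theorem io_io (c : ℂ) (M : M2) : io c * (io c * M) = sc (-c) M := by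
  ext <;> simp [io, sc]

theorem adj_io (c : ℂ) : adj (io c) = sc (-1) (io c) := by ext <;> simp [io, sc, adj]

theorem N0.wd {c : ℂ} (hc : GI c) (c0 : c ≠ 0) {F G : M2} (hF : N0 c F) (hG : N0 c G) {X : M2}
    (hX : Wd F G X) : N0 c X := by
  obtain ⟨t, ht, W, hW, rfl⟩ := hX
  have : N0 c W := by
    induction hW with
    | one => exact ⟨1, one_ne_zero, one2, ⟨GI.one, GI.zero, GI.one, ⟨0, GI.zero, by simp [one2]⟩,
        by rw [det_one2, one_pow]⟩, Or.inl (sc_one _).symm⟩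
    | l => exact hF
    | r => exact hG
    | mul _ _ h1 h2 =>
      obtain ⟨s, hs, M, hM, e1⟩ := h1
      obtain ⟨u, hu, N, hN, e2⟩ := h2
      obtain ⟨M', hM', e3⟩ := hM.io
      rcases e1 with rfl | rfl <;> rcases e2 with rfl | rfl
      · exact ⟨_, mul_ne_zero hs hu, _, hM.mul hc hN, Or.inl (by rw [sc_mul, mul_sc, sc_sc])⟩
      · exact ⟨_, mul_ne_zero hs hu, _, hM'.mul hc hN,
          Or.inr (by rw [sc_mul, mul_sc, sc_sc, ← mul_as, e3, mul_as])⟩
      · exact ⟨_, mul_ne_zero hs hu, _, hM.mul hc hN,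
          Or.inr (by rw [sc_mul, mul_sc, sc_sc, mul_as])⟩
      · exact ⟨_, mul_ne_zero (mul_ne_zero hs hu) (neg_ne_zero.2 c0), _, hM'.mul hc hN,
          Or.inl (by rw [sc_mul, mul_sc, sc_sc, mul_as, ← mul_as M, e3, mul_as, io_io, sc_sc])⟩
    | adj _ h1 =>
      obtain ⟨s, hs, M, hM, e1⟩ := h1
      rcases e1 with rfl | rfl
      · exact ⟨s, hs, _, hM.adj, Or.inl (adj_sc _ _)⟩
      · obtain ⟨M', hM', e3⟩ := hM.adj.io
        exact ⟨_, mul_ne_zero hs (neg_ne_zero.2 one_ne_zero), _, hM',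
          Or.inr (by rw [adj_sc, adj_mu, adj_io, mul_sc, sc_sc, e3])⟩
  obtain ⟨s, hs, M, hM, e⟩ := this
  refine ⟨t * s, mul_ne_zero ht hs, M, hM, ?_⟩
  rcases e with rfl | rfl
  · exact Or.inl (sc_sc _ _ _)
  · exact Or.inr (sc_sc _ _ _)

theorem unit_cases {u : ℂ} (h : u ^ 4 = 1) : u = 1 ∨ u = -1 ∨ u = I ∨ u = -I := by
  have : (u - 1) * (u + 1) * (u - I) * (u + I) = 0 := by
    linear_combination h - (u ^ 2 - 1) * I_mul_I
  simp only [mul_eq_zero, sub_eq_zero, add_eq_zero_iff_eq_neg] at this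
  tauto

theorem ent_of_gi {t : ℂ} {M : M2} (h1 : GI M.a) (h2 : GI M.b) (h3 : GI M.c) (h4 : GI M.d)
    (hd : det M = 1 ∨ det M = -1) (ht : det (sc t M) = 1) : Ent (intRing 1) (sc t M) := by
  have : GI t := by
    have : t ^ 4 = 1 := by
      rw [det_sc] at ht
      rcases hd with h | h <;> rw [h] at ht
      · linear_combination (t ^ 2 + 1) * ht
      · linear_combination (1 - t ^ 2) * ht
    rcases unit_cases this with rfl | rfl | rfl | rfl
    · exact GI.one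
    · exact GI.one.neg
    · exact GI.i
    · exact GI.i.neg
  exact ⟨mem_intRing_one.2 (this.mul h1), mem_intRing_one.2 (this.mul h2),
    mem_intRing_one.2 (this.mul h3), mem_intRing_one.2 (this.mul h4)⟩

theorem G0.split {c : ℂ} (hc : GI c) {M : M2} (hM : G0 c M) :
    ∃ τ ∈ ({one2, ⟨I, 0, 0, 1⟩} : Set M2), det τ ≠ 0 ∧
      ∀ t, det (sc t (M2.adj τ * M)) = 1 → Ent (intRing 1) (sc t (M2.adj τ * M)) := by
  obtain ⟨a1, a2, a3, ⟨e, a4, a5⟩, a6⟩ := hM
  have a7 : GI M.c := a5 ▸ hc.mul a4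
  have k1 : det M = 1 ∨ det M = -1 → ∃ τ ∈ ({one2, ⟨I, 0, 0, 1⟩} : Set M2), det τ ≠ 0 ∧
      ∀ t, det (sc t (M2.adj τ * M)) = 1 → Ent (intRing 1) (sc t (M2.adj τ * M)) := fun h =>
    ⟨one2, by simp, by simp [det_one2], fun t ht => by
      rw [adj_one2, one_mu] at ht ⊢; exact ent_of_gi a1 a2 a7 a3 h ht⟩
  have k2 : det M = I ∨ det M = -I → ∃ τ ∈ ({one2, ⟨I, 0, 0, 1⟩} : Set M2), det τ ≠ 0 ∧
      ∀ t, det (sc t (M2.adj τ * M)) = 1 → Ent (intRing 1) (sc t (M2.adj τ * M)) := fun h =>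
    ⟨⟨I, 0, 0, 1⟩, by simp, by simp [det], fun t ht => by
      refine ent_of_gi (by simpa [M2.adj] using a1) (by simpa [M2.adj] using a2)
        (by simpa [M2.adj] using GI.i.mul a7) (by simpa [M2.adj] using GI.i.mul a3) ?_ ht
      rw [det_mul, det_adj]
      rcases h with h | h <;> rw [h] <;> simp [det]⟩
  rcases unit_cases a6 with h | h | h | h
  · exact k1 (Or.inl h)
  · exact k1 (Or.inr h)
  · exact k2 (Or.inl h)
  · exact k2 (Or.inr h)

theorem gi_finite : {x : ℂ | GI x ∧ normSq x ≤ 5}.Finite := by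
  refine (((Set.finite_Icc (-3 : ℤ) 3).prod (Set.finite_Icc (-3 : ℤ) 3)).image
    fun p : ℤ × ℤ => (p.1 : ℂ) + p.2 * I).subset ?_
  rintro _ ⟨⟨m, n, rfl⟩, h⟩
  have e : normSq ((m : ℂ) + n * I) = ((m ^ 2 + n ^ 2 : ℤ) : ℝ) := by
    simp [normSq_apply]; ring
  rw [e] at h
  have h' : m ^ 2 + n ^ 2 ≤ 5 := by exact_mod_cast h
  exact ⟨(m, n), ⟨⟨by nlinarith, by nlinarith⟩, ⟨by nlinarith, by nlinarith⟩⟩, rfl⟩

theorem small_finite : {M : M2 | (GI M.a ∧ normSq M.a ≤ 5) ∧ (GI M.b ∧ normSq M.b ≤ 5) ∧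
    (GI M.c ∧ normSq M.c ≤ 5) ∧ (GI M.d ∧ normSq M.d ≤ 5)}.Finite := by
  refine ((gi_finite.prod (gi_finite.prod (gi_finite.prod gi_finite))).image
    fun p : ℂ × ℂ × ℂ × ℂ => (⟨p.1, p.2.1, p.2.2.1, p.2.2.2⟩ : M2)).subset ?_
  rintro M ⟨h1, h2, h3, h4⟩
  exact ⟨(M.a, M.b, M.c, M.d), ⟨h1, h2, h3, h4⟩, rfl⟩

theorem cj_mul2 (P Q X : M2) : cj Q (cj P X) = cj (P * Q) X := by
  simp only [cj, adj_mu, mul_as]

theorem wd_cj_iff {F G P X : M2} (hP : det P = 1) :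
    Wd (cj P F) (cj P G) X ↔ Wd F G (cj (adj P) X) := by
  constructor
  · intro h
    have := h.cj (P := adj P) (by rw [det_adj, hP])
    rwa [cj_cj _ _ hP, cj_cj _ _ hP] at this
  · intro h
    have := h.cj hP
    rwa [cj_cj2 hP] at this

theorem cuspArith_of_model {Γ : Subgroup PSL} {F G : M2} {rs : List M2} {c : ℂ} (hc : GI c)
    (c0 : c ≠ 0) (hR : RepC Γ F G) (hF : N0 c F) (hG : N0 c G) (hT : Tab0 F G rs) :
    CuspArith Γ := by
  obtain ⟨P, hP, hR⟩ := hR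
  obtain ⟨Q, hQ⟩ := exists_lift hP
  have hP' : det (adj P) = 1 := by rw [det_adj, hP]
  set Δ : Subgroup PSL := (bianchi 1).comap (MulAut.conj (Q : PSL)).toMonoidHom with hΔ
  have mem : ∀ A : SL2, (A : PSL) ∈ Δ ↔ Ent (intRing 1) (cj (adj P) (toM A)) := by
    intro A
    have e : cj (adj P) (toM A) = toM (Q * A * Q⁻¹) := by
      rw [toM_mul, toM_mul, toM_inv, hQ, cj, adj_adj]
    rw [e, ← mem_bianchi]
    rfl
  refine ⟨1, one_pos, Δ, ⟨(Q : PSL)⁻¹, fun x => by rw [inv_inv]; rfl⟩, ?_, ?_⟩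
  · refine relIndex_ne_zero_of_cover
      ((fun p : M2 × M2 => cj P (adj p.1 * p.2)) '' (_ ×ˢ {r | r ∈ rs}))
      ((small_finite.prod rs.finite_toSet).image _) fun A hA => ?_
    obtain ⟨u1, u2, u3, u4⟩ := (mem A).1 hA
    rw [mem_intRing_one] at u1 u2 u3 u4
    set U := cj (adj P) (toM A) with hU
    have dU : det U = 1 := by rw [hU, det_cj hP', toM_det]
    obtain ⟨V, ⟨v0, v1, v2, v3, v4, r, hr, k⟩, k1, k2⟩ := hT.siegel (adj U) (by rw [det_adj, dU])
    have dM : det (V * adj U) = 1 := by rw [det_mul, det_adj, v0, dU, one_mul]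
    have m1 : GI (V * adj U).a := (v1.mul u4).add (v2.mul u3.neg)
    have m2 : GI (V * adj U).b := (v1.mul u2.neg).add (v2.mul u1)
    have m3 : GI (V * adj U).c := (v3.mul u4).add (v4.mul u3.neg)
    have m4 : GI (V * adj U).d := (v3.mul u2.neg).add (v4.mul u1)
    have eV : V * adj U * U = V := by rw [mul_as, adj_mul1 dU, mu_one]
    generalize V * adj U = M at dM m1 m2 m3 m4 k1 k2 eV
    have hL := rows_lagrange dM
    have n1 : 1 ≤ nb M := by
      unfold nb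
      by_cases h0 : M.c = 0
      · have hd : M.d ≠ 0 := by
          intro hd; simp [M2.det, h0, hd] at dM
        linarith [m4.one_le hd, normSq_nonneg M.c]
      · linarith [m3.one_le h0, normSq_nonneg M.d]
    have n2' : normSq (ip M) ≤ 4 := by
      rw [normSq_eq_norm_sq]; nlinarith [norm_nonneg (ip M)]
    have p1 := normSq_nonneg M.a
    have p2 := normSq_nonneg M.b
    have p3 := normSq_nonneg M.c
    have p4 := normSq_nonneg M.d
    have n3 : normSq M.a + normSq M.b ≤ 5 := by nlinarith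
    unfold nb at k1
    refine ⟨_, ⟨(M, r), ⟨⟨⟨m1, by linarith⟩, ⟨m2, by linarith⟩, ⟨m3, by linarith⟩,
      ⟨m4, by linarith⟩⟩, hr⟩, rfl⟩, ?_, fun B s hs hB => ?_⟩
    · simp only
      rw [det_cj hP, det_mul, det_adj, dM, hT.dt r hr]; norm_num
    · rw [hR B, hB]
      refine Wd.sc ?_ hs
      have e : toM A = cj P U := by rw [hU, cj_cj2 hP]
      simp only
      rw [e, cj_adj, cj_mul _ _ _ hP, adj_mu, adj_adj, mul_as, eV]
      exact k.cj hP
  · refine relIndex_ne_zero_of_cover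
      ((fun p : M2 × M2 => cj P (p.1 * p.2)) '' (({one2, io c} : Set M2) ×ˢ
        ({one2, ⟨I, 0, 0, 1⟩} : Set M2)))
      (((Set.toFinite _).prod (Set.toFinite _)).image _) fun A hA => ?_
    obtain ⟨t, ht, M, hM, e⟩ := N0.wd hc c0 hF hG ((wd_cj_iff hP).1 ((hR A).1 hA))
    obtain ⟨τ, hτ, d0, k⟩ := hM.split hc
    have eA : toM A = cj P (cj (adj P) (toM A)) := (cj_cj2 hP _).symm
    rcases e with e | e
    · refine ⟨_, ⟨(one2, τ), ⟨by simp, hτ⟩, rfl⟩, ?_, fun B s hs hB => ?_⟩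
      · simp only
        rwa [det_cj hP, one_mu]
      · have e2 : cj (adj P) (toM B) = sc (s * t) (adj τ * M) := by
          simp only at hB
          rw [hB, eA, e, cj_adj, cj_mul _ _ _ hP, cj_sc, cj_cj _ _ hP, one_mu, mul_sc, sc_sc]
        rw [mem, e2]
        exact k _ (by rw [← e2, det_cj hP', toM_det])
    · refine ⟨_, ⟨(io c, τ), ⟨by simp, hτ⟩, rfl⟩, ?_, fun B s hs hB => ?_⟩
      · simp only
        rw [det_cj hP, det_mul]
        exact mul_ne_zero (by simpa [io, det] using c0) d0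
      · have e2 : cj (adj P) (toM B) = sc (s * t * c) (adj τ * M) := by
          simp only at hB
          rw [hB, eA, e, cj_adj, cj_mul _ _ _ hP, cj_sc, cj_cj _ _ hP, adj_mu, adj_io, mul_sc,
            mul_sc, sc_mul, mul_as, io_io, mul_sc, sc_sc, sc_sc, sc_sc]
          congr 1; ring
        rw [mem, e2]
        exact k _ (by rw [← e2, det_cj hP', toM_det])

theorem cj_pw {P : M2} (hP : det P = 1) (X : M2) (n : ℕ) : pw (cj P X) n = cj P (pw X n) := by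
  induction n with
  | zero => exact (cj_one2 hP).symm
  | succ n ih => rw [pw, pw, ih, cj_mul _ _ _ hP]

/-- Matrix form of commensurability with a conjugate of a Bianchi group. -/
theorem cmm_of {Γ : Subgroup PSL} {F G : M2} (h : CuspArith Γ) (hR : RepC Γ F G) :
    ∃ (d : ℕ) (R : M2), 0 < d ∧ det R = 1 ∧
      (∀ X, Wd F G X → det X = 1 → ∃ n, 0 < n ∧ Ent (intRing d) (cj R (pw X n))) ∧
      (∀ U, Ent (intRing d) U → det U = 1 → ∃ n, 0 < n ∧ Wd F G (cj (adj R) (pw U n))) := by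
  obtain ⟨d, hd, Δ, ⟨Q, hQ⟩, h1, h2⟩ := h
  obtain ⟨P, hP, hR⟩ := hR
  obtain ⟨Q, rfl⟩ := QuotientGroup.mk_surjective Q
  have dQ := toM_det Q
  have mem : ∀ A : SL2, (A : PSL) ∈ Δ ↔ Ent (intRing d) (cj (toM Q) (toM A)) := by
    intro A
    have e : cj (toM Q) (toM A) = toM (Q⁻¹ * A * Q) := by rw [toM_mul, toM_mul, toM_inv, cj]
    rw [hQ, e, ← mem_bianchi]
    rfl
  refine ⟨d, P * toM Q, hd, by rw [det_mul, hP, dQ, one_mul], fun X hX dX => ?_,
    fun U hU dU => ?_⟩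
  · obtain ⟨A, hA⟩ := exists_lift (show det (cj P X) = 1 by rw [det_cj hP, dX])
    obtain ⟨n, hn, -, k⟩ := Subgroup.exists_pow_mem_of_relIndex_ne_zero h2
      ((hR A).2 (hA ▸ hX.cj hP))
    have k' := (mem (A ^ n)).1 k.1
    rw [toM_pow, hA, cj_pw hP, cj_mul2] at k'
    exact ⟨n, hn, k'⟩
  · have dQ' : det (adj (toM Q)) = 1 := by rw [det_adj, dQ]
    obtain ⟨A, hA⟩ := exists_lift (show det (cj (adj (toM Q)) U) = 1 by rw [det_cj dQ', dU])
    obtain ⟨n, hn, -, k⟩ := Subgroup.exists_pow_mem_of_relIndex_ne_zero h1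
      ((mem A).2 (by rwa [hA, cj_cj2 dQ]))
    have k' := (wd_cj_iff hP).1 ((hR (A ^ n)).1 k.1)
    rw [toM_pow, hA, cj_pw dQ', cj_mul2, ← adj_mu] at k'
    exact ⟨n, hn, k'⟩

theorem pw_tl (k : ℂ) (n : ℕ) : pw (tl k) n = tl (n * k) := by
  induction n with
  | zero => ext <;> simp [pw, tl, one2]
  | succ n ih => rw [pw, ih]; ext <;> simp [tl]; ring

theorem not_cocompact_of_arith {Γ : Subgroup PSL} (hd : IsDiscrete (Γ : Set PSL)) {F G : M2}
    (hR : RepC Γ F G) (h : CuspArith Γ) : ¬ Cocompact Γ := by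
  intro hc
  obtain ⟨d, R, -, dR, -, h2⟩ := cmm_of h hR
  obtain ⟨P, hP, hR⟩ := hR
  obtain ⟨n, hn, k⟩ := h2 (tl 1) ⟨one_mem _, one_mem _, zero_mem _, one_mem _⟩ (by simp [det, tl])
  have k' := k.cj hP
  have dP : det (adj R * P) = 1 := by rw [det_mul, det_adj, dR, hP, one_mul]
  rw [cj_mul2, pw_tl] at k'
  obtain ⟨A, hA⟩ := exists_lift (show det (cj (adj R * P) (tl (n * 1))) = 1 by
    rw [det_cj dP]; simp [det, tl])
  have := no_tl (grp_lifts hd).good (cc_of_cocompact hc) dP ⟨A, (hR A).2 (hA ▸ k'), hA⟩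
  rw [mul_one, Nat.cast_eq_zero] at this
  omega

end Pool.Agent.Lib.MP_743898_gt
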