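import Pool.Agent.Lib.MP_743898_gt.CDefs

set_option autoImplicit false

/-! Further definitions for the classification statements. -/

namespace Pool.Agent.Lib.MP_743898_gt.Cl

open Complex

/-- Cocompact (closed quotient orbifold): some compact subset of the upper half-space meets every
orbit. -/
def Cocompact (Γ : Subgroup PSL) : Prop :=
  ∃ K : Set (ℂ × ℝ), IsCompact K ∧ (∀ p ∈ K, 0 < p.2) ∧
    ∀ p : ℂ × ℝ, 0 < p.2 → ∃ g : SL, (g : PSL) ∈ Γ ∧ act g p ∈ K

/-- The ring of algebraic integers of the imaginary quadratic field generated by `i √d`. -/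
noncomputable def intRing (d : ℕ) : Subring ℂ :=
  (integralClosure ℤ ℂ).toSubring ⊓ (Algebra.adjoin ℚ {((√d : ℝ) : ℂ) * I}).toSubring

/-- The Bianchi group: the image in PSL(2,C) of SL(2) of the ring of integers. -/
noncomputable def bianchi (d : ℕ) : Subgroup PSL :=
  ((QuotientGroup.mk' (Subgroup.center SL)).comp
    (Matrix.SpecialLinearGroup.map (intRing d).subtype)).range

/-- Cusped arithmetic group: commensurable with a conjugate of a Bianchi group. -/
def CuspArith (Γ : Subgroup PSL) : Prop :=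
  ∃ d : ℕ, 0 < d ∧ ∃ Δ : Subgroup PSL, Conjugate Δ (bianchi d) ∧ Subgroup.Commensurable Γ Δ

/-- The four closed Tan groups. -/
noncomputable def closedTan : Fin 4 → Subgroup PSL :=
  ![grpF, grpH om, grpH (-om), grpH (-om ^ 2)]

/-- The ten cusped arithmetic Tan groups. -/
noncomputable def cuspTan : Fin 10 → Subgroup PSL :=
  ![grpH I, grpH (-I), fam4 1, fam4 (1 + I)⁻¹, fam4 2⁻¹, fam4 (2 + I)⁻¹, fam4 (2 - I)⁻¹,
    fam4 (2 + 2 * I)⁻¹, fam4 (3 + I)⁻¹, fam4 (3 - I)⁻¹]

end Pool.Agent.Lib.MP_743898_gt.Cl
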