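import Pool.Agent.Lib.MP_743898_gt.CMain
import Pool.Agent.Lib.MP_743898_gt.CDefsB

set_option autoImplicit false

/-! The closed Tan groups. -/

namespace Pool.Agent.Lib.MP_743898_gt

open M2 Complex Cl

/-- Matrix form of cocompactness. -/
def CC (S : Set M2) : Prop := ∃ R : ℝ, ∀ X, det X = 1 → ∃ Y ∈ S, Bd R (Y * X)

theorem n2_pt {M : M2} (h : det M = 1) :
    n2 M = normSq (pt M).1 / (pt M).2 + (pt M).2 + 1 / (pt M).2 := by
  have h1 := rows_lagrange h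
  have h2 := (nb_pos h).ne'
  have e : n2 M = (normSq M.a + normSq M.b) + nb M := by simp only [n2, nb]; ring
  simp only [pt, normSq_div, normSq_ofReal]
  rw [e]
  field_simp
  linear_combination h1

theorem n2_mul (A X : M2) : n2 (A * X) =
    (normSq A.a + normSq A.c) * (normSq X.a + normSq X.b) + (normSq A.b + normSq A.d) * nb X
      + 2 * ((A.a * (starRingEnd ℂ) A.b + A.c * (starRingEnd ℂ) A.d) * ip X).re := by
  simp only [n2, nb, ip, mul_a, mul_b, mul_c, mul_d, normSq_apply, add_re, add_im, mul_re, mul_im,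
    conj_re, conj_im]
  ring

theorem n2_congr {X X' : M2} (hX : det X = 1) (hX' : det X' = 1) (e : pt X = pt X') (A : M2) :
    n2 (A * X) = n2 (A * X') := by
  have p := nb_pos hX
  have p' := nb_pos hX'
  have e1 : nb X = nb X' := by
    have := congrArg Prod.snd e
    simp only [pt, one_div] at this
    exact inv_injective this
  have e2 : ip X = ip X' := by
    have := congrArg Prod.fst e
    simp only [pt, e1] at this
    have hc : ((nb X' : ℝ) : ℂ) ≠ 0 := by exact_mod_cast p'.ne'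
    exact (div_left_inj' hc).1 this
  have e3 : normSq X.a + normSq X.b = normSq X'.a + normSq X'.b := by
    apply mul_right_cancel₀ p.ne'
    rw [rows_lagrange hX, e1, rows_lagrange hX', e2]
  rw [n2_mul, n2_mul, e1, e2, e3]

theorem cc_of_cocompact {Γ : Subgroup PSL} (h : Cocompact Γ) : CC (lifts Γ) := by
  obtain ⟨K, hK, hp, h⟩ := h
  have hc : ContinuousOn (fun p : ℂ × ℝ => normSq p.1 / p.2 + p.2 + 1 / p.2) K := by
    have h0 : ∀ p ∈ K, p.2 ≠ 0 := fun p hq => (hp p hq).ne'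
    exact (((continuous_normSq.comp continuous_fst).continuousOn.div
      continuous_snd.continuousOn h0).add continuous_snd.continuousOn).add
      (continuousOn_const.div continuous_snd.continuousOn h0)
  obtain ⟨C, hC⟩ := hK.bddAbove_image hc
  refine ⟨C + 1, fun X hX => ?_⟩
  have hq : 0 < (pt X).2 := one_div_pos.2 (nb_pos hX)
  obtain ⟨X', hX', e⟩ := act_eq_pt (pt X) hq
  obtain ⟨A, hA, hAK⟩ := h (pt X) hq
  refine ⟨toM A, ⟨A, hA, rfl⟩, bd_of_n2 ?_⟩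
  have e1 : pt X = pt X' := by
    have := e 1
    rw [toM_one, one_mu] at this
    rw [← this]
    simp [act]
  rw [n2_congr hX hX' e1, n2_pt (by rw [det_mul, toM_det, hX', one_mul]), ← e]
  exact hC ⟨_, hAK, rfl⟩

theorem cocompact_of_cocpt {Γ : Subgroup PSL} {F G : M2}
    (hsub : ∀ A : SL2, Wd F G (toM A) → (A : PSL) ∈ Γ) (h : Cocpt F G) : Cocompact Γ := by
  obtain ⟨R, h⟩ := h
  refine ⟨Metric.closedBall 0 (4 * R ^ 4) ×ˢ Set.Icc (1 / (2 * R ^ 2 + 1)) (2 * R ^ 2),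
    (isCompact_closedBall _ _).prod isCompact_Icc,
    fun p hp => lt_of_lt_of_le (by positivity) hp.2.1, fun p hp => ?_⟩
  obtain ⟨X, hX, e⟩ := act_eq_pt p hp
  obtain ⟨Y, a1, a2, b1, b2, b3, b4⟩ := h X hX
  obtain ⟨A, rfl⟩ := exists_lift a2
  refine ⟨A, hsub A a1, ?_⟩
  rw [e]
  set M := toM A * X with hM
  have hMd : det M = 1 := by rw [hM, det_mul, a2, hX, one_mul]
  have key : ∀ x : ℂ, ‖x‖ ≤ R → normSq x ≤ R ^ 2 := fun x hx => by
    rw [normSq_eq_norm_sq]; exact pow_le_pow_left₀ (norm_nonneg _) hx 2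
  have k1 := key _ b1
  have k2 := key _ b2
  have k3 := key _ b3
  have k4 := key _ b4
  have hL := rows_lagrange hMd
  have hp' := nb_pos hMd
  have k5 : nb M ≤ 2 * R ^ 2 := by unfold nb; linarith
  have k6 : normSq (ip M) + 1 ≤ 2 * R ^ 2 * nb M := by
    rw [← hL]; exact mul_le_mul_of_nonneg_right (by linarith) hp'.le
  have k7 : 1 / nb M ≤ 2 * R ^ 2 := by
    rw [div_le_iff₀ hp']; linarith [normSq_nonneg (ip M)]
  have k8 : ‖ip M‖ ≤ 2 * R ^ 2 := by
    have : ‖ip M‖ ^ 2 ≤ (2 * R ^ 2) ^ 2 := by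
      rw [← normSq_eq_norm_sq]; nlinarith [sq_nonneg R]
    exact (pow_le_pow_iff_left₀ (norm_nonneg _) (by positivity) two_ne_zero).1 this
  refine ⟨?_, ?_, k7⟩
  · simp only [pt, Metric.mem_closedBall, dist_zero_right, norm_div, Complex.norm_real,
      Real.norm_eq_abs, abs_of_pos hp']
    rw [div_eq_mul_one_div]
    calc _ ≤ 2 * R ^ 2 * (2 * R ^ 2) := mul_le_mul k8 k7 (by positivity) (by positivity)
      _ = _ := by ring
  · exact one_div_le_one_div_of_le hp' (by linarith)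

theorem Cocpt.cj {F G P : M2} (hP : det P = 1) (h : Cocpt F G) : Cocpt (cj P F) (cj P G) := by
  obtain ⟨R, h⟩ := h
  obtain ⟨B, hB⟩ := exists_bd (adj P)
  refine ⟨2 * B * R, fun X hX => ?_⟩
  obtain ⟨Y, k1, k2, k3⟩ := h (P * X) (by rw [det_mul, hP, hX, one_mul])
  refine ⟨M2.cj P Y, k1.cj hP, by rw [det_cj hP, k2], ?_⟩
  have : M2.cj P Y * X = adj P * (Y * (P * X)) := by simp only [M2.cj, mul_as]
  rw [this]
  exact hB.mul k3

theorem Cocpt.sub {F G F' G' : M2} (hF : Wd F' G' F) (hG : Wd F' G' G) (h : Cocpt F G) :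
    Cocpt F' G' := by
  obtain ⟨R, h⟩ := h
  refine ⟨R, fun X hX => ?_⟩
  obtain ⟨Y, k1, k2, k3⟩ := h X hX
  exact ⟨Y, Wd.sub hF hG k1, k2, k3⟩

theorem Cm.cocpt {f g F G : M2} (k : Cm f g F G) (h : Cocpt F G) : Cocpt f g := by
  obtain ⟨P, t, u, hP, ht, hu, rfl, rfl⟩ := k
  have hP' : det (adj P) = 1 := by rw [det_adj, hP]
  have e := Eqv.sc f g ht hu
  have := h.cj hP'
  rw [cj_cj _ _ hP, cj_cj _ _ hP] at this
  exact this.sub e.h3 e.h4

theorem cocptA : Cocpt (evM fA) (evM gA) :=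
  cocpt_of_shrinks (shrinks_of_cert fA gA wsA fsA gsA (by decide +kernel) (by decide +kernel)
    (by decide +kernel))

theorem cocptAc : Cocpt (evM fAc) (evM gAc) :=
  cocpt_of_shrinks (shrinks_of_cert fAc gAc wsA fsAc gsAc (by decide +kernel) (by decide +kernel)
    (by decide +kernel))

theorem cocompact_of_cm {Γ : Subgroup PSL} {f g F G : M2} (hR : Rep Γ f g) (hC : Cocpt F G)
    (hm : ∃ f1, Cj f g f1 ∧ Cm f f1 F G) : Cocompact Γ := by
  obtain ⟨f1, h1, h2⟩ := hm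
  exact cocompact_of_cocpt (fun A hA => (hR A).2 hA) ((h2.cocpt hC).sub (Wd.l _ _) h1.wd)

/-- A cocompact discrete group has no parabolic element. -/
theorem no_tl {S : Set M2} (hS : Good S) (hC : CC S) {P : M2} (hP : det P = 1) {k : ℂ}
    (h : cj P (tl k) ∈ S) : k = 0 := by
  by_contra hk
  obtain ⟨R, hR⟩ := hC
  have key : ∀ s : ℝ, 0 < s → s ≤ 1 → ∃ Z ∈ S, Bd (1 + ‖k‖ * R ^ 2) Z ∧ 0 < ‖Z.b‖ + ‖Z.c‖ ∧
      ‖Z.b‖ + ‖Z.c‖ ≤ s * (2 * ‖k‖ * R ^ 2) := by
    intro s hs hs1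
    have hsc : (s : ℂ) ≠ 0 := by exact_mod_cast hs.ne'
    have hD : det (⟨(s : ℂ)⁻¹, 0, 0, s⟩ : M2) = 1 := by simp [det, hsc]
    have hX : det (adj P * ⟨(s : ℂ)⁻¹, 0, 0, s⟩) = 1 := by rw [det_mul, det_adj, hP, hD, one_mul]
    obtain ⟨Y, hY, hB⟩ := hR _ hX
    have dB : det (Y * (adj P * ⟨(s : ℂ)⁻¹, 0, 0, s⟩)) = 1 := by
      rw [det_mul, hS.det hY, hX, one_mul]
    have eY : Y = Y * (adj P * ⟨(s : ℂ)⁻¹, 0, 0, s⟩) * adj (adj P * ⟨(s : ℂ)⁻¹, 0, 0, s⟩) := by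
      rw [mul_as, mul_adj1 hX, mu_one]
    generalize Y * (adj P * ⟨(s : ℂ)⁻¹, 0, 0, s⟩) = B at hB dB eY
    have e1 : adj (adj P * ⟨(s : ℂ)⁻¹, 0, 0, s⟩) * cj P (tl k)
        * (adj P * ⟨(s : ℂ)⁻¹, 0, 0, s⟩) = tl (s ^ 2 * k) := by
      rw [adj_mu, adj_adj, cj]
      simp only [mul_as]
      rw [← mul_as P (adj P), ← mul_as P (adj P), mul_adj1 hP, one_mu, one_mu]
      ext <;> simp [tl, adj, hsc]
      ring
    have eZ : Y * cj P (tl k) * adj Y = B * tl (s ^ 2 * k) * adj B := by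
      rw [← e1]
      conv_lhs => rw [eY, adj_mu B, adj_adj]
      simp only [mul_as]
    have eZ' : B * tl (s ^ 2 * k) * adj B = ⟨1 - s ^ 2 * k * (B.a * B.c), s ^ 2 * k * (B.a * B.a),
        -(s ^ 2 * k * (B.c * B.c)), 1 + s ^ 2 * k * (B.a * B.c)⟩ := by
      simp only [det] at dB
      ext <;> simp only [tl, adj, mul_a, mul_b, mul_c, mul_d]
      · linear_combination dB
      · ring
      · ring
      · linear_combination dB
    obtain ⟨b1, -, b3, -⟩ := hB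
    have hR0 : 0 ≤ R := (norm_nonneg _).trans b1
    have bd : ∀ x y : ℂ, ‖x‖ ≤ R → ‖y‖ ≤ R → ‖(s : ℂ) ^ 2 * k * (x * y)‖ ≤ s * (‖k‖ * R ^ 2) := by
      intro x y hx hy
      rw [norm_mul, norm_mul, norm_mul, norm_pow, Complex.norm_real, Real.norm_eq_abs,
        abs_of_pos hs]
      have h1 : ‖x‖ * ‖y‖ ≤ R ^ 2 := by rw [sq]; exact mul_le_mul hx hy (norm_nonneg _) hR0
      have h2 : s ^ 2 ≤ s := by nlinarith
      calc _ ≤ s * ‖k‖ * R ^ 2 := by gcongr
        _ = _ := by ring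
    have bd' : s * (‖k‖ * R ^ 2) ≤ ‖k‖ * R ^ 2 := by
      have : 0 ≤ ‖k‖ * R ^ 2 := by positivity
      nlinarith
    have c1 := bd _ _ b1 b3
    have c2 := bd _ _ b1 b1
    have c3 := bd _ _ b3 b3
    refine ⟨_, hS.mul (hS.mul hY h) (hS.adj hY), ?_⟩
    rw [eZ, eZ']
    refine ⟨⟨?_, ?_, ?_, ?_⟩, ?_, ?_⟩
    · refine (norm_sub_le _ _).trans ?_
      rw [norm_one]; linarith
    · simp only; linarith
    · simp only [norm_neg]; linarith
    · refine (norm_add_le _ _).trans ?_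
      rw [norm_one]; linarith
    · simp only [norm_neg]
      have hne : B.a ≠ 0 ∨ B.c ≠ 0 := by
        by_contra hc
        push Not at hc
        simp [det, hc.1, hc.2] at dB
      have hsk : (s : ℂ) ^ 2 * k ≠ 0 := mul_ne_zero (pow_ne_zero _ hsc) hk
      rcases hne with h0 | h0
      · exact add_pos_of_pos_of_nonneg (norm_pos_iff.2 (mul_ne_zero hsk (mul_ne_zero h0 h0)))
          (norm_nonneg _)
      · exact add_pos_of_nonneg_of_pos (norm_nonneg _)
          (norm_pos_iff.2 (mul_ne_zero hsk (mul_ne_zero h0 h0)))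
    · simp only [norm_neg]; linarith
  have hfin : {X | X ∈ S ∧ Bd (1 + ‖k‖ * R ^ 2) X ∧ 0 < ‖X.b‖ + ‖X.c‖}.Finite :=
    (hS.fin _).subset fun X hX => ⟨hX.1, hX.2.1⟩
  obtain ⟨Z0, a1, a2, a3, -⟩ := key 1 one_pos le_rfl
  obtain ⟨Z1, b1, b2⟩ := Set.exists_min_image _ (fun X : M2 => ‖X.b‖ + ‖X.c‖) hfin
    ⟨Z0, a1, a2, a3⟩
  have hδ : 0 < ‖Z1.b‖ + ‖Z1.c‖ := b1.2.2
  set δ := ‖Z1.b‖ + ‖Z1.c‖ with hδ'
  have hL : 0 ≤ 2 * ‖k‖ * R ^ 2 := by positivity
  set L := 2 * ‖k‖ * R ^ 2 with hL'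
  obtain ⟨Z, c1, c2, c3, c4⟩ := key (δ / (δ + L + 1)) (by positivity)
    (by rw [div_le_one (by positivity)]; linarith)
  have c5 := (b2 Z ⟨c1, c2, c3⟩).trans c4
  rw [div_mul_eq_mul_div, le_div_iff₀ (by positivity)] at c5
  nlinarith

theorem not_cocompact4 {Γ : Subgroup PSL} (hd : IsDiscrete (Γ : Set PSL)) {μ : ℂ} (h0 : μ ≠ 0)
    (h : Conjugate Γ (fam4 μ)) : ¬ Cocompact Γ := by
  intro hc
  obtain ⟨P, hP, hR⟩ := (conj_iff Γ _ _ (by simp [det, mM]) (by simp [det, mM, h0])).1 h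
  rw [mM_of, mM_of] at hR
  have w : Wd (⟨I, 0, 0, 1⟩ : M2) ⟨1, μ, 1, 0⟩ (tl (-1 + I)) := by
    refine Wd.of_sc (u := -(I * μ)) (neg_ne_zero.2 (mul_ne_zero I_ne_zero h0)) ?_
    have e : sc (-(I * μ)) (tl (-1 + I)) = (⟨I, 0, 0, 1⟩ : M2) * ⟨1, μ, 1, 0⟩ * ⟨I, 0, 0, 1⟩
        * adj ⟨1, μ, 1, 0⟩ := by
      ext <;> simp only [sc, tl, adj, mul_a, mul_b, mul_c, mul_d] <;> ring_nf
    rw [e]
    exact (((Wd.l _ _).mul (Wd.r _ _)).mul (Wd.l _ _)).mul (Wd.r _ _).adj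
  obtain ⟨A, hA⟩ := exists_lift (show det (cj P (tl (-1 + I))) = 1 by
    rw [det_cj hP]; simp [det, tl])
  have := no_tl (grp_lifts hd).good (cc_of_cocompact hc) hP
    ⟨A, (hR A).2 (hA ▸ w.cj hP), hA⟩
  simpa using congrArg Complex.re this

theorem not_cocompactI {Γ : Subgroup PSL} (hd : IsDiscrete (Γ : Set PSL)) {ζ : ℂ}
    (hζ : ζ = I ∨ ζ = -I) (h : Conjugate Γ (grpH ζ)) : ¬ Cocompact Γ := by
  intro hc
  have n1 : 1 + ζ ≠ 0 := by
    intro h0
    rcases hζ with rfl | rfl <;> simpa using congrArg Complex.re h0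
  obtain ⟨f, g, hR, hP⟩ := pairH n1 h
  obtain ⟨f1, h1, P, t, u, dP, ht, hu, e1, e2⟩ := tan_modD hP.df hP.dg hP.tf hP.gm hζ
  have eF : evM fD = ⟨I, 0, 0, 1⟩ := by simp [evM, fD, ev_I, ev_zero, ev_one]
  have eG : evM gD = ⟨1 + I, -I, 1, 0⟩ := by simp [evM, gD, evG]
  have w : Wd (evM fD) (evM gD) (tl (-2)) := by
    refine Wd.of_sc (u := -1) (by norm_num) ?_
    have e : sc (-1) (tl (-2)) = evM fD * evM gD * evM fD * adj (evM gD) := by
      rw [eF, eG]
      ext <;> simp only [sc, tl, adj, mul_a, mul_b, mul_c, mul_d]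
      · linear_combination -I_mul_I
      · linear_combination (2 - I ^ 2) * I_mul_I
      · ring
      · linear_combination -I_mul_I
    rw [e]
    exact (((Wd.l _ _).mul (Wd.r _ _)).mul (Wd.l _ _)).mul (Wd.r _ _).adj
  have dP' : det (adj P) = 1 := by rw [det_adj, dP]
  have w' := w.cj dP'
  rw [← e1, ← e2, cj_cj _ _ dP, cj_cj _ _ dP] at w'
  have e := Eqv.sc (toM f) f1 ht hu
  have w'' : Wd (toM f) (toM g) (cj (adj P) (tl (-2))) :=
    Wd.sub (Wd.l _ _) h1.wd (Wd.sub e.h3 e.h4 w')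
  obtain ⟨A, hA⟩ := exists_lift (show det (cj (adj P) (tl (-2))) = 1 by
    rw [det_cj dP']; simp [det, tl])
  have := no_tl (grp_lifts hd).good (cc_of_cocompact hc) dP' ⟨A, (hR A).2 (hA ▸ w''), hA⟩
  norm_num at this

/-! Classes of squared traces modulo squares. -/

def Cls (Y x : ℂ) : Prop :=
  ∃ k ∈ Kq quadW, x = k ^ 2 ∨ x = 2 * k ^ 2 ∨ x = Y * k ^ 2 ∨ x = 2 * Y * k ^ 2

theorem two_kq : (2 : ℂ) ∈ Kq quadW := ⟨2, 0, by simp⟩

theorem Cls.mul {Y x y : ℂ} (hY : Y ∈ Kq quadW) (hx : Cls Y x) (hy : Cls Y y) : Cls Y (x * y) := by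
  obtain ⟨k, hk, hx⟩ := hx
  obtain ⟨l, hl, hy⟩ := hy
  have m := mul_mem hk hl
  have m2 := mul_mem two_kq m
  have m3 := mul_mem hY m
  have m4 := mul_mem two_kq m3
  rcases hx with rfl | rfl | rfl | rfl <;> rcases hy with rfl | rfl | rfl | rfl
  · exact ⟨_, m, Or.inl (by ring)⟩
  · exact ⟨_, m, Or.inr (Or.inl (by ring))⟩
  · exact ⟨_, m, Or.inr (Or.inr (Or.inl (by ring)))⟩
  · exact ⟨_, m, Or.inr (Or.inr (Or.inr (by ring)))⟩
  · exact ⟨_, m, Or.inr (Or.inl (by ring))⟩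
  · exact ⟨_, m2, Or.inl (by ring)⟩
  · exact ⟨_, m, Or.inr (Or.inr (Or.inr (by ring)))⟩
  · exact ⟨_, m2, Or.inr (Or.inr (Or.inl (by ring)))⟩
  · exact ⟨_, m, Or.inr (Or.inr (Or.inl (by ring)))⟩
  · exact ⟨_, m, Or.inr (Or.inr (Or.inr (by ring)))⟩
  · exact ⟨_, m3, Or.inl (by ring)⟩
  · exact ⟨_, m3, Or.inr (Or.inl (by ring))⟩
  · exact ⟨_, m, Or.inr (Or.inr (Or.inr (by ring)))⟩
  · exact ⟨_, m2, Or.inr (Or.inr (Or.inl (by ring)))⟩
  · exact ⟨_, m3, Or.inr (Or.inl (by ring))⟩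
  · exact ⟨_, m4, Or.inl (by ring)⟩

theorem cls_of_pair {f g : M2} {γ X Y : ℂ} (hP : PP 2 γ f g X Y) (hY0 : Y ≠ 0)
    (hγ : γ ∈ Kq quadW) (hX : X ∈ Kq quadW) (hY : Y ∈ Kq quadW) {Z : M2} (hZ : Wd f g Z)
    (dZ : det Z = 1) : Cls Y (tr Z ^ 2) := by
  have t0 : tr f ≠ 0 := by
    intro h0; have := hP.tf; rw [h0] at this; norm_num at this
  have z0 : tr (f * g) ≠ 0 := by
    intro h0; have := hP.tfg; rw [h0] at this; exact hY0 (by simpa using this.symm)
  have e := Eqv.sc f g t0 (mul_ne_zero t0 z0)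
  have e1 : tr (sc (tr f) f) = 2 := by rw [tr_sc, ← sq, hP.tf]
  have e2 : tr (sc (tr f * tr (f * g)) g) = X + Y - γ - 2 := by
    rw [tr_sc]; linear_combination hP.prod
  have e3 : tr (sc (tr f) f * sc (tr f * tr (f * g)) g) = 2 * Y := by
    rw [sc_mul, mul_sc, sc_sc, tr_sc, ← hP.tf, ← hP.tfg]; ring
  have e4 : det (sc (tr f) f) = 2 := by rw [det_sc, hP.tf, hP.df, mul_one]
  have e5 : det (sc (tr f * tr (f * g)) g) = 2 * Y := by
    rw [det_sc, mul_pow, hP.tf, hP.tfg, hP.dg, mul_one]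
  have hT : Tr (Kq quadW) (sc (tr f) f) (sc (tr f * tr (f * g)) g) :=
    ⟨by rw [e1]; exact two_kq, by rw [e2]; exact sub_mem (sub_mem (add_mem hX hY) hγ) two_kq,
      by rw [e3]; exact mul_mem two_kq hY, by rw [e4]; exact two_kq,
      by rw [e5]; exact mul_mem two_kq hY⟩
  obtain ⟨t, -, W, hW, rfl⟩ := Wd.sub e.h1 e.h2 hZ
  have hd : Cls Y (det W) := by
    clear dZ hZ
    induction hW with
    | one => exact ⟨1, one_mem _, Or.inl (by rw [det_one2]; ring)⟩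
    | l => exact ⟨1, one_mem _, Or.inr (Or.inl (by rw [e4]; ring))⟩
    | r => exact ⟨1, one_mem _, Or.inr (Or.inr (Or.inr (by rw [e5]; ring)))⟩
    | mul _ _ h1 h2 => rw [det_mul]; exact h1.mul hY h2
    | adj _ h1 => rwa [det_adj]
  have k := hW.sp hT
  rw [det_sc] at dZ
  have d0 : det W ≠ 0 := by rintro h0; rw [h0] at dZ; simp at dZ
  have : tr (sc t W) ^ 2 = det W * (tr W * (det W)⁻¹) ^ 2 := by
    rw [tr_sc]; field_simp; linear_combination tr W ^ 2 * dZ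
  rw [this]
  exact hd.mul hY ⟨_, mul_mem (k.tr hT) (Kq_inv _ (k.det hT)), Or.inl rfl⟩

theorem int_sq_ne {m n : ℤ} (hn : n = 3 ∨ n = 6) : m ^ 2 ≠ n := by
  intro h
  have h1 : m ≤ 3 := by rcases hn with rfl | rfl <;> nlinarith
  have h2 : -3 ≤ m := by rcases hn with rfl | rfl <;> nlinarith
  rcases hn with rfl | rfl <;> interval_cases m <;> norm_num at h

theorem rat_sq_ne {q : ℚ} {n : ℤ} (hn : n = 3 ∨ n = 6) : q ^ 2 ≠ n := by
  intro h
  obtain ⟨m, rfl⟩ := rat_sq_int h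
  exact int_sq_ne hn (by exact_mod_cast h)

theorem sq_ne_neg {k : ℂ} (hk : k ∈ Kq quadW) {n : ℤ} (hn : n = 1 ∨ n = 2) : k ^ 2 ≠ -n := by
  obtain ⟨a, b, rfl⟩ := hk
  intro h
  have e : ((a ^ 2 - b ^ 2 + n : ℚ) : ℂ) + ((2 * a * b - b ^ 2 : ℚ) : ℂ) * om = 0 := by
    push_cast; linear_combination h - (b : ℂ) ^ 2 * om_sq
  have e1 : 2 * a * b - b ^ 2 = 0 := by
    have := congrArg Complex.im e
    simp only [add_im, ratCast_im, mul_im, ratCast_re, zero_mul, add_zero, zero_add, zero_im,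
      mul_eq_zero, om_im, or_false] at this
    exact_mod_cast this
  have e2 : a ^ 2 - b ^ 2 + n = 0 := by
    rw [e1] at e
    simp only [Rat.cast_zero, zero_mul, add_zero] at e
    exact_mod_cast e
  have hn' : (0 : ℚ) < n := by rcases hn with rfl | rfl <;> norm_num
  rcases mul_eq_zero.1 (show b * (2 * a - b) = 0 by linear_combination e1) with h0 | h0
  · rw [h0] at e2; nlinarith [sq_nonneg a]
  · refine rat_sq_ne (q := 3 * a) (n := 3 * n) (by omega) ?_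
    have : b = 2 * a := by linarith
    rw [this] at e2
    push_cast; linear_combination (-3) * e2

theorem nsq_om (a b : ℝ) : normSq ((a : ℂ) + b * om) = a ^ 2 - a * b + b ^ 2 := by
  rw [om_eq, zt2, normSq_apply]
  simp only [add_re, ofReal_re, mul_re, sub_re, one_re, ofReal_im, sub_im, one_im, add_im, mul_im]
  linear_combination (b ^ 2 / 4) * s3

theorem norm_ne {x e k : ℂ} (hk : k ∈ Kq quadW) (hx : normSq x = 3)
    (he : normSq e = 1 ∨ normSq e = 4) : x ≠ e * k ^ 2 := by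
  obtain ⟨a, b, rfl⟩ := hk
  intro h
  have h1 := congrArg normSq h
  have h2 := nsq_om a b
  simp only [ofReal_ratCast] at h2
  rw [hx, normSq_mul, map_pow, h2] at h1
  rcases he with he | he <;> rw [he] at h1
  · refine rat_sq_ne (q := a ^ 2 - a * b + b ^ 2) (n := 3) (Or.inl rfl) ?_
    have : ((a ^ 2 - a * b + b ^ 2 : ℚ) : ℝ) ^ 2 = 3 := by push_cast; linarith
    exact_mod_cast this
  · refine rat_sq_ne (q := 2 * (a ^ 2 - a * b + b ^ 2)) (n := 3) (Or.inl rfl) ?_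
    have : ((2 * (a ^ 2 - a * b + b ^ 2) : ℚ) : ℝ) ^ 2 = 3 := by push_cast; linarith
    exact_mod_cast this

theorem om_kq : om ∈ Kq quadW := ⟨0, 1, by simp⟩

theorem not_cls3 {Y x : ℂ} (hx : normSq x = 3) (hY : normSq Y = 1) : ¬ Cls Y x := by
  rintro ⟨k, hk, h | h | h | h⟩
  · exact norm_ne (e := 1) hk hx (Or.inl (by simp)) (by rw [h, one_mul])
  · exact norm_ne (e := 2) hk hx (Or.inr (by norm_num [normSq_apply])) h
  · exact norm_ne hk hx (Or.inl hY) h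
  · exact norm_ne hk hx (Or.inr (by rw [normSq_mul, hY]; norm_num [normSq_apply])) h

theorem neg_sq1 {k : ℂ} (hk : k ∈ Kq quadW) : -om ^ 2 ≠ k ^ 2 := fun h =>
  sq_ne_neg (mul_mem hk (pow_mem om_kq 2)) (n := 1) (Or.inl rfl)
    (by push_cast; linear_combination -om ^ 4 * h - (om ^ 3 + 1) * om_cube)

theorem neg_sq2 {k : ℂ} (hk : k ∈ Kq quadW) : -om ^ 2 ≠ 2 * k ^ 2 := fun h =>
  sq_ne_neg (mul_mem two_kq (mul_mem hk (pow_mem om_kq 2))) (n := 2) (Or.inr rfl)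
    (by push_cast; linear_combination -2 * om ^ 4 * h - 2 * (om ^ 3 + 1) * om_cube)

/-- The squared trace of the product of the two generators. -/
noncomputable def yy : Fin 4 → ℂ := ![om ^ 2, 1 + om, 1 + -om, 1 + -om ^ 2]

theorem nY0 : normSq (om ^ 2) = 1 := by
  have := nsq_om 0 1
  simp only [ofReal_zero, ofReal_one, one_mul, zero_add] at this
  rw [map_pow, this]; norm_num
theorem nY1 : normSq (1 + om) = 1 := by
  have := nsq_om 1 1
  simp only [ofReal_one, one_mul] at this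
  rw [this]; norm_num
theorem nY2 : normSq (1 + -om) = 3 := by
  have := nsq_om 1 (-1)
  simp only [ofReal_one, ofReal_neg, neg_mul, one_mul] at this
  rw [this]; norm_num
theorem nY3 : normSq (1 + -om ^ 2) = 3 := by
  have := nsq_om 2 1
  rw [show 1 + -om ^ 2 = ((2 : ℝ) : ℂ) + ((1 : ℝ) : ℂ) * om by
    push_cast; linear_combination -om_sq, this]
  norm_num

theorem not_cls01 : ¬ Cls (om ^ 2) (1 + om) := by
  have e : 1 + om = -om ^ 2 := by linear_combination om_sq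
  rintro ⟨k, hk, h | h | h | h⟩
  · exact neg_sq1 hk (e ▸ h)
  · exact neg_sq2 hk (e ▸ h)
  · exact neg_sq1 (mul_mem om_kq hk) (by rw [← e, h]; ring)
  · exact neg_sq2 (mul_mem om_kq hk) (by rw [← e, h]; ring)

theorem not_cls23 : ¬ Cls (1 + -om) (1 + -om ^ 2) := by
  have n0 : 1 + -om ≠ 0 := by intro h; have := nY2; rw [h] at this; norm_num at this
  rintro ⟨k, hk, h | h | h | h⟩
  · exact norm_ne (e := 1) hk nY3 (Or.inl (by simp)) (by rw [h, one_mul])
  · exact norm_ne (e := 2) hk nY3 (Or.inr (by norm_num [normSq_apply])) h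
  · exact neg_sq1 hk (mul_left_cancel₀ n0 (by linear_combination h - (1 - om) * om_sq))
  · exact neg_sq2 hk (mul_left_cancel₀ n0 (by linear_combination h - (1 - om) * om_sq))

theorem cls_inj {j k : Fin 4} (h1 : Cls (yy j) (yy k)) (h2 : Cls (yy k) (yy j)) : j = k := by
  fin_cases j <;> fin_cases k <;> first
    | rfl
    | exact absurd h1 not_cls01
    | exact absurd h2 not_cls01
    | exact absurd h1 not_cls23
    | exact absurd h2 not_cls23
    | exact absurd h1 (not_cls3 nY2 nY0)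
    | exact absurd h2 (not_cls3 nY2 nY0)
    | exact absurd h1 (not_cls3 nY3 nY0)
    | exact absurd h2 (not_cls3 nY3 nY0)
    | exact absurd h1 (not_cls3 nY2 nY1)
    | exact absurd h2 (not_cls3 nY2 nY1)
    | exact absurd h1 (not_cls3 nY3 nY1)
    | exact absurd h2 (not_cls3 nY3 nY1)

theorem pairF {Γ : Subgroup PSL} (h : Conjugate Γ grpF) :
    ∃ f g : SL2, Rep Γ (toM f) (toM g) ∧ PP 2 (om - 1) (toM f) (toM g) 2 (om ^ 2) := by
  obtain ⟨f, g, a1, a2, a3, a4, a5⟩ := pair_of_conj (by simp [det, mM]) (by simp [det, mM]) h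
  rw [mM_of] at a2 a3
  rw [mM_of, mM_of] at a4 a5
  refine ⟨f, g, a1, toM_det f, toM_det g, ?_, ?_, ?_, ?_⟩
  · generalize tr (toM f) = x at a2
    simp only [det, tr] at a2
    exact mul_right_cancel₀ I_ne_zero (by linear_combination a2 + I_mul_I)
  · generalize gam (toM f) (toM g) = x at a5
    simp only [gamh, det, tr, adj, mul_a, mul_b, mul_c, mul_d] at a5
    linear_combination -a5 + (x - om ^ 2 + om * I - 2 * om) * I_mul_I + om_sq
  · generalize tr (toM g) = x at a3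
    simp only [det, tr] at a3
    exact mul_right_cancel₀ I_ne_zero (by linear_combination a3 + I_mul_I)
  · generalize tr (toM f * toM g) = x at a4
    simp only [det, tr, mul_a, mul_d] at a4
    linear_combination -a4 + (x ^ 2 - I ^ 2 - 1 + 2 * I * om - om ^ 2) * I_mul_I

theorem yy_ne (k : Fin 4) : yy k ≠ 0 := by
  intro h
  fin_cases k
  · have := nY0; rw [show om ^ 2 = 0 from h] at this; norm_num at this
  · have := nY1; rw [show 1 + om = 0 from h] at this; norm_num at this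
  · have := nY2; rw [show 1 + -om = 0 from h] at this; norm_num at this
  · have := nY3; rw [show 1 + -om ^ 2 = 0 from h] at this; norm_num at this

theorem closed_pair {Γ : Subgroup PSL} {k : Fin 4} (h : Conjugate Γ (closedTan k)) :
    ∃ (f g : SL2) (ζ X : ℂ), Rep Γ (toM f) (toM g) ∧ PP 2 (ζ - 1) (toM f) (toM g) X (yy k) ∧
      X ∈ Kq quadW ∧ (ζ = om ∨ ζ = -om ∨ ζ = -om ^ 2) ∧ yy k ∈ Kq quadW := by
  have o1 := one_mem (Kq quadW)
  fin_cases k
  · obtain ⟨f, g, a, b⟩ := pairF h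
    exact ⟨f, g, _, _, a, b, two_kq, Or.inl rfl, pow_mem om_kq 2⟩
  · obtain ⟨f, g, a, b⟩ := pairH (yy_ne 1) h
    exact ⟨f, g, _, _, a, b, zero_mem _, Or.inl rfl, add_mem o1 om_kq⟩
  · obtain ⟨f, g, a, b⟩ := pairH (yy_ne 2) h
    exact ⟨f, g, _, _, a, b, zero_mem _, Or.inr (Or.inl rfl), add_mem o1 (neg_mem om_kq)⟩
  · obtain ⟨f, g, a, b⟩ := pairH (yy_ne 3) h
    exact ⟨f, g, _, _, a, b, zero_mem _, Or.inr (Or.inr rfl),
      add_mem o1 (neg_mem (pow_mem om_kq 2))⟩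

theorem closed_cocompact {Γ : Subgroup PSL} {k : Fin 4} (h : Conjugate Γ (closedTan k)) :
    Cocompact Γ := by
  obtain ⟨f, g, ζ, X, a, b, -, c | c | c, -⟩ := closed_pair h
  · exact cocompact_of_cm a cocptAc (tan_modAc b.df b.dg b.tf b.gm (Or.inr c))
  · exact cocompact_of_cm a cocptAc (tan_modAc b.df b.dg b.tf b.gm (Or.inl c))
  · exact cocompact_of_cm a cocptA (tan_modA b.df b.dg b.tf b.gm (Or.inl c))

theorem closed_cls {Γ : Subgroup PSL} {j k : Fin 4} (hj : Conjugate Γ (closedTan j))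
    (hk : Conjugate Γ (closedTan k)) : Cls (yy j) (yy k) := by
  obtain ⟨f, g, ζ, X, a, b, c, d, e⟩ := closed_pair hj
  obtain ⟨f', g', ζ', X', a', b', -⟩ := closed_pair hk
  have hζ : ζ - 1 ∈ Kq quadW := by
    refine sub_mem ?_ (one_mem _)
    rcases d with rfl | rfl | rfl
    · exact om_kq
    · exact neg_mem om_kq
    · exact neg_mem (pow_mem om_kq 2)
  have w : Wd (toM f) (toM g) (toM (f' * g')) :=
    (a _).1 ((a' _).2 (by rw [toM_mul]; exact (Wd.l _ _).mul (Wd.r _ _)))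
  have := cls_of_pair b (yy_ne j) hζ c e w (toM_det _)
  rwa [toM_mul, b'.tfg] at this

theorem closed_suff {Γ : Subgroup PSL} {k : Fin 4} (h : Conjugate Γ (closedTan k)) :
    IsOrbifoldGroup Γ ∧ IsTan Γ := by
  fin_cases k
  · exact suffF h
  · exact suffH (ζ := om) (by simp) h
  · exact suffH (ζ := -om) (by simp) h
  · exact suffH (ζ := -om ^ 2) (by simp) h

end Pool.Agent.Lib.MP_743898_gt
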