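import Pool.Agent.Lib.MP_743898_gt.CDefs

set_option autoImplicit false

/-! Conformal maps of the upper half-space preserve hyperbolic volume. -/

namespace Pool.Agent.Lib.MP_743898_gt

open Complex MeasureTheory Cl

abbrev E3 : Type := ℂ × ℝ

theorem finrank_E3 : Module.finrank ℝ E3 = 3 := by
  rw [Module.finrank_prod, Complex.finrank_real_complex, Module.finrank_self]

theorem abs_det_inv (R : E3 →L[ℝ] E3) (h : ∀ v, R (R v) = v) : |R.det| = 1 := by
  have e : (R : E3 →ₗ[ℝ] E3) ∘ₗ (R : E3 →ₗ[ℝ] E3) = LinearMap.id := LinearMap.ext h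
  have := congrArg LinearMap.det e
  rw [LinearMap.det_comp, LinearMap.det_id] at this
  rcases mul_self_eq_one_iff.1 this with h | h <;> rw [ContinuousLinearMap.det, h] <;> simp

theorem abs_det_conf (c : ℝ) (hc : 0 ≤ c) (L R S : E3 →L[ℝ] E3) (hR : ∀ v, R (R v) = v)
    (hS : ∀ v, S (S v) = v) (h : ∀ v, L v = c • R (S v)) : |L.det| = c ^ 3 := by
  have e : (L : E3 →ₗ[ℝ] E3) = c • ((R : E3 →ₗ[ℝ] E3) ∘ₗ (S : E3 →ₗ[ℝ] E3)) := LinearMap.ext h
  have a := abs_det_inv R hR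
  have b := abs_det_inv S hS
  rw [ContinuousLinearMap.det] at a b ⊢
  rw [e, LinearMap.det_smul, LinearMap.det_comp, finrank_E3, abs_mul, abs_mul, a, b,
    abs_of_nonneg (by positivity)]
  ring

/-- The map is injective on the half-space and preserves measurability and volume there. -/
def VP (φ : E3 → E3) : Prop :=
  ∀ D : Set E3, MeasurableSet D → (∀ p ∈ D, 0 < p.2) →
    MeasurableSet (φ '' D) ∧ (∀ p ∈ φ '' D, 0 < p.2) ∧ hvol (φ '' D) = hvol D

theorem VP.comp {φ ψ : E3 → E3} (h1 : VP φ) (h2 : VP ψ) : VP (φ ∘ ψ) := fun D a b => by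
  obtain ⟨a1, a2, a3⟩ := h2 D a b
  obtain ⟨b1, b2, b3⟩ := h1 _ a1 a2
  rw [Set.image_comp]
  exact ⟨b1, b2, b3.trans a3⟩

theorem VP.congr {φ ψ : E3 → E3} (h1 : VP φ) (h : ∀ p : E3, 0 < p.2 → ψ p = φ p) : VP ψ :=
  fun D a b => by
    rw [Set.image_congr fun p hp => h p (b p hp)]
    exact h1 D a b

theorem vp_of (φ : E3 → E3) (c : E3 → ℝ) (L : E3 → E3 →L[ℝ] E3)
    (hd : ∀ p : E3, 0 < p.2 → HasFDerivAt φ (L p) p)
    (hi : ∀ p q : E3, 0 < p.2 → 0 < q.2 → φ p = φ q → p = q)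
    (hc : ∀ p : E3, 0 < p.2 → 0 < c p ∧ |(L p).det| = c p ^ 3 ∧ (φ p).2 = c p * p.2) : VP φ := by
  intro D a b
  have h1 : ∀ p ∈ D, HasFDerivWithinAt φ (L p) D p := fun p hp => (hd p (b p hp)).hasFDerivWithinAt
  have h2 : Set.InjOn φ D := fun p hp q hq => hi p q (b p hp) (b q hq)
  refine ⟨measurable_image_of_fderivWithin a h1 h2, ?_, ?_⟩
  · rintro _ ⟨p, hp, rfl⟩
    rw [(hc p (b p hp)).2.2]
    exact mul_pos (hc p (b p hp)).1 (b p hp)
  · unfold hvol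
    have : (volume : Measure E3).IsAddHaarMeasure := Measure.prod.instIsAddHaarMeasure _ _
    rw [lintegral_image_eq_lintegral_abs_det_fderiv_mul volume a h1 h2]
    refine setLIntegral_congr_fun a fun p hp => ?_
    obtain ⟨c1, c2, c3⟩ := hc p (b p hp)
    have := b p hp
    rw [← ENNReal.ofReal_mul (abs_nonneg _), c2, c3]
    congr 1
    field_simp

/-- `(z, t) ↦ (conj (u z), t)`. -/
noncomputable def rfl3 (u : ℂ) : E3 →L[ℝ] E3 :=
  (((conjCLE : ℂ →L[ℝ] ℂ).comp (ContinuousLinearMap.mul ℝ ℂ u)).prodMap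
    (ContinuousLinearMap.id ℝ ℝ))

theorem rfl3_apply (u : ℂ) (v : E3) : rfl3 u v = ((starRingEnd ℂ) (u * v.1), v.2) := rfl

theorem rfl3_inv {u : ℂ} (hu : ‖u‖ = 1) (v : E3) : rfl3 u (rfl3 u v) = v := by
  rw [rfl3_apply, rfl3_apply]
  refine Prod.ext ?_ rfl
  simp only [map_mul, conj_conj]
  rw [← mul_assoc, conj_mul', hu]; simp

theorem vp_aff (a b : ℂ) (ha : a ≠ 0) : VP fun p => (a * p.1 + b, ‖a‖ * p.2) := by
  have h0 : 0 < ‖a‖ := norm_pos_iff.2 ha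
  have hc : ((‖a‖ : ℝ) : ℂ) ≠ 0 := by exact_mod_cast h0.ne'
  set L : E3 →L[ℝ] E3 := ‖a‖ • (rfl3 1).comp (rfl3 (a / ‖a‖)) with hL
  have e : ∀ v : E3, L v = (a * v.1, ‖a‖ * v.2) := by
    intro v
    simp only [hL, smul_apply, ContinuousLinearMap.comp_apply, rfl3_apply,
      one_mul, conj_conj, Prod.smul_mk, smul_eq_mul, real_smul]
    congr 1
    field_simp
  refine vp_of _ (fun _ => ‖a‖) (fun _ => L) (fun p _ => ?_) (fun p q _ _ h => ?_)
    fun p _ => ⟨h0, abs_det_conf _ h0.le L (rfl3 1) (rfl3 (a / ‖a‖)) (rfl3_inv norm_one)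
      (rfl3_inv (by simp [h0.ne'])) fun _ => rfl, rfl⟩
  · have : (fun p : E3 => (a * p.1 + b, ‖a‖ * p.2)) = fun p => L p + (b, 0) := by
      funext p; rw [e]; simp
    rw [this]
    exact L.hasFDerivAt.add_const _
  · obtain ⟨h1, h2⟩ := Prod.ext_iff.1 h
    exact Prod.ext (mul_left_cancel₀ ha (add_right_cancel h1)) (mul_left_cancel₀ h0.ne' h2)

/-- The squared Euclidean norm. -/
noncomputable def N3 (p : E3) : ℝ := p.1.re ^ 2 + p.1.im ^ 2 + p.2 ^ 2

theorem N3_pos {p : E3} (h : 0 < p.2) : 0 < N3 p := by unfold N3; positivity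

/-- The Euclidean inner product with `p`. -/
noncomputable def B3 (p : E3) : E3 →L[ℝ] ℝ :=
  p.1.re • reCLM.comp (ContinuousLinearMap.fst ℝ ℂ ℝ) +
    p.1.im • imCLM.comp (ContinuousLinearMap.fst ℝ ℂ ℝ) + p.2 • ContinuousLinearMap.snd ℝ ℂ ℝ

theorem B3_apply (p v : E3) : B3 p v = p.1.re * v.1.re + p.1.im * v.1.im + p.2 * v.2 := rfl

theorem B3_self (p : E3) : B3 p p = N3 p := by rw [B3_apply, N3]; ring

theorem hasFDerivAt_N3 (p : E3) : HasFDerivAt N3 ((2 : ℝ) • B3 p) p := by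
  have h1 := (reCLM.comp (ContinuousLinearMap.fst ℝ ℂ ℝ)).hasFDerivAt (x := p)
  have h2 := (imCLM.comp (ContinuousLinearMap.fst ℝ ℂ ℝ)).hasFDerivAt (x := p)
  have h3 := (ContinuousLinearMap.snd ℝ ℂ ℝ).hasFDerivAt (x := p)
  have := ((h1.mul h1).add (h2.mul h2)).add (h3.mul h3)
  refine (this.congr_fderiv (ContinuousLinearMap.ext fun v => ?_)).congr_of_eventuallyEq
    (Filter.Eventually.of_forall fun q => ?_)
  · simp [B3_apply]; ring
  · simp [N3, sq]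

theorem vp_inv : VP fun p => (N3 p)⁻¹ • p := by
  refine vp_of _ (fun p => (N3 p)⁻¹)
    (fun p => (N3 p)⁻¹ • (ContinuousLinearMap.id ℝ E3 - ((2 / N3 p) • B3 p).smulRight p))
    (fun p hp => ?_) (fun p q hp hq h => ?_) fun p hp => ⟨inv_pos.2 (N3_pos hp), ?_, rfl⟩
  · have n := (N3_pos hp).ne'
    have h1 := (hasDerivAt_inv n).comp_hasFDerivAt p (hasFDerivAt_N3 p)
    have := h1.smul (hasFDerivAt_id p)
    refine this.congr_fderiv (ContinuousLinearMap.ext fun v => ?_)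
    simp only [smul_apply, sub_apply,
      ContinuousLinearMap.id_apply, ContinuousLinearMap.smulRight_apply, smul_eq_mul,
      add_apply, Function.comp_apply, id, smul_sub, smul_smul]
    rw [sub_eq_add_neg, ← neg_smul]
    congr 2
    field_simp
  · have key : ∀ p : E3, 0 < p.2 → (N3 ((N3 p)⁻¹ • p))⁻¹ • (N3 p)⁻¹ • p = p := by
      intro p hp
      have n := (N3_pos hp).ne'
      have : N3 ((N3 p)⁻¹ • p) = (N3 p)⁻¹ ^ 2 * N3 p := by
        simp only [N3, Prod.smul_fst, Prod.smul_snd, smul_re, smul_im, smul_eq_mul]; ring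
      rw [this, smul_smul, show ((N3 p)⁻¹ ^ 2 * N3 p)⁻¹ * (N3 p)⁻¹ = 1 by field_simp, one_smul]
    rw [← key p hp, ← key q hq, h]
  · have n := (N3_pos hp).ne'
    refine abs_det_conf _ (inv_pos.2 (N3_pos hp)).le _
      (ContinuousLinearMap.id ℝ E3 - ((2 / N3 p) • B3 p).smulRight p)
      (ContinuousLinearMap.id ℝ E3) (fun v => ?_) (fun _ => rfl) fun _ => rfl
    simp only [smul_apply, sub_apply,
      ContinuousLinearMap.id_apply, ContinuousLinearMap.smulRight_apply, smul_eq_mul, map_sub,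
      map_smul, B3_self]
    rw [div_mul_cancel₀ _ n]
    module

theorem vp_rfl3 {u : ℂ} (hu : ‖u‖ = 1) : VP (rfl3 u) :=
  vp_of _ (fun _ => 1) (fun _ => rfl3 u) (fun _ _ => (rfl3 u).hasFDerivAt)
    (fun p q _ _ h => by rw [← rfl3_inv hu p, h, rfl3_inv hu])
    fun p _ => ⟨one_pos, by rw [abs_det_inv _ (rfl3_inv hu), one_pow], (one_mul _).symm⟩

theorem vp_act (A : SL) : VP (act A) := by
  have hd : A.1 0 0 * A.1 1 1 - A.1 0 1 * A.1 1 0 = 1 := by
    have := A.2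
    rwa [Matrix.det_fin_two] at this
  by_cases hc : A.1 1 0 = 0
  · rw [hc, mul_zero, sub_zero] at hd
    have d0 : A.1 1 1 ≠ 0 := right_ne_zero_of_mul_eq_one hd
    have a0 : A.1 0 0 ≠ 0 := left_ne_zero_of_mul_eq_one hd
    refine (vp_aff (A.1 0 0 / A.1 1 1) (A.1 0 1 / A.1 1 1) (div_ne_zero a0 d0)).congr fun p _ => ?_
    have n : ‖A.1 0 0‖ * ‖A.1 1 1‖ = 1 := by rw [← norm_mul, hd, norm_one]
    have n0 : ‖A.1 1 1‖ ≠ 0 := norm_ne_zero_iff.2 d0
    simp only [act, hc, zero_mul, zero_add, map_zero, mul_zero, add_zero, norm_zero, ne_eq,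
      OfNat.ofNat_ne_zero, not_false_eq_true, zero_pow]
    refine Prod.ext ?_ ?_
    · have c0 : (starRingEnd ℂ) (A.1 1 1) ≠ 0 := by simpa using d0
      simp only
      rw [← normSq_eq_norm_sq, ← mul_conj]
      field_simp
    · simp only
      rw [norm_div]
      field_simp
      linear_combination (-1 : ℝ) * n
  · have k := ((vp_aff 1 (A.1 0 0 / A.1 1 0) one_ne_zero).comp
      ((vp_rfl3 (u := -1) (by simp)).comp (vp_inv.comp
        (vp_aff (A.1 1 0 ^ 2) (A.1 1 0 * A.1 1 1) (pow_ne_zero 2 hc)))))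
    refine k.congr fun p hp => ?_
    have n0 : 0 < ‖A.1 1 0‖ := norm_pos_iff.2 hc
    set Q : ℝ := ‖A.1 1 0 * p.1 + A.1 1 1‖ ^ 2 + ‖A.1 1 0‖ ^ 2 * p.2 ^ 2 with hQ
    have Q0 : 0 < Q := by positivity
    have e : N3 (A.1 1 0 ^ 2 * p.1 + A.1 1 0 * A.1 1 1, ‖A.1 1 0 ^ 2‖ * p.2) =
        ‖A.1 1 0‖ ^ 2 * Q := by
      rw [N3, show A.1 1 0 ^ 2 * p.1 + A.1 1 0 * A.1 1 1 = A.1 1 0 * (A.1 1 0 * p.1 + A.1 1 1) by
        ring]
      simp only
      rw [← normSq_add_mul_I, re_add_im, normSq_eq_norm_sq, norm_mul, norm_pow, hQ]; ring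
    simp only [Function.comp_apply, e, rfl3_apply, act, ← hQ, Prod.smul_fst, Prod.smul_snd,
      smul_eq_mul, real_smul, norm_one, one_mul]
    refine Prod.ext ?_ ?_
    · have c0 : (starRingEnd ℂ) (A.1 1 0) ≠ 0 := by simpa using hc
      have Qc : (Q : ℂ) ≠ 0 := by exact_mod_cast Q0.ne'
      have e1 : ((‖A.1 1 0‖ ^ 2 : ℝ) : ℂ) = A.1 1 0 * (starRingEnd ℂ) (A.1 1 0) := by
        rw [mul_conj, normSq_eq_norm_sq]
      have e2 : (Q : ℂ) = (A.1 1 0 * p.1 + A.1 1 1) * (starRingEnd ℂ) (A.1 1 0 * p.1 + A.1 1 1) +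
          A.1 1 0 * (starRingEnd ℂ) (A.1 1 0) * (p.2 : ℂ) ^ 2 := by
        rw [← e1, mul_conj, normSq_eq_norm_sq, hQ]; push_cast; ring
      simp only [map_mul, map_neg, map_one, conj_ofReal, ofReal_inv, ofReal_mul, e1, map_add,
        map_pow, map_inv₀, conj_conj] at e2 ⊢
      field_simp
      linear_combination (-A.1 0 0) * e2 - ((starRingEnd ℂ) (A.1 1 0) * (starRingEnd ℂ) p.1 +
        (starRingEnd ℂ) (A.1 1 1)) * hd
    · simp only [norm_pow]
      field_simp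

end Pool.Agent.Lib.MP_743898_gt
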