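import Pool.Agent.Lib.MP_743898_gt.CMain
import Pool.Agent.Lib.MP_743898_gt.CJac

set_option autoImplicit false

/-! Being an orbifold group passes to subgroups and overgroups of index at most two; the
Gehring-Martin-Tan partners of groups generated by elements of orders four and two. -/

namespace Pool.Agent.Lib.MP_743898_gt

open M2 Complex Cl MeasureTheory

theorem pt_congr {X X' : M2} (hX : det X = 1) (hX' : det X' = 1) (e : pt X = pt X') (A : M2) :
    pt (A * X) = pt (A * X') := by
  have p := nb_pos hX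
  have p' := nb_pos hX'
  have e1 : nb X = nb X' := by
    have := congrArg Prod.snd e
    simp only [pt, one_div] at this
    exact inv_injective this
  have e2 : ip X = ip X' := by
    have := congrArg Prod.fst e
    simp only [pt, e1] at this
    have hc : ((nb X' : ℝ) : ℂ) ≠ 0 := by exact_mod_cast p'.ne'
    exact (div_left_inj' hc).1 this
  have e3 : normSq X.a + normSq X.b = normSq X'.a + normSq X'.b := by
    apply mul_right_cancel₀ p.ne'
    rw [rows_lagrange hX, e1, rows_lagrange hX', e2]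
  have k1 : ∀ Y : M2, nb (A * Y) = normSq A.c * (normSq Y.a + normSq Y.b) + normSq A.d * nb Y +
      2 * (A.c * (starRingEnd ℂ) A.d * ip Y).re := by
    intro Y
    simp only [nb, ip, mul_c, mul_d, normSq_apply, add_re, add_im, mul_re, mul_im, conj_re, conj_im]
    ring
  have k2 : ∀ Y : M2, ip (A * Y) =
      A.a * (starRingEnd ℂ) A.c * ((normSq Y.a + normSq Y.b : ℝ) : ℂ) +
      A.b * (starRingEnd ℂ) A.d * ((nb Y : ℝ) : ℂ) + A.a * (starRingEnd ℂ) A.d * ip Y +
      A.b * (starRingEnd ℂ) A.c * (starRingEnd ℂ) (ip Y) := by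
    intro Y
    simp only [nb, ip, mul_a, mul_b, mul_c, mul_d, ofReal_add, ← mul_conj, map_add, map_mul,
      conj_conj]
    ring
  simp only [pt, k1, k2, e1, e2, e3]

theorem act_one (p : ℂ × ℝ) : act 1 p = p := by simp [act]

theorem act_mul (A B : SL2) {p : ℂ × ℝ} (hp : 0 < p.2) : act (A * B) p = act A (act B p) := by
  obtain ⟨X, hX, e⟩ := act_eq_pt p hp
  have d : det (toM B * X) = 1 := by rw [det_mul, toM_det, hX, one_mul]
  have hq : 0 < (act B p).2 := by rw [e]; exact one_div_pos.2 (nb_pos d)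
  obtain ⟨X', hX', e'⟩ := act_eq_pt _ hq
  have e1 := e' 1
  rw [act_one, toM_one, one_mu, e] at e1
  rw [e', e, toM_mul, mul_as, pt_congr d hX' e1]

theorem t2_psl : T2Space PSL := by
  have : T2Space SL2 := Matrix.SpecialLinearGroup.isClosedEmbedding_val.isEmbedding.t2Space
  have hf : (Subgroup.center SL2 : Set SL2).Finite := by
    refine (Set.toFinite ({1, -1} : Set SL2)).subset fun A hA => ?_
    obtain ⟨t, ht⟩ := (mk_eq_iff A 1).1 ((QuotientGroup.eq_one_iff A).2 hA)
    have h1 := toM_det A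
    rw [ht, det_sc, toM_det, mul_one] at h1
    rcases sq_eq_one_iff.1 h1 with rfl | rfl
    · left; exact toM_inj (by rw [ht, sc_one])
    · right; refine toM_inj ?_
      rw [ht]; ext <;> simp [toM, sc]
  have : IsClosed (Subgroup.center SL2 : Set SL2) := hf.isClosed
  infer_instance

theorem orb_iff_of_two {N Γ : Subgroup PSL} {t : PSL} (hle : N ≤ Γ)
    (h : ∀ x ∈ Γ, x ∈ N ∨ t * x ∈ N) : IsOrbifoldGroup N ↔ IsOrbifoldGroup Γ := by
  constructor
  · rintro ⟨h1, h2, D, d1, d2, d3, d4⟩
    refine ⟨fun p => (h1 p).mono ?_, ?_, D, d1, d2, d3, fun p hp => ?_⟩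
    · rintro _ ⟨x, rfl⟩
      exact ⟨⟨x.1, hle x.2⟩, rfl⟩
    · rw [isDiscrete_iff_discreteTopology] at h2 ⊢
      have h2' : DiscreteTopology N := h2
      have := t2_psl
      have : Subgroup.IsFiniteRelIndex N Γ := by
        refine ⟨?_⟩
        rw [Subgroup.relIndex, Subgroup.index_ne_zero_iff_finite]
        classical
        refine Finite.of_injective
          (fun q : Γ ⧸ N.subgroupOf Γ => decide ((q.out : PSL) ∈ N)) fun p q hpq => ?_
        rw [← p.out_eq, ← q.out_eq]
        refine QuotientGroup.eq.2 (Subgroup.mem_subgroupOf.2 ?_)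
        have e : ((p.out : Γ) : PSL) ∈ N ↔ ((q.out : Γ) : PSL) ∈ N := by simpa using hpq
        by_cases hp : ((p.out : Γ) : PSL) ∈ N
        · exact N.mul_mem (N.inv_mem hp) (e.1 hp)
        · have a := (h _ (p.out : Γ).2).resolve_left hp
          have b := (h _ (q.out : Γ).2).resolve_left fun hq => hp (e.2 hq)
          simpa [mul_assoc] using N.mul_mem (N.inv_mem a) b
      exact (Subgroup.discreteTopology_iff_of_isFiniteRelIndex hle).1 h2'
    · obtain ⟨g, a, b⟩ := d4 p hp
      exact ⟨g, hle a, b⟩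
  · rintro ⟨h1, h2, D, d1, d2, d3, d4⟩
    obtain ⟨T, rfl⟩ := QuotientGroup.mk_surjective t
    obtain ⟨v1, v2, v3⟩ := vp_act T D d1 d2
    refine ⟨fun p hp => h1 p ?_, h2.mono hle, D ∪ act T '' D, d1.union v1,
      fun p hp => hp.elim (d2 p) (v2 p), ?_, fun p hp => ?_⟩
    · refine (hp.union (hp.image fun q => (T : PSL)⁻¹ • q)).subset ?_
      rintro _ ⟨x, rfl⟩
      rcases h _ x.2 with a | a
      · exact Or.inl ⟨⟨x.1, a⟩, rfl⟩
      · refine Or.inr ⟨_, ⟨⟨_, a⟩, rfl⟩, ?_⟩
        change (T : PSL)⁻¹ • (((T : PSL) * x.1) • p) = x.1 • p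
        rw [← mul_smul, inv_mul_cancel_left]
    · refine (lintegral_union_le _ _ _).trans_lt ?_
      exact ENNReal.add_lt_top.2 ⟨d3, v3.trans_lt d3⟩
    · obtain ⟨g, a, b⟩ := d4 p hp
      rcases h _ a with c | c
      · exact ⟨g, c, Or.inl b⟩
      · exact ⟨T * g, c, Or.inr ⟨_, b, (act_mul T g hp).symm⟩⟩

theorem cover_two {G : Type} [Group G] {N : Subgroup G} {t : G} (ht : t * t = 1) {S : Set G}
    (h1 : ∀ s ∈ S, s ∈ N ∨ t * s ∈ N) (h2 : ∀ x ∈ N, t * x * t ∈ N) :
    ∀ x ∈ Subgroup.closure S, x ∈ N ∨ t * x ∈ N := by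
  have e : ∀ x, t * (t * x) = x := fun x => by rw [← mul_assoc, ht, one_mul]
  intro x hx
  induction hx using Subgroup.closure_induction with
  | mem x hx => exact h1 x hx
  | one => exact Or.inl N.one_mem
  | mul x y _ _ a b =>
    rcases a with a | a <;> rcases b with b | b
    · exact Or.inl (N.mul_mem a b)
    · right; simpa only [mul_assoc, e] using N.mul_mem (h2 x a) b
    · right; simpa only [mul_assoc] using N.mul_mem a b
    · left; simpa only [mul_assoc, e] using N.mul_mem (h2 _ a) b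
  | inv x _ a =>
    rcases a with a | a
    · exact Or.inl (N.inv_mem a)
    · right
      have := h2 _ (N.inv_mem a)
      simpa only [mul_inv_rev, mul_assoc, inv_mul_cancel, mul_one] using this

theorem conj_mem {G : Type} [Group G] {t a b : G} (ht : t * t = 1)
    (ha : t * a * t ∈ Subgroup.closure {a, b}) (hb : t * b * t ∈ Subgroup.closure {a, b}) :
    ∀ x ∈ Subgroup.closure {a, b}, t * x * t ∈ Subgroup.closure {a, b} := by
  have e : ∀ x, t * (t * x) = x := fun x => by rw [← mul_assoc, ht, one_mul]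
  have ti : t⁻¹ = t := inv_eq_of_mul_eq_one_right ht
  intro x hx
  induction hx using Subgroup.closure_induction with
  | mem x hx => rcases hx with rfl | rfl <;> assumption
  | one => rw [mul_one, ht]; exact one_mem _
  | mul x y _ _ a b => simpa only [mul_assoc, e] using mul_mem a b
  | inv x _ a => simpa only [mul_inv_rev, ti, mul_assoc] using inv_mem a

/-- The partner `⟨f, h r⟩` is an orbifold group exactly when `⟨r, h⟩` is. -/
theorem orb_partner {r h f : PSL} (hh : h * h = 1) (hf : f * f = 1) (h1 : f * r * f = r⁻¹)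
    (h2 : f * h = h * f) :
    IsOrbifoldGroup (Subgroup.closure {r, h}) ↔ IsOrbifoldGroup (Subgroup.closure {f, h * r}) := by
  have m1 : ∀ a b : PSL, a ∈ Subgroup.closure {a, b} := fun a b =>
    Subgroup.subset_closure (Set.mem_insert _ _)
  have m2 : ∀ a b : PSL, b ∈ Subgroup.closure {a, b} := fun a b =>
    Subgroup.subset_closure (Set.mem_insert_of_mem _ rfl)
  have e1 : f * h * f = h := by rw [h2, mul_assoc, hf, mul_one]
  have e2 : h * f * h = f := by rw [← h2, mul_assoc, hh, mul_one]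
  have e3 : h * (h * r) * h = (f * (h * r) * f)⁻¹ := by
    have : f * (h * r) * f = h * r⁻¹ := by rw [← h1, ← mul_assoc, h2]; simp only [mul_assoc]
    rw [this, mul_inv_rev, inv_inv, ← mul_assoc, hh, one_mul, inv_eq_of_mul_eq_one_right hh]
  have c : ∀ x ∈ ({f, r, h} : Set PSL), x ∈ Subgroup.closure {f, r, h} := fun x hx =>
    Subgroup.subset_closure hx
  refine (orb_iff_of_two (Γ := Subgroup.closure {f, r, h}) (t := f)
    (Subgroup.closure_mono (Set.subset_insert _ _)) (cover_two hf ?_ ?_)).trans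
    (orb_iff_of_two (t := h) ((Subgroup.closure_le _).2 ?_) (cover_two hh ?_ ?_)).symm
  · rintro s (rfl | rfl | rfl)
    · right; rw [hf]; exact one_mem _
    · exact Or.inl (m1 _ _)
    · exact Or.inl (m2 _ _)
  · exact conj_mem hf (by rw [h1]; exact inv_mem (m1 _ _)) (by rw [e1]; exact m2 _ _)
  · rintro s (rfl | rfl)
    · exact c _ (by simp)
    · exact mul_mem (c _ (by simp)) (c _ (by simp))
  · rintro s (rfl | rfl | rfl)
    · exact Or.inl (m1 _ _)
    · exact Or.inr (m2 _ _)
    · right; rw [hh]; exact one_mem _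
  · exact conj_mem hh (by rw [e2]; exact m1 _ _)
      (by rw [e3]; exact inv_mem (mul_mem (mul_mem (m1 _ _) (m2 _ _)) (m1 _ _)))

theorem mk_eq_one_iff (A : SL2) : (A : PSL) = 1 ↔ ∃ t : ℂ, toM A = sc t one2 := by
  rw [← toM_one]; exact mk_eq_iff A 1

theorem ord2_iff (A : SL2) : orderOf (A : PSL) = 2 ↔ tr (toM A) = 0 := by
  have : Fact (Nat.Prime 2) := ⟨Nat.prime_two⟩
  have hd := toM_det A
  have e : (A : PSL) ^ 2 = ((A * A : SL2) : PSL) := by rw [sq]; rfl
  rw [orderOf_eq_prime_iff, e, Ne, mk_eq_one_iff, mk_eq_one_iff, toM_mul]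
  generalize toM A = X at hd
  simp only [det] at hd
  constructor
  · rintro ⟨⟨t, ht⟩, h⟩
    by_contra h0
    apply h
    have a := congrArg M2.a ht
    have b := congrArg M2.b ht
    have c := congrArg M2.c ht
    have d := congrArg M2.d ht
    simp only [mul_a, mul_b, mul_c, mul_d, sc, one2, tr] at a b c d h0
    refine ⟨X.a, ?_⟩
    ext <;> simp only [sc, one2, mul_one, mul_zero]
    · exact mul_left_cancel₀ h0 (by linear_combination b)
    · exact mul_left_cancel₀ h0 (by linear_combination c)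
    · exact mul_left_cancel₀ h0 (by linear_combination d - a)
  · intro h
    simp only [tr] at h
    refine ⟨⟨-1, ?_⟩, ?_⟩
    · ext <;> simp only [mul_a, mul_b, mul_c, mul_d, sc, one2]
      · linear_combination X.a * h - hd
      · linear_combination X.b * h
      · linear_combination X.c * h
      · linear_combination X.d * h - hd
    · rintro ⟨t, rfl⟩
      simp only [sc, one2, mul_one, mul_zero, sub_zero] at h hd
      have : t = 0 := by linear_combination (1 / 2 : ℂ) * h
      rw [this] at hd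
      simp at hd

theorem ord4_iff {G : Type} [Group G] (x : G) : orderOf x = 4 ↔ orderOf (x * x) = 2 := by
  have : Fact (Nat.Prime 2) := ⟨Nat.prime_two⟩
  rw [← sq]
  constructor
  · intro h
    rw [orderOf_pow' x two_ne_zero, h]; rfl
  · intro h
    obtain ⟨a, b⟩ := orderOf_eq_prime_iff.1 h
    exact orderOf_eq_prime_pow (p := 2) (n := 1) (by simpa using b) (by rw [← pow_mul] at a; exact a)

theorem sq_of_ord {G : Type} [Group G] {x : G} (h : orderOf x = 2) : x * x = 1 := by
  rw [← sq, ← h, pow_orderOf_eq_one]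

/-- The involution that inverts both members of a pair. -/
theorem exists_perp (f g : SL2) (h : gam (toM f) (toM g) ≠ 0) :
    ∃ w : SL2, tr (toM w) = 0 ∧ tr (toM (w * f)) = 0 ∧ tr (toM (w * g)) = 0 := by
  have df := toM_det f
  have dg := toM_det g
  have e : det (ad (toM f * toM g) (sc (-1) (toM g * toM f))) = -gam (toM f) (toM g) := by
    generalize toM f = X at df
    generalize toM g = Y at dg
    simp only [det, gam, tr, ad, sc, adj, mul_a, mul_b, mul_c, mul_d] at df dg ⊢
    linear_combination (2 * (Y.a * Y.d - Y.b * Y.c)) * df + 2 * dg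
  obtain ⟨t, -, ht⟩ := exists_normalize (e ▸ neg_ne_zero.2 h)
  obtain ⟨w, hw⟩ := exists_lift ht
  refine ⟨w, ?_, ?_, ?_⟩ <;>
    simp only [toM_mul, hw, tr, ad, sc, mul_a, mul_b, mul_c, mul_d] <;> ring

theorem perp_unique {f g w w' : SL2} (h : gam (toM f) (toM g) ≠ 0)
    (a : tr (toM w) = 0 ∧ tr (toM (w * f)) = 0 ∧ tr (toM (w * g)) = 0)
    (b : tr (toM w') = 0 ∧ tr (toM (w' * f)) = 0 ∧ tr (toM (w' * g)) = 0) :
    (w' : PSL) = w := by
  rw [← gamh_one (toM_det f) (toM_det g)] at h
  simp only [toM_mul] at a b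
  obtain ⟨a1, a2, a3⟩ := a
  obtain ⟨b1, b2, b3⟩ := b
  have dw := toM_det w
  rw [mk_eq_iff]
  generalize toM w = W at a1 a2 a3 dw
  generalize toM w' = W' at b1 b2 b3
  generalize toM f = X at h a2 b2
  generalize toM g = Y at h a3 b3
  have s0 : tr (W * (X * Y)) ≠ 0 := fun h0 => by
    obtain ⟨c1, c2, c3, c4⟩ := eq_of_traces W X Y h a1 a2 a3 h0
    simp [det, c1, c2] at dw
  have lin : ∀ (u v : ℂ) (Z : M2), tr (ad (sc u W') (sc v W) * Z) =
      u * tr (W' * Z) + v * tr (W * Z) := fun u v Z => by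
    simp only [tr, ad, sc, mul_a, mul_d]; ring
  have lin0 : ∀ u v : ℂ, tr (ad (sc u W') (sc v W)) = u * tr W' + v * tr W := fun u v => by
    simp only [tr, ad, sc]; ring
  obtain ⟨c1, c2, c3, c4⟩ := eq_of_traces
    (ad (sc (tr (W * (X * Y))) W') (sc (-tr (W' * (X * Y))) W)) X Y h
    (by rw [lin0, a1, b1]; ring) (by rw [lin, a2, b2]; ring) (by rw [lin, a3, b3]; ring)
    (by rw [lin]; ring)
  generalize tr (W * (X * Y)) = s at s0 c1 c2 c3 c4
  generalize tr (W' * (X * Y)) = s' at c1 c2 c3 c4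
  simp only [ad, sc] at c1 c2 c3 c4
  refine ⟨s' / s, ?_⟩
  ext <;> simp only [sc] <;> field_simp
  · linear_combination c1
  · linear_combination c2
  · linear_combination c3
  · linear_combination c4

theorem inv_rel {G : Type} [Group G] {f r : G} (h : orderOf (f * r) = 2) : f * r * f = r⁻¹ :=
  eq_inv_of_mul_eq_one_left (by rw [mul_assoc]; exact sq_of_ord h)

theorem comm_rel {G : Type} [Group G] {f h : G} (a : orderOf f = 2) (b : orderOf h = 2)
    (c : orderOf (f * h) = 2) : f * h = h * f := by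
  have e := inv_rel c
  rw [inv_eq_of_mul_eq_one_right (sq_of_ord b)] at e
  calc f * h = f * h * (f * f) := by rw [sq_of_ord a, mul_one]
    _ = h * f := by rw [← mul_assoc, e]

/-- A partner group has a pair with `tr² f = 0`, `tr [f,g] = 0`. -/
theorem partner_pair {r h f : PSL} (a1 : orderOf r = 4) (a2 : orderOf h = 2) (a3 : orderOf f = 2)
    (a4 : orderOf (f * r) = 2) (a5 : orderOf (f * h) = 2) :
    ∃ F K : SL2, Rep (Subgroup.closure {f, h * r}) (toM F) (toM K) ∧ tr (toM F) ^ 2 = 0 ∧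
      gam (toM F) (toM K) = -2 := by
  obtain ⟨F, rfl⟩ := QuotientGroup.mk_surjective f
  obtain ⟨K, hK⟩ := QuotientGroup.mk_surjective (h * r)
  refine ⟨F, K, hK ▸ rep_closure F K, by rw [(ord2_iff F).1 a3]; ring, ?_⟩
  have e : ((F⁻¹ * K⁻¹ * F * K : SL2) : PSL) = r * r := by
    have e1 := inv_rel a4
    have e2 := comm_rel a3 a2 a5
    have e3 := inv_eq_of_mul_eq_one_right (sq_of_ord a3)
    have e4 := inv_eq_of_mul_eq_one_right (sq_of_ord a2)
    have e5 : (F : PSL) * r⁻¹ * F = r := by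
      rw [← e1]; simp only [← mul_assoc]
      rw [sq_of_ord a3, one_mul, mul_assoc, sq_of_ord a3, mul_one]
    change (F : PSL)⁻¹ * (K : PSL)⁻¹ * F * K = _
    rw [hK, e3, mul_inv_rev, e4]
    calc (F : PSL) * (r⁻¹ * h) * F * (h * r) = F * r⁻¹ * (h * F) * (h * r) := by
          simp only [mul_assoc]
      _ = F * r⁻¹ * F * (h * h) * r := by rw [← e2]; simp only [mul_assoc]
      _ = r * r := by rw [e5, sq_of_ord a2, mul_one]
  have := (ord2_iff _).1 (e ▸ (ord4_iff r).1 a1)
  rw [toM_gam, ← toM_tr, this]; ring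

/-- Conversely such a pair generates a partner group. -/
theorem partner_of_pair {F K : SL2} (h1 : tr (toM F) ^ 2 = 0) (h2 : gam (toM F) (toM K) = -2) :
    ∃ r h f : PSL, orderOf r = 4 ∧ orderOf h = 2 ∧ orderOf f = 2 ∧ orderOf (f * r) = 2 ∧
      orderOf (f * h) = 2 ∧
      Subgroup.closure {(F : PSL), (K : PSL)} = Subgroup.closure {f, h * r} := by
  obtain ⟨w, w1, w2, w3⟩ := exists_perp F K (by rw [h2]; norm_num)
  have a1 := (ord2_iff F).2 (pow_eq_zero_iff two_ne_zero |>.1 h1)
  have a2 := (ord2_iff w).2 w1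
  have a3 : orderOf ((w : PSL) * F) = 2 := (ord2_iff _).2 w2
  have a4 : orderOf ((w : PSL) * K) = 2 := (ord2_iff _).2 w3
  have a5 : orderOf ((F⁻¹ * K⁻¹ * F * K : SL2) : PSL) = 2 :=
    (ord2_iff _).2 (by rw [toM_gam, ← toM_tr] at h2; linear_combination h2)
  change orderOf ((F : PSL)⁻¹ * (K : PSL)⁻¹ * F * K) = 2 at a5
  generalize (F : PSL) = f at a1 a3 a5
  generalize (K : PSL) = k at a4 a5
  generalize (w : PSL) = h at a2 a3 a4
  have e1 := comm_rel a2 a1 a3
  have e2 := inv_rel a4
  have e3 := inv_eq_of_mul_eq_one_right (sq_of_ord a1)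
  have cj : ∀ x : PSL, orderOf (f * x * f) = orderOf x := fun x => by
    have := orderOf_injective (MulAut.conj f).toMonoidHom (MulAut.conj f).injective x
    simpa [e3] using this
  have ff : ∀ x, f * (f * x) = x := fun x => by rw [← mul_assoc, sq_of_ord a1, one_mul]
  refine ⟨h * k * f, h, f, ?_, a2, a1, ?_, e1 ▸ a3, ?_⟩
  · rw [ord4_iff]
    refine (congrArg orderOf ?_).trans ((cj _).trans a5)
    rw [e3, ← e2]
    calc h * k * f * (h * k * f) = h * k * (f * h) * k * f := by simp only [mul_assoc]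
      _ = _ := by rw [← e1]; simp only [mul_assoc, ff]
  · rw [← mul_assoc, cj, a4]
  · have e4 : h * (h * k * f) = k * f := by
      simp only [← mul_assoc]; rw [sq_of_ord a2, one_mul]
    rw [e4]
    have m1 : ∀ a b : PSL, a ∈ Subgroup.closure {a, b} := fun a b =>
      Subgroup.subset_closure (Set.mem_insert _ _)
    have m2 : ∀ a b : PSL, b ∈ Subgroup.closure {a, b} := fun a b =>
      Subgroup.subset_closure (Set.mem_insert_of_mem _ rfl)
    refine le_antisymm ((Subgroup.closure_le _).2 ?_) ((Subgroup.closure_le _).2 ?_)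
    · rintro s (rfl | rfl)
      · exact m1 _ _
      · simpa [mul_assoc, sq_of_ord a1] using mul_mem (m2 f (s * f)) (m1 f (s * f))
    · rintro s (rfl | rfl)
      · exact m1 _ _
      · exact mul_mem (m2 _ _) (m1 _ _)

theorem perp_exu {r h : PSL} (a1 : orderOf r = 4) (o : IsOrbifoldGroup (Subgroup.closure {r, h})) :
    ∃! f : PSL, orderOf f = 2 ∧ orderOf (f * r) = 2 ∧ orderOf (f * h) = 2 := by
  obtain ⟨R, rfl⟩ := QuotientGroup.mk_surjective r
  obtain ⟨H, rfl⟩ := QuotientGroup.mk_surjective h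
  have t : tr (toM R) ^ 2 = 2 := by
    have := (ord2_iff (R * R)).1 ((ord4_iff _).1 a1)
    rw [toM_mul, tr_sq _ (toM_det R)] at this
    linear_combination this
  have g : gam (toM R) (toM H) ≠ 0 := fun g => not_elem R H o.1
    ((good_of_discrete _ o.2.1).elem ⟨R, Subgroup.subset_closure (Set.mem_insert _ _), rfl⟩
      ⟨H, Subgroup.subset_closure (Set.mem_insert_of_mem _ rfl), rfl⟩ (by rw [t]; norm_num)
      (Or.inl g))
  obtain ⟨w, w1, w2, w3⟩ := exists_perp R H g
  refine ⟨w, ⟨(ord2_iff _).2 w1, (ord2_iff _).2 w2, (ord2_iff _).2 w3⟩, fun f hf => ?_⟩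
  obtain ⟨w', rfl⟩ := QuotientGroup.mk_surjective f
  exact perp_unique g ⟨w1, w2, w3⟩
    ⟨(ord2_iff _).1 hf.1, (ord2_iff (w' * R)).1 hf.2.1, (ord2_iff (w' * H)).1 hf.2.2⟩

end Pool.Agent.Lib.MP_743898_gt
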