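import Pool.Agent.Lib.MP_743898_gt.Link

-- part Pool.Agent.Lib.MP_743898_gt.CWord
section

set_option autoImplicit false

/-! Words in two matrices, spans, conjugacy of pairs. -/

namespace Pool.Agent.Lib.MP_743898_gt

open M2

def one2 : M2 := ⟨1, 0, 0, 1⟩
def ad (X Y : M2) : M2 := ⟨X.a + Y.a, X.b + Y.b, X.c + Y.c, X.d + Y.d⟩

theorem mul_as (X Y Z : M2) : X * Y * Z = X * (Y * Z) := by
  ext <;> simp only [mul_a, mul_b, mul_c, mul_d] <;> ring
theorem one_mu (X : M2) : one2 * X = X := by ext <;> simp [one2]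
theorem mu_one (X : M2) : X * one2 = X := by ext <;> simp [one2]
theorem mul_adj (X : M2) : X * adj X = sc (det X) one2 := by
  ext <;> simp [one2, adj, sc, det] <;> ring
theorem adj_mul (X : M2) : adj X * X = sc (det X) one2 := by
  ext <;> simp [one2, adj, sc, det] <;> ring
theorem mul_adj1 {X : M2} (h : det X = 1) : X * adj X = one2 := by rw [mul_adj, h, sc_one]
theorem adj_mul1 {X : M2} (h : det X = 1) : adj X * X = one2 := by rw [adj_mul, h, sc_one]
theorem sc_mul (t : ℂ) (X Y : M2) : sc t X * Y = sc t (X * Y) := by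
  ext <;> simp [sc] <;> ring
theorem mul_sc (t : ℂ) (X Y : M2) : X * sc t Y = sc t (X * Y) := by
  ext <;> simp [sc] <;> ring
theorem sc_sc (t u : ℂ) (X : M2) : sc t (sc u X) = sc (t * u) X := by
  ext <;> simp [sc] <;> ring
theorem adj_sc (t : ℂ) (X : M2) : adj (sc t X) = sc t (adj X) := by
  ext <;> simp [sc, adj]
theorem adj_mu (X Y : M2) : adj (X * Y) = adj Y * adj X := by
  ext <;> simp [adj] <;> ring
theorem det_sc (t : ℂ) (X : M2) : det (sc t X) = t ^ 2 * det X := by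
  simp [sc, det]; ring
theorem tr_sc (t : ℂ) (X : M2) : tr (sc t X) = t * tr X := by
  simp [sc, tr]; ring
theorem det_one2 : det one2 = 1 := by simp [det, one2]
theorem adj_one2 : adj one2 = one2 := by ext <;> simp [adj, one2]
theorem cj_sc (P X : M2) (t : ℂ) : cj P (sc t X) = sc t (cj P X) := by
  simp only [cj, mul_sc, sc_mul]
theorem cj_one2 {P : M2} (h : det P = 1) : cj P one2 = one2 := by
  simp only [cj, mu_one, adj_mul1 h]
theorem det_cj {P : M2} (h : det P = 1) (X : M2) : det (cj P X) = det X := by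
  simp only [cj, det_mul, det_adj, h, one_mul, mul_one]
theorem cj_cj2 {P : M2} (h : det P = 1) (X : M2) : cj P (cj (adj P) X) = X := by
  have := cj_cj (adj P) X (by rw [det_adj, h])
  rwa [adj_adj] at this

/-- Words in `F`, `G` and their adjugates. -/
inductive Wd0 (F G : M2) : M2 → Prop
  | one : Wd0 F G one2
  | l : Wd0 F G F
  | r : Wd0 F G G
  | mul {X Y : M2} : Wd0 F G X → Wd0 F G Y → Wd0 F G (X * Y)
  | adj {X : M2} : Wd0 F G X → Wd0 F G (adj X)

/-- Nonzero multiples of words. -/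
def Wd (F G X : M2) : Prop := ∃ t : ℂ, t ≠ 0 ∧ ∃ W, Wd0 F G W ∧ X = sc t W

theorem Wd0.wd {F G X : M2} (h : Wd0 F G X) : Wd F G X := ⟨1, one_ne_zero, X, h, (sc_one X).symm⟩
theorem Wd.one (F G : M2) : Wd F G one2 := Wd0.one.wd
theorem Wd.l (F G : M2) : Wd F G F := Wd0.l.wd
theorem Wd.r (F G : M2) : Wd F G G := Wd0.r.wd
theorem Wd.mul {F G X Y : M2} (hX : Wd F G X) (hY : Wd F G Y) : Wd F G (X * Y) := by
  obtain ⟨t, ht, W, hW, rfl⟩ := hX
  obtain ⟨u, hu, V, hV, rfl⟩ := hY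
  exact ⟨t * u, mul_ne_zero ht hu, W * V, hW.mul hV, by rw [sc_mul, mul_sc, sc_sc]⟩
theorem Wd.adj {F G X : M2} (hX : Wd F G X) : Wd F G (adj X) := by
  obtain ⟨t, ht, W, hW, rfl⟩ := hX
  exact ⟨t, ht, M2.adj W, hW.adj, adj_sc t W⟩
theorem Wd.sc {F G X : M2} (hX : Wd F G X) {u : ℂ} (hu : u ≠ 0) : Wd F G (sc u X) := by
  obtain ⟨t, ht, W, hW, rfl⟩ := hX
  exact ⟨u * t, mul_ne_zero hu ht, W, hW, sc_sc _ _ _⟩
theorem Wd.of_sc {F G X : M2} {u : ℂ} (hu : u ≠ 0) (hX : Wd F G (M2.sc u X)) : Wd F G X := by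
  have := hX.sc (inv_ne_zero hu)
  rwa [sc_sc, inv_mul_cancel₀ hu, sc_one] at this

theorem Wd.sub {F G F' G' : M2} (hF : Wd F' G' F) (hG : Wd F' G' G) {X : M2} (hX : Wd F G X) :
    Wd F' G' X := by
  obtain ⟨t, ht, W, hW, rfl⟩ := hX
  refine Wd.sc ?_ ht
  induction hW with
  | one => exact Wd.one _ _
  | l => exact hF
  | r => exact hG
  | mul _ _ h1 h2 => exact h1.mul h2
  | adj _ h1 => exact h1.adj

theorem Wd0.det_ne {F G : M2} (hF : det F ≠ 0) (hG : det G ≠ 0) {X : M2} (hX : Wd0 F G X) :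
    det X ≠ 0 := by
  induction hX with
  | one => simp [det_one2]
  | l => exact hF
  | r => exact hG
  | mul _ _ h1 h2 => rw [det_mul]; exact mul_ne_zero h1 h2
  | adj _ h1 => rwa [det_adj]

theorem Wd.det_ne {F G : M2} (hF : det F ≠ 0) (hG : det G ≠ 0) {X : M2} (hX : Wd F G X) :
    det X ≠ 0 := by
  obtain ⟨t, ht, W, hW, rfl⟩ := hX
  rw [det_sc]; exact mul_ne_zero (pow_ne_zero _ ht) (hW.det_ne hF hG)

theorem Wd0.det_one {F G : M2} (hF : det F = 1) (hG : det G = 1) {X : M2} (hX : Wd0 F G X) :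
    det X = 1 := by
  induction hX with
  | one => exact det_one2
  | l => exact hF
  | r => exact hG
  | mul _ _ h1 h2 => rw [det_mul, h1, h2, one_mul]
  | adj _ h1 => rwa [det_adj]

theorem Wd.cj {F G P : M2} (hP : det P = 1) {X : M2} (hX : Wd F G X) :
    Wd (cj P F) (cj P G) (cj P X) := by
  obtain ⟨t, ht, W, hW, rfl⟩ := hX
  rw [cj_sc]
  refine Wd.sc ?_ ht
  induction hW with
  | one => rw [cj_one2 hP]; exact Wd.one _ _
  | l => exact Wd.l _ _
  | r => exact Wd.r _ _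
  | mul _ _ h1 h2 => rw [← cj_mul _ _ _ hP]; exact h1.mul h2
  | adj _ h1 => rw [← cj_adj]; exact h1.adj

theorem exists_normalize {X : M2} (h : det X ≠ 0) : ∃ t : ℂ, t ≠ 0 ∧ det (sc t X) = 1 := by
  obtain ⟨t, ht⟩ := IsAlgClosed.exists_eq_mul_self (det X)⁻¹
  refine ⟨t, ?_, ?_⟩
  · rintro rfl
    exact inv_ne_zero h (by simpa using ht)
  · rw [det_sc, sq, ← ht, inv_mul_cancel₀ h]

/-- A set of matrices of determinant one closed under products, inverses and sign. -/
structure Grp (S : Set M2) : Prop where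
  good : Good S
  neg : ∀ X ∈ S, sc (-1) X ∈ S

theorem Grp.cj {S : Set M2} (h : Grp S) {P : M2} (hP : det P = 1) : Grp (M2.cj P '' S) :=
  ⟨h.good.cj P hP, by
    rintro _ ⟨X, hX, rfl⟩
    exact ⟨_, h.neg X hX, cj_sc _ _ _⟩⟩

theorem Grp.wd {S : Set M2} (h : Grp S) {f g : M2} (hf : f ∈ S) (hg : g ∈ S) {X : M2}
    (hX : Wd f g X) (hd : det X = 1) : X ∈ S := by
  obtain ⟨t, ht, W, hW, rfl⟩ := hX
  have hWS : W ∈ S := by
    clear hd
    induction hW with
    | one => rw [← mul_adj1 (h.good.det hf)]; exact h.good.mul hf (h.good.adj hf)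
    | l => exact hf
    | r => exact hg
    | mul _ _ h1 h2 => exact h.good.mul h1 h2
    | adj _ h1 => exact h.good.adj h1
  rw [det_sc, h.good.det hWS, mul_one] at hd
  rcases sq_eq_one_iff.1 hd with rfl | rfl
  · rwa [sc_one]
  · exact h.neg _ hWS

/-- Linear combinations of `1, F, G, FG` with coefficients in `B`. -/
def Sp (B : Subring ℂ) (F G W : M2) : Prop :=
  ∃ a ∈ B, ∃ b ∈ B, ∃ c ∈ B, ∃ d ∈ B,
    W = ad (ad (sc a one2) (sc b F)) (ad (sc c G) (sc d (F * G)))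

structure Tr (B : Subring ℂ) (F G : M2) : Prop where
  tF : tr F ∈ B
  tG : tr G ∈ B
  tFG : tr (F * G) ∈ B
  dF : det F ∈ B
  dG : det G ∈ B

section
variable {B : Subring ℂ} {F G : M2}

theorem Sp.add {X Y : M2} (hX : Sp B F G X) (hY : Sp B F G Y) : Sp B F G (ad X Y) := by
  obtain ⟨a, ha, b, hb, c, hc, d, hd, rfl⟩ := hX
  obtain ⟨a', ha', b', hb', c', hc', d', hd', rfl⟩ := hY
  refine ⟨a + a', add_mem ha ha', b + b', add_mem hb hb', c + c', add_mem hc hc', d + d',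
    add_mem hd hd', ?_⟩
  ext <;> simp [ad, sc, one2] <;> ring

theorem Sp.smul {X : M2} (hX : Sp B F G X) {t : ℂ} (ht : t ∈ B) : Sp B F G (sc t X) := by
  obtain ⟨a, ha, b, hb, c, hc, d, hd, rfl⟩ := hX
  refine ⟨t * a, mul_mem ht ha, t * b, mul_mem ht hb, t * c, mul_mem ht hc, t * d,
    mul_mem ht hd, ?_⟩
  ext <;> simp [ad, sc, one2] <;> ring

theorem Sp.one : Sp B F G one2 :=
  ⟨1, one_mem _, 0, zero_mem _, 0, zero_mem _, 0, zero_mem _, by ext <;> simp [ad, sc, one2]⟩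
theorem Sp.l : Sp B F G F :=
  ⟨0, zero_mem _, 1, one_mem _, 0, zero_mem _, 0, zero_mem _, by ext <;> simp [ad, sc, one2]⟩
theorem Sp.r : Sp B F G G :=
  ⟨0, zero_mem _, 0, zero_mem _, 1, one_mem _, 0, zero_mem _, by ext <;> simp [ad, sc, one2]⟩

theorem Sp.mulF (h : Tr B F G) {X : M2} (hX : Sp B F G X) : Sp B F G (F * X) := by
  obtain ⟨a, ha, b, hb, c, hc, d, hd, rfl⟩ := hX
  refine ⟨-(b * det F), neg_mem (mul_mem hb h.dF), a + b * tr F, add_mem ha (mul_mem hb h.tF),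
    -(d * det F), neg_mem (mul_mem hd h.dF), c + d * tr F, add_mem hc (mul_mem hd h.tF), ?_⟩
  ext <;> simp [ad, sc, one2, det, tr] <;> ring

theorem Sp.mulG (h : Tr B F G) {X : M2} (hX : Sp B F G X) : Sp B F G (G * X) := by
  obtain ⟨a, ha, b, hb, c, hc, d, hd, rfl⟩ := hX
  refine ⟨b * (tr (F * G) - tr F * tr G) - c * det G - d * (tr F * det G),
    sub_mem (sub_mem (mul_mem hb (sub_mem h.tFG (mul_mem h.tF h.tG))) (mul_mem hc h.dG))
      (mul_mem hd (mul_mem h.tF h.dG)),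
    b * tr G + d * det G, add_mem (mul_mem hb h.tG) (mul_mem hd h.dG),
    a + b * tr F + c * tr G + d * tr (F * G),
    add_mem (add_mem (add_mem ha (mul_mem hb h.tF)) (mul_mem hc h.tG)) (mul_mem hd h.tFG),
    -b, neg_mem hb, ?_⟩
  ext <;> simp [ad, sc, one2, det, tr] <;> ring

theorem Sp.mul (h : Tr B F G) {X Y : M2} (hX : Sp B F G X) (hY : Sp B F G Y) :
    Sp B F G (X * Y) := by
  obtain ⟨a, ha, b, hb, c, hc, d, hd, rfl⟩ := hX
  have := ((hY.smul ha).add ((hY.mulF h).smul hb)).add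
    (((hY.mulG h).smul hc).add (((hY.mulG h).mulF h).smul hd))
  convert this using 1
  ext <;> simp [ad, sc, one2] <;> ring

theorem Sp.tr (h : Tr B F G) {X : M2} (hX : Sp B F G X) : tr X ∈ B := by
  obtain ⟨a, ha, b, hb, c, hc, d, hd, rfl⟩ := hX
  have := add_mem (add_mem (add_mem ha ha) (mul_mem hb h.tF))
    (add_mem (mul_mem hc h.tG) (mul_mem hd h.tFG))
  convert this using 1
  simp [ad, sc, one2, M2.tr]; ring

theorem Sp.adj (h : Tr B F G) {X : M2} (hX : Sp B F G X) : Sp B F G (adj X) := by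
  have := (Sp.one.smul (hX.tr h)).add (hX.smul (neg_mem (one_mem B)))
  convert this using 1
  ext <;> simp [ad, sc, one2, M2.tr, M2.adj]

theorem Sp.det (h : Tr B F G) {X : M2} (hX : Sp B F G X) : det X ∈ B := by
  obtain ⟨a, ha, b, hb, c, hc, d, hd, rfl⟩ := hX
  have e : M2.det (ad (ad (sc a one2) (sc b F)) (ad (sc c G) (sc d (F * G)))) =
      a * a + a * b * M2.tr F + a * c * M2.tr G + a * d * M2.tr (F * G) + b * b * M2.det F
      + b * c * (M2.tr F * M2.tr G - M2.tr (F * G)) + b * d * M2.det F * M2.tr G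
      + c * c * M2.det G + c * d * M2.det G * M2.tr F + d * d * M2.det F * M2.det G := by
    simp [ad, sc, one2, M2.tr, M2.det]; ring
  rw [e]
  have h1 := h.tF
  have h2 := h.tG
  have h3 := h.tFG
  have h4 := h.dF
  have h5 := h.dG
  repeat' first | assumption | apply add_mem | apply sub_mem | apply mul_mem

theorem Wd0.sp (h : Tr B F G) {X : M2} (hX : Wd0 F G X) : Sp B F G X := by
  induction hX with
  | one => exact Sp.one
  | l => exact Sp.l
  | r => exact Sp.r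
  | mul _ _ h1 h2 => exact h1.mul h h2
  | adj _ h1 => exact h1.adj h

end

/-- Homogeneous form of `tr [X,Y] - 2`. -/
def gamh (X Y : M2) : ℂ := tr (X * Y * adj X * adj Y) - 2 * det X * det Y

theorem gamh_eq (X Y : M2) : gamh X Y = tr X ^ 2 * det Y + tr Y ^ 2 * det X + tr (X * Y) ^ 2
    - tr X * tr Y * tr (X * Y) - 4 * det X * det Y := by
  simp [gamh, tr, det, adj]; ring

theorem gamh_sc (t u : ℂ) (X Y : M2) : gamh (sc t X) (sc u Y) = t ^ 2 * u ^ 2 * gamh X Y := by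
  simp [gamh, tr, det, adj, sc]; ring

theorem gamh_one {X Y : M2} (hX : det X = 1) (hY : det Y = 1) : gamh X Y = gam X Y := by
  simp [gamh, gam, hX, hY]

theorem gamh_zero (X Y : M2) (p q l m : ℂ) (hpq : p ≠ 0 ∨ q ≠ 0)
    (d1 : X.a * p + X.b * q = m * p) (d2 : X.c * p + X.d * q = m * q)
    (e1 : Y.a * p + Y.b * q = l * p) (e2 : Y.c * p + Y.d * q = l * q) : gamh X Y = 0 := by
  have c1 : ((X * Y).a - (Y * X).a) * p + ((X * Y).b - (Y * X).b) * q = 0 := by
    simp only [mul_a, mul_b]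
    linear_combination X.a * e1 + X.b * e2 + l * d1 - Y.a * d1 - Y.b * d2 - m * e1
  have c2 : ((X * Y).c - (Y * X).c) * p + ((X * Y).d - (Y * X).d) * q = 0 := by
    simp only [mul_c, mul_d]
    linear_combination X.c * e1 + X.d * e2 + l * d2 - Y.c * d1 - Y.d * d2 - m * e2
  have e : gamh X Y = -(((X * Y).a - (Y * X).a) * ((X * Y).d - (Y * X).d)
      - ((X * Y).b - (Y * X).b) * ((X * Y).c - (Y * X).c)) := by
    simp [gamh, tr, det, adj]; ring
  rcases hpq with hp | hq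
  · apply mul_left_cancel₀ hp
    rw [e]
    linear_combination -((X * Y).d - (Y * X).d) * c1 + ((X * Y).b - (Y * X).b) * c2
  · apply mul_left_cancel₀ hq
    rw [e]
    linear_combination ((X * Y).c - (Y * X).c) * c1 - ((X * Y).a - (Y * X).a) * c2

theorem normal_pair (X Y : M2) (h : gamh X Y ≠ 0) (l : ℂ)
    (hl : l ^ 2 - tr Y * l + det Y = 0) :
    ∃ P, det P ≠ 0 ∧ X * P = P * ⟨0, -det X, 1, tr X⟩ ∧
      Y * P = P * ⟨l, tr (X * Y) - tr X * (tr Y - l), 0, tr Y - l⟩ := by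
  have hv : ∃ p q : ℂ, (p ≠ 0 ∨ q ≠ 0) ∧ Y.a * p + Y.b * q = l * p ∧ Y.c * p + Y.d * q = l * q := by
    simp only [tr, det] at hl
    by_cases h1 : Y.b = 0 ∧ l - Y.a = 0
    · by_cases h2 : l - Y.d = 0 ∧ Y.c = 0
      · exact ⟨1, 0, Or.inl one_ne_zero, by linear_combination -h1.2, by linear_combination h2.2⟩
      · refine ⟨l - Y.d, Y.c, by tauto, by linear_combination -hl, by ring⟩
    · refine ⟨Y.b, l - Y.a, by tauto, by ring, by linear_combination -hl⟩
  obtain ⟨p, q, hpq, e1, e2⟩ := hv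
  have hd : p * (X.c * p + X.d * q) - (X.a * p + X.b * q) * q ≠ 0 := by
    intro h0
    apply h
    rcases hpq with hp | hq
    · refine gamh_zero X Y p q l ((X.a * p + X.b * q) / p) (Or.inl hp) (by field_simp) ?_ e1 e2
      field_simp
      linear_combination h0
    · refine gamh_zero X Y p q l ((X.c * p + X.d * q) / q) (Or.inr hq) ?_ (by field_simp) e1 e2
      field_simp
      linear_combination -h0
  refine ⟨⟨p, X.a * p + X.b * q, q, X.c * p + X.d * q⟩, by simpa [det] using hd, ?_, ?_⟩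
  · ext <;> simp [det, tr] <;> ring
  · ext
    · simp only [mul_a]; linear_combination e1
    · simp only [mul_b, tr, mul_a, mul_d]; linear_combination X.d * e1 - X.b * e2
    · simp only [mul_c]; linear_combination e2
    · simp only [mul_d, tr, mul_a]; linear_combination -X.c * e1 + X.a * e2

theorem cj_of_comm {X N P : M2} (hP : det P ≠ 0) (h : X * P = P * N) {t : ℂ}
    (ht : det (sc t P) = 1) : cj (sc t P) X = N := by
  have : cj (sc t P) X = adj (sc t P) * (sc t P) * N := by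
    simp only [cj]
    rw [mul_as, mul_as, mul_sc, h, sc_mul]
  rw [this, adj_mul1 ht, one_mu]

/-- Irreducible pairs with the same traces and determinants are conjugate. -/
theorem conj_pair (X Y X' Y' : M2) (h : gamh X Y ≠ 0) (h1 : tr X = tr X') (h2 : det X = det X')
    (h3 : tr Y = tr Y') (h4 : det Y = det Y') (h5 : tr (X * Y) = tr (X' * Y')) :
    ∃ P, det P = 1 ∧ cj P X = X' ∧ cj P Y = Y' := by
  have h' : gamh X' Y' ≠ 0 := by
    rw [gamh_eq] at h ⊢
    rwa [← h1, ← h2, ← h3, ← h4, ← h5]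
  obtain ⟨l, hl⟩ : ∃ l : ℂ, l ^ 2 - tr Y * l + det Y = 0 := by
    obtain ⟨s, hs⟩ := IsAlgClosed.exists_eq_mul_self (tr Y ^ 2 - 4 * det Y)
    exact ⟨(tr Y + s) / 2, by linear_combination (-1 / 4 : ℂ) * hs⟩
  obtain ⟨P, hP, k1, k2⟩ := normal_pair X Y h l hl
  obtain ⟨Q, hQ, k3, k4⟩ := normal_pair X' Y' h' l (by rwa [← h3, ← h4])
  obtain ⟨t, _, ht⟩ := exists_normalize hP
  obtain ⟨u, _, hu⟩ := exists_normalize hQ
  refine ⟨sc t P * adj (sc u Q), by rw [det_mul, det_adj, ht, hu, one_mul], ?_, ?_⟩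
  · rw [← cj_cj', cj_of_comm hP k1 ht, h1, h2, ← cj_of_comm hQ k3 hu, cj_cj _ _ hu]
  · rw [← cj_cj', cj_of_comm hP k2 ht, h1, h3, h5, ← cj_of_comm hQ k4 hu, cj_cj _ _ hu]

/-- A pair of determinant one is conjugate to multiples of a model pair when the squared traces
and the commutator trace agree. -/
theorem conj_model (f g F G : M2) (hf : det f = 1) (hg : det g = 1) (hF : det F ≠ 0)
    (hG : det G ≠ 0) (h0 : gam f g ≠ 0) (hx : tr f ^ 2 * det F = tr F ^ 2)
    (hy : tr g ^ 2 * det G = tr G ^ 2) (hz : tr (f * g) ^ 2 * (det F * det G) = tr (F * G) ^ 2)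
    (hc : gam f g * (det F * det G) = gamh F G) :
    ∃ P t u, det P = 1 ∧ t ≠ 0 ∧ u ≠ 0 ∧ cj P (sc t f) = F ∧ cj P (sc u g) = G := by
  obtain ⟨t, ht⟩ := IsAlgClosed.exists_eq_mul_self (det F)
  obtain ⟨u, hu⟩ := IsAlgClosed.exists_eq_mul_self (det G)
  have ht0 : t ≠ 0 := by rintro rfl; exact hF (by simpa using ht)
  have hu0 : u ≠ 0 := by rintro rfl; exact hG (by simpa using hu)
  have hT : (t * tr f) * (u * tr g) * (t * u * tr (f * g)) = tr F * tr G * tr (F * G) := by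
    rw [gamh_eq, fricke _ _ hf hg] at hc
    rw [ht, hu] at hc hz
    rw [ht] at hx
    rw [hu] at hy
    linear_combination -hc + u * u * hx + t * t * hy + hz
  have key : ∀ t u : ℂ, t ≠ 0 → u ≠ 0 → det F = t * t → det G = u * u → t * tr f = tr F →
      u * tr g = tr G → t * u * tr (f * g) = tr (F * G) →
      ∃ P t u, det P = 1 ∧ t ≠ 0 ∧ u ≠ 0 ∧ cj P (sc t f) = F ∧ cj P (sc u g) = G := by
    intro t u ht0 hu0 ht hu a1 a2 a3
    obtain ⟨P, hP, k1, k2⟩ := conj_pair (sc t f) (sc u g) F G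
      (by rw [gamh_sc, gamh_one hf hg]
          exact mul_ne_zero (mul_ne_zero (pow_ne_zero _ ht0) (pow_ne_zero _ hu0)) h0)
      (by rw [tr_sc, a1]) (by rw [det_sc, hf, ht]; ring) (by rw [tr_sc, a2])
      (by rw [det_sc, hg, hu]; ring) (by rw [sc_mul, mul_sc, sc_sc, tr_sc, a3])
    exact ⟨P, t, u, hP, ht0, hu0, k1, k2⟩
  have s1 : t * tr f = tr F ∨ -t * tr f = tr F := by
    have : (t * tr f - tr F) * (-t * tr f - tr F) = 0 := by
      rw [ht] at hx; linear_combination -hx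
    simpa only [mul_eq_zero, sub_eq_zero] using this
  have s2 : u * tr g = tr G ∨ -u * tr g = tr G := by
    have : (u * tr g - tr G) * (-u * tr g - tr G) = 0 := by
      rw [hu] at hy; linear_combination -hy
    simpa only [mul_eq_zero, sub_eq_zero] using this
  have s3 : ∀ t u : ℂ, det F = t * t → det G = u * u →
      t * u * tr (f * g) = tr (F * G) ∨ -(t * u * tr (f * g)) = tr (F * G) := by
    intro t u ht hu
    have : (t * u * tr (f * g) - tr (F * G)) * (-(t * u * tr (f * g)) - tr (F * G)) = 0 := by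
      rw [ht, hu] at hz; linear_combination -hz
    simpa only [mul_eq_zero, sub_eq_zero] using this
  have main : ∀ t u : ℂ, t ≠ 0 → u ≠ 0 → det F = t * t → det G = u * u → t * tr f = tr F →
      u * tr g = tr G →
      (t * tr f) * (u * tr g) * (t * u * tr (f * g)) = tr F * tr G * tr (F * G) →
      ∃ P t u, det P = 1 ∧ t ≠ 0 ∧ u ≠ 0 ∧ cj P (sc t f) = F ∧ cj P (sc u g) = G := by
    intro t u ht0 hu0 ht hu a1 a2 a3
    rcases s3 t u ht hu with a4 | a4
    · exact key t u ht0 hu0 ht hu a1 a2 a4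
    · by_cases b1 : tr F = 0
      · refine key (-t) u (neg_ne_zero.2 ht0) hu0 (by rw [ht]; ring) hu ?_ a2
          (by linear_combination a4)
        rw [b1] at a1 ⊢; linear_combination -a1
      · by_cases b2 : tr G = 0
        · refine key t (-u) ht0 (neg_ne_zero.2 hu0) ht (by rw [hu]; ring) a1 ?_
            (by linear_combination a4)
          rw [b2] at a2 ⊢; linear_combination -a2
        · rw [a1, a2] at a3
          exact key t u ht0 hu0 ht hu a1 a2 (mul_left_cancel₀ (mul_ne_zero b1 b2) a3)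
  rcases s1 with s1 | s1 <;> rcases s2 with s2 | s2
  · exact main t u ht0 hu0 ht hu s1 s2 hT
  · exact main t (-u) ht0 (neg_ne_zero.2 hu0) ht (by rw [hu]; ring) s1 s2
      (by linear_combination hT)
  · exact main (-t) u (neg_ne_zero.2 ht0) hu0 (by rw [ht]; ring) hu s1 s2
      (by linear_combination hT)
  · exact main (-t) (-u) (neg_ne_zero.2 ht0) (neg_ne_zero.2 hu0) (by rw [ht]; ring)
      (by rw [hu]; ring) s1 s2 (by linear_combination hT)

end Pool.Agent.Lib.MP_743898_gt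
end

-- part Pool.Agent.Lib.MP_743898_gt.CZ
section

set_option autoImplicit false

/-! Exact arithmetic in the ring of integers of the twelfth cyclotomic field. -/

namespace Pool.Agent.Lib.MP_743898_gt

open M2 Complex

structure Z12 where
  a : ℤ
  b : ℤ
  c : ℤ
  d : ℤ

namespace Z12

def add (x y : Z12) : Z12 := ⟨x.a + y.a, x.b + y.b, x.c + y.c, x.d + y.d⟩
def neg (x : Z12) : Z12 := ⟨-x.a, -x.b, -x.c, -x.d⟩
def mul (x y : Z12) : Z12 :=
  ⟨x.a * y.a - (x.b * y.d + x.c * y.c + x.d * y.b) - x.d * y.d,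
   x.a * y.b + x.b * y.a - (x.c * y.d + x.d * y.c),
   x.a * y.c + x.b * y.b + x.c * y.a + (x.b * y.d + x.c * y.c + x.d * y.b),
   x.a * y.d + x.b * y.c + x.c * y.b + x.d * y.a + (x.c * y.d + x.d * y.c)⟩
def cnj (x : Z12) : Z12 := ⟨x.a + x.c, x.b, -x.c, -x.b - x.d⟩
def beq (x y : Z12) : Bool := x.a == y.a && x.b == y.b && x.c == y.c && x.d == y.d
def lo (x : Z12) : ℤ := 1000 * (2 * x.a + x.c) + (if 0 ≤ x.b then x.b * 1732 else x.b * 1733)
def hi (x : Z12) : ℤ := 1000 * (2 * x.a + x.c) + (if 0 ≤ x.b then x.b * 1733 else x.b * 1732)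
def nz (x : Z12) : Bool := decide (0 < lo (mul x (cnj x)))

theorem eq_of_beq {x y : Z12} (h : beq x y = true) : x = y := by
  cases x; cases y
  simp only [beq, Bool.and_eq_true, beq_iff_eq] at h
  obtain ⟨⟨⟨h1, h2⟩, h3⟩, h4⟩ := h
  simp_all

end Z12

noncomputable def zt : ℂ := ⟨√3 / 2, 1 / 2⟩

theorem s3 : (√3 : ℝ) * √3 = 3 := Real.mul_self_sqrt (by norm_num)

theorem zt2 : zt ^ 2 = ⟨1 / 2, √3 / 2⟩ := by
  apply Complex.ext <;> simp [zt, sq] <;> nlinarith [s3]
theorem zt3 : zt ^ 3 = I := by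
  rw [pow_succ, zt2]
  apply Complex.ext <;> simp [zt] <;> nlinarith [s3]
theorem zt4 : zt ^ 4 - zt ^ 2 + 1 = 0 := by
  rw [pow_succ, zt3, zt2]
  apply Complex.ext <;> (simp [zt]; try norm_num)

noncomputable def ev (x : Z12) : ℂ := x.a + x.b * zt + x.c * zt ^ 2 + x.d * zt ^ 3

theorem ev_add (x y : Z12) : ev (x.add y) = ev x + ev y := by
  simp only [ev, Z12.add]; push_cast; ring
theorem ev_neg (x : Z12) : ev x.neg = -ev x := by
  simp only [ev, Z12.neg]; push_cast; ring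
theorem ev_mul (x y : Z12) : ev (x.mul y) = ev x * ev y := by
  simp only [ev, Z12.mul]; push_cast
  linear_combination (-(x.b * y.d + x.c * y.c + x.d * y.b : ℂ)
    - (x.c * y.d + x.d * y.c : ℂ) * zt - (x.d * y.d : ℂ) * (zt ^ 2 + 1)) * zt4
theorem ev_re (x : Z12) : 2 * (ev x).re = 2 * x.a + x.c + x.b * √3 := by
  simp only [ev, zt3, zt2]
  simp [zt]; ring
theorem ev_im (x : Z12) : 2 * (ev x).im = x.b + 2 * x.d + x.c * √3 := by
  simp only [ev, zt3, zt2]
  simp [zt]; ring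
theorem ev_cnj (x : Z12) : ev x.cnj = (starRingEnd ℂ) (ev x) := by
  have h1 := ev_re x
  have h2 := ev_im x
  have h3 := ev_re x.cnj
  have h4 := ev_im x.cnj
  simp only [Z12.cnj] at h3 h4 ⊢
  push_cast at h3 h4
  apply Complex.ext
  · rw [conj_re]; linarith
  · rw [conj_im]; linarith

theorem s3_lo : (1732 : ℝ) ≤ 1000 * √3 := by
  have := Real.sqrt_nonneg 3
  nlinarith [s3]
theorem s3_hi : 1000 * √3 ≤ (1733 : ℝ) := by
  have := Real.sqrt_nonneg 3
  nlinarith [s3]

theorem lo_le (x : Z12) : (x.lo : ℝ) ≤ 2000 * (ev x).re := by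
  have h := ev_re x
  have h1 := s3_lo
  have h2 := s3_hi
  unfold Z12.lo
  split_ifs with hb
  · have : (0 : ℝ) ≤ x.b := by exact_mod_cast hb
    push_cast; nlinarith
  · have : (x.b : ℝ) ≤ 0 := by exact_mod_cast (not_le.1 hb).le
    push_cast; nlinarith

theorem le_hi (x : Z12) : 2000 * (ev x).re ≤ (x.hi : ℝ) := by
  have h := ev_re x
  have h1 := s3_lo
  have h2 := s3_hi
  unfold Z12.hi
  split_ifs with hb
  · have : (0 : ℝ) ≤ x.b := by exact_mod_cast hb
    push_cast; nlinarith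
  · have : (x.b : ℝ) ≤ 0 := by exact_mod_cast (not_le.1 hb).le
    push_cast; nlinarith

theorem ev_nsq (x : Z12) : (ev (x.mul x.cnj)).re = normSq (ev x) := by
  rw [ev_mul, ev_cnj, mul_conj]; simp

theorem ev_ne {x : Z12} (h : x.nz = true) : ev x ≠ 0 := by
  intro h0
  have h1 := lo_le (x.mul x.cnj)
  rw [ev_nsq, h0, normSq_zero] at h1
  have h2 : (0 : ℝ) < (x.mul x.cnj).lo := by exact_mod_cast of_decide_eq_true h
  linarith

structure ZM where
  a : Z12
  b : Z12
  c : Z12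
  d : Z12

namespace ZM

def mul (X Y : ZM) : ZM :=
  ⟨(X.a.mul Y.a).add (X.b.mul Y.c), (X.a.mul Y.b).add (X.b.mul Y.d),
   (X.c.mul Y.a).add (X.d.mul Y.c), (X.c.mul Y.b).add (X.d.mul Y.d)⟩
def adj (X : ZM) : ZM := ⟨X.d, X.b.neg, X.c.neg, X.a⟩
def det (X : ZM) : Z12 := (X.a.mul X.d).add (X.b.mul X.c).neg
def tr (X : ZM) : Z12 := X.a.add X.d
def one : ZM := ⟨⟨1, 0, 0, 0⟩, ⟨0, 0, 0, 0⟩, ⟨0, 0, 0, 0⟩, ⟨1, 0, 0, 0⟩⟩
def sw (X : ZM) : ZM := ⟨X.b, X.a, X.d, X.c⟩
def cnj (X : ZM) : ZM := ⟨X.a.cnj, X.b.cnj, X.c.cnj, X.d.cnj⟩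
def letter (F G : ZM) : ℕ → ZM
  | 0 => F
  | 1 => G
  | 2 => F.adj
  | _ => G.adj
def word (F G : ZM) : List ℕ → ZM
  | [] => one
  | i :: w => (letter F G i).mul (word F G w)
/-- `A` is proportional to `B`. -/
def prop (A B : ZM) : Bool :=
  (A.mul B.adj).b.beq ⟨0, 0, 0, 0⟩ && (A.mul B.adj).c.beq ⟨0, 0, 0, 0⟩ &&
    (A.mul B.adj).a.beq (A.mul B.adj).d && A.det.nz && B.det.nz

end ZM

noncomputable def evM (X : ZM) : M2 := ⟨ev X.a, ev X.b, ev X.c, ev X.d⟩

theorem evM_mul (X Y : ZM) : evM (X.mul Y) = evM X * evM Y := by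
  ext <;> simp [evM, ZM.mul, ev_add, ev_mul]
theorem evM_adj (X : ZM) : evM X.adj = adj (evM X) := by
  ext <;> simp [evM, ZM.adj, adj, ev_neg]
theorem evM_det (X : ZM) : det (evM X) = ev X.det := by
  simp [evM, ZM.det, det, ev_add, ev_mul, ev_neg]; ring
theorem evM_tr (X : ZM) : tr (evM X) = ev X.tr := by
  simp [evM, ZM.tr, tr, ev_add]
theorem ev_zero : ev ⟨0, 0, 0, 0⟩ = 0 := by simp [ev]
theorem ev_one : ev ⟨1, 0, 0, 0⟩ = 1 := by simp [ev]
theorem evM_one : evM ZM.one = one2 := by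
  ext <;> simp [evM, ZM.one, one2, ev_zero, ev_one]

theorem wd0_word (F G : ZM) (w : List ℕ) : Wd0 (evM F) (evM G) (evM (ZM.word F G w)) := by
  induction w with
  | nil => rw [ZM.word, evM_one]; exact Wd0.one
  | cons i w ih =>
    rw [ZM.word, evM_mul]
    refine Wd0.mul ?_ ih
    match i with
    | 0 => exact Wd0.l
    | 1 => exact Wd0.r
    | 2 => rw [ZM.letter, evM_adj]; exact Wd0.l.adj
    | n + 3 => rw [ZM.letter, evM_adj] <;> first | exact Wd0.r.adj | omega

theorem prop_sound {A B : ZM} (h : A.prop B = true) :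
    ∃ t : ℂ, t ≠ 0 ∧ evM A = sc t (evM B) := by
  simp only [ZM.prop, Bool.and_eq_true] at h
  obtain ⟨⟨⟨⟨h1, h2⟩, h3⟩, h4⟩, h5⟩ := h
  have k1 := congrArg ev (Z12.eq_of_beq h1)
  have k2 := congrArg ev (Z12.eq_of_beq h2)
  have k3 := congrArg ev (Z12.eq_of_beq h3)
  have k4 := ev_ne h4
  have k5 := ev_ne h5
  rw [← evM_det] at k4 k5
  have e : evM A * adj (evM B) = sc (ev (A.mul B.adj).a) one2 := by
    rw [← evM_adj, ← evM_mul]
    ext <;> simp [evM, sc, one2, k1, k2, k3, ev_zero]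
  have e2 : sc (det (evM B)) (evM A) = sc (ev (A.mul B.adj).a) (evM B) := by
    have := congrArg (· * evM B) e
    simp only [mul_as, adj_mul, mul_sc, mu_one, sc_mul, one_mu] at this
    exact this
  have e3 : evM A = sc ((det (evM B))⁻¹ * ev (A.mul B.adj).a) (evM B) := by
    rw [← sc_sc, ← e2, sc_sc, inv_mul_cancel₀ k5, sc_one]
  refine ⟨_, ?_, e3⟩
  intro h0
  apply k4
  rw [e3, h0, det_sc]; simp

theorem wd_of_prop {F G A : ZM} {w : List ℕ} (h : A.prop (ZM.word F G w) = true) :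
    Wd (evM F) (evM G) (evM A) := by
  obtain ⟨t, ht, e⟩ := prop_sound h
  rw [e]; exact (wd0_word F G w).wd.sc ht

/-! Covering the projective line by discs. -/

structure Form where
  A : ℤ
  B1 : ℤ
  B2 : ℤ
  C : ℤ

def Form.beq (x y : Form) : Bool := x.A == y.A && x.B1 == y.B1 && x.B2 == y.B2 && x.C == y.C

def h12 (W : ZM) : Z12 := (W.a.mul W.b.cnj).add (W.c.mul W.d.cnj)
def ih12 (W : ZM) : Z12 := Z12.mul ⟨0, 0, 0, 1⟩ (h12 W)

def form (W : ZM) (m : ℤ) : Form :=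
  ⟨((W.a.mul W.a.cnj).add (W.c.mul W.c.cnj)).hi - m, 2 * (h12 W).lo, 2 * (ih12 W).lo,
   ((W.b.mul W.b.cnj).add (W.d.mul W.d.cnj)).hi - m + 2 * ((h12 W).hi - (h12 W).lo)
     + 2 * ((ih12 W).hi - (ih12 W).lo)⟩

theorem form_bound (W : ZM) (m : ℤ) (z : ℂ) (hx : |z.re| ≤ 1) (hy : |z.im| ≤ 1) :
    2000 * (normSq (ev W.a * z + ev W.b) + normSq (ev W.c * z + ev W.d)) - m * (normSq z + 1)
      ≤ (form W m).A * (z.re ^ 2 + z.im ^ 2) + (form W m).B1 * z.re + (form W m).B2 * z.im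
        + (form W m).C := by
  have a1 := le_hi ((W.a.mul W.a.cnj).add (W.c.mul W.c.cnj))
  have a2 := le_hi ((W.b.mul W.b.cnj).add (W.d.mul W.d.cnj))
  rw [ev_add, add_re, ev_nsq, ev_nsq] at a1 a2
  have b1 := lo_le (h12 W)
  have b2 := le_hi (h12 W)
  have b3 := lo_le (ih12 W)
  have b4 := le_hi (ih12 W)
  have e3 : ev ⟨0, 0, 0, 1⟩ = I := by simp [ev, zt3]
  have e : normSq (ev W.a * z + ev W.b) + normSq (ev W.c * z + ev W.d) =
      (normSq (ev W.a) + normSq (ev W.c)) * (z.re ^ 2 + z.im ^ 2) + 2 * (ev (h12 W)).re * z.re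
        + 2 * (ev (ih12 W)).re * z.im + (normSq (ev W.b) + normSq (ev W.d)) := by
    simp only [ih12, h12, ev_mul, ev_add, ev_cnj, e3]
    simp [normSq_apply]; ring
  rw [e, normSq_apply z]
  simp only [form]
  push_cast
  have hx' := abs_le.1 hx
  have hy' := abs_le.1 hy
  have p1 : 0 ≤ z.re ^ 2 + z.im ^ 2 := by positivity
  have q1 := mul_le_mul_of_nonneg_right a1 p1
  have q2 : (2000 * (ev (h12 W)).re - (h12 W).lo) * z.re ≤ (h12 W).hi - (h12 W).lo := by
    nlinarith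
  have q3 : (2000 * (ev (ih12 W)).re - (ih12 W).lo) * z.im ≤ (ih12 W).hi - (ih12 W).lo := by
    nlinarith
  nlinarith

def g1 (A B i : ℤ) : ℤ := A * i * i + B * i * 8 + ((2 * A * i + B * 8).natAbs : ℤ) + max A 0

theorem g1_bound (A B i : ℤ) (x : ℝ) (h : |8 * x - i| ≤ 1) :
    64 * (A * x ^ 2 + B * x) ≤ g1 A B i := by
  simp only [g1]
  push_cast
  set h0 := 8 * x - i with hh
  have e : 64 * (A * x ^ 2 + B * x) = A * i * i + B * i * 8 + (2 * A * i + B * 8) * h0
      + A * h0 ^ 2 := by rw [hh]; ring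
  have k1 : (2 * A * i + B * 8 : ℝ) * h0 ≤ |(2 * A * i + B * 8 : ℝ)| := by
    calc _ ≤ |(2 * A * i + B * 8 : ℝ) * h0| := le_abs_self _
      _ = _ := abs_mul _ _
      _ ≤ _ := mul_le_of_le_one_right (abs_nonneg _) h
  have k2 : h0 ^ 2 ≤ 1 := by rw [← sq_abs]; nlinarith [abs_nonneg h0]
  have k3 : (A : ℝ) * h0 ^ 2 ≤ max (A : ℝ) 0 := by
    rcases le_total (A : ℝ) 0 with hA | hA
    · rw [max_eq_right hA]; nlinarith [sq_nonneg h0]
    · rw [max_eq_left hA]; nlinarith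
  linarith

def Form.ok (f : Form) (i j : ℤ) : Bool := decide (g1 f.A f.B1 i + g1 f.A f.B2 j + f.C * 64 ≤ 0)

def grid : List ℤ := [-7, -5, -3, -1, 1, 3, 5, 7]

def coverB (fs : List Form) : Bool := grid.all fun i => grid.all fun j => fs.any fun f => f.ok i j

theorem exists_grid (x : ℝ) (h : |x| ≤ 1) : ∃ i ∈ grid, |8 * x - (i : ℤ)| ≤ 1 := by
  have h' := abs_le.1 h
  simp only [grid, List.mem_cons, List.not_mem_nil, or_false, exists_eq_or_imp, exists_eq_left,
    abs_le]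
  push_cast
  by_contra hc
  simp only [not_or, not_and_or, not_le] at hc
  obtain ⟨h1, h2, h3, h4, h5, h6, h7, h8⟩ := hc
  rcases h1 with h1 | h1
  · linarith
  rcases h2 with h2 | h2
  · linarith
  rcases h3 with h3 | h3
  · linarith
  rcases h4 with h4 | h4
  · linarith
  rcases h5 with h5 | h5
  · linarith
  rcases h6 with h6 | h6
  · linarith
  rcases h7 with h7 | h7
  · linarith
  rcases h8 with h8 | h8 <;> linarith

theorem cover_chart (fs : List Form) (h : coverB fs = true) (z : ℂ) (hx : |z.re| ≤ 1)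
    (hy : |z.im| ≤ 1) :
    ∃ f ∈ fs, (f.A * (z.re ^ 2 + z.im ^ 2) + f.B1 * z.re + f.B2 * z.im + f.C : ℝ) ≤ 0 := by
  obtain ⟨i, hi, ki⟩ := exists_grid _ hx
  obtain ⟨j, hj, kj⟩ := exists_grid _ hy
  simp only [coverB, List.all_eq_true, List.any_eq_true] at h
  obtain ⟨f, hf, hk⟩ := h i hi j hj
  refine ⟨f, hf, ?_⟩
  have k0 : ((g1 f.A f.B1 i + g1 f.A f.B2 j + f.C * 64 : ℤ) : ℝ) ≤ 0 := by
    exact_mod_cast of_decide_eq_true hk
  have k1 := g1_bound f.A f.B1 i _ ki
  have k2 := g1_bound f.A f.B2 j _ kj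
  push_cast at k0
  linarith

def mOK (W : ZM) (m : ℤ) : Bool :=
  decide (0 < m) && decide (10000 * m * m ≤ 9801 * 2000 * (W.det.mul W.det.cnj).lo)

theorem mOK_sound {W : ZM} {m : ℤ} (h : mOK W m = true) :
    (m : ℝ) ≤ 2000 * (99 / 100 * ‖det (evM W)‖) ∧ det (evM W) ≠ 0 := by
  simp only [mOK, Bool.and_eq_true, decide_eq_true_eq] at h
  have h1 : (0 : ℝ) < m := by exact_mod_cast h.1
  have h2 : (10000 * m * m : ℝ) ≤ 9801 * 2000 * (W.det.mul W.det.cnj).lo := by exact_mod_cast h.2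
  have h3 := lo_le (W.det.mul W.det.cnj)
  rw [ev_nsq, normSq_eq_norm_sq, ← evM_det] at h3
  have h4 := norm_nonneg (det (evM W))
  have h5 : (m : ℝ) ≤ 2000 * (99 / 100 * ‖det (evM W)‖) := by
    by_contra hc
    rw [not_le] at hc
    nlinarith
  refine ⟨h5, fun h0 => ?_⟩
  rw [h0] at h5
  simp at h5; linarith

/-- The certificate: words with bounds, and the resulting quadratic forms in both charts. -/
def certB (F G : ZM) : List (List ℕ × ℤ) → List Form → List Form → Bool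
  | [], [], [] => true
  | w :: ws, f :: fs, f' :: fs' => mOK (ZM.word F G w.1) w.2 &&
      (form (ZM.word F G w.1) w.2).beq f && (form (ZM.word F G w.1).sw w.2).beq f' &&
      certB F G ws fs fs'
  | _, _, _ => false

theorem Form.eq_of_beq {x y : Form} (h : x.beq y = true) : x = y := by
  cases x; cases y
  simp only [Form.beq, Bool.and_eq_true, beq_iff_eq] at h
  obtain ⟨⟨⟨h1, h2⟩, h3⟩, h4⟩ := h
  simp_all

theorem certB_sound (F G : ZM) : ∀ (ws : List (List ℕ × ℤ)) (fs fs' : List Form),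
    certB F G ws fs fs' = true →
    (∀ f ∈ fs, ∃ w ∈ ws, mOK (ZM.word F G w.1) w.2 = true ∧ form (ZM.word F G w.1) w.2 = f) ∧
    (∀ f ∈ fs', ∃ w ∈ ws, mOK (ZM.word F G w.1) w.2 = true ∧ form (ZM.word F G w.1).sw w.2 = f)
  | [], [], [], _ => by simp
  | w :: ws, f :: fs, f' :: fs', h => by
    simp only [certB, Bool.and_eq_true] at h
    obtain ⟨⟨⟨h1, h2⟩, h3⟩, h4⟩ := h
    obtain ⟨i1, i2⟩ := certB_sound F G ws fs fs' h4
    constructor
    · intro x hx
      rcases List.mem_cons.1 hx with rfl | hx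
      · exact ⟨w, List.mem_cons_self, h1, Form.eq_of_beq h2⟩
      · obtain ⟨v, hv, k⟩ := i1 x hx
        exact ⟨v, List.mem_cons_of_mem _ hv, k⟩
    · intro x hx
      rcases List.mem_cons.1 hx with rfl | hx
      · exact ⟨w, List.mem_cons_self, h1, Form.eq_of_beq h3⟩
      · obtain ⟨v, hv, k⟩ := i2 x hx
        exact ⟨v, List.mem_cons_of_mem _ hv, k⟩
  | [], _ :: _, _, h => by simp [certB] at h
  | [], [], _ :: _, h => by simp [certB] at h
  | _ :: _, [], _, h => by simp [certB] at h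
  | _ :: _, _ :: _, [], h => by simp [certB] at h

/-- Every vector is shortened by one of finitely many normalised words. -/
def Shrinks (F G : M2) : Prop :=
  ∃ L : List M2, (∀ W ∈ L, Wd F G W ∧ det W ≠ 0) ∧ ∀ p q : ℂ, ∃ W ∈ L,
    normSq (W.a * p + W.b * q) + normSq (W.c * p + W.d * q)
      ≤ 99 / 100 * ‖det W‖ * (normSq p + normSq q)

theorem shrinks_of_cert (F G : ZM) (ws : List (List ℕ × ℤ)) (fs fs' : List Form)
    (h : certB F G ws fs fs' = true) (h1 : coverB fs = true) (h2 : coverB fs' = true) :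
    Shrinks (evM F) (evM G) := by
  obtain ⟨i1, i2⟩ := certB_sound F G ws fs fs' h
  refine ⟨(ws.filter fun w => mOK (ZM.word F G w.1) w.2).map fun w => evM (ZM.word F G w.1),
    ?_, ?_⟩
  · intro W hW
    obtain ⟨w, hw, rfl⟩ := List.mem_map.1 hW
    exact ⟨(wd0_word F G w.1).wd, (mOK_sound (List.mem_filter.1 hw).2).2⟩
  · intro p q
    have hz : ∀ p q : ℂ, ‖p‖ ≤ ‖q‖ → ∃ z : ℂ, |z.re| ≤ 1 ∧ |z.im| ≤ 1 ∧ p = z * q := by
      intro p q hpq
      by_cases hq : q = 0
      · refine ⟨0, by simp, by simp, ?_⟩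
        rw [hq, norm_zero] at hpq
        rw [norm_le_zero_iff.1 hpq, zero_mul]
      · have : ‖p / q‖ ≤ 1 := by
          rw [norm_div]; exact div_le_one_of_le₀ hpq (norm_nonneg _)
        exact ⟨p / q, (abs_re_le_norm _).trans this, (abs_im_le_norm _).trans this,
          by field_simp⟩
    rcases le_total ‖p‖ ‖q‖ with hpq | hpq
    · obtain ⟨z, hx, hy, rfl⟩ := hz p q hpq
      obtain ⟨f, hf, k⟩ := cover_chart fs h1 z hx hy
      obtain ⟨w, hw, k1, rfl⟩ := i1 f hf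
      refine ⟨_, List.mem_map.2 ⟨w, List.mem_filter.2 ⟨hw, k1⟩, rfl⟩, ?_⟩
      have k2 := (form_bound _ w.2 z hx hy).trans k
      have k3 := (mOK_sound k1).1
      set W := ZM.word F G w.1
      have e1 : (evM W).a * (z * q) + (evM W).b * q = (ev W.a * z + ev W.b) * q := by
        simp [evM]; ring
      have e2 : (evM W).c * (z * q) + (evM W).d * q = (ev W.c * z + ev W.d) * q := by
        simp [evM]; ring
      rw [e1, e2, normSq_mul, normSq_mul, normSq_mul]
      have k4 := mul_le_mul_of_nonneg_right k3 (by linarith [normSq_nonneg z] : 0 ≤ normSq z + 1)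
      nlinarith [normSq_nonneg q]
    · obtain ⟨z, hx, hy, rfl⟩ := hz q p hpq
      obtain ⟨f, hf, k⟩ := cover_chart fs' h2 z hx hy
      obtain ⟨w, hw, k1, rfl⟩ := i2 f hf
      refine ⟨_, List.mem_map.2 ⟨w, List.mem_filter.2 ⟨hw, k1⟩, rfl⟩, ?_⟩
      have k2 := (form_bound _ w.2 z hx hy).trans k
      have k3 := (mOK_sound k1).1
      set W := ZM.word F G w.1
      have e1 : (evM W).a * p + (evM W).b * (z * p) = (ev W.sw.a * z + ev W.sw.b) * p := by
        simp [evM, ZM.sw]; ring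
      have e2 : (evM W).c * p + (evM W).d * (z * p) = (ev W.sw.c * z + ev W.sw.d) * p := by
        simp [evM, ZM.sw]; ring
      rw [e1, e2, normSq_mul, normSq_mul, normSq_mul]
      have k4 := mul_le_mul_of_nonneg_right k3 (by linarith [normSq_nonneg z] : 0 ≤ normSq z + 1)
      nlinarith [normSq_nonneg p]

end Pool.Agent.Lib.MP_743898_gt
end

-- part Pool.Agent.Lib.MP_743898_gt.CCov
section

set_option autoImplicit false

/-! Cocompactness and Siegel sets. -/

namespace Pool.Agent.Lib.MP_743898_gt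

open M2 Complex

noncomputable def n2 (X : M2) : ℝ := normSq X.a + normSq X.b + normSq X.c + normSq X.d

theorem n2_nonneg (X : M2) : 0 ≤ n2 X := by
  unfold n2; linarith [normSq_nonneg X.a, normSq_nonneg X.b, normSq_nonneg X.c, normSq_nonneg X.d]

theorem lagrange (p q r s : ℂ) : (normSq p + normSq q) * (normSq r + normSq s)
    = normSq (p * (starRingEnd ℂ) r + q * (starRingEnd ℂ) s) + normSq (p * s - q * r) := by
  simp [normSq_apply]; ring

theorem cs2 (p q r s : ℂ) : normSq (p * r + q * s) ≤ (normSq p + normSq q) * (normSq r + normSq s) := by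
  have := lagrange p q ((starRingEnd ℂ) r) ((starRingEnd ℂ) s)
  simp only [normSq_conj, conj_conj] at this
  linarith [normSq_nonneg (p * (starRingEnd ℂ) s - q * (starRingEnd ℂ) r)]

theorem nsq_add_le (x y : ℂ) : normSq (x + y) ≤ 201 / 200 * normSq x + 201 * normSq y := by
  simp only [normSq_apply, add_re, add_im]
  nlinarith [sq_nonneg (x.re - 200 * y.re), sq_nonneg (x.im - 200 * y.im)]

theorem shrink_cols (s : M2) (u1 u2 w1 w2 : ℂ) (hd : normSq (u1 * w2 - w1 * u2) = 1)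
    (hw : normSq w1 + normSq w2 ≤ normSq u1 + normSq u2)
    (hs : normSq (s.a * u1 + s.b * u2) + normSq (s.c * u1 + s.d * u2)
      ≤ 99 / 100 * (normSq u1 + normSq u2)) :
    normSq (s.a * w1 + s.b * w2) + normSq (s.c * w1 + s.d * w2)
      ≤ 199 / 200 * (normSq w1 + normSq w2) + 201 * n2 s := by
  set U := normSq u1 + normSq u2 with hU
  set V := normSq w1 + normSq w2 with hV
  set β := w1 * (starRingEnd ℂ) u1 + w2 * (starRingEnd ℂ) u2 with hβ
  set δ := u1 * w2 - w1 * u2 with hδ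
  have hL : V * U = normSq β + 1 := by
    rw [hV, hU, lagrange, ← hβ, ← normSq_neg (w1 * u2 - w2 * u1), ← hd]
    congr 2; rw [hδ]; ring
  have hV0 : 0 ≤ V := add_nonneg (normSq_nonneg _) (normSq_nonneg _)
  have hU1 : 1 ≤ U := by nlinarith [normSq_nonneg β]
  have hUc : (U : ℂ) = u1 * (starRingEnd ℂ) u1 + u2 * (starRingEnd ℂ) u2 := by
    rw [hU, mul_conj, mul_conj]; push_cast; ring
  have key : ∀ x y : ℂ, U ^ 2 * normSq (x * w1 + y * w2) ≤
      201 / 200 * (normSq β * normSq (x * u1 + y * u2)) + 201 * ((normSq x + normSq y) * U) := by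
    intro x y
    have e : (U : ℂ) * (x * w1 + y * w2) = β * (x * u1 + y * u2)
        + δ * (x * -(starRingEnd ℂ) u2 + y * (starRingEnd ℂ) u1) := by
      rw [hUc, hβ, hδ]; ring
    have e2 := congrArg normSq e
    rw [normSq_mul, normSq_ofReal] at e2
    have h1 := nsq_add_le (β * (x * u1 + y * u2))
      (δ * (x * -(starRingEnd ℂ) u2 + y * (starRingEnd ℂ) u1))
    rw [← e2, normSq_mul, normSq_mul, hd, one_mul] at h1
    have h2 := cs2 x y (-(starRingEnd ℂ) u2) ((starRingEnd ℂ) u1)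
    rw [normSq_neg, normSq_conj, normSq_conj, add_comm (normSq u2), ← hU] at h2
    nlinarith
  have k1 := key s.a s.b
  have k2 := key s.c s.d
  have hn := n2_nonneg s
  have k3 : normSq β * (normSq (s.a * u1 + s.b * u2) + normSq (s.c * u1 + s.d * u2))
      ≤ V * U * (99 / 100 * U) :=
    mul_le_mul (by linarith) hs (add_nonneg (normSq_nonneg _) (normSq_nonneg _)) (by positivity)
  have k4 : n2 s * U ≤ n2 s * U ^ 2 := mul_le_mul_of_nonneg_left (by nlinarith) hn
  have hU2 : 0 < U ^ 2 := by positivity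
  refine le_of_mul_le_mul_left ?_ hU2
  have k5 : 0 ≤ V * U ^ 2 := by positivity
  unfold n2 at k4 ⊢
  nlinarith

def Cocpt (F G : M2) : Prop :=
  ∃ R : ℝ, ∀ X, det X = 1 → ∃ Y, Wd F G Y ∧ det Y = 1 ∧ Bd R (Y * X)

theorem bd_of_n2 {X : M2} {K : ℝ} (h : n2 X ≤ K) : Bd (K + 1) X := by
  have key : ∀ x : ℂ, normSq x ≤ K → ‖x‖ ≤ K + 1 := by
    intro x hx
    rw [normSq_eq_norm_sq] at hx
    nlinarith [sq_nonneg (‖x‖ - 1)]
  unfold n2 at h
  have h1 := normSq_nonneg X.a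
  have h2 := normSq_nonneg X.b
  have h3 := normSq_nonneg X.c
  have h4 := normSq_nonneg X.d
  exact ⟨key _ (by linarith), key _ (by linarith), key _ (by linarith), key _ (by linarith)⟩

theorem list_bound {α : Type} (φ : α → ℝ) (L : List α) : ∃ B : ℝ, 0 ≤ B ∧ ∀ x ∈ L, φ x ≤ B := by
  induction L with
  | nil => exact ⟨0, le_rfl, by simp⟩
  | cons a L ih =>
    obtain ⟨B, hB, h⟩ := ih
    refine ⟨max B (φ a), le_max_of_le_left hB, fun x hx => ?_⟩
    rcases List.mem_cons.1 hx with rfl | hx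
    · exact le_max_right _ _
    · exact (h x hx).trans (le_max_left _ _)

theorem cocpt_of_shrinks {F G : M2} (h : Shrinks F G) : Cocpt F G := by
  obtain ⟨L, hL, hc⟩ := h
  obtain ⟨B, hB0, hB⟩ := list_bound (fun W => n2 W / ‖det W‖) L
  have hc' : ∀ p q : ℂ, ∃ s, Wd F G s ∧ det s = 1 ∧ n2 s ≤ B ∧
      normSq (s.a * p + s.b * q) + normSq (s.c * p + s.d * q) ≤ 99 / 100 * (normSq p + normSq q) := by
    intro p q
    obtain ⟨W, hW, k⟩ := hc p q
    obtain ⟨k1, k2⟩ := hL W hW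
    obtain ⟨t, ht0, ht⟩ := exists_normalize k2
    have hn : normSq t * ‖det W‖ = 1 := by
      have := congrArg norm ht
      rwa [det_sc, norm_mul, norm_pow, norm_one, ← normSq_eq_norm_sq] at this
    have hD : 0 < ‖det W‖ := norm_pos_iff.2 k2
    refine ⟨sc t W, k1.sc ht0, ht, ?_, ?_⟩
    · have := hB W hW
      rw [div_le_iff₀ hD] at this
      have e : n2 (sc t W) = normSq t * n2 W := by simp only [n2, sc, normSq_mul]; ring
      rw [e]
      have := mul_le_mul_of_nonneg_left this (normSq_nonneg t)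
      calc _ ≤ _ := this
        _ = B * (normSq t * ‖det W‖) := by ring
        _ = B := by rw [hn, mul_one]
    · have e1 : (sc t W).a * p + (sc t W).b * q = t * (W.a * p + W.b * q) := by simp [sc]; ring
      have e2 : (sc t W).c * p + (sc t W).d * q = t * (W.c * p + W.d * q) := by simp [sc]; ring
      rw [e1, e2, normSq_mul, normSq_mul, ← mul_add]
      calc _ ≤ _ := mul_le_mul_of_nonneg_left k (normSq_nonneg t)
        _ = 99 / 100 * (normSq t * ‖det W‖) * (normSq p + normSq q) := by ring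
        _ = _ := by rw [hn, mul_one]
  refine ⟨200 * (201 * B + 1) + 1, fun X hX => ?_⟩
  set A : Set ℝ := {r | ∃ Y, Wd F G Y ∧ det Y = 1 ∧ r = n2 (Y * X)} with hA
  have hne : A.Nonempty := ⟨_, one2, Wd.one _ _, det_one2, rfl⟩
  have hbd : BddBelow A := ⟨0, by rintro _ ⟨Y, _, _, rfl⟩; exact n2_nonneg _⟩
  obtain ⟨_, ⟨Y, hY, hY1, rfl⟩, hlt⟩ := exists_lt_of_csInf_lt hne (lt_add_one (sInf A))
  refine ⟨Y, hY, hY1, bd_of_n2 ?_⟩
  set M := Y * X with hM
  have hMd : det M = 1 := by rw [hM, det_mul, hY1, hX, one_mul]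
  have step : ∃ s, Wd F G s ∧ det s = 1 ∧ n2 (s * M) ≤ 199 / 200 * n2 M + 201 * B := by
    simp only [det] at hMd
    rcases le_total (normSq M.b + normSq M.d) (normSq M.a + normSq M.c) with hw | hw
    · obtain ⟨s, k1, k2, k3, k4⟩ := hc' M.a M.c
      refine ⟨s, k1, k2, ?_⟩
      have := shrink_cols s M.a M.c M.b M.d (by rw [hMd, normSq_one]) hw k4
      simp only [n2, mul_a, mul_b, mul_c, mul_d] at k3 this ⊢
      linarith [normSq_nonneg M.a, normSq_nonneg M.c]
    · obtain ⟨s, k1, k2, k3, k4⟩ := hc' M.b M.d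
      refine ⟨s, k1, k2, ?_⟩
      have := shrink_cols s M.b M.d M.a M.c
        (by rw [← normSq_neg, ← normSq_one, ← hMd]; congr 1; ring) hw k4
      simp only [n2, mul_a, mul_b, mul_c, mul_d] at k3 this ⊢
      linarith [normSq_nonneg M.b, normSq_nonneg M.d]
  obtain ⟨s, k1, k2, k3⟩ := step
  have : sInf A ≤ n2 (s * M) :=
    csInf_le hbd ⟨s * Y, k1.mul hY, by rw [det_mul, k2, hY1, one_mul], by rw [mul_as]⟩
  linarith

/-- Squared norm of the bottom row. -/
noncomputable def nb (M : M2) : ℝ := normSq M.c + normSq M.d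
/-- Inner product of the rows. -/
noncomputable def ip (M : M2) : ℂ := M.a * (starRingEnd ℂ) M.c + M.b * (starRingEnd ℂ) M.d

/-- Matrix form of a Siegel set. -/
def Sg (C : ℝ) (M : M2) : Prop := nb M ≤ C ∧ ‖ip M‖ ≤ C * nb M

theorem rows_lagrange {M : M2} (h : det M = 1) :
    (normSq M.a + normSq M.b) * nb M = normSq (ip M) + 1 := by
  simp only [det] at h
  rw [nb, lagrange, h, normSq_one, ip]

theorem nb_pos {M : M2} (h : det M = 1) : 0 < nb M := by
  have := rows_lagrange h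
  have h0 : 0 ≤ nb M := add_nonneg (normSq_nonneg _) (normSq_nonneg _)
  rcases h0.lt_or_eq with h1 | h1
  · exact h1
  · rw [← h1] at this; linarith [normSq_nonneg (ip M)]

def Cof (F G : M2) : Prop :=
  ∃ (rs : List M2) (C : ℝ), (∀ r ∈ rs, det r = 1) ∧ ∀ X, det X = 1 →
    ∃ r ∈ rs, ∃ Y, Wd F G Y ∧ det Y = 1 ∧ Sg C (r * Y * X)

theorem cof_of_cocpt {F G : M2} (h : Cocpt F G) : Cof F G := by
  obtain ⟨R, h⟩ := h
  refine ⟨[one2], 2 * R ^ 2 + 4 * R ^ 4, by simp [det_one2], fun X hX => ?_⟩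
  obtain ⟨Y, h1, h2, b1, b2, b3, b4⟩ := h X hX
  refine ⟨one2, by simp, Y, h1, h2, ?_⟩
  rw [one_mu]
  set M := Y * X with hM
  have hMd : det M = 1 := by rw [hM, det_mul, h2, hX, one_mul]
  have key : ∀ x : ℂ, ‖x‖ ≤ R → normSq x ≤ R ^ 2 := fun x hx => by
    rw [normSq_eq_norm_sq]; exact pow_le_pow_left₀ (norm_nonneg _) hx 2
  have k1 := key _ b1
  have k2 := key _ b2
  have k3 := key _ b3
  have k4 := key _ b4
  have hL := rows_lagrange hMd
  have hp := nb_pos hMd
  have hR : 0 ≤ R ^ 4 := by positivity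
  have hR2 : 0 ≤ R ^ 2 := by positivity
  have k5 : nb M ≤ 2 * R ^ 2 := by unfold nb; linarith
  refine ⟨by linarith, ?_⟩
  have k6 : normSq (ip M) + 1 ≤ 2 * R ^ 2 * nb M := by
    rw [← hL]; exact mul_le_mul_of_nonneg_right (by linarith) hp.le
  rw [normSq_eq_norm_sq] at k6
  nlinarith [sq_nonneg (‖ip M‖ - 1), mul_nonneg hR hp.le]

theorem Cof.cj {F G P : M2} (hP : det P = 1) (h : Cof F G) : Cof (cj P F) (cj P G) := by
  obtain ⟨rs, C, h1, h2⟩ := h
  refine ⟨rs.map (· * P), C, ?_, fun X hX => ?_⟩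
  · intro r hr
    obtain ⟨r', hr', rfl⟩ := List.mem_map.1 hr
    rw [det_mul, h1 r' hr', hP, one_mul]
  · obtain ⟨r, hr, Y, k1, k2, k3⟩ := h2 (P * X) (by rw [det_mul, hP, hX, one_mul])
    refine ⟨r * P, List.mem_map.2 ⟨r, hr, rfl⟩, M2.cj P Y, k1.cj hP, by rw [det_cj hP, k2], ?_⟩
    have : r * P * M2.cj P Y * X = r * Y * (P * X) := by
      simp only [M2.cj, mul_as]
      rw [← mul_as P, mul_adj1 hP, one_mu]
    rwa [this]

theorem Cof.sub {F G F' G' : M2} (hF : Wd F' G' F) (hG : Wd F' G' G) (h : Cof F G) :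
    Cof F' G' := by
  obtain ⟨rs, C, h1, h2⟩ := h
  refine ⟨rs, C, h1, fun X hX => ?_⟩
  obtain ⟨r, hr, Y, k1, k2, k3⟩ := h2 X hX
  exact ⟨r, hr, Y, Wd.sub hF hG k1, k2, k3⟩

/-- The group of normalised words has finite index in `S`. -/
def FI (S : Set M2) (F G : M2) : Prop :=
  ∃ R : ℝ, ∀ Z ∈ S, ∃ Y, Wd F G Y ∧ det Y = 1 ∧ Bd R (Y * Z)

theorem Cocpt.fi {F G : M2} (h : Cocpt F G) {S : Set M2} (hS : Good S) : FI S F G := by
  obtain ⟨R, h⟩ := h
  exact ⟨R, fun Z hZ => h Z (hS.det hZ)⟩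

def tl (k : ℂ) : M2 := ⟨1, k, 0, 1⟩
def sw0 : M2 := ⟨0, -1, 1, 0⟩

/-- Coset table for the Picard group. -/
structure Tab (F G : M2) (rs : List M2) : Prop where
  one : one2 ∈ rs
  dt : ∀ r ∈ rs, det r = 1
  step : ∀ s, s = tl 1 ∨ s = tl (-1) ∨ s = tl I ∨ s = tl (-I) ∨ s = sw0 →
    ∀ r ∈ rs, ∃ r' ∈ rs, Wd F G (adj r' * (s * r))
  par : ∀ r ∈ rs, Wd F G (adj r * tl 2 * r)

def GI (x : ℂ) : Prop := ∃ m n : ℤ, x = m + n * I

theorem GI.add_mul {x y : ℂ} (hx : GI x) (hy : GI y) {k : ℂ} (hk : GI k) : GI (x + k * y) := by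
  obtain ⟨a, b, rfl⟩ := hx
  obtain ⟨c, d, rfl⟩ := hy
  obtain ⟨e, f, rfl⟩ := hk
  refine ⟨a + e * c - f * d, b + e * d + f * c, ?_⟩
  push_cast
  linear_combination (f * d : ℂ) * I_mul_I

theorem GI.neg {x : ℂ} (hx : GI x) : GI (-x) := by
  obtain ⟨a, b, rfl⟩ := hx
  exact ⟨-a, -b, by push_cast; ring⟩

theorem GI.one_le {x : ℂ} (hx : GI x) (h0 : x ≠ 0) : 1 ≤ normSq x := by
  obtain ⟨a, b, rfl⟩ := hx
  have e : normSq ((a : ℂ) + b * I) = ((a ^ 2 + b ^ 2 : ℤ) : ℝ) := by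
    simp [normSq_apply]; ring
  rw [e]
  have : a ≠ 0 ∨ b ≠ 0 := by
    by_contra hc
    simp only [not_or, not_not] at hc
    apply h0; simp [hc.1, hc.2]
  have : 1 ≤ a ^ 2 + b ^ 2 := by
    rcases this with h | h
    · nlinarith [sq_nonneg b, Int.one_le_abs h, sq_abs a]
    · nlinarith [sq_nonneg a, Int.one_le_abs h, sq_abs b]
  exact_mod_cast this

def Om (F G : M2) (rs : List M2) (U : M2) : Prop :=
  det U = 1 ∧ GI U.a ∧ GI U.b ∧ GI U.c ∧ GI U.d ∧ ∃ r ∈ rs, Wd F G (adj r * U)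

section
variable {F G : M2} {rs : List M2}

theorem Tab.move (h : Tab F G rs) {U s : M2}
    (hs : s = tl 1 ∨ s = tl (-1) ∨ s = tl I ∨ s = tl (-I) ∨ s = sw0)
    (hU : ∃ r ∈ rs, Wd F G (adj r * U)) : ∃ r ∈ rs, Wd F G (adj r * (s * U)) := by
  obtain ⟨r, hr, k⟩ := hU
  obtain ⟨r', hr', k'⟩ := h.step s hs r hr
  refine ⟨r', hr', ?_⟩
  have := k'.mul k
  rwa [mul_as, mul_as, ← mul_as r, mul_adj1 (h.dt r hr), one_mu] at this

theorem tl_tl (k l : ℂ) (U : M2) : tl k * (tl l * U) = tl (k + l) * U := by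
  ext <;> simp [tl] <;> ring

theorem Tab.om_tl (h : Tab F G rs) {U : M2} (hU : Om F G rs U) (m n : ℤ) :
    Om F G rs (tl (m + n * I) * U) := by
  obtain ⟨h1, h2, h3, h4, h5, h6⟩ := hU
  refine ⟨by rw [det_mul, h1]; simp [tl, M2.det], ?_, ?_, by simpa [tl] using h4,
    by simpa [tl] using h5, ?_⟩
  · simpa [tl] using h2.add_mul h4 ⟨m, n, rfl⟩
  · simpa [tl] using h3.add_mul h5 ⟨m, n, rfl⟩
  · have e0 : tl 0 * U = U := by ext <;> simp [tl]
    have k1 : ∃ r ∈ rs, Wd F G (adj r * (tl (n * I) * U)) := by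
      induction n using Int.induction_on with
      | zero => simpa [e0] using h6
      | succ i ih =>
        have := h.move (s := tl I) (by simp) ih
        rw [tl_tl] at this
        rwa [show ((i + 1 : ℤ) : ℂ) * I = I + ((i : ℤ) : ℂ) * I by push_cast; ring]
      | pred i ih =>
        have := h.move (s := tl (-I)) (by simp) ih
        rw [tl_tl] at this
        rwa [show ((-i - 1 : ℤ) : ℂ) * I = -I + ((-i : ℤ) : ℂ) * I by push_cast; ring]
    induction m using Int.induction_on with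
    | zero => simpa using k1
    | succ i ih =>
      have := h.move (s := tl 1) (by simp) ih
      rw [tl_tl] at this
      rwa [show ((i + 1 : ℤ) : ℂ) + n * I = 1 + (((i : ℤ) : ℂ) + n * I) by push_cast; ring]
    | pred i ih =>
      have := h.move (s := tl (-1)) (by simp) ih
      rw [tl_tl] at this
      rwa [show ((-i - 1 : ℤ) : ℂ) + n * I = -1 + (((-i : ℤ) : ℂ) + n * I) by push_cast; ring]

theorem Tab.om_sw (h : Tab F G rs) {U : M2} (hU : Om F G rs U) : Om F G rs (sw0 * U) := by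
  obtain ⟨h1, h2, h3, h4, h5, h6⟩ := hU
  exact ⟨by rw [det_mul, h1]; simp [sw0, M2.det], by simpa [sw0] using h4.neg,
    by simpa [sw0] using h5.neg, by simpa [sw0] using h2, by simpa [sw0] using h3,
    h.move (by simp) h6⟩

theorem Tab.om_one (h : Tab F G rs) : Om F G rs one2 :=
  ⟨det_one2, ⟨1, 0, by simp [one2]⟩, ⟨0, 0, by simp [one2]⟩, ⟨0, 0, by simp [one2]⟩,
    ⟨1, 0, by simp [one2]⟩, one2, h.one, by rw [adj_one2, one_mu]; exact Wd.one _ _⟩

theorem Tab.siegel (h : Tab F G rs) (X : M2) (hX : det X = 1) :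
    ∃ U, Om F G rs U ∧ nb (U * X) ≤ 2 ∧ ‖ip (U * X)‖ ≤ nb (U * X) := by
  set A : Set ℝ := {r | ∃ U, Om F G rs U ∧ r = nb (U * X)} with hA
  have hne : A.Nonempty := ⟨_, one2, h.om_one, rfl⟩
  have hlow : ∀ r ∈ A, 1 / (n2 X + 1) ≤ r := by
    rintro _ ⟨U, ⟨h1, _, _, h4, h5, _⟩, rfl⟩
    have k1 : 1 ≤ normSq U.c + normSq U.d := by
      by_cases hc : U.c = 0
      · have hd : U.d ≠ 0 := by
          intro hd; simp [M2.det, hc, hd] at h1
        linarith [h5.one_le hd, normSq_nonneg U.c]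
      · linarith [h4.one_le hc, normSq_nonneg U.d]
    have hX' : X.a * X.d - X.b * X.c = 1 := hX
    have e1 : U.c = (U * X).c * X.d + (U * X).d * -X.c := by
      simp only [mul_c, mul_d]; linear_combination (-U.c) * hX'
    have e2 : U.d = (U * X).c * -X.b + (U * X).d * X.a := by
      simp only [mul_c, mul_d]; linear_combination (-U.d) * hX'
    have k2 := cs2 (U * X).c (U * X).d X.d (-X.c)
    have k3 := cs2 (U * X).c (U * X).d (-X.b) X.a
    rw [← e1, normSq_neg] at k2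
    rw [← e2, normSq_neg] at k3
    have hn := n2_nonneg X
    rw [div_le_iff₀ (by linarith)]
    have hb : 0 ≤ nb (U * X) := add_nonneg (normSq_nonneg _) (normSq_nonneg _)
    unfold nb n2 at *
    nlinarith
  have hbd : BddBelow A := ⟨_, hlow⟩
  have hpos : 0 < sInf A := lt_of_lt_of_le (by have := n2_nonneg X; positivity)
    (le_csInf hne hlow)
  obtain ⟨_, ⟨U, hU, rfl⟩, hlt⟩ := exists_lt_of_csInf_lt hne
    (show sInf A < 11 / 10 * sInf A by linarith)
  have hd : det (U * X) = 1 := by rw [det_mul, hU.1, hX, one_mul]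
  have hp := nb_pos hd
  set z : ℂ := ip (U * X) / (nb (U * X) : ℝ) with hz
  set k : ℂ := (-round z.re : ℤ) + (-round z.im : ℤ) * I with hk
  have hU' := h.om_tl hU (-round z.re) (-round z.im)
  rw [← hk] at hU'
  have e1 : nb (tl k * U * X) = nb (U * X) := by simp [nb, tl]
  have hpc : ((nb (U * X) : ℝ) : ℂ) ≠ 0 := by exact_mod_cast hp.ne'
  have e2 : ip (tl k * U * X) = (z + k) * (nb (U * X) : ℝ) := by
    rw [add_mul, hz, div_mul_cancel₀ _ hpc, mul_as]
    generalize U * X = M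
    simp only [ip, nb, tl, mul_a, mul_b, mul_c, mul_d]
    push_cast
    rw [← mul_conj, ← mul_conj]
    simp only [zero_mul, one_mul, zero_add]
    ring
  have e3 : normSq (z + k) ≤ 1 / 2 := by
    have a1 := abs_le.1 (abs_sub_round z.re)
    have a2 := abs_le.1 (abs_sub_round z.im)
    have b1 : (z + k).re = z.re - round z.re := by simp [hk]; ring
    have b2 : (z + k).im = z.im - round z.im := by simp [hk]; ring
    rw [normSq_apply, b1, b2]
    nlinarith
  have hd' : det (tl k * U * X) = 1 := by rw [det_mul, hU'.1, hX, one_mul]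
  have hL := rows_lagrange hd'
  rw [e1, e2, normSq_mul, normSq_ofReal] at hL
  have hlow2 : sInf A ≤ normSq (tl k * U * X).a + normSq (tl k * U * X).b := by
    refine csInf_le hbd ⟨_, h.om_sw hU', ?_⟩
    rw [mul_as sw0]
    generalize tl k * U * X = M
    simp [nb, sw0]
  refine ⟨_, hU', ?_, ?_⟩
  · rw [e1]
    by_contra hc
    rw [not_le] at hc
    have q1 : nb (U * X) * nb (U * X) ≤ 11 / 10 * ((normSq (tl k * U * X).a
        + normSq (tl k * U * X).b) * nb (U * X)) := by nlinarith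
    have q2 : normSq (z + k) * (nb (U * X) * nb (U * X)) ≤ 1 / 2 * (nb (U * X) * nb (U * X)) :=
      mul_le_mul_of_nonneg_right e3 (by positivity)
    nlinarith
  · rw [e1, e2, norm_mul, norm_real, Real.norm_of_nonneg hp.le]
    refine mul_le_of_le_one_left hp.le ?_
    rw [normSq_eq_norm_sq] at e3
    nlinarith [norm_nonneg (z + k)]

theorem Tab.cof (h : Tab F G rs) : Cof F G := by
  refine ⟨rs, 2, h.dt, fun X hX => ?_⟩
  obtain ⟨U, ⟨h1, _, _, _, _, r, hr, k⟩, k1, k2⟩ := h.siegel X hX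
  refine ⟨r, hr, adj r * U, k, by rw [det_mul, det_adj, h.dt r hr, h1, one_mul], ?_⟩
  rw [← mul_as, mul_adj1 (h.dt r hr), one_mu]
  have hp := nb_pos (show M2.det (U * X) = 1 by rw [det_mul, h1, hX, one_mul])
  exact ⟨k1, by linarith⟩

theorem Tab.fi (h : Tab F G rs) {S : Set M2} (hS : Good S)
    (hsub : ∀ X, Wd F G X → M2.det X = 1 → X ∈ S) : FI S F G := by
  obtain ⟨B, _, hB⟩ := list_bound (fun r => n2 r) rs
  refine ⟨2 * (B + 1) * (8 + 1), fun Z hZ => ?_⟩
  obtain ⟨U, ⟨h1, _, _, _, _, r, hr, k⟩, k1, k2⟩ := h.siegel Z (hS.det hZ)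
  have hr1 := h.dt r hr
  have hY : M2.det (adj r * U) = 1 := by rw [det_mul, det_adj, hr1, h1, one_mul]
  refine ⟨adj r * U, k, hY, ?_⟩
  rw [mul_as]
  refine (bd_of_n2 (hB r hr)).adj.mul (bd_of_n2 ?_)
  set M := U * Z with hM
  have hMd : M2.det M = 1 := by rw [hM, det_mul, h1, hS.det hZ, one_mul]
  have hYZ : adj r * M ∈ S := by rw [hM, ← mul_as]; exact hS.mul (hsub _ k hY) hZ
  have dt : M2.det (tl 2) = 1 := by simp [tl, M2.det]
  have hp : cj r (tl 2) ∈ S := hsub _ (h.par r hr) (by rw [det_cj hr1, dt])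
  have hT : tl 2 ∈ S := by
    have := h.par one2 h.one
    rw [adj_one2, one_mu, mu_one] at this
    exact hsub _ this dt
  have hL : (⟨1, 0, -2, 1⟩ : M2) ∈ S := by
    obtain ⟨_, _, _, _, _, r', hr', k'⟩ := h.om_sw h.om_one
    rw [mu_one] at k'
    have := (k'.adj.mul (h.par r' hr')).mul k'
    rw [adj_mu, adj_adj] at this
    simp only [mul_as] at this
    rw [← mul_as r' (adj r'), ← mul_as r' (adj r'), mul_adj1 (h.dt r' hr'), one_mu, one_mu] at this
    refine hsub _ ?_ (by simp [M2.det])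
    convert this using 1
    ext <;> simp [adj, sw0, tl]
  have key : ∀ K ∈ S, tr K = 2 → ∀ x : ℂ, (M * K * adj M).c ^ 2 = 4 * x ^ 4 →
      x = 0 ∨ 1 / 4 ≤ normSq x := by
    intro K hK htr x hx
    have hq := hS.mul (hS.mul hYZ hK) (hS.adj hYZ)
    have e : adj r * M * K * adj (adj r * M) = cj r (M * K * adj M) := by
      rw [adj_mu, adj_adj]; simp only [cj, mul_as]
    rw [e] at hq
    have dK : M2.det (M * K * adj M) = 1 := by
      rw [det_mul, det_mul, det_adj, hMd, hS.det hK]; ring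
    have tK : tr (M * K * adj M) = 2 := by
      rw [tr_comm, ← mul_as, adj_mul1 hMd, one_mu, htr]
    have eg : gam (tl 2) (M * K * adj M) = 16 * x ^ 4 := by
      generalize M * K * adj M = N at hx dK
      simp only [M2.det] at dK
      simp only [gam, tr, adj, tl, mul_a, mul_b, mul_c, mul_d]
      linear_combination 2 * dK + 4 * hx
    by_contra hc
    simp only [not_or, not_le] at hc
    have := hS.jorg hp hq (by
      rw [gam_cj _ _ _ hr1, tr_cj _ _ hr1, eg]
      have t2 : tr (tl 2) ^ 2 - 4 = 0 := by simp [tr, tl]; norm_num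
      rw [t2, norm_zero, zero_add, norm_mul, norm_pow]
      have := hc.2
      rw [normSq_eq_norm_sq] at this
      have e16 : ‖(16 : ℂ)‖ = 16 := by simp
      rw [e16]
      nlinarith [sq_nonneg ‖x‖])
    rw [gam_cj _ _ _ hr1, tr_cj _ _ hr1, eg, tK] at this
    rcases this with h0 | h0
    · exact hc.1 (by simpa using h0)
    · norm_num at h0
  have c1 := key _ hT (by simp [tr, tl]; norm_num) M.c (by simp [adj, tl]; ring)
  have c2 := key _ hL (by simp [tr]; norm_num) M.d (by simp [adj]; ring)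
  have hN : 1 / 4 ≤ nb M := by
    unfold nb
    rcases c1 with c1 | c1
    · rcases c2 with c2 | c2
      · simp [M2.det, c1, c2] at hMd
      · linarith [normSq_nonneg M.c]
    · linarith [normSq_nonneg M.d]
  have hL2 := rows_lagrange hMd
  rw [normSq_eq_norm_sq (ip M)] at hL2
  have q1 : ‖ip M‖ ^ 2 ≤ nb M ^ 2 := pow_le_pow_left₀ (norm_nonneg _) k2 2
  have q2 : normSq M.a + normSq M.b ≤ 6 := by
    by_contra hc
    rw [not_le] at hc
    nlinarith
  unfold nb at k1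
  unfold n2
  linarith

end

end Pool.Agent.Lib.MP_743898_gt
end
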