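import Pool.Agent.Lib.MP_743898_gt.CLink

set_option autoImplicit false

/-! The model lattices. -/

namespace Pool.Agent.Lib.MP_743898_gt

open M2 Complex Cl

theorem om_eq : om = zt ^ 2 - 1 := by
  rw [zt2]
  apply Complex.ext <;> (simp [om]; try ring)

theorem om_sq : om ^ 2 + om + 1 = 0 := by
  rw [om_eq]; linear_combination zt4

theorem quadW : Quad om 1 := by
  refine ⟨by simpa using om_sq, ?_, Or.inr rfl⟩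
  rw [om_eq, zt2]
  apply Complex.ext <;> (simp; try ring)

theorem quadI : Quad I 0 := ⟨by simp, by simp, Or.inl rfl⟩

structure Mod {τ : ℂ} {s : ℤ} (h : Quad τ s) (F G : M2) : Prop where
  tr : Tr (Kq h) F G
  int : IntG F G
  big : Big F G
  cof : Cof F G
  fi : ∀ S, Good S → (∀ X, Wd F G X → det X = 1 → X ∈ S) → FI S F G

theorem ev_integral (x : Z12) : IsIntegral ℤ (ev x) := by
  have hz : IsIntegral ℤ zt := by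
    refine ⟨Polynomial.X ^ 4 - Polynomial.X ^ 2 + 1, by monicity!, ?_⟩
    simpa using zt4
  exact (((isIntegral_algebraMap (x := x.a)).add ((isIntegral_algebraMap (x := x.b)).mul hz)).add
    ((isIntegral_algebraMap (x := x.c)).mul (hz.pow 2))).add
    ((isIntegral_algebraMap (x := x.d)).mul (hz.pow 3))

def isW (x : Z12) : Bool := x.b == 0 && x.d == 0
def isG (x : Z12) : Bool := x.b == 0 && x.c == 0

theorem isW_sound {x : Z12} (h : isW x = true) : ev x ∈ Kq quadW := by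
  simp only [isW, Bool.and_eq_true, beq_iff_eq] at h
  exact InO.kq _ ⟨x.a + x.c, x.c, by simp only [ev, h.1, h.2, om_eq]; push_cast; ring⟩

theorem isG_sound {x : Z12} (h : isG x = true) : ev x ∈ Kq quadI := by
  simp only [isG, Bool.and_eq_true, beq_iff_eq] at h
  exact InO.kq _ ⟨x.a, x.d, by simp only [ev, h.1, h.2, zt3]; push_cast; ring⟩

def zgam (X Y : ZM) : Z12 :=
  (((X.mul Y).mul X.adj).mul Y.adj).tr.add (Z12.mul ⟨-2, 0, 0, 0⟩ (X.det.mul Y.det))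

theorem ev_zgam (X Y : ZM) : ev (zgam X Y) = gamh (evM X) (evM Y) := by
  rw [zgam, ev_add, ev_mul, ev_mul, ← evM_tr, evM_mul, evM_mul, evM_mul, evM_adj, evM_adj,
    ← evM_det, ← evM_det, gamh]
  simp [ev]; ring

/-- `q` is the squared trace of `X` divided by its nonzero determinant. -/
def quotB (X : ZM) (q : Z12) : Bool := (X.tr.mul X.tr).beq (q.mul X.det) && X.det.nz

theorem quotB_sound {X : ZM} {q : Z12} (h : quotB X q = true) :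
    det (evM X) ≠ 0 ∧ tr (evM X) ^ 2 = ev q * det (evM X) := by
  simp only [quotB, Bool.and_eq_true] at h
  have := congrArg ev (Z12.eq_of_beq h.1)
  rw [ev_mul, ev_mul] at this
  rw [evM_det, evM_tr, sq]
  exact ⟨ev_ne h.2, this⟩

structure Base where
  q1 : Z12
  q2 : Z12
  q3 : Z12
  w1 : List ℕ
  p1 : Z12
  w2 : List ℕ
  p2 : Z12

def baseChk (isO : Z12 → Bool) (F G : ZM) (b : Base) : Bool :=
  isO F.tr && isO G.tr && isO (F.mul G).tr && isO F.det && isO G.det &&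
  quotB F b.q1 && quotB G b.q2 && quotB (F.mul G) b.q3 &&
  quotB (ZM.word F G b.w1) b.p1 && quotB (ZM.word F G b.w2) b.p2 &&
  decide (32000 ≤ (b.p1.mul b.p1.cnj).lo) && decide (32000 ≤ (b.p2.mul b.p2.cnj).lo) &&
  (zgam (ZM.word F G b.w1) (ZM.word F G b.w2)).nz

theorem baseChk_sound {τ : ℂ} {s : ℤ} (h : Quad τ s) (isO : Z12 → Bool)
    (hO : ∀ x, isO x = true → ev x ∈ Kq h) {F G : ZM} {b : Base} (hb : baseChk isO F G b = true) :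
    Tr (Kq h) (evM F) (evM G) ∧ IntG (evM F) (evM G) ∧ Big (evM F) (evM G) := by
  simp only [baseChk, Bool.and_eq_true, decide_eq_true_eq] at hb
  obtain ⟨⟨⟨⟨⟨⟨⟨⟨⟨⟨⟨⟨a1, a2⟩, a3⟩, a4⟩, a5⟩, a6⟩, a7⟩, a8⟩, a9⟩, a10⟩, a11⟩, a12⟩, a13⟩ := hb
  refine ⟨⟨by rw [evM_tr]; exact hO _ a1, by rw [evM_tr]; exact hO _ a2,
    by rw [← evM_mul, evM_tr]; exact hO _ a3, by rw [evM_det]; exact hO _ a4,
    by rw [evM_det]; exact hO _ a5⟩, ?_, ?_⟩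
  · obtain ⟨b1, b2⟩ := quotB_sound a6
    obtain ⟨b3, b4⟩ := quotB_sound a7
    obtain ⟨b5, b6⟩ := quotB_sound a8
    rw [evM_mul, det_mul] at b5 b6
    refine ⟨b1, b3, ?_, ?_, ?_⟩
    · rw [b2, mul_div_cancel_right₀ _ b1]; exact ev_integral _
    · rw [b4, mul_div_cancel_right₀ _ b3]; exact ev_integral _
    · rw [b6, mul_div_cancel_right₀ _ b5]; exact ev_integral _
  · have key : ∀ (W : ZM) (p : Z12), quotB W p = true → 32000 ≤ (p.mul p.cnj).lo → ∀ t : ℂ,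
        det (sc t (evM W)) = 1 → 2 ≤ ‖tr (sc t (evM W))‖ := by
      intro W p c1 c2 t ht
      obtain ⟨_, d2⟩ := quotB_sound c1
      have d3 := lo_le (p.mul p.cnj)
      rw [ev_nsq, normSq_eq_norm_sq] at d3
      have d4 : (32000 : ℝ) ≤ (p.mul p.cnj).lo := by exact_mod_cast c2
      have d5 : tr (sc t (evM W)) ^ 2 = ev p := by
        rw [det_sc] at ht
        rw [tr_sc, mul_pow, d2]; linear_combination ev p * ht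
      have d6 : 4 ≤ ‖ev p‖ := by nlinarith [norm_nonneg (ev p)]
      rw [← d5, norm_pow] at d6
      nlinarith [norm_nonneg (tr (sc t (evM W)))]
    obtain ⟨t, ht0, ht⟩ := exists_normalize (quotB_sound a9).1
    obtain ⟨u, hu0, hu⟩ := exists_normalize (quotB_sound a10).1
    refine ⟨_, _, (wd0_word F G b.w1).wd.sc ht0, (wd0_word F G b.w2).wd.sc hu0, ht, hu,
      key _ _ a9 a11 t ht, key _ _ a10 a12 u hu, ?_⟩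
    rw [← gamh_one ht hu, gamh_sc, ← ev_zgam]
    exact mul_ne_zero (mul_ne_zero (pow_ne_zero _ ht0) (pow_ne_zero _ hu0)) (ev_ne a13)

theorem mod_of_cover {F G : ZM} (b : Base) (ws : List (List ℕ × ℤ)) (fs gs : List Form)
    (h1 : baseChk isW F G b = true) (h2 : certB F G ws fs gs = true) (h3 : coverB fs = true)
    (h4 : coverB gs = true) : Mod quadW (evM F) (evM G) := by
  obtain ⟨a1, a2, a3⟩ := baseChk_sound quadW isW (fun _ => isW_sound) h1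
  have a4 := cocpt_of_shrinks (shrinks_of_cert F G ws fs gs h2 h3 h4)
  exact ⟨a1, a2, a3, cof_of_cocpt a4, fun _ hS _ => a4.fi hS⟩

def zT (k : Z12) : ZM := ⟨⟨1, 0, 0, 0⟩, k, ⟨0, 0, 0, 0⟩, ⟨1, 0, 0, 0⟩⟩
def zS : ZM := ⟨⟨0, 0, 0, 0⟩, ⟨-1, 0, 0, 0⟩, ⟨1, 0, 0, 0⟩, ⟨0, 0, 0, 0⟩⟩
def zgens : List ZM := [zT ⟨1, 0, 0, 0⟩, zT ⟨-1, 0, 0, 0⟩, zT ⟨0, 0, 0, 1⟩, zT ⟨0, 0, 0, -1⟩, zS]

theorem evM_zT (k : Z12) : evM (zT k) = tl (ev k) := by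
  ext <;> simp [evM, zT, tl, ev_one, ev_zero]

def rowB (F G : ZM) (rs : List ZM) (r : ZM) : List ZM → List (ℕ × List ℕ) → Bool
  | [], _ => true
  | s :: ss, c :: cs => decide (c.1 < rs.length) &&
      ((rs.getD c.1 ZM.one).adj.mul (s.mul r)).prop (ZM.word F G c.2) && rowB F G rs r ss cs
  | _ :: _, [] => false

theorem rowB_sound (F G : ZM) (rs : List ZM) (r : ZM) : ∀ (ss : List ZM) (cs : List (ℕ × List ℕ)),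
    rowB F G rs r ss cs = true → ∀ s ∈ ss, ∃ r' ∈ rs,
      Wd (evM F) (evM G) (adj (evM r') * (evM s * evM r))
  | [], _, _ => by simp
  | s :: ss, c :: cs, h => by
    simp only [rowB, Bool.and_eq_true, decide_eq_true_eq] at h
    intro x hx
    rcases List.mem_cons.1 hx with rfl | hx
    · refine ⟨rs.getD c.1 ZM.one, ?_, ?_⟩
      · rw [List.getD_eq_getElem _ _ h.1.1]; exact List.getElem_mem _
      · rw [← evM_adj, ← evM_mul, ← evM_mul]; exact wd_of_prop h.1.2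
    · exact rowB_sound F G rs r ss cs h.2 x hx
  | _ :: _, [], h => by simp [rowB] at h

def tabB (F G : ZM) (rs : List ZM) : List ZM → List (List (ℕ × List ℕ) × List ℕ) → Bool
  | [], _ => true
  | r :: l, c :: cs => rowB F G rs r zgens c.1 &&
      ((r.adj.mul (zT ⟨2, 0, 0, 0⟩)).mul r).prop (ZM.word F G c.2) && r.det.beq ⟨1, 0, 0, 0⟩ &&
      tabB F G rs l cs
  | _ :: _, [] => false

theorem tabB_sound (F G : ZM) (rs : List ZM) :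
    ∀ (l : List ZM) (cs : List (List (ℕ × List ℕ) × List ℕ)), tabB F G rs l cs = true →
    ∀ r ∈ l, (∀ s ∈ zgens, ∃ r' ∈ rs, Wd (evM F) (evM G) (adj (evM r') * (evM s * evM r))) ∧
      Wd (evM F) (evM G) (adj (evM r) * tl 2 * evM r) ∧ det (evM r) = 1
  | [], _, _ => by simp
  | r :: l, c :: cs, h => by
    simp only [tabB, Bool.and_eq_true] at h
    intro x hx
    rcases List.mem_cons.1 hx with rfl | hx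
    · refine ⟨rowB_sound F G rs x _ _ h.1.1.1, ?_, ?_⟩
      · have := wd_of_prop h.1.1.2
        rwa [evM_mul, evM_mul, evM_adj, evM_zT, show ev ⟨2, 0, 0, 0⟩ = 2 by simp [ev]] at this
      · rw [evM_det, Z12.eq_of_beq h.1.2, ev_one]
    · exact tabB_sound F G rs l cs h.2 x hx
  | _ :: _, [], h => by simp [tabB] at h

theorem mod_of_tab {F G : ZM} (b : Base) (rs : List ZM)
    (cs : List (List (ℕ × List ℕ) × List ℕ)) (h1 : baseChk isG F G b = true)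
    (h2 : tabB F G rs rs cs = true) (h3 : rs.head? = some ZM.one) : Mod quadI (evM F) (evM G) := by
  obtain ⟨a1, a2, a3⟩ := baseChk_sound quadI isG (fun _ => isG_sound) h1
  have a4 := tabB_sound F G rs rs cs h2
  have hT : Tab (evM F) (evM G) (rs.map evM) := by
    refine ⟨List.mem_map.2 ⟨ZM.one, List.mem_of_head? h3, evM_one⟩, ?_, ?_, ?_⟩
    · intro r hr
      obtain ⟨x, hx, rfl⟩ := List.mem_map.1 hr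
      exact (a4 x hx).2.2
    · intro s hs r hr
      obtain ⟨x, hx, rfl⟩ := List.mem_map.1 hr
      obtain ⟨y, hy, rfl⟩ : ∃ y ∈ zgens, s = evM y := by
        rcases hs with rfl | rfl | rfl | rfl | rfl
        · exact ⟨zT ⟨1, 0, 0, 0⟩, by simp [zgens], by rw [evM_zT, ev_one]⟩
        · exact ⟨zT ⟨-1, 0, 0, 0⟩, by simp [zgens], by rw [evM_zT]; simp [ev]⟩
        · exact ⟨zT ⟨0, 0, 0, 1⟩, by simp [zgens], by rw [evM_zT]; simp [ev, zt3]⟩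
        · exact ⟨zT ⟨0, 0, 0, -1⟩, by simp [zgens], by rw [evM_zT]; simp [ev, zt3]⟩
        · exact ⟨zS, by simp [zgens], by ext <;> simp [evM, zS, sw0, ev]⟩
      obtain ⟨r', hr', k⟩ := (a4 x hx).1 y hy
      exact ⟨evM r', List.mem_map.2 ⟨r', hr', rfl⟩, k⟩
    · intro r hr
      obtain ⟨x, hx, rfl⟩ := List.mem_map.1 hr
      exact (a4 x hx).2.1
  exact ⟨a1, a2, a3, hT.cof, fun _ hS hsub => hT.fi hS hsub⟩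

def wsA : List (List ℕ × ℤ) := [([1], 3960), ([1, 0], 7920), ([1, 2], 7920), ([1, 0, 0], 15840), ([3], 3960), ([3, 0], 7920), ([3, 2], 7920), ([3, 0, 0], 15840), ([3, 0, 1], 15840), ([3, 0, 1, 0, 0], 63360)]
def fA : ZM := ⟨⟨1, 0, 0, 1⟩, ⟨0, 0, 0, 0⟩, ⟨0, 0, 0, 0⟩, ⟨1, 0, 0, -1⟩⟩
def gA : ZM := ⟨⟨1, -1, 0, 1⟩, ⟨1, 0, 0, 0⟩, ⟨-2, 0, 1, 0⟩, ⟨1, 1, 0, -1⟩⟩
def baseA : Base := ⟨⟨2, 0, 0, 0⟩, ⟨2, 0, 0, 0⟩, ⟨0, 0, -1, 0⟩, [0, 1, 0, 1], ⟨3, 0, 5, 0⟩, [0, 3, 0, 3], ⟨-5, 0, -3, 0⟩⟩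
def fsA : List Form := [⟨2576, -12398, -5466, 5514⟩,
  ⟨5152, -10932, 24784, 11028⟩,
  ⟨5152, 10928, -24796, 11028⟩,
  ⟨10304, 49568, 21856, 22056⟩,
  ⟨9506, -8398, 1464, -1416⟩,
  ⟨19012, 2928, 16784, -2832⟩,
  ⟨19012, -2932, -16796, -2832⟩,
  ⟨38024, 33568, -5864, -5664⟩,
  ⟨-7264, -27728, -16000, 43904⟩,
  ⟨-29056, 110848, 64000, 175616⟩]
def gsA : List Form := [⟨5506, -12398, 5464, 2584⟩,
  ⟨11012, -10932, -24796, 5168⟩,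
  ⟨11012, 10928, 24784, 5168⟩,
  ⟨22024, 49568, -21864, 10336⟩,
  ⟨-1424, -8398, -1466, 9514⟩,
  ⟨-2848, 2928, -16796, 19028⟩,
  ⟨-2848, -2932, 16784, 19028⟩,
  ⟨-5696, 33568, 5856, 38056⟩,
  ⟨43888, -27728, 16000, -7248⟩,
  ⟨175552, 110848, -64000, -28992⟩]
theorem modA : Mod quadW (evM fA) (evM gA) :=
  mod_of_cover baseA wsA fsA gsA (by decide +kernel) (by decide +kernel) (by decide +kernel)
    (by decide +kernel)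

def fAc : ZM := ⟨⟨1, 0, 0, -1⟩, ⟨0, 0, 0, 0⟩, ⟨0, 0, 0, 0⟩, ⟨1, 0, 0, 1⟩⟩
def gAc : ZM := ⟨⟨1, -1, 0, 0⟩, ⟨1, 0, 0, 0⟩, ⟨-1, 0, -1, 0⟩, ⟨1, 1, 0, 0⟩⟩
def baseAc : Base := ⟨⟨2, 0, 0, 0⟩, ⟨2, 0, 0, 0⟩, ⟨-1, 0, 1, 0⟩, [0, 1, 0, 1], ⟨8, 0, -5, 0⟩, [0, 3, 0, 3], ⟨-8, 0, 3, 0⟩⟩
def fsAc : List Form := [⟨2576, -12398, 5464, 5514⟩,
  ⟨5152, -10932, -24796, 11028⟩,
  ⟨5152, 10928, 24784, 11028⟩,
  ⟨10304, 49568, -21864, 22056⟩,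
  ⟨9506, -8398, -1466, -1416⟩,
  ⟨19012, 2928, -16796, -2832⟩,
  ⟨19012, -2932, 16784, -2832⟩,
  ⟨38024, 33568, 5856, -5664⟩,
  ⟨-7264, -27728, 16000, 43904⟩,
  ⟨-29056, 110848, -64000, 175616⟩]
def gsAc : List Form := [⟨5506, -12398, -5466, 2584⟩,
  ⟨11012, -10932, 24784, 5168⟩,
  ⟨11012, 10928, -24796, 5168⟩,
  ⟨22024, 49568, 21856, 10336⟩,
  ⟨-1424, -8398, 1464, 9514⟩,
  ⟨-2848, 2928, 16784, 19028⟩,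
  ⟨-2848, -2932, -16796, 19028⟩,
  ⟨-5696, 33568, -5864, 38056⟩,
  ⟨43888, -27728, -16000, -7248⟩,
  ⟨175552, 110848, 64000, -28992⟩]
theorem modAc : Mod quadW (evM fAc) (evM gAc) :=
  mod_of_cover baseAc wsA fsAc gsAc (by decide +kernel) (by decide +kernel) (by decide +kernel)
    (by decide +kernel)

def wsB : List (List ℕ × ℤ) := [([0], 13717), ([2], 13717), ([3], 13717), ([0, 0, 3], 658456), ([0, 0, 0, 1, 1], 31605908), ([0, 1, 1, 0, 0], 31605908), ([0, 1], 95040), ([2, 2], 95040), ([2, 3], 95040), ([0, 1, 0, 3], 4561920)]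
def fB : ZM := ⟨⟨1, -1, 1, 2⟩, ⟨-1, 0, 0, -1⟩, ⟨2, -1, -1, -1⟩, ⟨1, 1, 1, -2⟩⟩
def gB : ZM := ⟨⟨1, 1, 1, -2⟩, ⟨-1, 0, 0, 1⟩, ⟨2, 1, -1, 1⟩, ⟨1, -1, 1, 2⟩⟩
def baseB : Base := ⟨⟨1, 0, 1, 0⟩, ⟨1, 0, 1, 0⟩, ⟨0, 0, 3, 0⟩, [0, 0, 0], ⟨6, 0, -3, 0⟩, [1, 1, 1], ⟨6, 0, -3, 0⟩⟩
def fsB : List Form := [⟨10283, 0, 27712, 2299⟩,
  ⟨10283, 27712, 0, 2299⟩,
  ⟨10283, -27728, 0, 2299⟩,
  ⟨493544, 0, -1330944, 110312⟩,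
  ⟨-16786580, 0, 0, 37200748⟩,
  ⟨174814060, 0, 0, -26666132⟩,
  ⟨61824, -131184, 297408, 132336⟩,
  ⟨61824, 297408, 131136, 132336⟩,
  ⟨61824, -297552, -131184, 132336⟩,
  ⟨2967552, 6294528, -14282496, 6352128⟩]
def gsB : List Form := [⟨2283, 0, -27728, 10299⟩,
  ⟨2283, 27712, 0, 10299⟩,
  ⟨2283, -27728, 0, 10299⟩,
  ⟨109544, 0, 1330176, 494312⟩,
  ⟨37200748, 0, 0, -16786580⟩,
  ⟨-26666132, 0, 0, 174814060⟩,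
  ⟨132144, -131184, -297552, 62016⟩,
  ⟨132144, 297408, -131184, 62016⟩,
  ⟨132144, -297552, 131136, 62016⟩,
  ⟨6342912, 6294528, 14275584, 2976768⟩]
theorem modB : Mod quadW (evM fB) (evM gB) :=
  mod_of_cover baseB wsB fsB gsB (by decide +kernel) (by decide +kernel) (by decide +kernel)
    (by decide +kernel)

def fBc : ZM := ⟨⟨2, -1, -1, -1⟩, ⟨-1, 0, 0, 1⟩, ⟨1, -1, 1, 2⟩, ⟨2, 1, -1, 1⟩⟩
def gBc : ZM := ⟨⟨2, 1, -1, 1⟩, ⟨-1, 0, 0, -1⟩, ⟨1, 1, 1, -2⟩, ⟨2, -1, -1, -1⟩⟩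
def baseBc : Base := ⟨⟨2, 0, -1, 0⟩, ⟨2, 0, -1, 0⟩, ⟨3, 0, -3, 0⟩, [0, 0, 0], ⟨3, 0, 3, 0⟩, [1, 1, 1], ⟨3, 0, 3, 0⟩⟩
def fsBc : List Form := [⟨10283, 0, -27728, 2299⟩,
  ⟨10283, 27712, 0, 2299⟩,
  ⟨10283, -27728, 0, 2299⟩,
  ⟨493544, 0, 1330176, 110312⟩,
  ⟨-16786580, 0, 0, 37200748⟩,
  ⟨174814060, 0, 0, -26666132⟩,
  ⟨61824, -131184, -297552, 132336⟩,
  ⟨61824, 297408, -131184, 132336⟩,
  ⟨61824, -297552, 131136, 132336⟩,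
  ⟨2967552, 6294528, 14275584, 6352128⟩]
def gsBc : List Form := [⟨2283, 0, 27712, 10299⟩,
  ⟨2283, 27712, 0, 10299⟩,
  ⟨2283, -27728, 0, 10299⟩,
  ⟨109544, 0, -1330944, 494312⟩,
  ⟨37200748, 0, 0, -16786580⟩,
  ⟨-26666132, 0, 0, 174814060⟩,
  ⟨132144, -131184, 297408, 62016⟩,
  ⟨132144, 297408, 131136, 62016⟩,
  ⟨132144, -297552, -131184, 62016⟩,
  ⟨6342912, 6294528, -14282496, 2976768⟩]
theorem modBc : Mod quadW (evM fBc) (evM gBc) :=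
  mod_of_cover baseBc wsB fsBc gsBc (by decide +kernel) (by decide +kernel) (by decide +kernel)
    (by decide +kernel)

def wsC : List (List ℕ × ℤ) := [([0], 7920), ([2], 7920), ([3], 7920), ([0, 0, 3], 126720), ([0, 1, 0], 126720), ([2, 3, 2], 126720), ([2, 3, 3], 126720), ([0, 1, 0, 0, 3], 2027520), ([0, 0, 1, 1, 0], 2027520)]
def fC : ZM := ⟨⟨0, -1, 1, 1⟩, ⟨-1, -1, -1, 0⟩, ⟨3, -2, 0, 1⟩, ⟨0, 1, 1, -1⟩⟩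
def gC : ZM := ⟨⟨0, 1, 1, -1⟩, ⟨-1, -1, 1, 2⟩, ⟨1, 0, -2, 3⟩, ⟨0, -1, 1, 1⟩⟩
def baseC : Base := ⟨⟨0, 0, 1, 0⟩, ⟨0, 0, 1, 0⟩, ⟨-1, 0, 1, 0⟩, [0, 0, 0], ⟨5, 0, 3, 0⟩, [1, 1, 1], ⟨5, 0, 3, 0⟩⟩
def fsC : List Form := [⟨-704, 2928, 16784, 11028⟩,
  ⟨-704, 16784, -2932, 11028⟩,
  ⟨-704, -16796, 2928, 11028⟩,
  ⟨-11264, -46912, -268736, 176448⟩,
  ⟨129280, 221696, 128000, 1408⟩,
  ⟨129280, 128000, -221824, 1408⟩,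
  ⟨129280, -128000, 221696, 1408⟩,
  ⟨2068480, -3549184, -2048000, 22528⟩,
  ⟨5617664, 0, 0, -1478656⟩]
def gsC : List Form := [⟨11012, 2928, -16796, -688⟩,
  ⟨11012, 16784, 2928, -688⟩,
  ⟨11012, -16796, -2932, -688⟩,
  ⟨176192, -46912, 268544, -11008⟩,
  ⟨1280, 221696, -128000, 129408⟩,
  ⟨1280, 128000, 221696, 129408⟩,
  ⟨1280, -128000, -221824, 129408⟩,
  ⟨20480, -3549184, 2048000, 2070528⟩,
  ⟨-1478656, 0, 0, 5617664⟩]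
theorem modC : Mod quadW (evM fC) (evM gC) :=
  mod_of_cover baseC wsC fsC gsC (by decide +kernel) (by decide +kernel) (by decide +kernel)
    (by decide +kernel)

def fCc : ZM := ⟨⟨1, -1, -1, 0⟩, ⟨-2, -1, 1, 1⟩, ⟨3, -2, 0, 1⟩, ⟨1, 1, -1, 0⟩⟩
def gCc : ZM := ⟨⟨1, 1, -1, 0⟩, ⟨0, -1, -1, -1⟩, ⟨-1, 0, 2, -3⟩, ⟨1, -1, -1, 0⟩⟩
def baseCc : Base := ⟨⟨1, 0, -1, 0⟩, ⟨1, 0, -1, 0⟩, ⟨0, 0, -1, 0⟩, [0, 0, 0], ⟨8, 0, -3, 0⟩, [1, 1, 1], ⟨8, 0, -3, 0⟩⟩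
def fsCc : List Form := [⟨-704, 2928, -16796, 11028⟩,
  ⟨-704, 16784, 2928, 11028⟩,
  ⟨-704, -16796, -2932, 11028⟩,
  ⟨-11264, -46912, 268544, 176448⟩,
  ⟨129280, 221696, -128000, 1408⟩,
  ⟨129280, 128000, 221696, 1408⟩,
  ⟨129280, -128000, -221824, 1408⟩,
  ⟨2068480, -3549184, 2048000, 22528⟩,
  ⟨5617664, 0, 0, -1478656⟩]
def gsCc : List Form := [⟨11012, 2928, 16784, -688⟩,
  ⟨11012, 16784, -2932, -688⟩,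
  ⟨11012, -16796, 2928, -688⟩,
  ⟨176192, -46912, -268736, -11008⟩,
  ⟨1280, 221696, 128000, 129408⟩,
  ⟨1280, 128000, -221824, 129408⟩,
  ⟨1280, -128000, 221696, 129408⟩,
  ⟨20480, -3549184, -2048000, 2070528⟩,
  ⟨-1478656, 0, 0, 5617664⟩]
theorem modCc : Mod quadW (evM fCc) (evM gCc) :=
  mod_of_cover baseCc wsC fsCc gsCc (by decide +kernel) (by decide +kernel) (by decide +kernel)
    (by decide +kernel)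

def reps : List ZM := [⟨⟨1, 0, 0, 0⟩, ⟨0, 0, 0, 0⟩, ⟨0, 0, 0, 0⟩, ⟨1, 0, 0, 0⟩⟩,
  ⟨⟨1, 0, 0, 0⟩, ⟨1, 0, 0, 0⟩, ⟨0, 0, 0, 0⟩, ⟨1, 0, 0, 0⟩⟩,
  ⟨⟨1, 0, 0, 0⟩, ⟨0, 0, 0, 1⟩, ⟨0, 0, 0, 0⟩, ⟨1, 0, 0, 0⟩⟩,
  ⟨⟨0, 0, 0, 0⟩, ⟨-1, 0, 0, 0⟩, ⟨1, 0, 0, 0⟩, ⟨0, 0, 0, 0⟩⟩,
  ⟨⟨0, 0, 0, 0⟩, ⟨-1, 0, 0, 0⟩, ⟨1, 0, 0, 0⟩, ⟨1, 0, 0, 0⟩⟩,
  ⟨⟨0, 0, 0, 0⟩, ⟨-1, 0, 0, 0⟩, ⟨1, 0, 0, 0⟩, ⟨0, 0, 0, 1⟩⟩]
def fD : ZM := ⟨⟨0, 0, 0, 1⟩, ⟨0, 0, 0, 0⟩, ⟨0, 0, 0, 0⟩, ⟨1, 0, 0, 0⟩⟩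
def gD : ZM := ⟨⟨1, 0, 0, 1⟩, ⟨0, 0, 0, -1⟩, ⟨1, 0, 0, 0⟩, ⟨0, 0, 0, 0⟩⟩
def baseD : Base := ⟨⟨2, 0, 0, 0⟩, ⟨2, 0, 0, 0⟩, ⟨0, 0, 0, 2⟩, [0, 1, 0, 1], ⟨0, 0, 0, -8⟩, [0, 3, 0, 3], ⟨0, 0, 0, 8⟩⟩
def tabD : List (List (ℕ × List ℕ) × List ℕ) := [([(1, []), (1, [0, 1, 0, 3]), (2, []), (2, [2, 1, 2, 3]), (3, [])], [1, 2, 3, 2]),
  ([(0, [1, 2, 3, 2]), (0, []), (3, [0, 3, 0, 0]), (3, [0, 0, 3, 2]), (4, [])], [1, 2, 3, 2]),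
  ([(3, [0, 3, 0, 0]), (3, [3, 0]), (0, [1, 0, 3, 0]), (0, []), (5, [])], [1, 2, 3, 2]),
  ([(2, [2, 1]), (2, [0, 0, 1, 2]), (1, [0, 1, 0, 0]), (1, [0, 0, 1, 2]), (0, [])], [0, 3, 0, 1]),
  ([(5, [0, 0, 1, 2]), (5, [2, 1, 1, 2, 3, 2]), (5, [2, 3, 0, 0]), (5, [2, 1, 2, 1, 1, 2]), (1, [])], [0, 1, 0, 1, 1, 2, 1, 2]),
  ([(4, [0, 1, 0, 1, 1, 0]), (4, [0, 3, 0, 0]), (4, [0, 1, 1, 0, 3, 0]), (4, [0, 0, 1, 0]), (2, [])], [0, 0, 1, 1, 0, 1, 1, 0])]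
theorem modD : Mod quadI (evM fD) (evM gD) :=
  mod_of_tab baseD reps tabD (by decide +kernel) (by decide +kernel) rfl

def fE : ZM := ⟨⟨0, 0, 0, 1⟩, ⟨-1, 0, 0, 0⟩, ⟨1, 0, 0, 0⟩, ⟨1, 0, 0, 0⟩⟩
def gE : ZM := ⟨⟨1, 0, 0, 0⟩, ⟨0, 0, 0, -1⟩, ⟨0, 0, 0, -1⟩, ⟨0, 0, 0, 1⟩⟩
def baseE : Base := ⟨⟨1, 0, 0, 1⟩, ⟨1, 0, 0, 1⟩, ⟨0, 0, 0, 2⟩, [0, 0, 0], ⟨7, 0, 0, -1⟩, [1, 1, 1], ⟨7, 0, 0, -1⟩⟩
def tabE : List (List (ℕ × List ℕ) × List ℕ) := [([(1, []), (1, [0, 1, 1, 1]), (2, []), (2, [2, 3, 2, 2]), (3, [])], [3, 3, 3, 2]),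
  ([(0, [3, 3, 3, 2]), (0, []), (3, [1, 0]), (3, [2, 2]), (4, [])], [3, 3, 3, 2]),
  ([(3, [1, 0]), (3, [3, 2, 2, 1]), (0, [0, 0, 1, 0]), (0, []), (5, [])], [3, 3, 3, 2]),
  ([(2, [2, 1, 0, 1]), (2, [2, 3]), (1, [0, 0]), (1, [2, 3]), (0, [])], [1, 1, 0, 1]),
  ([(5, [2, 3]), (5, [2, 1, 0, 3, 3, 2]), (5, [2, 1, 1, 0]), (5, [2, 1, 0, 0, 0, 3]), (1, [])], [0, 1, 0, 3, 3, 3]),
  ([(4, [0, 1, 0, 3, 2, 1]), (4, [1, 0]), (4, [0, 1, 0, 0, 1, 0]), (4, [2, 3, 2, 1]), (2, [])], [2, 2, 1, 1, 0, 3, 2, 1])]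
theorem modE : Mod quadI (evM fE) (evM gE) :=
  mod_of_tab baseE reps tabE (by decide +kernel) (by decide +kernel) rfl

def fEc : ZM := ⟨⟨0, 0, 0, -1⟩, ⟨-1, 0, 0, 0⟩, ⟨1, 0, 0, 0⟩, ⟨1, 0, 0, 0⟩⟩
def gEc : ZM := ⟨⟨1, 0, 0, 0⟩, ⟨0, 0, 0, 1⟩, ⟨0, 0, 0, 1⟩, ⟨0, 0, 0, -1⟩⟩
def baseEc : Base := ⟨⟨1, 0, 0, -1⟩, ⟨1, 0, 0, -1⟩, ⟨0, 0, 0, -2⟩, [0, 0, 0], ⟨7, 0, 0, 1⟩, [1, 1, 1], ⟨7, 0, 0, 1⟩⟩
def tabEc : List (List (ℕ × List ℕ) × List ℕ) := [([(1, []), (1, [0, 1, 1, 1]), (2, []), (2, [0, 0, 1, 0]), (3, [])], [3, 3, 3, 2]),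
  ([(0, [3, 3, 3, 2]), (0, []), (3, [2, 2]), (3, [1, 0]), (4, [])], [3, 3, 3, 2]),
  ([(3, [2, 2]), (3, [2, 1, 1, 1]), (0, [2, 3, 2, 2]), (0, []), (5, [])], [3, 3, 3, 2]),
  ([(2, [3, 3, 2, 1]), (2, [0, 0]), (1, [2, 3]), (1, [0, 0]), (0, [])], [1, 1, 0, 1]),
  ([(5, [0, 0]), (5, [3, 2, 1, 1, 1, 0]), (5, [3, 2]), (5, [0, 0, 1, 1, 1, 0]), (1, [])], [0, 1, 0, 3, 3, 3]),
  ([(4, [0, 1, 1, 0, 1, 1]), (4, [2, 2]), (4, [2, 2, 1, 0, 1, 1]), (4, [0, 1]), (2, [])], [0, 3, 3, 2, 1, 1])]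
theorem modEc : Mod quadI (evM fEc) (evM gEc) :=
  mod_of_tab baseEc reps tabEc (by decide +kernel) (by decide +kernel) rfl

end Pool.Agent.Lib.MP_743898_gt
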