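import Mathlib

set_option autoImplicit false

/-! Definitions for the classification statements. -/

namespace Pool.Agent.Lib.MP_743898_gt.Cl

open MeasureTheory

/-- The group SL(2,C). -/
abbrev SL : Type := Matrix.SpecialLinearGroup (Fin 2) ℂ

/-- The group PSL(2,C), with the quotient topology. -/
abbrev PSL : Type := Matrix.ProjectiveSpecialLinearGroup (Fin 2) ℂ

/-- The action of `g = (a b; c d)` on the upper half-space model `{(z,t) : t > 0}` of hyperbolic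
3-space (Poincare extension of `z ↦ (az+b)/(cz+d)`). -/
noncomputable def act (g : SL) (p : ℂ × ℝ) : ℂ × ℝ :=
  (((g.1 0 0 * p.1 + g.1 0 1) * (starRingEnd ℂ) (g.1 1 0 * p.1 + g.1 1 1)
        + g.1 0 0 * (starRingEnd ℂ) (g.1 1 0) * (p.2 : ℂ) ^ 2)
      / ((‖g.1 1 0 * p.1 + g.1 1 1‖ ^ 2 + ‖g.1 1 0‖ ^ 2 * p.2 ^ 2 : ℝ) : ℂ),
    p.2 / (‖g.1 1 0 * p.1 + g.1 1 1‖ ^ 2 + ‖g.1 1 0‖ ^ 2 * p.2 ^ 2))

/-- Hyperbolic volume `∫ dx dy dt / t³`. -/
noncomputable def hvol (D : Set (ℂ × ℝ)) : ENNReal :=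
  ∫⁻ p in D, ENNReal.ofReal (1 / p.2 ^ 3)

/-- Finite covolume: some measurable subset of the upper half-space of finite hyperbolic volume
meets every orbit. -/
def FiniteCovolume (Γ : Subgroup PSL) : Prop :=
  ∃ D : Set (ℂ × ℝ), MeasurableSet D ∧ (∀ p ∈ D, 0 < p.2) ∧ hvol D < ⊤ ∧
    ∀ p : ℂ × ℝ, 0 < p.2 → ∃ g : SL, (g : PSL) ∈ Γ ∧ act g p ∈ D

/-- Nonelementary: every orbit on the projective line is infinite. -/
def Nonelementary (Γ : Subgroup PSL) : Prop :=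
  ∀ p : Projectivization ℂ (Fin 2 → ℂ), (MulAction.orbit Γ p).Infinite

/-- Hyperbolic 3-orbifold group: nonelementary, discrete, of finite covolume. -/
def IsOrbifoldGroup (Γ : Subgroup PSL) : Prop :=
  Nonelementary Γ ∧ IsDiscrete (Γ : Set PSL) ∧ FiniteCovolume Γ

/-- `Γ` has a generating pair with equality in the Tan inequality. -/
def IsTan (Γ : Subgroup PSL) : Prop :=
  ∃ f g : SL, Γ = Subgroup.closure {(f : PSL), (g : PSL)} ∧
    (f⁻¹ * g⁻¹ * f * g).1.trace ≠ 1 ∧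
    ‖f.1.trace ^ 2 - 2‖ + ‖(f⁻¹ * g⁻¹ * f * g).1.trace - 1‖ = 1

/-- `Γ` has a generating pair with equality in the Gehring-Martin-Tan inequality. -/
def IsGMT (Γ : Subgroup PSL) : Prop :=
  ∃ f g : SL, Γ = Subgroup.closure {(f : PSL), (g : PSL)} ∧
    f.1.trace ^ 2 ≠ 1 ∧ ‖f.1.trace ^ 2 - 1‖ + ‖(f⁻¹ * g⁻¹ * f * g).1.trace‖ = 1

/-- The group generated by the two Moebius transformations with (invertible) matrices `M`, `N`. -/
def gen (M N : Matrix (Fin 2) (Fin 2) ℂ) : Subgroup PSL :=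
  Subgroup.closure {x | ∃ (g : SL) (t : ℂ), x = (g : PSL) ∧ (g.1 = t • M ∨ g.1 = t • N)}

/-- Conjugacy of subgroups of PSL(2,C). -/
def Conjugate (Γ Δ : Subgroup PSL) : Prop :=
  ∃ P : PSL, ∀ x : PSL, x ∈ Γ ↔ P⁻¹ * x * P ∈ Δ

/-- The cube root of unity `e^(2πi/3)`. -/
noncomputable def om : ℂ := (-1 + (√3 : ℝ) * Complex.I) / 2

/-- The group generated by `z ↦ iz` and `z ↦ 1 + μ/z`. -/
def fam4 (μ : ℂ) : Subgroup PSL := gen !![Complex.I, 0; 0, 1] !![1, μ; 1, 0]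

/-- The group generated by `z ↦ -z` and `z ↦ μ(1+z)/(1-z)`. -/
def fam2 (μ : ℂ) : Subgroup PSL := gen !![-1, 0; 0, 1] !![μ, μ; -1, 1]

/-- The group generated by `z ↦ iz` and the involution
`z ↦ ((1+ζ)z + 1)/((1-ζ²)z - (1+ζ))`. -/
def grpH (ζ : ℂ) : Subgroup PSL :=
  gen !![Complex.I, 0; 0, 1] !![1 + ζ, 1; 1 - ζ ^ 2, -(1 + ζ)]

/-- The group generated by the order four elements `z ↦ iz + 1` and `z ↦ iz/(1 - iωz)`. -/
noncomputable def grpF : Subgroup PSL :=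
  gen !![Complex.I, 1; 0, 1] !![Complex.I, 0; -(Complex.I * om), 1]

end Pool.Agent.Lib.MP_743898_gt.Cl
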