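import Pool.Agent.Lib.MP_743898_gt.CCov
import Pool.Agent.Lib.MP_743898_gt.CDefs

-- part Pool.Agent.Lib.MP_743898_gt.CArith
section

set_option autoImplicit false

/-! Discrete overgroups of an arithmetic lattice have integral squared traces. -/

namespace Pool.Agent.Lib.MP_743898_gt

open M2 Complex

structure Quad (τ : ℂ) (s : ℤ) : Prop where
  eq : τ ^ 2 + s * τ + 1 = 0
  cnj : (starRingEnd ℂ) τ = -s - τ
  cases : s = 0 ∨ s = 1

def InO (τ x : ℂ) : Prop := ∃ a b : ℤ, x = a + b * τ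

def Kq {τ : ℂ} {s : ℤ} (h : Quad τ s) : Subring ℂ where
  carrier := {x | ∃ a b : ℚ, x = a + b * τ}
  mul_mem' := by
    rintro _ _ ⟨a, b, rfl⟩ ⟨c, d, rfl⟩
    refine ⟨a * c - b * d, a * d + b * c - s * b * d, ?_⟩
    push_cast
    linear_combination (b * d : ℂ) * h.eq
  one_mem' := ⟨1, 0, by simp⟩
  add_mem' := by
    rintro _ _ ⟨a, b, rfl⟩ ⟨c, d, rfl⟩
    exact ⟨a + c, b + d, by push_cast; ring⟩
  zero_mem' := ⟨0, 0, by simp⟩
  neg_mem' := by
    rintro _ ⟨a, b, rfl⟩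
    exact ⟨-a, -b, by push_cast; ring⟩

section
variable {τ : ℂ} {s : ℤ}

theorem InO.kq (h : Quad τ s) {x : ℂ} (hx : InO τ x) : x ∈ Kq h := by
  obtain ⟨a, b, rfl⟩ := hx
  exact ⟨a, b, by push_cast; ring⟩

theorem Kq_inv (h : Quad τ s) {x : ℂ} (hx : x ∈ Kq h) : x⁻¹ ∈ Kq h := by
  by_cases h0 : x = 0
  · rw [h0, inv_zero]; exact zero_mem _
  obtain ⟨a, b, rfl⟩ := hx
  have e : ((a : ℂ) + b * τ) * ((a - s * b : ℚ) + (-b : ℚ) * τ) = (a ^ 2 - s * a * b + b ^ 2 : ℚ) := by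
    push_cast; linear_combination (-(b : ℂ) ^ 2) * h.eq
  have e2 : ((a - s * b : ℚ) : ℂ) + (-b : ℚ) * τ = (starRingEnd ℂ) ((a : ℂ) + b * τ) := by
    simp only [map_add, map_mul, map_ratCast, h.cnj]; push_cast; ring
  have hn : ((a ^ 2 - s * a * b + b ^ 2 : ℚ) : ℂ) ≠ 0 := by
    rw [← e, e2]; exact mul_ne_zero h0 (by rwa [Ne, map_eq_zero])
  refine ⟨(a - s * b) / (a ^ 2 - s * a * b + b ^ 2), -b / (a ^ 2 - s * a * b + b ^ 2), ?_⟩
  rw [Rat.cast_div, Rat.cast_div]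
  apply inv_eq_of_mul_eq_one_right
  rw [div_mul_eq_mul_div, ← add_div, ← mul_div_assoc, e, div_self hn]

theorem rat_int {q : ℚ} (h : IsIntegral ℤ (q : ℂ)) : ∃ n : ℤ, q = n := by
  have h1 : IsIntegral ℤ q := (isIntegral_algebraMap_iff (algebraMap ℚ ℂ).injective).1 h
  obtain ⟨n, hn⟩ := IsIntegrallyClosed.isIntegral_iff.1 h1
  exact ⟨n, hn.symm⟩

theorem rat_sq_int {q : ℚ} {n : ℤ} (h : q ^ 2 = n) : ∃ k : ℤ, q = k := by
  apply rat_int
  refine IsIntegral.of_pow (n := 2) (by norm_num) ?_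
  have : (q : ℂ) ^ 2 = algebraMap ℤ ℂ n := by
    simp only [eq_intCast]; exact_mod_cast h
  rw [this]; exact isIntegral_algebraMap

theorem InO.integral (h : Quad τ s) {x : ℂ} (hx : InO τ x) : IsIntegral ℤ x := by
  obtain ⟨a, b, rfl⟩ := hx
  have ht : IsIntegral ℤ τ := by
    refine ⟨Polynomial.X ^ 2 + Polynomial.C s * Polynomial.X + 1, by monicity!, ?_⟩
    rw [Polynomial.eval₂_add, Polynomial.eval₂_add, Polynomial.eval₂_mul, Polynomial.eval₂_C]
    simpa using h.eq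
  exact (isIntegral_algebraMap (x := a)).add ((isIntegral_algebraMap (x := b)).mul ht)

theorem inO_of_kq (h : Quad τ s) {x : ℂ} (hx : x ∈ Kq h) (hi : IsIntegral ℤ x) : InO τ x := by
  obtain ⟨a, b, rfl⟩ := hx
  have hc : IsIntegral ℤ ((starRingEnd ℂ) ((a : ℂ) + b * τ)) :=
    hi.map (starRingEnd ℂ).toIntAlgHom
  have e2 : (starRingEnd ℂ) ((a : ℂ) + b * τ) = a + b * (-s - τ) := by
    simp only [map_add, map_mul, map_ratCast, h.cnj]
  rw [e2] at hc
  obtain ⟨m, hm⟩ : ∃ m : ℤ, 2 * a - s * b = m := by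
    apply rat_int
    have e : ((2 * a - s * b : ℚ) : ℂ) = (a : ℂ) + b * τ + (a + b * (-s - τ)) := by
      push_cast; ring
    rw [e]; exact hi.add hc
  obtain ⟨n, hn⟩ : ∃ n : ℤ, a ^ 2 - s * a * b + b ^ 2 = n := by
    apply rat_int
    have e : ((a ^ 2 - s * a * b + b ^ 2 : ℚ) : ℂ) = ((a : ℂ) + b * τ) * (a + b * (-s - τ)) := by
      push_cast; linear_combination (b : ℂ) ^ 2 * h.eq
    rw [e]; exact hi.mul hc
  rcases h.cases with rfl | rfl
  · obtain ⟨k, hk⟩ := rat_sq_int (q := 2 * b) (n := 4 * n - m ^ 2)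
      (by push_cast at hm hn ⊢; rw [← hm, ← hn]; ring)
    have e : m ^ 2 + k ^ 2 = 4 * n := by
      have : (m : ℚ) ^ 2 + k ^ 2 = 4 * n := by
        push_cast at hm hn; rw [← hm, ← hn, ← hk]; ring
      exact_mod_cast this
    obtain ⟨m', hm'⟩ : 2 ∣ m := by
      rcases Int.even_or_odd' m with ⟨c, rfl | rfl⟩
      · exact ⟨c, rfl⟩
      · rcases Int.even_or_odd' k with ⟨d, rfl | rfl⟩
        · exfalso; have : 4 * (c ^ 2 + c + d ^ 2 - n) = -1 := by linear_combination e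
          omega
        · exfalso; have : 4 * (c ^ 2 + c + d ^ 2 + d - n) = -2 := by linear_combination e
          omega
    obtain ⟨k', hk'⟩ : 2 ∣ k := by
      rcases Int.even_or_odd' k with ⟨d, rfl | rfl⟩
      · exact ⟨d, rfl⟩
      · exfalso; subst hm'
        have : 4 * (m' ^ 2 + d ^ 2 + d - n) = -1 := by linear_combination e
        omega
    subst hm' hk'
    refine ⟨m', k', ?_⟩
    have ha : a = m' := by push_cast at hm; linarith
    have hb : b = k' := by push_cast at hk; linarith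
    rw [ha, hb]; push_cast; ring
  · obtain ⟨k, hk⟩ := rat_sq_int (q := 3 * b) (n := 3 * (4 * n - m ^ 2))
      (by push_cast at hm hn ⊢; rw [← hm, ← hn]; ring)
    have e : k ^ 2 = 3 * (4 * n - m ^ 2) := by
      have : (k : ℚ) ^ 2 = 3 * (4 * n - m ^ 2) := by
        push_cast at hm hn; rw [← hm, ← hn, ← hk]; ring
      exact_mod_cast this
    obtain ⟨k', hk'⟩ : (3 : ℤ) ∣ k := Int.prime_three.dvd_of_dvd_pow ⟨_, e⟩
    subst hk'
    have hb : b = k' := by push_cast at hk; linarith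
    obtain ⟨c, hc⟩ : 2 ∣ m + k' := by
      rcases Int.even_or_odd' m with ⟨c, rfl | rfl⟩ <;>
        rcases Int.even_or_odd' k' with ⟨d, rfl | rfl⟩
      · exact ⟨c + d, by ring⟩
      · exfalso
        have : 12 * (3 * d ^ 2 + 3 * d + c ^ 2 - n) = -9 := by linear_combination e
        omega
      · exfalso
        have : 12 * (3 * d ^ 2 + c ^ 2 + c - n) = -3 := by linear_combination e
        omega
      · exact ⟨c + d + 1, by ring⟩
    refine ⟨c, k', ?_⟩
    have hc' : (m : ℚ) + k' = 2 * c := by exact_mod_cast hc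
    have ha : a = c := by push_cast at hm; linarith
    rw [ha, hb]; push_cast; ring

end

def pw (X : M2) : ℕ → M2
  | 0 => one2
  | n + 1 => pw X n * X

theorem pw_add (X : M2) (m n : ℕ) : pw X (m + n) = pw X m * pw X n := by
  induction n with
  | zero => rw [Nat.add_zero, pw, mu_one]
  | succ n ih => rw [← Nat.add_assoc, pw, pw, ih, mul_as]

theorem Wd.pw {F G X : M2} (h : Wd F G X) (n : ℕ) : Wd F G (pw X n) := by
  induction n with
  | zero => exact Wd.one _ _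
  | succ n ih => exact ih.mul h

theorem det_pw {X : M2} (h : det X = 1) (n : ℕ) : det (pw X n) = 1 := by
  induction n with
  | zero => exact det_one2
  | succ n ih => rw [pw, det_mul, ih, h, one_mul]

theorem Good.pw {S : Set M2} (hS : Good S) {X : M2} (h : X ∈ S) (n : ℕ) : pw X n ∈ S := by
  induction n with
  | zero => rw [MP_743898_gt.pw, ← mul_adj1 (hS.det h)]; exact hS.mul h (hS.adj h)
  | succ n ih => exact hS.mul ih h

theorem pw_lin (B : Subring ℂ) {p : M2} (hp : det p = 1) (ht : tr p ∈ B) (h2 : 2 ≤ ‖tr p‖)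
    (n : ℕ) : ∃ α ∈ B, ∃ β ∈ B, pw p (n + 1) = ad (sc α one2) (sc β p) ∧ ‖α‖ ≤ ‖β‖ ∧ 1 ≤ ‖β‖ := by
  induction n with
  | zero => exact ⟨0, zero_mem _, 1, one_mem _, by ext <;> simp [pw, ad, sc, one2], by simp, by simp⟩
  | succ n ih =>
    obtain ⟨α, hα, β, hβ, e, k1, k2⟩ := ih
    have k3 : ‖β‖ ≤ ‖α + tr p * β‖ := by
      have a1 : ‖tr p * β‖ ≤ ‖α + tr p * β‖ + ‖α‖ := by
        simpa using norm_sub_le (α + tr p * β) α
      rw [norm_mul] at a1
      nlinarith [norm_nonneg β]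
    refine ⟨-β, neg_mem hβ, α + tr p * β, add_mem hα (mul_mem ht hβ), ?_, by simpa using k3,
      k2.trans k3⟩
    rw [pw, e]
    simp only [det] at hp
    ext <;> simp [ad, sc, one2, tr]
    · linear_combination (-β) * hp
    · ring
    · ring
    · linear_combination (-β) * hp

theorem tr_pw {X : M2} (hX : det X = 1) (l m : ℂ) (hlm : l * m = 1) (ht : tr X = l + m) (n : ℕ) :
    tr (pw X n) = l ^ n + m ^ n := by
  have key : ∀ n : ℕ, tr (pw X n) = l ^ n + m ^ n ∧ tr (pw X (n + 1)) = l ^ (n + 1) + m ^ (n + 1) := by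
    intro n
    induction n with
    | zero => exact ⟨by simp [pw, tr, one2], by simp [pw, one_mu, ht]⟩
    | succ n ih =>
      refine ⟨ih.2, ?_⟩
      have e : tr (pw X (n + 1 + 1)) = tr X * tr (pw X (n + 1)) - tr (pw X n) := by
        rw [pw, pw, mul_as, tr_comm, tr_sq_mul _ _ hX, tr_comm X (pw X n)]
      rw [e, ih.1, ih.2, ht]
      linear_combination (l ^ n + m ^ n) * hlm
  exact (key n).1

theorem integral_of_pw {X : M2} (hX : det X = 1) {n : ℕ} (hn : 0 < n)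
    (h : IsIntegral ℤ (tr (pw X n))) : IsIntegral ℤ (tr X) := by
  obtain ⟨r, hr⟩ := IsAlgClosed.exists_eq_mul_self (tr X ^ 2 - 4)
  have hlm : (tr X + r) / 2 * ((tr X - r) / 2) = 1 := by linear_combination (1 / 4 : ℂ) * hr
  have ht : tr X = (tr X + r) / 2 + (tr X - r) / 2 := by ring
  generalize (tr X + r) / 2 = l at hlm ht
  generalize (tr X - r) / 2 = m at hlm ht
  rw [tr_pw hX l m hlm ht] at h
  have key : ∀ l m : ℂ, l * m = 1 → IsIntegral ℤ (l ^ n + m ^ n) → IsIntegral ℤ l := by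
    intro l m hlm h
    refine IsIntegral.of_pow hn ?_
    have h2 : IsIntegral (integralClosure ℤ ℂ) (l ^ n) := by
      refine ⟨Polynomial.X ^ 2 - Polynomial.C (⟨_, h⟩ : integralClosure ℤ ℂ) * Polynomial.X + 1,
        by monicity!, ?_⟩
      have e : l ^ n * m ^ n = 1 := by rw [← mul_pow, hlm, one_pow]
      simp
      linear_combination -e
    exact isIntegral_trans _ h2
  rw [ht]
  exact (key l m hlm h).add (key m l (by rw [mul_comm, hlm]) (by rwa [add_comm]))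

theorem FI.pigeon {S : Set M2} {F G : M2} (h : FI S F G) (hS : Good S)
    (hsub : ∀ X, Wd F G X → det X = 1 → X ∈ S) {g x : M2} (hg : g ∈ S) (hx : x ∈ S) :
    ∃ n, 0 < n ∧ Wd F G (g * pw x n * adj g) := by
  obtain ⟨R, h⟩ := h
  choose Y hY using fun n : ℕ => h _ (hS.mul hg (hS.pw hx n))
  have hfin := hS.fin R
  obtain ⟨m, n, hmn, e⟩ := Set.Finite.exists_lt_map_eq_of_forall_mem
    (f := fun n => Y n * (g * pw x n)) (t := {X | X ∈ S ∧ Bd R X})
    (fun n => ⟨hS.mul (hsub _ (hY n).1 (hY n).2.1) (hS.mul hg (hS.pw hx n)), (hY n).2.2⟩) hfin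
  obtain ⟨k, rfl⟩ := Nat.exists_eq_add_of_lt hmn
  refine ⟨k + 1, Nat.succ_pos _, ?_⟩
  have := (hY (m + k + 1)).1.adj.mul (hY m).1
  convert this using 1
  have dm := det_pw (hS.det hx) m
  have e2 := congrArg (fun Z => adj (Y (m + k + 1)) * Z * adj (pw x m) * adj g) e
  rw [show m + k + 1 = (k + 1) + m by ring, pw_add] at e2
  rw [show m + k + 1 = (k + 1) + m by ring]
  simp only [mul_as] at e2
  rw [← mul_as (pw x m) (adj _), mul_adj1 dm, one_mu, mul_adj1 (hS.det hg), mu_one,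
    ← mul_as (adj _) (Y _) (g * _), adj_mul1 (hY _).2.1, one_mu] at e2
  rw [mul_as, e2]

section
variable {τ : ℂ} {s : ℤ}

theorem Wd.sq_sp (h : Quad τ s) {F G : M2} (hT : Tr (Kq h) F G) {Y : M2} (hY : Wd F G Y)
    (hd : det Y = 1) : Sp (Kq h) F G (Y * Y) ∧ tr Y ^ 2 ∈ Kq h := by
  obtain ⟨t, _, W, hW, rfl⟩ := hY
  have k := hW.sp hT
  rw [det_sc] at hd
  have e : t ^ 2 = (det W)⁻¹ := eq_inv_of_mul_eq_one_left hd
  have k2 : t ^ 2 ∈ Kq h := e ▸ Kq_inv h (k.det hT)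
  constructor
  · rw [sc_mul, mul_sc, sc_sc, ← sq]
    exact (k.mul hT k).smul k2
  · rw [tr_sc, mul_pow]
    exact mul_mem k2 (pow_mem (k.tr hT) _)

/-- The traces of the normalised generators are algebraic integers. -/
structure IntG (F G : M2) : Prop where
  dF : det F ≠ 0
  dG : det G ≠ 0
  tF : IsIntegral ℤ (tr F ^ 2 / det F)
  tG : IsIntegral ℤ (tr G ^ 2 / det G)
  tFG : IsIntegral ℤ (tr (F * G) ^ 2 / (det F * det G))

theorem IntG.integral {F G : M2} (h : IntG F G) {Y : M2} (hY : Wd F G Y) (hd : det Y = 1) :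
    IsIntegral ℤ (tr Y) := by
  obtain ⟨t, ht0, ht⟩ := exists_normalize h.dF
  obtain ⟨u, hu0, hu⟩ := exists_normalize h.dG
  have hY' : Wd (sc t F) (sc u G) Y :=
    Wd.sub (Wd.of_sc ht0 (Wd.l _ _)) (Wd.of_sc hu0 (Wd.r _ _)) hY
  have ht' := ht
  have hu' := hu
  rw [det_sc] at ht' hu'
  have e1 : t ^ 2 = (det F)⁻¹ := eq_inv_of_mul_eq_one_left ht'
  have e2 : u ^ 2 = (det G)⁻¹ := eq_inv_of_mul_eq_one_left hu'
  have hT : Tr (integralClosure ℤ ℂ).toSubring (sc t F) (sc u G) := by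
    refine ⟨IsIntegral.of_pow (n := 2) (by norm_num) ?_, IsIntegral.of_pow (n := 2) (by norm_num) ?_,
      IsIntegral.of_pow (n := 2) (by norm_num) ?_, by rw [ht]; exact one_mem _,
      by rw [hu]; exact one_mem _⟩
    · convert h.tF using 1
      rw [tr_sc, mul_pow, e1]; ring
    · convert h.tG using 1
      rw [tr_sc, mul_pow, e2]; ring
    · convert h.tFG using 1
      rw [sc_mul, mul_sc, sc_sc, tr_sc, mul_pow, mul_pow, e1, e2]; ring
  obtain ⟨v, _, W, hW, rfl⟩ := hY'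
  rw [det_sc, hW.det_one ht hu, mul_one] at hd
  have k : IsIntegral ℤ (tr W) := (hW.sp hT).tr hT
  rw [tr_sc]
  rcases sq_eq_one_iff.1 hd with rfl | rfl
  · simpa using k
  · simpa using k.neg

theorem Wd.inO (h : Quad τ s) {F G : M2} (hT : Tr (Kq h) F G) (hI : IntG F G) {Y : M2}
    (hY : Wd F G Y) (hd : det Y = 1) : InO τ (tr Y ^ 2) :=
  inO_of_kq h (hY.sq_sp h hT hd).2 ((hI.integral hY hd).pow 2)

theorem casimir (g p q : M2) (hp : det p = 1) (hq : det q = 1) :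
    -(gam p q) * (tr g * tr (adj g)) =
      -(gam p q) * det g
      + (tr (g * p * adj g * p) * (tr q ^ 2 - 4) + tr (g * q * adj g * q) * (tr p ^ 2 - 4)
        - (tr (g * p * adj g * q) + tr (g * q * adj g * p)) * (2 * tr (p * q) - tr p * tr q)) / 2
      - det g * (tr p ^ 2 * (tr q ^ 2 - 4) + tr q ^ 2 * (tr p ^ 2 - 4)
        - 2 * tr p * tr q * (2 * tr (p * q) - tr p * tr q)) / 4
      - tr (g * ad (p * q) (sc (-1) (q * p)) * adj g * ad (p * q) (sc (-1) (q * p))) / 2 := by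
  rw [← gamh_one hp hq, show (4 : ℂ) = 4 * 1 by ring]
  have e1 : tr q ^ 2 - 4 * 1 = tr q ^ 2 - 4 * det q := by rw [hq]
  have e2 : tr p ^ 2 - 4 * 1 = tr p ^ 2 - 4 * det p := by rw [hp]
  rw [e1, e2]
  simp only [gamh, tr, det, adj, ad, sc, mul_a, mul_b, mul_c, mul_d]
  ring

/-- Two elements with large trace and no common fixed point. -/
def Big (F G : M2) : Prop :=
  ∃ P Q, Wd F G P ∧ Wd F G Q ∧ det P = 1 ∧ det Q = 1 ∧ 2 ≤ ‖tr P‖ ∧ 2 ≤ ‖tr Q‖ ∧ gam P Q ≠ 0

theorem big_sq {P : M2} (hP : det P = 1) (h : 2 ≤ ‖tr P‖) : 2 ≤ ‖tr (P * P)‖ := by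
  rw [tr_sq _ hP]
  have a1 : ‖tr P ^ 2‖ ≤ ‖tr P ^ 2 - 2‖ + ‖(2 : ℂ)‖ := by
    have := norm_add_le (tr P ^ 2 - 2) 2
    rwa [sub_add_cancel] at this
  rw [norm_pow] at a1
  have : ‖(2 : ℂ)‖ = 2 := by simp
  nlinarith

theorem gam_symm {X Y : M2} (hX : det X = 1) (hY : det Y = 1) : gam X Y = gam Y X := by
  rw [fricke _ _ hX hY, fricke _ _ hY hX, tr_comm Y X]; ring

theorem inO_of_fi (h : Quad τ s) {F G : M2} (hT : Tr (Kq h) F G) (hI : IntG F G) (hB : Big F G)
    {S : Set M2} (hS : Good S) (hsub : ∀ X, Wd F G X → det X = 1 → X ∈ S) (hfi : FI S F G)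
    {g : M2} (hg : g ∈ S) : InO τ (tr g ^ 2) := by
  have dg := hS.det hg
  refine inO_of_kq h ?_ (IsIntegral.pow ?_ 2)
  swap
  · obtain ⟨n, hn, k⟩ := hfi.pigeon hS hsub hg hg
    have dn : det (g * pw g n * adj g) = 1 := by
      rw [det_mul, det_mul, det_adj, det_pw dg, dg]; ring
    have := hI.integral k dn
    rw [tr_comm, ← mul_as, adj_mul1 dg, one_mu] at this
    exact integral_of_pw dg hn this
  have key : ∀ P, Wd F G P → det P = 1 → 2 ≤ ‖tr P‖ →
      Sp (Kq h) F G (P * P) ∧ Sp (Kq h) F G (g * (P * P) * adj g) := by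
    intro P hP dP bP
    have a1 := (hP.sq_sp h hT dP).1
    refine ⟨a1, ?_⟩
    have dp : det (P * P) = 1 := by rw [det_mul, dP, one_mul]
    obtain ⟨n, hn, k⟩ := hfi.pigeon hS hsub hg (hsub _ (hP.mul hP) dp)
    have dn : det (g * pw (P * P) n * adj g) = 1 := by
      rw [det_mul, det_mul, det_adj, det_pw dp, dg]; ring
    have a2 := (k.sq_sp h hT dn).1
    have e : g * pw (P * P) n * adj g * (g * pw (P * P) n * adj g)
        = g * pw (P * P) (n + n - 1 + 1) * adj g := by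
      rw [show n + n - 1 + 1 = n + n by omega, pw_add]
      simp only [mul_as]
      rw [← mul_as (adj g) g, adj_mul1 dg, one_mu]
    obtain ⟨α, hα, β, hβ, e2, _, k2⟩ := pw_lin (Kq h) dp (a1.tr hT) (big_sq dP bP) (n + n - 1)
    rw [e, e2] at a2
    have hβ0 : β ≠ 0 := by rintro rfl; norm_num at k2
    have a3 := (a2.add (Sp.one.smul (neg_mem hα))).smul (Kq_inv h hβ)
    convert a3 using 1
    generalize P * P = p
    simp only [det] at dg
    ext <;> simp [ad, sc, one2, adj] <;> field_simp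
    · linear_combination (-α) * dg
    · ring
    · ring
    · linear_combination (-α) * dg
  obtain ⟨P, Q, hP, hQ, dP, dQ, bP, bQ, hg0⟩ := hB
  obtain ⟨p1, p2⟩ := key P hP dP bP
  obtain ⟨q1, q2⟩ := key Q hQ dQ bQ
  have dp : det (P * P) = 1 := by rw [det_mul, dP, one_mul]
  have dq : det (Q * Q) = 1 := by rw [det_mul, dQ, one_mul]
  have hg1 : gam (P * P) (Q * Q) ≠ 0 := by
    rw [gam_sq _ _ dP dq, gam_symm dP dq, gam_sq _ _ dQ dP, gam_symm dQ dP]
    have t1 : tr P ≠ 0 := by intro h0; rw [h0] at bP; norm_num at bP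
    have t2 : tr Q ≠ 0 := by intro h0; rw [h0] at bQ; norm_num at bQ
    exact mul_ne_zero (pow_ne_zero _ t1) (mul_ne_zero (pow_ne_zero _ t2) hg0)
  generalize P * P = p at p1 p2 dp hg1
  generalize Q * Q = q at q1 q2 dq hg1
  have hc := casimir g p q dp dq
  have m1 : (-1 : ℂ) ∈ Kq h := neg_mem (one_mem _)
  have c1 : Sp (Kq h) F G (ad (p * q) (sc (-1) (q * p))) :=
    (p1.mul hT q1).add ((q1.mul hT p1).smul m1)
  have c2 : Sp (Kq h) F G (g * ad (p * q) (sc (-1) (q * p)) * adj g) := by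
    have := (p2.mul hT q2).add ((q2.mul hT p2).smul m1)
    convert this using 1
    have e : ∀ x y, g * x * adj g * (g * y * adj g) = g * (x * y) * adj g := by
      intro x y
      simp only [mul_as]
      rw [← mul_as (adj g) g, adj_mul1 dg, one_mu]
    rw [e, e]
    generalize p * q = x
    generalize q * p = y
    ext <;> simp [ad, sc, adj] <;> ring
  have t1 := (p2.mul hT p1).tr hT
  have t2 := (q2.mul hT q1).tr hT
  have t3 := (p2.mul hT q1).tr hT
  have t4 := (q2.mul hT p1).tr hT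
  have t5 := (c2.mul hT c1).tr hT
  have t6 := p1.tr hT
  have t7 := q1.tr hT
  have t8 := (p1.mul hT q1).tr hT
  have n2 : (2 : ℂ) ∈ Kq h := ⟨2, 0, by simp⟩
  have n4 : (4 : ℂ) ∈ Kq h := ⟨4, 0, by simp⟩
  have i2 := Kq_inv h n2
  have i4 := Kq_inv h n4
  have tg : gam p q ∈ Kq h := by
    rw [fricke _ _ dp dq]
    simp only [sq]
    repeat' first | assumption | apply add_mem | apply sub_mem | apply mul_mem
  have ig := Kq_inv h (neg_mem tg)
  rw [tr_adj, dg, ← sq] at hc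
  have e : tr g ^ 2 = (-(gam p q))⁻¹ * (-(gam p q) * tr g ^ 2) := by
    rw [← mul_assoc, inv_mul_cancel₀ (neg_ne_zero.2 hg1), one_mul]
  rw [e, hc]
  have ng := neg_mem tg
  simp only [div_eq_mul_inv, mul_one, one_mul, sq]
  repeat' first | assumption | apply add_mem | apply sub_mem | apply mul_mem

end

end Pool.Agent.Lib.MP_743898_gt
end

-- part Pool.Agent.Lib.MP_743898_gt.CVol
section

set_option autoImplicit false

/-! Finite covolume from Siegel sets. -/

namespace Pool.Agent.Lib.MP_743898_gt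

open M2 Complex MeasureTheory Cl

noncomputable def pt (M : M2) : ℂ × ℝ := (ip M / (nb M : ℝ), 1 / nb M)

theorem act_eq_pt (p : ℂ × ℝ) (hp : 0 < p.2) :
    ∃ X, det X = 1 ∧ ∀ A : SL2, act A p = pt (toM A * X) := by
  obtain ⟨z, t⟩ := p
  simp only at hp
  obtain ⟨r, hr0, rfl⟩ : ∃ r : ℝ, 0 < r ∧ t = r ^ 2 :=
    ⟨√t, Real.sqrt_pos.2 hp, (Real.sq_sqrt hp.le).symm⟩
  have hrc : (r : ℂ) ≠ 0 := by exact_mod_cast hr0.ne'
  refine ⟨⟨r, z / r, 0, 1 / r⟩, by simp [det, hrc], fun A => ?_⟩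
  have hd : det (toM A * ⟨r, z / r, 0, 1 / r⟩) = 1 := by
    rw [det_mul, toM_det]; simp [det, hrc]
  have hp' := nb_pos hd
  have e1 : nb (toM A * ⟨r, z / r, 0, 1 / r⟩) * r ^ 2 =
      ‖A.1 1 0 * z + A.1 1 1‖ ^ 2 + ‖A.1 1 0‖ ^ 2 * (r ^ 2) ^ 2 := by
    have a1 : (toM A * ⟨r, z / r, 0, 1 / r⟩ : M2).c = A.1 1 0 * r := by simp [toM]
    have a2 : (toM A * ⟨r, z / r, 0, 1 / r⟩ : M2).d = (A.1 1 0 * z + A.1 1 1) / r := by
      simp [toM]; field_simp
    rw [nb, a1, a2, normSq_mul, normSq_div, normSq_ofReal, normSq_eq_norm_sq, normSq_eq_norm_sq]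
    field_simp
    ring
  have e2 : ip (toM A * ⟨r, z / r, 0, 1 / r⟩) * (r : ℂ) ^ 2 =
      (A.1 0 0 * z + A.1 0 1) * (starRingEnd ℂ) (A.1 1 0 * z + A.1 1 1)
        + A.1 0 0 * (starRingEnd ℂ) (A.1 1 0) * ((r ^ 2 : ℝ) : ℂ) ^ 2 := by
    simp [ip, toM]
    field_simp
    ring
  simp only [act, pt]
  rw [← e1, ← e2]
  have hc : ((nb (toM A * ⟨r, z / r, 0, 1 / r⟩) : ℝ) : ℂ) ≠ 0 := by exact_mod_cast hp'.ne'
  refine Prod.ext ?_ ?_
  · simp only
    push_cast
    field_simp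
  · simp only
    field_simp

theorem hvol_regA (K : ℝ) (hK : 0 < K) :
    hvol (Metric.closedBall (0 : ℂ) K ×ˢ Set.Ioi (1 / K)) < ⊤ := by
  unfold hvol
  rw [Measure.volume_eq_prod, ← Measure.prod_restrict]
  have hm : Measurable fun t : ℝ => ENNReal.ofReal (1 / t ^ 3) := by fun_prop
  have := lintegral_prod_mul (μ := volume.restrict (Metric.closedBall (0 : ℂ) K))
    (ν := volume.restrict (Set.Ioi (1 / K))) (f := fun _ => 1)
    (g := fun t : ℝ => ENNReal.ofReal (1 / t ^ 3)) aemeasurable_const hm.aemeasurable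
  simp only [one_mul] at this
  rw [this]
  refine ENNReal.mul_lt_top ?_ ?_
  · simp only [lintegral_const, one_mul, Measure.restrict_apply_univ]
    exact measure_closedBall_lt_top
  · have h1 := integrableOn_Ioi_rpow_of_lt (a := -3) (by norm_num) (c := 1 / K) (by positivity)
    have h2 : IntegrableOn (fun t : ℝ => 1 / t ^ 3) (Set.Ioi (1 / K)) := by
      refine h1.congr_fun (fun t ht => ?_) measurableSet_Ioi
      have : 0 < t := lt_trans (by positivity) ht
      simp only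
      rw [Real.rpow_neg this.le, one_div]
      norm_cast
    exact h2.lintegral_lt_top

def regB (z0 : ℂ) (K : ℝ) : Set (ℂ × ℝ) := {p | 0 < p.2 ∧ p.2 ≤ K ∧ ‖p.1 - z0‖ ≤ K * p.2 ^ 2}

theorem meas_regB (z0 : ℂ) (K : ℝ) : MeasurableSet (regB z0 K) := by
  refine (measurableSet_lt measurable_const measurable_snd).inter
    ((measurableSet_le measurable_snd measurable_const).inter
      (measurableSet_le (f := fun p : ℂ × ℝ => ‖p.1 - z0‖) (g := fun p : ℂ × ℝ => K * p.2 ^ 2)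
        (by fun_prop) (by fun_prop)))

theorem hvol_regB (z0 : ℂ) (K : ℝ) (hK : 0 < K) : hvol (regB z0 K) < ⊤ := by
  unfold hvol
  rw [← lintegral_indicator (meas_regB z0 K), Measure.volume_eq_prod, lintegral_prod_symm']
  swap
  · exact Measurable.indicator (by fun_prop) (meas_regB z0 K)
  have key : ∀ t : ℝ, ∫⁻ z : ℂ, (regB z0 K).indicator
      (fun p : ℂ × ℝ => ENNReal.ofReal (1 / p.2 ^ 3)) (z, t) ≤
      (Set.Ioc 0 K).indicator (fun _ => ENNReal.ofReal (K ^ 3) * NNReal.pi) t := by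
    intro t
    by_cases ht : t ∈ Set.Ioc 0 K
    · rw [Set.indicator_of_mem ht]
      have e : (fun z : ℂ => (regB z0 K).indicator
          (fun p : ℂ × ℝ => ENNReal.ofReal (1 / p.2 ^ 3)) (z, t)) =
          (Metric.closedBall z0 (K * t ^ 2)).indicator fun _ => ENNReal.ofReal (1 / t ^ 3) := by
        ext z
        by_cases hz : z ∈ Metric.closedBall z0 (K * t ^ 2)
        · rw [Set.indicator_of_mem hz, Set.indicator_of_mem]
          exact ⟨ht.1, ht.2, by simpa [dist_eq_norm] using hz⟩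
        · rw [Set.indicator_of_notMem hz, Set.indicator_of_notMem]
          intro h; exact hz (by simpa [dist_eq_norm] using h.2.2)
      rw [e, lintegral_indicator_const Metric.isClosed_closedBall.measurableSet,
        Complex.volume_closedBall, ← mul_assoc]
      refine mul_le_mul_left ?_ _
      have h0 := ht.1
      rw [← ENNReal.ofReal_pow (by positivity), ← ENNReal.ofReal_mul (by positivity)]
      refine ENNReal.ofReal_le_ofReal ?_
      have : 1 / t ^ 3 * (K * t ^ 2) ^ 2 = K ^ 2 * t := by field_simp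
      rw [this]
      nlinarith [ht.2, sq_nonneg K]
    · rw [Set.indicator_of_notMem ht]
      refine le_of_eq ?_
      rw [lintegral_eq_zero_iff']
      · refine Filter.Eventually.of_forall fun z => ?_
        exact Set.indicator_of_notMem (fun h => ht ⟨h.1, h.2.1⟩) _
      · exact ((Measurable.indicator (by fun_prop) (meas_regB z0 K)).comp
          measurable_prodMk_right).aemeasurable
  refine lt_of_le_of_lt (lintegral_mono key) ?_
  rw [lintegral_indicator_const measurableSet_Ioc]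
  exact ENNReal.mul_lt_top (ENNReal.mul_lt_top ENNReal.ofReal_lt_top ENNReal.coe_lt_top)
    measure_Ioc_lt_top

theorem exists_region (Q : M2) (hQ : det Q = 1) (C : ℝ) :
    ∃ E : Set (ℂ × ℝ), MeasurableSet E ∧ (∀ p ∈ E, 0 < p.2) ∧ hvol E < ⊤ ∧
      ∀ M, det M = 1 → Sg C M → pt (Q * M) ∈ E := by
  have hQ' : Q.a * Q.d - Q.b * Q.c = 1 := hQ
  by_cases hc : Q.c = 0
  · have hd : Q.d ≠ 0 := by intro hd; simp [hc, hd] at hQ'
    have hd' : 0 < ‖Q.d‖ := norm_pos_iff.2 hd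
    set K : ℝ := (‖Q.a‖ * |C| + ‖Q.b‖) / ‖Q.d‖ + ‖Q.d‖ ^ 2 * |C| + 1 with hK
    have p1 : 0 ≤ (‖Q.a‖ * |C| + ‖Q.b‖) / ‖Q.d‖ := by positivity
    have p2 : 0 ≤ ‖Q.d‖ ^ 2 * |C| := by positivity
    have hK0 : 0 < K := by linarith
    refine ⟨Metric.closedBall (0 : ℂ) K ×ˢ Set.Ioi (1 / K),
      Metric.isClosed_closedBall.measurableSet.prod measurableSet_Ioi,
      fun p hp => lt_trans (by positivity) hp.2, hvol_regA K hK0, fun M hM hS => ?_⟩
    have hp := nb_pos hM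
    have e1 : nb (Q * M) = ‖Q.d‖ ^ 2 * nb M := by
      simp [nb, hc, normSq_eq_norm_sq]; ring
    have e2 : ip (Q * M) = (Q.a * ip M + Q.b * (nb M : ℝ)) * (starRingEnd ℂ) Q.d := by
      simp only [ip, nb, hc, mul_a, mul_b, mul_c, mul_d]
      push_cast
      rw [← mul_conj, ← mul_conj]
      simp only [zero_mul, zero_add, map_mul]
      ring
    have hC : C ≤ |C| := le_abs_self C
    constructor
    · simp only [pt, mem_closedBall_zero_iff]
      rw [e1, e2, norm_div, norm_mul, norm_real, norm_conj, Real.norm_of_nonneg (by positivity),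
        div_le_iff₀ (by positivity)]
      have a1 : ‖Q.a * ip M + Q.b * (nb M : ℝ)‖ ≤ (‖Q.a‖ * |C| + ‖Q.b‖) * nb M := by
        refine (norm_add_le _ _).trans ?_
        rw [norm_mul, norm_mul, norm_real, Real.norm_of_nonneg hp.le]
        have := mul_le_mul_of_nonneg_left
          (hS.2.trans (mul_le_mul_of_nonneg_right hC hp.le)) (norm_nonneg Q.a)
        linarith
      have a2 : (‖Q.a‖ * |C| + ‖Q.b‖) ≤ K * ‖Q.d‖ := by
        rw [← div_le_iff₀ hd']; linarith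
      calc _ ≤ (K * ‖Q.d‖ * nb M) * ‖Q.d‖ :=
            mul_le_mul_of_nonneg_right (a1.trans (mul_le_mul_of_nonneg_right a2 hp.le)) hd'.le
        _ = _ := by ring
    · simp only [pt, Set.mem_Ioi]
      rw [e1]
      refine one_div_lt_one_div_of_lt (by positivity) ?_
      have := mul_le_mul_of_nonneg_left (hS.1.trans hC) (sq_nonneg ‖Q.d‖)
      linarith
  · have hc' : 0 < ‖Q.c‖ := norm_pos_iff.2 hc
    set L : ℝ := ‖Q.c‖ * |C| + ‖Q.d‖ with hL
    have hL0 : 0 ≤ L := by positivity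
    set K : ℝ := |C| / ‖Q.c‖ ^ 2 + L * (L ^ 2 * |C| ^ 2 + ‖Q.c‖ ^ 2) / ‖Q.c‖ + 1 with hK
    have p1 : 0 ≤ |C| / ‖Q.c‖ ^ 2 := by positivity
    have p2 : 0 ≤ L * (L ^ 2 * |C| ^ 2 + ‖Q.c‖ ^ 2) / ‖Q.c‖ := by positivity
    have hK0 : 0 < K := by linarith
    refine ⟨regB (Q.a / Q.c) K, meas_regB _ _, fun p hp => hp.1, hvol_regB _ K hK0,
      fun M hM hS => ?_⟩
    have hp := nb_pos hM
    have hp' := nb_pos (show det (Q * M) = 1 by rw [det_mul, hQ, hM, one_mul])
    have hC : C ≤ |C| := le_abs_self C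
    set w := Q.c * ip M + Q.d * (nb M : ℝ) with hw
    have hM' : M.a * M.d - M.b * M.c = 1 := hM
    have e1 : nb (Q * M) * nb M = ‖w‖ ^ 2 + ‖Q.c‖ ^ 2 := by
      have := lagrange (Q * M).c (Q * M).d M.c M.d
      rw [← normSq_eq_norm_sq, ← normSq_eq_norm_sq, nb, nb, this]
      congr 2
      · simp only [hw, ip, nb, mul_c, mul_d]
        push_cast
        rw [← mul_conj, ← mul_conj]; ring
      · simp only [mul_c, mul_d]; linear_combination Q.c * hM'
    have e2 : Q.c * ip (Q * M) - Q.a * (nb (Q * M) : ℝ) = -(starRingEnd ℂ) w := by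
      simp only [hw, ip, nb, mul_a, mul_b, mul_c, mul_d]
      push_cast
      rw [← mul_conj, ← mul_conj, ← mul_conj, ← mul_conj]
      simp only [map_mul, map_add, conj_conj]
      linear_combination (-(M.c * ((starRingEnd ℂ) Q.c * (starRingEnd ℂ) M.a
        + (starRingEnd ℂ) Q.d * (starRingEnd ℂ) M.c) + M.d * ((starRingEnd ℂ) Q.c
        * (starRingEnd ℂ) M.b + (starRingEnd ℂ) Q.d * (starRingEnd ℂ) M.d))) * hQ'
    have a1 : ‖w‖ ≤ L * nb M := by
      refine (norm_add_le _ _).trans ?_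
      rw [norm_mul, norm_mul, norm_real, Real.norm_of_nonneg hp.le]
      have := mul_le_mul_of_nonneg_left
        (hS.2.trans (mul_le_mul_of_nonneg_right hC hp.le)) (norm_nonneg Q.c)
      rw [hL]; linarith
    have a0 : nb M ≤ |C| := hS.1.trans hC
    refine ⟨by simp only [pt]; positivity, ?_, ?_⟩
    · simp only [pt]
      have : 1 / nb (Q * M) ≤ |C| / ‖Q.c‖ ^ 2 := by
        rw [div_le_div_iff₀ hp' (by positivity)]
        nlinarith [sq_nonneg ‖w‖, mul_le_mul_of_nonneg_left a0 hp'.le]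
      linarith
    · simp only [pt]
      have hc2 : ((nb (Q * M) : ℝ) : ℂ) ≠ 0 := by exact_mod_cast hp'.ne'
      have e3 : ip (Q * M) / (nb (Q * M) : ℝ) - Q.a / Q.c
          = -(starRingEnd ℂ) w / (Q.c * (nb (Q * M) : ℝ)) := by
        rw [← e2]; field_simp
      rw [e3, norm_div, norm_neg, norm_conj, norm_mul, norm_real, Real.norm_of_nonneg hp'.le,
        div_le_iff₀ (by positivity)]
      have e4 : K * (1 / nb (Q * M)) ^ 2 * (‖Q.c‖ * nb (Q * M)) = K * ‖Q.c‖ / nb (Q * M) := by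
        field_simp
      rw [e4, le_div_iff₀ hp']
      have a2 : ‖w‖ ≤ L * |C| := a1.trans (mul_le_mul_of_nonneg_left a0 hL0)
      have a3 : ‖w‖ ^ 2 ≤ (L * |C|) ^ 2 := pow_le_pow_left₀ (norm_nonneg _) a2 2
      have a4 : L * (L ^ 2 * |C| ^ 2 + ‖Q.c‖ ^ 2) ≤ K * ‖Q.c‖ := by
        rw [← div_le_iff₀ hc']; linarith
      calc ‖w‖ * nb (Q * M) ≤ L * nb M * nb (Q * M) := mul_le_mul_of_nonneg_right a1 hp'.le
        _ = L * (‖w‖ ^ 2 + ‖Q.c‖ ^ 2) := by rw [← e1]; ring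
        _ ≤ L * (L ^ 2 * |C| ^ 2 + ‖Q.c‖ ^ 2) := mul_le_mul_of_nonneg_left (by nlinarith) hL0
        _ ≤ _ := a4

theorem exists_lift {X : M2} (h : det X = 1) : ∃ A : SL2, toM A = X :=
  ⟨⟨!![X.a, X.b; X.c, X.d], by rw [Matrix.det_fin_two_of]; exact h⟩, by ext <;> simp [toM]⟩

theorem finCov_of_cof {Γ : Subgroup PSL} {F G : M2}
    (hsub : ∀ A : SL2, Wd F G (toM A) → (A : PSL) ∈ Γ) (h : Cof F G) : FiniteCovolume Γ := by
  obtain ⟨rs, C, h1, h2⟩ := h
  have key : ∀ rs : List M2, (∀ r ∈ rs, det r = 1) →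
      ∃ E : Set (ℂ × ℝ), MeasurableSet E ∧ (∀ p ∈ E, 0 < p.2) ∧ hvol E < ⊤ ∧
        ∀ r ∈ rs, ∀ M, det M = 1 → Sg C M → pt (adj r * M) ∈ E := by
    intro rs
    induction rs with
    | nil => exact fun _ => ⟨∅, MeasurableSet.empty, by simp, by simp [hvol], by simp⟩
    | cons r rs ih =>
      intro h
      obtain ⟨E, k1, k2, k3, k4⟩ := ih fun x hx => h x (List.mem_cons_of_mem _ hx)
      obtain ⟨E', l1, l2, l3, l4⟩ := exists_region (adj r)
        (by rw [det_adj]; exact h r List.mem_cons_self) C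
      refine ⟨E ∪ E', k1.union l1, ?_, ?_, ?_⟩
      · rintro p (hp | hp)
        · exact k2 p hp
        · exact l2 p hp
      · exact lt_of_le_of_lt (lintegral_union_le _ _ _) (ENNReal.add_lt_top.2 ⟨k3, l3⟩)
      · intro x hx M hM hS
        rcases List.mem_cons.1 hx with rfl | hx
        · exact Or.inr (l4 M hM hS)
        · exact Or.inl (k4 x hx M hM hS)
  obtain ⟨E, k1, k2, k3, k4⟩ := key rs h1
  refine ⟨E, k1, k2, k3, fun p hp => ?_⟩
  obtain ⟨X, hX, e⟩ := act_eq_pt p hp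
  obtain ⟨r, hr, Y, a1, a2, a3⟩ := h2 X hX
  obtain ⟨A, rfl⟩ := exists_lift a2
  refine ⟨A, hsub A a1, ?_⟩
  have := k4 r hr _ (by rw [det_mul, det_mul, h1 r hr, a2, hX]; ring) a3
  rwa [mul_as, ← mul_as (adj r), adj_mul1 (h1 r hr), one_mu, ← e] at this

end Pool.Agent.Lib.MP_743898_gt
end

-- part Pool.Agent.Lib.MP_743898_gt.CLink
section

set_option autoImplicit false

/-! Translation between subgroups of PSL(2,C) and words in matrices. -/

namespace Pool.Agent.Lib.MP_743898_gt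

open M2 Complex Cl Matrix

theorem toM_inj {A B : SL2} (h : toM A = toM B) : A = B := by
  apply Subtype.ext
  ext i j
  fin_cases i <;> fin_cases j
  · exact congrArg M2.a h
  · exact congrArg M2.b h
  · exact congrArg M2.c h
  · exact congrArg M2.d h

theorem toM_one : toM 1 = one2 := by ext <;> simp [toM, one2]

theorem mk_eq_iff (A B : SL2) : (A : PSL) = B ↔ ∃ t : ℂ, toM A = sc t (toM B) := by
  rw [eq_comm, QuotientGroup.eq, Matrix.SpecialLinearGroup.mem_center_iff]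
  constructor
  · rintro ⟨r, _, hr⟩
    refine ⟨r, ?_⟩
    have e : toM (B⁻¹ * A) = sc r one2 := by
      ext <;> simp only [toM, ← hr] <;> simp [sc, one2]
    rw [toM_mul, toM_inv] at e
    have := congrArg (toM B * ·) e
    rwa [← mul_as, mul_adj1 (toM_det B), one_mu, mul_sc, mu_one] at this
  · rintro ⟨t, ht⟩
    have h1 := toM_det A
    rw [ht, det_sc, toM_det, mul_one] at h1
    refine ⟨t, by simpa using h1, ?_⟩
    have e : toM (B⁻¹ * A) = sc t one2 := by
      rw [toM_mul, toM_inv, ht, mul_sc, adj_mul1 (toM_det B)]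
    ext i j
    fin_cases i <;> fin_cases j
    · simpa [toM, sc, one2] using (congrArg M2.a e).symm
    · simpa [toM, sc, one2] using (congrArg M2.b e).symm
    · simpa [toM, sc, one2] using (congrArg M2.c e).symm
    · simpa [toM, sc, one2] using (congrArg M2.d e).symm

theorem wd_of_mk_eq {F G : M2} {A B : SL2} (h : (A : PSL) = B) (hB : Wd F G (toM B)) :
    Wd F G (toM A) := by
  obtain ⟨t, ht⟩ := (mk_eq_iff A B).1 h
  have h1 := toM_det A
  rw [ht, det_sc, toM_det, mul_one] at h1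
  rw [ht]
  exact hB.sc (by rintro rfl; simp at h1)

theorem mem_closure_iff_wd (f g A : SL2) :
    (A : PSL) ∈ Subgroup.closure ({(f : PSL), (g : PSL)} : Set PSL) ↔
      Wd (toM f) (toM g) (toM A) := by
  constructor
  · intro h
    have key : ∀ x ∈ Subgroup.closure ({(f : PSL), (g : PSL)} : Set PSL),
        ∃ B : SL2, x = B ∧ Wd (toM f) (toM g) (toM B) := by
      intro x hx
      induction hx using Subgroup.closure_induction with
      | mem x hx =>
        rcases hx with rfl | rfl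
        · exact ⟨f, rfl, Wd.l _ _⟩
        · exact ⟨g, rfl, Wd.r _ _⟩
      | one => exact ⟨1, rfl, by rw [toM_one]; exact Wd.one _ _⟩
      | mul x y _ _ hx hy =>
        obtain ⟨B, rfl, k⟩ := hx
        obtain ⟨C, rfl, l⟩ := hy
        exact ⟨B * C, rfl, by rw [toM_mul]; exact k.mul l⟩
      | inv x _ hx =>
        obtain ⟨B, rfl, k⟩ := hx
        exact ⟨B⁻¹, rfl, by rw [toM_inv]; exact k.adj⟩
    obtain ⟨B, e, k⟩ := key _ h
    exact wd_of_mk_eq e k
  · rintro ⟨t, _, W, hW, e⟩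
    have key : ∃ B : SL2, (B : PSL) ∈ Subgroup.closure ({(f : PSL), (g : PSL)} : Set PSL) ∧
        toM B = W := by
      clear e
      induction hW with
      | one => exact ⟨1, one_mem _, toM_one⟩
      | l => exact ⟨f, Subgroup.subset_closure (Set.mem_insert _ _), rfl⟩
      | r => exact ⟨g, Subgroup.subset_closure (Set.mem_insert_of_mem _ rfl), rfl⟩
      | mul _ _ h1 h2 =>
        obtain ⟨B, k, rfl⟩ := h1
        obtain ⟨C, l, rfl⟩ := h2
        exact ⟨B * C, mul_mem k l, toM_mul B C⟩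
      | adj _ h1 =>
        obtain ⟨B, k, rfl⟩ := h1
        exact ⟨B⁻¹, inv_mem k, toM_inv B⟩
    obtain ⟨B, k, rfl⟩ := key
    rwa [(mk_eq_iff A B).2 ⟨t, e⟩]

def mM (M : Matrix (Fin 2) (Fin 2) ℂ) : M2 := ⟨M 0 0, M 0 1, M 1 0, M 1 1⟩

theorem eq_smul_iff (g : SL2) (t : ℂ) (M : Matrix (Fin 2) (Fin 2) ℂ) :
    g.1 = t • M ↔ toM g = sc t (mM M) := by
  constructor
  · intro h
    ext <;> simp [toM, h, sc, mM]
  · intro h
    ext i j
    fin_cases i <;> fin_cases j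
    · simpa [toM, sc, mM] using congrArg M2.a h
    · simpa [toM, sc, mM] using congrArg M2.b h
    · simpa [toM, sc, mM] using congrArg M2.c h
    · simpa [toM, sc, mM] using congrArg M2.d h

theorem mem_gen_iff (M N : Matrix (Fin 2) (Fin 2) ℂ) (hM : M2.det (mM M) ≠ 0)
    (hN : M2.det (mM N) ≠ 0) (A : SL2) : (A : PSL) ∈ gen M N ↔ Wd (mM M) (mM N) (toM A) := by
  obtain ⟨t, ht0, ht⟩ := exists_normalize hM
  obtain ⟨u, hu0, hu⟩ := exists_normalize hN
  obtain ⟨f, hf⟩ := exists_lift ht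
  obtain ⟨g, hg⟩ := exists_lift hu
  have e : gen M N = Subgroup.closure ({(f : PSL), (g : PSL)} : Set PSL) := by
    unfold gen
    congr 1
    ext x
    constructor
    · rintro ⟨B, v, rfl, h | h⟩
      · left
        rw [eq_smul_iff] at h
        exact (mk_eq_iff B f).2 ⟨v * t⁻¹, by rw [hf, sc_sc, h, inv_mul_cancel_right₀ ht0]⟩
      · right
        rw [eq_smul_iff] at h
        exact (mk_eq_iff B g).2 ⟨v * u⁻¹, by rw [hg, sc_sc, h, inv_mul_cancel_right₀ hu0]⟩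
    · rintro (rfl | rfl)
      · exact ⟨f, t, rfl, Or.inl ((eq_smul_iff _ _ _).2 hf)⟩
      · exact ⟨g, u, rfl, Or.inr ((eq_smul_iff _ _ _).2 hg)⟩
  rw [e, mem_closure_iff_wd, hf, hg]
  exact ⟨Wd.sub ((Wd.l _ _).sc ht0) ((Wd.r _ _).sc hu0),
    Wd.sub (Wd.of_sc ht0 (Wd.l _ _)) (Wd.of_sc hu0 (Wd.r _ _))⟩

/-- `Γ` is the group of normalised words in `F` and `G`. -/
def Rep (Γ : Subgroup PSL) (F G : M2) : Prop := ∀ A : SL2, (A : PSL) ∈ Γ ↔ Wd F G (toM A)

theorem Rep.congr {Γ : Subgroup PSL} {F G F' G' : M2} (h : Rep Γ F G) (h1 : Wd F' G' F)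
    (h2 : Wd F' G' G) (h3 : Wd F G F') (h4 : Wd F G G') : Rep Γ F' G' :=
  fun A => (h A).trans ⟨Wd.sub h1 h2, Wd.sub h3 h4⟩

theorem Rep.closure {Γ : Subgroup PSL} {f g : SL2} (h : Rep Γ (toM f) (toM g)) :
    Γ = Subgroup.closure ({(f : PSL), (g : PSL)} : Set PSL) := by
  ext x
  obtain ⟨A, rfl⟩ := QuotientGroup.mk_surjective x
  rw [h A, mem_closure_iff_wd]

theorem conj_iff (Γ : Subgroup PSL) (M N : Matrix (Fin 2) (Fin 2) ℂ) (hM : M2.det (mM M) ≠ 0)
    (hN : M2.det (mM N) ≠ 0) : Conjugate Γ (gen M N) ↔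
      ∃ P, M2.det P = 1 ∧ Rep Γ (cj P (mM M)) (cj P (mM N)) := by
  have key : ∀ (P A : SL2), (P : PSL)⁻¹ * A * P ∈ gen M N ↔
      Wd (cj (adj (toM P)) (mM M)) (cj (adj (toM P)) (mM N)) (toM A) := by
    intro P A
    have e : (P : PSL)⁻¹ * A * P = (P⁻¹ * A * P : SL2) := rfl
    rw [e, mem_gen_iff M N hM hN, toM_mul, toM_mul, toM_inv]
    have dP := toM_det P
    constructor
    · intro h
      have := h.cj (P := adj (toM P)) (by rw [det_adj, dP])
      rwa [show adj (toM P) * toM A * toM P = cj (toM P) (toM A) from rfl, cj_cj _ _ dP] at this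
    · intro h
      have := h.cj dP
      rwa [cj_cj2 dP, cj_cj2 dP] at this
  constructor
  · rintro ⟨P, h⟩
    obtain ⟨P, rfl⟩ := QuotientGroup.mk_surjective P
    exact ⟨adj (toM P), by rw [det_adj, toM_det], fun A => (h A).trans (key P A)⟩
  · rintro ⟨P, hP, h⟩
    obtain ⟨Q, hQ⟩ := exists_lift (show M2.det (adj P) = 1 by rw [det_adj, hP])
    refine ⟨Q, fun x => ?_⟩
    obtain ⟨A, rfl⟩ := QuotientGroup.mk_surjective x
    rw [key, hQ, adj_adj]
    exact h A

theorem conj_of_model {Γ : Subgroup PSL} {f g : M2} (h : Rep Γ f g)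
    {M N : Matrix (Fin 2) (Fin 2) ℂ} (hM : M2.det (mM M) ≠ 0) (hN : M2.det (mM N) ≠ 0)
    (hm : ∃ P t u, M2.det P = 1 ∧ t ≠ 0 ∧ u ≠ 0 ∧ cj P (sc t f) = mM M ∧ cj P (sc u g) = mM N) :
    Conjugate Γ (gen M N) := by
  obtain ⟨P, t, u, hP, ht, hu, e1, e2⟩ := hm
  rw [conj_iff Γ M N hM hN]
  refine ⟨adj P, by rw [det_adj, hP], ?_⟩
  rw [← e1, ← e2, cj_cj _ _ hP, cj_cj _ _ hP]
  exact h.congr (Wd.of_sc ht (Wd.l _ _)) (Wd.of_sc hu (Wd.r _ _)) ((Wd.l _ _).sc ht)
    ((Wd.r _ _).sc hu)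

theorem pair_of_conj {Γ : Subgroup PSL} {M N : Matrix (Fin 2) (Fin 2) ℂ}
    (hM : M2.det (mM M) ≠ 0) (hN : M2.det (mM N) ≠ 0) (h : Conjugate Γ (gen M N)) :
    ∃ f g : SL2, Rep Γ (toM f) (toM g) ∧
      tr (toM f) ^ 2 * M2.det (mM M) = tr (mM M) ^ 2 ∧
      tr (toM g) ^ 2 * M2.det (mM N) = tr (mM N) ^ 2 ∧
      tr (toM f * toM g) ^ 2 * (M2.det (mM M) * M2.det (mM N)) = tr (mM M * mM N) ^ 2 ∧
      gam (toM f) (toM g) * (M2.det (mM M) * M2.det (mM N)) = gamh (mM M) (mM N) := by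
  obtain ⟨P, hP, h⟩ := (conj_iff Γ M N hM hN).1 h
  obtain ⟨t, ht0, ht⟩ := exists_normalize hM
  obtain ⟨u, hu0, hu⟩ := exists_normalize hN
  obtain ⟨f, hf⟩ := exists_lift (show M2.det (cj P (sc t (mM M))) = 1 by rw [det_cj hP, ht])
  obtain ⟨g, hg⟩ := exists_lift (show M2.det (cj P (sc u (mM N))) = 1 by rw [det_cj hP, hu])
  have ht' := ht
  have hu' := hu
  rw [det_sc] at ht' hu'
  refine ⟨f, g, ?_, ?_, ?_, ?_, ?_⟩
  · rw [hf, hg, cj_sc, cj_sc]
    exact h.congr (Wd.of_sc ht0 (Wd.l _ _)) (Wd.of_sc hu0 (Wd.r _ _)) ((Wd.l _ _).sc ht0)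
      ((Wd.r _ _).sc hu0)
  · rw [hf, tr_cj _ _ hP, tr_sc]; linear_combination tr (mM M) ^ 2 * ht'
  · rw [hg, tr_cj _ _ hP, tr_sc]; linear_combination tr (mM N) ^ 2 * hu'
  · rw [hf, hg, cj_mul _ _ _ hP, tr_cj _ _ hP, sc_mul, mul_sc, sc_sc, tr_sc]
    linear_combination tr (mM M * mM N) ^ 2 * (u ^ 2 * M2.det (mM N) * ht' + hu')
  · rw [hf, hg, gam_cj _ _ _ hP, ← gamh_one ht hu, gamh_sc]
    linear_combination gamh (mM M) (mM N) * (u ^ 2 * M2.det (mM N) * ht' + hu')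

def lifts (Γ : Subgroup PSL) : Set M2 := toM '' {A : SL2 | (A : PSL) ∈ Γ}

theorem grp_lifts {Γ : Subgroup PSL} (hd : IsDiscrete (Γ : Set PSL)) : Grp (lifts Γ) := by
  refine ⟨good_of_discrete Γ hd, ?_⟩
  rintro _ ⟨A, hA, rfl⟩
  obtain ⟨B, hB⟩ := exists_lift (show M2.det (sc (-1) (toM A)) = 1 by rw [det_sc, toM_det]; ring)
  exact ⟨B, by rwa [Set.mem_ofPred_eq, (mk_eq_iff B A).2 ⟨-1, hB⟩], hB⟩

theorem InO.eq_of_lt {τ : ℂ} {s : ℤ} (h : Quad τ s) {x y : ℂ} (hx : InO τ x) (hy : InO τ y)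
    (hlt : ‖x - y‖ < 1) : x = y := by
  obtain ⟨a, b, rfl⟩ := hx
  obtain ⟨c, d, rfl⟩ := hy
  have e : ((a : ℂ) + b * τ - (c + d * τ)) * (starRingEnd ℂ) ((a : ℂ) + b * τ - (c + d * τ))
      = (((a - c) ^ 2 - s * (a - c) * (b - d) + (b - d) ^ 2 : ℤ) : ℂ) := by
    simp only [map_sub, map_add, map_mul, map_intCast, h.cnj]
    push_cast
    linear_combination (-((b : ℂ) - d) ^ 2) * h.eq
  rw [mul_conj, normSq_eq_norm_sq] at e
  have e' : ‖(a : ℂ) + b * τ - (c + d * τ)‖ ^ 2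
      = (((a - c) ^ 2 - s * (a - c) * (b - d) + (b - d) ^ 2 : ℤ) : ℝ) := by exact_mod_cast e
  have h1 : ‖(a : ℂ) + b * τ - (c + d * τ)‖ ^ 2 < 1 := by
    nlinarith [norm_nonneg ((a : ℂ) + b * τ - (c + d * τ))]
  have h2 : 0 ≤ ‖(a : ℂ) + b * τ - (c + d * τ)‖ ^ 2 := by positivity
  rw [e'] at h1 h2
  have h3 : (a - c) ^ 2 - s * (a - c) * (b - d) + (b - d) ^ 2 = 0 := by
    have h1' : (a - c) ^ 2 - s * (a - c) * (b - d) + (b - d) ^ 2 < 1 := by exact_mod_cast h1
    have h2' : 0 ≤ (a - c) ^ 2 - s * (a - c) * (b - d) + (b - d) ^ 2 := by exact_mod_cast h2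
    omega
  rw [h3] at e'
  simpa [sub_eq_zero] using e'

theorem eq_of_traces (D p q : M2) (h : gamh p q ≠ 0) (h0 : tr D = 0) (h1 : tr (D * p) = 0)
    (h2 : tr (D * q) = 0) (h3 : tr (D * (p * q)) = 0) : D.a = 0 ∧ D.b = 0 ∧ D.c = 0 ∧ D.d = 0 := by
  have key : ∀ (x o ip iq k : ℂ), -8 * gamh p q * x = -4 * gamh p q * tr D * o
      + (2 * tr (D * p) - tr p * tr D) * ((tr q ^ 2 - 4 * M2.det q) * ip
          - (2 * tr (p * q) - tr p * tr q) * iq)
      + (2 * tr (D * q) - tr q * tr D) * ((tr p ^ 2 - 4 * M2.det p) * iq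
          - (2 * tr (p * q) - tr p * tr q) * ip)
      - 2 * (2 * tr (D * (p * q)) - tr p * tr (D * q) - tr q * tr (D * p)
          - (tr (p * q) - tr p * tr q) * tr D) * k → x = 0 := by
    intro x o ip iq k e
    rw [h0, h1, h2, h3] at e
    have : gamh p q * x = 0 := by linear_combination (-1 / 8 : ℂ) * e
    exact (mul_eq_zero.1 this).resolve_left h
  refine ⟨key _ 1 (p.a - p.d) (q.a - q.d) (2 * ((p * q).a - (q * p).a)) ?_,
    key _ 0 (2 * p.b) (2 * q.b) (2 * ((p * q).b - (q * p).b)) ?_,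
    key _ 0 (2 * p.c) (2 * q.c) (2 * ((p * q).c - (q * p).c)) ?_,
    key _ 1 (p.d - p.a) (q.d - q.a) (2 * ((p * q).d - (q * p).d)) ?_⟩ <;>
  · simp only [gamh, tr, M2.det, adj, mul_a, mul_b, mul_c, mul_d]
    ring

theorem cont_tr (e : M2) : Continuous fun A : SL2 => tr (toM A * e) := by
  have h : ∀ i j, Continuous fun A : SL2 => A.1 i j := fun i j =>
    (continuous_apply_apply i j).comp Matrix.SpecialLinearGroup.isClosedEmbedding_val.continuous
  have h1 := h 0 0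
  have h2 := h 0 1
  have h3 := h 1 0
  have h4 := h 1 1
  simp only [tr, toM, mul_a, mul_d]
  fun_prop

theorem discrete_of_inO {τ : ℂ} {s : ℤ} (h : Quad τ s) {Γ : Subgroup PSL} {f g : SL2}
    (hR : Rep Γ (toM f) (toM g)) (hg : gam (toM f) (toM g) ≠ 0)
    (hO : ∀ Y, Wd (toM f) (toM g) Y → M2.det Y = 1 → InO τ (tr Y ^ 2)) :
    IsDiscrete (Γ : Set PSL) := by
  rw [isDiscrete_iff_discreteTopology]
  refine discreteTopology_of_isOpen_singleton_one (G := Γ) ?_
  set V : M2 → Set SL2 := fun e => {A | ‖tr (toM A * e) ^ 2 - tr e ^ 2‖ < 1 ∧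
    (tr e = 0 ∨ tr (toM A * e) + tr e ≠ 0)} with hV
  have hVo : ∀ e, IsOpen (V e) := by
    intro e
    have c := cont_tr e
    refine (isOpen_lt (f := fun A : SL2 => ‖tr (toM A * e) ^ 2 - tr e ^ 2‖) (by fun_prop)
      continuous_const).inter ?_
    by_cases he : tr e = 0
    · simp only [he, true_or]
      exact isOpen_univ
    · simp only [he, false_or]
      exact isOpen_ne_fun (by fun_prop) continuous_const
  have hV1 : ∀ e, (1 : SL2) ∈ V e := by
    intro e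
    simp only [hV, Set.mem_ofPred_eq, toM_one, one_mu, sub_self, norm_zero, zero_lt_one, true_and]
    by_cases he : tr e = 0
    · exact Or.inl he
    · right; rw [← two_mul]; exact mul_ne_zero two_ne_zero he
  have hVe : ∀ (A : SL2) e, Wd (toM f) (toM g) (toM A) → Wd (toM f) (toM g) e → M2.det e = 1 →
      A ∈ V e → tr (ad (toM A) (sc (-1) one2) * e) = 0 := by
    intro A e hA he de hAe
    have k := InO.eq_of_lt h (hO _ (hA.mul he) (by rw [M2.det_mul, toM_det, de, one_mul]))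
      (hO _ he de) hAe.1
    have k2 : tr (toM A * e) = tr e := by
      rcases hAe.2 with h0 | h0
      · rw [h0] at k ⊢; simpa using k
      · have : (tr (toM A * e) - tr e) * (tr (toM A * e) + tr e) = 0 := by linear_combination k
        exact sub_eq_zero.1 ((mul_eq_zero.1 this).resolve_right h0)
    simp only [tr, ad, sc, one2, mul_a, mul_d] at k2 ⊢
    linear_combination k2
  set U : Set SL2 := V one2 ∩ V (toM f) ∩ V (toM g) ∩ V (toM f * toM g) with hU
  have hUo : IsOpen U := (((hVo _).inter (hVo _)).inter (hVo _)).inter (hVo _)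
  have hW : IsOpen ((fun A : SL2 => (A : PSL)) '' U) := QuotientGroup.isOpenMap_coe U hUo
  convert hW.preimage (continuous_subtype_val (p := fun x => x ∈ Γ)) using 1
  ext x
  simp only [Set.mem_singleton_iff, Set.mem_preimage]
  constructor
  · rintro rfl
    exact ⟨1, ⟨⟨⟨hV1 _, hV1 _⟩, hV1 _⟩, hV1 _⟩, rfl⟩
  · rintro ⟨A, ⟨⟨⟨a1, a2⟩, a3⟩, a4⟩, e⟩
    have hA : Wd (toM f) (toM g) (toM A) := (hR A).1 (by simp only at e; rw [e]; exact x.2)
    have b1 := hVe A _ hA (Wd.one _ _) det_one2 a1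
    rw [mu_one] at b1
    obtain ⟨c1, c2, c3, c4⟩ := eq_of_traces _ (toM f) (toM g)
      (by rwa [gamh_one (toM_det f) (toM_det g)]) b1 (hVe A _ hA (Wd.l _ _) (toM_det f) a2)
      (hVe A _ hA (Wd.r _ _) (toM_det g) a3)
      (hVe A _ hA ((Wd.l _ _).mul (Wd.r _ _)) (by rw [M2.det_mul, toM_det, toM_det, one_mul]) a4)
    have : A = 1 := by
      apply toM_inj
      rw [toM_one]
      simp only [ad, sc, one2] at c1 c2 c3 c4
      ext
      · simp only [one2]; linear_combination c1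
      · simp only [one2]; linear_combination c2
      · simp only [one2]; linear_combination c3
      · simp only [one2]; linear_combination c4
    apply Subtype.ext
    rw [← e, this]; rfl

theorem toM_pow (A : SL2) (n : ℕ) : toM (A ^ n) = pw (toM A) n := by
  induction n with
  | zero => rw [pow_zero, toM_one]; rfl
  | succ n ih => rw [pow_succ, toM_mul, ih]; rfl

theorem nonelem_of_big {Γ : Subgroup PSL} {F G : M2}
    (hsub : ∀ A : SL2, Wd F G (toM A) → (A : PSL) ∈ Γ) (h : Big F G) : Nonelementary Γ := by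
  obtain ⟨P, Q, hP, hQ, dP, dQ, bP, bQ, hg⟩ := h
  intro x hfin
  obtain ⟨v, hv, rfl⟩ : ∃ v hv, x = Projectivization.mk ℂ v hv :=
    ⟨x.rep, x.rep_nonzero, x.mk_rep.symm⟩
  have key : ∀ P, Wd F G P → M2.det P = 1 → 2 ≤ ‖tr P‖ →
      ∃ m, P.a * v 0 + P.b * v 1 = m * v 0 ∧ P.c * v 0 + P.d * v 1 = m * v 1 := by
    intro P hP dP bP
    obtain ⟨A, rfl⟩ := exists_lift dP
    have hA := hsub A hP
    obtain ⟨m, n, hmn, e⟩ := Set.Finite.exists_lt_map_eq_of_forall_mem
      (f := fun n : ℕ => ((A : PSL) ^ n) • Projectivization.mk ℂ v hv)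
      (t := MulAction.orbit Γ (Projectivization.mk ℂ v hv))
      (fun n => ⟨⟨(A : PSL) ^ n, pow_mem hA n⟩, rfl⟩) hfin
    obtain ⟨k, rfl⟩ := Nat.exists_eq_add_of_lt hmn
    rw [add_assoc, pow_add, mul_smul, smul_left_cancel_iff] at e
    have e2 : ((A : PSL) ^ (k + 1)) = (A ^ (k + 1) : SL2) := rfl
    rw [e2, Matrix.ProjectiveSpecialLinearGroup.smul_proj_mk, Projectivization.smul_mk, eq_comm,
      Projectivization.mk_eq_mk_iff'] at e
    obtain ⟨c, hc⟩ := e
    change _ = (A ^ (k + 1)).1 *ᵥ v at hc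
    obtain ⟨α, _, β, _, e3, _, k2⟩ := pw_lin ⊤ dP trivial bP k
    rw [← toM_pow] at e3
    have hβ : β ≠ 0 := by rintro rfl; norm_num at k2
    have c0 := congrFun hc 0
    have c1 := congrFun hc 1
    simp only [Matrix.mulVec, dotProduct, Fin.sum_univ_two, Pi.smul_apply, smul_eq_mul] at c0 c1
    have d1 : (A ^ (k + 1)).1 0 0 = α + β * (toM A).a := by
      simpa [ad, sc, one2, toM] using congrArg M2.a e3
    have d2 : (A ^ (k + 1)).1 0 1 = β * (toM A).b := by
      simpa [ad, sc, one2, toM] using congrArg M2.b e3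
    have d3 : (A ^ (k + 1)).1 1 0 = β * (toM A).c := by
      simpa [ad, sc, one2, toM] using congrArg M2.c e3
    have d4 : (A ^ (k + 1)).1 1 1 = α + β * (toM A).d := by
      simpa [ad, sc, one2, toM] using congrArg M2.d e3
    rw [d1, d2] at c0
    rw [d3, d4] at c1
    refine ⟨(c - α) / β, ?_, ?_⟩
    · field_simp; linear_combination -c0
    · field_simp; linear_combination -c1
  obtain ⟨m, a1, a2⟩ := key P hP dP bP
  obtain ⟨l, a3, a4⟩ := key Q hQ dQ bQ
  apply hg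
  rw [← gamh_one dP dQ]
  refine gamh_zero P Q (v 0) (v 1) l m ?_ a1 a2 a3 a4
  by_contra hc
  simp only [not_or, not_not] at hc
  apply hv
  ext i
  fin_cases i
  · exact hc.1
  · exact hc.2

end Pool.Agent.Lib.MP_743898_gt
end
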