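import Pool.Agent.Lib.MP_743898_gt.CTan

set_option autoImplicit false

/-! The classification theorems. -/

namespace Pool.Agent.Lib.MP_743898_gt

open M2 Complex Cl

theorem roots46 {ζ : ℂ} (h : ζ ^ 4 = 1 ∨ ζ ^ 6 = 1) : ζ = 1 ∨ ζ = -1 ∨ ζ = I ∨ ζ = -I ∨
    ζ = -om ^ 2 ∨ ζ = om ^ 2 ∨ ζ = -om ∨ ζ = om := by
  rcases h with h | h
  · have : (ζ - 1) * (ζ + 1) * (ζ - I) * (ζ + I) = 0 := by
      linear_combination h - (ζ ^ 2 - 1) * I_mul_I
    simp only [mul_eq_zero, sub_eq_zero, add_eq_zero_iff_eq_neg] at this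
    tauto
  · have : (ζ - 1) * (ζ + 1) * (ζ + om ^ 2) * (ζ - om ^ 2) * (ζ + om) * (ζ - om) = 0 := by
      linear_combination h + (ζ ^ 2 - 1) * (-ζ ^ 2 * (om ^ 2 - om + 1)
        + (om - 1) * (om ^ 3 + 1)) * om_sq
    simp only [mul_eq_zero, sub_eq_zero, add_eq_zero_iff_eq_neg] at this
    tauto

theorem om_im : om.im ≠ 0 := by
  rw [om_eq, zt2]; simp

theorem om_ne {a b : ℤ} (hb : b ≠ 0) : (a : ℂ) + b * om ≠ 0 := by
  intro h
  have := congrArg Complex.im h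
  simp [om_im, hb] at this

theorem mM_of (a b c d : ℂ) : mM !![a, b; c, d] = ⟨a, b, c, d⟩ := rfl

theorem repH {Γ : Subgroup PSL} {f h : M2} {ζ : ℂ} (hR : RepC Γ f h)
    (hP : PP 2 (ζ - 1) f h 0 (ζ - 1 + 2)) (h1 : ζ - 1 ≠ 0) (h2 : 1 + ζ ≠ 0) :
    RepC Γ ⟨I, 0, 0, 1⟩ ⟨1 + ζ, 1, 1 - ζ ^ 2, -(1 + ζ)⟩ := by
  have e : det ⟨1 + ζ, 1, 1 - ζ ^ 2, -(1 + ζ)⟩ = -2 * (1 + ζ) := by simp only [det]; ring
  refine hR.model hP.df hP.dg (by simp [det]) (by rw [e]; exact mul_ne_zero (by norm_num) h2)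
    (by rwa [hP.gm]) ?_ ?_ ?_ ?_
  · rw [hP.tf]; simp only [det, tr]; linear_combination -I_mul_I
  · rw [hP.tg]; simp [tr]
  · rw [hP.tfg]; simp only [det, tr, mul_a, mul_d]; linear_combination (-(1 + ζ) ^ 2) * I_mul_I
  · rw [hP.gm]; simp only [gamh, det, tr, adj, mul_a, mul_b, mul_c, mul_d]
    linear_combination (1 - ζ ^ 2) * I_mul_I

theorem det_H {ζ : ℂ} (h2 : 1 + ζ ≠ 0) : det (mM !![1 + ζ, 1; 1 - ζ ^ 2, -(1 + ζ)]) ≠ 0 := by
  have e : det (mM !![1 + ζ, 1; 1 - ζ ^ 2, -(1 + ζ)]) = -2 * (1 + ζ) := by simp [det, mM]; ring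
  rw [e]; exact mul_ne_zero (by norm_num) h2

theorem conjH {Γ : Subgroup PSL} {ζ : ℂ} (h2 : 1 + ζ ≠ 0)
    (h : RepC Γ ⟨I, 0, 0, 1⟩ ⟨1 + ζ, 1, 1 - ζ ^ 2, -(1 + ζ)⟩) : Conjugate Γ (grpH ζ) :=
  (conj_iff Γ _ _ (by simp [det, mM]) (det_H h2)).2 h

def zM : ZM := ⟨⟨0, 0, 0, 1⟩, ⟨0, 0, 0, 0⟩, ⟨0, 0, 0, 0⟩, ⟨1, 0, 0, 0⟩⟩
def zH (z : Z12) : ZM := ⟨Z12.add ⟨1, 0, 0, 0⟩ z, ⟨1, 0, 0, 0⟩,
  Z12.add ⟨1, 0, 0, 0⟩ (z.mul z).neg, (Z12.add ⟨1, 0, 0, 0⟩ z).neg⟩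
def zA : ZM := ⟨⟨0, 0, 0, 1⟩, ⟨1, 0, 0, 0⟩, ⟨0, 0, 0, 0⟩, ⟨1, 0, 0, 0⟩⟩
def zB (z : Z12) : ZM := ⟨⟨0, 0, 0, 1⟩, ⟨0, 0, 0, 0⟩, (Z12.mul ⟨0, 0, 0, 1⟩ z).neg, ⟨1, 0, 0, 0⟩⟩
def zK1 : ZM := ⟨⟨1, 3, 1, 0⟩, ⟨2, 0, 0, 0⟩, ⟨2, 0, -1, 0⟩, ⟨1, -3, 1, 0⟩⟩
def zK2 : ZM := ⟨⟨2, 3, -1, -3⟩, ⟨2, 0, 0, 0⟩, ⟨1, 0, 1, 0⟩, ⟨2, -3, -1, 3⟩⟩

theorem ev_I : ev ⟨0, 0, 0, 1⟩ = I := by simp [ev, zt3]
theorem evM_zM : evM zM = ⟨I, 0, 0, 1⟩ := by simp [evM, zM, ev_I, ev_zero, ev_one]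
theorem evM_zA : evM zA = ⟨I, 1, 0, 1⟩ := by simp [evM, zA, ev_I, ev_zero, ev_one]
theorem evM_zH (z : Z12) {ζ : ℂ} (h : ev z = ζ) :
    evM (zH z) = ⟨1 + ζ, 1, 1 - ζ ^ 2, -(1 + ζ)⟩ := by
  simp only [evM, zH, ev_add, ev_neg, ev_mul, ev_one, h, sq, sub_eq_add_neg]
theorem evM_zB (z : Z12) {ζ : ℂ} (h : ev z = ζ) : evM (zB z) = ⟨I, 0, -(I * ζ), 1⟩ := by
  simp only [evM, zB, ev_neg, ev_mul, ev_one, ev_zero, ev_I, h]

theorem ev_om : ev ⟨-1, 0, 1, 0⟩ = om := by rw [evW]; push_cast; ring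
theorem ev_om2 : ev ⟨0, 0, -1, 0⟩ = om ^ 2 := by rw [evW]; push_cast; linear_combination -om_sq
theorem ev_nom : ev ⟨1, 0, -1, 0⟩ = -om := by rw [evW]; push_cast; ring
theorem ev_nom2 : ev ⟨0, 0, 1, 0⟩ = -om ^ 2 := by rw [evW]; push_cast; linear_combination om_sq

theorem conjF {Γ : Subgroup PSL} (h : RepC Γ (evM zA) (evM (zB ⟨-1, 0, 1, 0⟩))) :
    Conjugate Γ grpF := by
  rw [evM_zA, evM_zB _ ev_om] at h
  exact (conj_iff Γ _ _ (by simp [det, mM]) (by simp [det, mM])).2 h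

theorem Elem.of_sc {f g : M2} {t u : ℂ} (ht : t ≠ 0) (hu : u ≠ 0) (h : Elem (sc t f) (sc u g)) :
    Elem f g := by
  have key : ∀ (X : M2) (t p q p' q' : ℂ), t ≠ 0 → Par (sc t X) p q p' q' → Par X p q p' q' := by
    rintro X t p q p' q' ht ⟨v, h1, h2⟩
    simp only [sc] at h1 h2
    exact ⟨v / t, by field_simp; linear_combination h1, by field_simp; linear_combination h2⟩
  obtain ⟨p, q, p', q', h1, h2, h3, h4, h5, h6⟩ := h
  exact ⟨p, q, p', q', h1, h2, key _ _ _ _ _ _ ht h3, key _ _ _ _ _ _ ht h4,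
    key _ _ _ _ _ _ hu h5, key _ _ _ _ _ _ hu h6⟩

theorem fam4_of {Γ : Subgroup PSL} {f g : M2} (hR : RepC Γ f g) (hne : ¬ Elem f g)
    (hf : det f = 1) (hg : det g = 1) (hx : tr f ^ 2 = 2) (hγ : gam f g = -2) :
    ∃ μ : ℂ, μ ≠ 0 ∧ Conjugate Γ (fam4 μ) := by
  have hP : PP 2 (-2) f g (-2 + 2 + tr g ^ 2) (-2 + 2 + tr (f * g) ^ 2) :=
    ⟨hf, hg, hx, hγ, by ring, by ring⟩
  have hr := tan_rel hP
  have h0 : tr g ^ 2 ≠ 0 := by
    intro h0
    have h1 : tr (f * g) ^ 2 = 0 := by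
      have : (tr (f * g) ^ 2) ^ 2 = 0 := by rw [h0] at hr; linear_combination hr
      exact pow_eq_zero_iff two_ne_zero |>.1 this
    obtain ⟨P, t, u, hP, ht, hu, e1, e2⟩ := conj_model f g ⟨I, 0, 0, 1⟩ ⟨0, 1, 1, 0⟩ hf hg
      (by simp [det]) (by simp [det]) (by rw [hγ]; norm_num)
      (by rw [hx]; simp only [det, tr]; linear_combination -I_mul_I) (by rw [h0]; simp [tr])
      (by rw [h1]; simp [tr])
      (by rw [hγ]; simp only [gamh, det, tr, adj, mul_a, mul_b, mul_c, mul_d]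
          linear_combination I_mul_I)
    refine hne (Elem.of_sc ht hu (Elem.of_cj hP ?_))
    rw [e1, e2]
    exact ⟨1, 0, 0, 1, by simp, by simp, ⟨I, by simp⟩, ⟨1, by simp⟩, ⟨1, by simp⟩, ⟨1, by simp⟩⟩
  have key : ∀ {g : M2} {u : ℂ}, RepC Γ f g → u ≠ 0 → PP 2 (-2) f g (-2 + 2 + u) (-2 + 2 + I * u) →
      ∃ μ : ℂ, μ ≠ 0 ∧ Conjugate Γ (fam4 μ) := by
    intro g u hR hu hP
    refine ⟨-u⁻¹, neg_ne_zero.2 (inv_ne_zero hu), ?_⟩
    refine (conj_iff Γ _ _ (by simp [det, mM]) (by simp [det, mM, hu])).2 ?_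
    change RepC Γ ⟨I, 0, 0, 1⟩ ⟨1, -u⁻¹, 1, 0⟩
    have hu' := mul_inv_cancel₀ hu
    refine hR.model hP.df hP.dg (by simp [det]) (by simp [det, hu]) (by rw [hP.gm]; norm_num)
      ?_ ?_ ?_ ?_
    · rw [hP.tf]; simp only [det, tr]; linear_combination -I_mul_I
    · rw [hP.tg]; simp only [det, tr]; linear_combination hu'
    · rw [hP.tfg]; simp only [det, tr, mul_a, mul_d]; linear_combination I * I * hu'
    · rw [hP.gm]; simp only [gamh, det, tr, adj, mul_a, mul_b, mul_c, mul_d]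
      linear_combination -u⁻¹ * I_mul_I
  have : (tr (f * g) ^ 2 - I * tr g ^ 2) * (tr (f * g) ^ 2 + I * tr g ^ 2) = 0 := by
    linear_combination hr - (tr g ^ 2) ^ 2 * I_mul_I
  rcases mul_eq_zero.1 this with e | e
  · exact key hR h0 (hP.congr rfl (by linear_combination e))
  · exact key (hR.eqv (Eqv.inv f g)) h0 ((tan_inv hP).congr rfl (by linear_combination -e))

theorem rep_closure (f g : SL2) :
    Rep (Subgroup.closure ({(f : PSL), (g : PSL)} : Set PSL)) (toM f) (toM g) :=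
  mem_closure_iff_wd f g

theorem tan_nec {Γ : Subgroup PSL} (hd : IsDiscrete (Γ : Set PSL)) (hne : Nonelementary Γ)
    (h : IsTan Γ) : (∃ ζ ∈ ({I, -I, -om, -om ^ 2, om} : Set ℂ), Conjugate Γ (grpH ζ)) ∨
      Conjugate Γ grpF ∨ ∃ μ : ℂ, μ ≠ 0 ∧ Conjugate Γ (fam4 μ) := by
  obtain ⟨f, g, rfl, h0, he⟩ := h
  have hS := grp_lifts hd
  have hf : toM f ∈ lifts (Subgroup.closure ({(f : PSL), (g : PSL)} : Set PSL)) :=
    ⟨f, Subgroup.subset_closure (Set.mem_insert _ _), rfl⟩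
  have hg : toM g ∈ lifts (Subgroup.closure ({(f : PSL), (g : PSL)} : Set PSL)) :=
    ⟨g, Subgroup.subset_closure (Set.mem_insert_of_mem _ rfl), rfl⟩
  have hR := (rep_closure f g).repC
  have hel := not_elem f g hne
  have e : gam (toM f) (toM g) + 1 = (f⁻¹ * g⁻¹ * f * g).1.trace - 1 := by rw [toM_gam]; ring
  obtain ⟨hx, h1, h2⟩ := hS.good.tan_main hf hg hel (by rw [e]; exact sub_ne_zero.2 h0)
    (by rw [e, toM_tr]; exact he)
  generalize Subgroup.closure ({(f : PSL), (g : PSL)} : Set PSL) = Γ at hS hf hg hR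
  obtain ⟨ζ, hζ⟩ : ∃ ζ, gam (toM f) (toM g) = ζ - 1 := ⟨gam (toM f) (toM g) + 1, by ring⟩
  rw [hζ, sub_add_cancel] at h1 h2
  generalize toM f = x at hf hR hel hx hζ
  generalize toM g = y at hg hR hel hζ
  have n1 : (1 : ℂ) + -om ^ 2 ≠ 0 := by
    convert om_ne (a := 2) (b := 1) (by norm_num) using 1; push_cast; linear_combination -om_sq
  have n2 : (1 : ℂ) + -om ≠ 0 := by
    convert om_ne (a := 1) (b := -1) (by norm_num) using 1; push_cast; ring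
  have n3 : (1 : ℂ) + om ≠ 0 := by
    convert om_ne (a := 1) (b := 1) (by norm_num) using 1; push_cast; ring
  have n4 : (1 : ℂ) + om ^ 2 ≠ 0 := by
    convert om_ne (a := 0) (b := -1) (by norm_num) using 1; push_cast; linear_combination om_sq
  have h1' := sub_ne_zero.2 h1
  rcases roots46 h2 with rfl | rfl | rfl | rfl | rfl | rfl | rfl | rfl
  · exact absurd rfl h1
  · exact Or.inr (Or.inr (fam4_of hR hel (hS.good.det hf) (hS.good.det hg) hx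
      (by rw [hζ]; norm_num)))
  · obtain ⟨g3, a1, a2⟩ := tanI_nf hS hf hg hx hζ (Or.inl rfl)
    have n : (1 : ℂ) + I ≠ 0 := fun h => by simpa using congrArg Complex.re h
    exact Or.inl ⟨I, by simp, conjH n (repH (hR.eqv a1) a2 h1' n)⟩
  · obtain ⟨g3, a1, a2⟩ := tanI_nf hS hf hg hx hζ (Or.inr rfl)
    have n : (1 : ℂ) + -I ≠ 0 := fun h => by simpa using congrArg Complex.re h
    exact Or.inl ⟨-I, by simp, conjH n (repH (hR.eqv a1) a2 h1' n)⟩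
  · obtain ⟨g3, a1, a2 | a2⟩ := tanW_nf hS hf hg hx hζ (Or.inl rfl)
      (w := -(-om ^ 2 - 1 + 2) * (1 + 2 * om))
      (by linear_combination 4 * (-om ^ 2 - 1 + 2) ^ 2 * om_sq)
    · exact Or.inl ⟨-om ^ 2, by simp, conjH n1 (repH (hR.eqv a1) a2 h1' n1)⟩
    · have a3 := (hR.eqv a1).cm (cm_of_par (F := fA) (G := zK1) (x := ⟨2, 0, 0, 0⟩)
        (y := ⟨-1, 0, -1, 0⟩) (z := ⟨4, 0, -2, 0⟩) (c := ⟨-1, 0, 1, 0⟩) (by decide +kernel)
        a2.df a2.dg (by rw [a2.tf, evW]; simp)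
        (by rw [a2.tg, evW]; push_cast; linear_combination om_sq)
        (by rw [a2.tfg, evW]; push_cast; linear_combination (2 * om - 2) * om_sq)
        (by rw [a2.gm, evW]; push_cast; linear_combination -om_sq))
      have a4 := a3.ident (M := zM) (N := zH ⟨1, 0, -1, 0⟩) [0] [0, 0, 1, 2, 3, 3] [0]
        [1, 0, 0, 1, 2, 1, 0, 1, 0, 1] (by decide +kernel)
      rw [evM_zM, evM_zH _ ev_nom] at a4
      exact Or.inl ⟨-om, by simp, conjH n2 a4⟩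
  · obtain ⟨g3, a1, a2 | a2⟩ := tanW_nf hS hf hg hx hζ (Or.inr (Or.inl rfl))
      (w := 1 - om ^ 2) (by linear_combination 4 * (om ^ 2 - om + 1) * om_sq)
    · have a3 := repH (hR.eqv a1) a2 h1' n4
      rw [← evM_zM, ← evM_zH _ ev_om2] at a3
      have a4 := a3.ident (M := zM) (N := zH ⟨-1, 0, 1, 0⟩) [0] [1, 0, 1, 2, 1] [0]
        [0, 1, 0, 1, 2, 1, 2] (by decide +kernel)
      rw [evM_zM, evM_zH _ ev_om] at a4
      exact Or.inl ⟨om, by simp, conjH n3 a4⟩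
    · have b := a2.shift.inv
      have a3 := (hR.eqv (a1.trans ((Eqv.shift a2.df g3).trans (Eqv.inv _ _)))).cm
        (cm_of_par (F := zA) (G := zB ⟨0, 0, -1, 0⟩) (x := ⟨2, 0, 0, 0⟩)
        (y := ⟨2, 0, 0, 0⟩) (z := ⟨-1, 0, 1, 0⟩) (c := ⟨-1, 0, -1, 0⟩) (by decide +kernel)
        b.df b.dg (by rw [b.tf, evW]; simp) (by rw [b.tg, evW]; push_cast; ring)
        (by rw [b.tfg, evW]; push_cast; linear_combination -om_sq)
        (by rw [b.gm, evW]; push_cast; linear_combination om_sq))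
      exact Or.inr (Or.inl (conjF (a3.ident [0] [1, 2, 3] [0] [0, 1, 2, 3, 2] (by decide +kernel))))
  · obtain ⟨g3, a1, a2 | a2⟩ := tanW_nf hS hf hg hx hζ (Or.inr (Or.inr (Or.inl rfl)))
      (w := -(-om - 1 + 2) * (1 + 2 * om))
      (by linear_combination 4 * (-om - 1 + 2) ^ 2 * om_sq)
    · exact Or.inl ⟨-om, by simp, conjH n2 (repH (hR.eqv a1) a2 h1' n2)⟩
    · have a3 := (hR.eqv a1).cm (cm_of_par (F := fA) (G := zK2) (x := ⟨2, 0, 0, 0⟩)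
        (y := ⟨-2, 0, 1, 0⟩) (z := ⟨2, 0, -4, 0⟩) (c := ⟨0, 0, -1, 0⟩) (by decide +kernel)
        a2.df a2.dg (by rw [a2.tf, evW]; simp) (by rw [a2.tg, evW]; push_cast; ring)
        (by rw [a2.tfg, evW]; push_cast; linear_combination 2 * om_sq)
        (by rw [a2.gm, evW]; push_cast; ring))
      have a4 := a3.ident (M := zM) (N := zH ⟨0, 0, 1, 0⟩) [0] [0, 0, 1, 0, 3, 3] [0]
        [1, 0, 0, 1, 0, 1, 2, 1, 2, 1] (by decide +kernel)
      rw [evM_zM, evM_zH _ ev_nom2] at a4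
      exact Or.inl ⟨-om ^ 2, by simp, conjH n1 a4⟩
  · obtain ⟨g3, a1, a2 | a2⟩ := tanW_nf hS hf hg hx hζ (Or.inr (Or.inr (Or.inr rfl)))
      (w := 1 - om) (by linear_combination 4 * om_sq)
    · exact Or.inl ⟨om, by simp, conjH n3 (repH (hR.eqv a1) a2 h1' n3)⟩
    · have b := a2.shift.inv
      exact Or.inr (Or.inl (conjF
        ((hR.eqv (a1.trans ((Eqv.shift a2.df g3).trans (Eqv.inv _ _)))).cm
        (cm_of_par (x := ⟨2, 0, 0, 0⟩)
        (y := ⟨2, 0, 0, 0⟩) (z := ⟨0, 0, -1, 0⟩) (c := ⟨-2, 0, 1, 0⟩) (by decide +kernel)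
        b.df b.dg (by rw [b.tf, evW]; simp) (by rw [b.tg, evW]; push_cast; ring)
        (by rw [b.tfg, evW]; push_cast; ring) (by rw [b.gm, evW]; push_cast; ring)))))

theorem isTan_of_pair {Γ : Subgroup PSL} {f g : SL2} (hR : Rep Γ (toM f) (toM g)) {ζ : ℂ}
    (hx : tr (toM f) ^ 2 = 2) (hγ : gam (toM f) (toM g) = ζ - 1) (hn : ‖ζ‖ = 1) : IsTan Γ := by
  have e : (f⁻¹ * g⁻¹ * f * g).1.trace - 1 = ζ := by
    rw [toM_gam] at hγ; linear_combination hγ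
  refine ⟨f, g, hR.closure, fun h => ?_, ?_⟩
  · rw [h, sub_self] at e
    rw [← e] at hn; simp at hn
  · rw [e, ← toM_tr, hx, hn]; simp

theorem InO.mul {τ : ℂ} {s : ℤ} (h : Quad τ s) {x y : ℂ} (hx : InO τ x) (hy : InO τ y) :
    InO τ (x * y) := by
  obtain ⟨a, b, rfl⟩ := hx
  obtain ⟨c, d, rfl⟩ := hy
  exact ⟨_, _, (evO_mul h (a, b) (c, d)).symm⟩

theorem orb_of_pair {τ : ℂ} {s : ℤ} (h : Quad τ s) {Γ : Subgroup PSL} {f g : SL2}
    (hR : Rep Γ (toM f) (toM g)) {T γ X Y : ℂ} (hP : PP T γ (toM f) (toM g) X Y) (hγ0 : γ ≠ 0)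
    (hY0 : Y ≠ 0) (hT0 : T ≠ 0) (hT : InO τ T) (hγ : InO τ γ) (hX : InO τ X) (hY : InO τ Y)
    {F G : M2} (hM : Mod h F G)
    (hm : ∃ f1, Cj (toM f) (toM g) f1 ∧ Cm (toM f) f1 F G) : IsOrbifoldGroup Γ := by
  obtain ⟨f1, h1, h2⟩ := hm
  obtain ⟨a1, a2⟩ := h2.cof hM
  refine ⟨nonelem_of_big (fun A hA => (hR A).2 hA) (a2.sub (Wd.l _ _) h1.wd), ?_,
    finCov_of_cof (fun A hA => (hR A).2 hA) (a1.sub (Wd.l _ _) h1.wd)⟩
  refine discrete_of_inO h hR (by rwa [hP.gm]) fun Z hZ dZ => ?_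
  have t0 : tr (toM f) ≠ 0 := by
    intro h0; have := hP.tf; rw [h0] at this; exact hT0 (by simpa using this.symm)
  have z0 : tr (toM f * toM g) ≠ 0 := by
    intro h0; have := hP.tfg; rw [h0] at this; exact hY0 (by simpa using this.symm)
  have e := Eqv.sc (toM f) (toM g) t0 (mul_ne_zero t0 z0)
  have four : InO τ 4 := ⟨4, 0, by simp⟩
  have zero : InO τ 0 := ⟨0, 0, by simp⟩
  have e1 : tr (sc (tr (toM f)) (toM f)) = T := by rw [tr_sc, ← sq, hP.tf]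
  have e2 : tr (sc (tr (toM f) * tr (toM f * toM g)) (toM g)) = X - (4 - Y) - γ - (0 - T) := by
    rw [tr_sc]; linear_combination hP.prod
  have e3 : tr (sc (tr (toM f)) (toM f) * sc (tr (toM f) * tr (toM f * toM g)) (toM g))
      = T * Y := by
    rw [sc_mul, mul_sc, sc_sc, tr_sc, ← hP.tf, ← hP.tfg]; ring
  have e4 : det (sc (tr (toM f)) (toM f)) = T := by rw [det_sc, hP.tf, toM_det, mul_one]
  have e5 : det (sc (tr (toM f) * tr (toM f * toM g)) (toM g)) = T * Y := by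
    rw [det_sc, mul_pow, hP.tf, hP.tfg, toM_det, mul_one]
  refine (Wd.sub e.h1 e.h2 hZ).inO h ⟨by rw [e1]; exact hT.kq h,
    by rw [e2]; exact (((hX.sub (four.sub hY)).sub hγ).sub (zero.sub hT)).kq h,
    by rw [e3]; exact (hT.mul h hY).kq h,
    by rw [e4]; exact hT.kq h, by rw [e5]; exact (hT.mul h hY).kq h⟩
    ⟨by rwa [e4], by rw [e5]; exact mul_ne_zero hT0 hY0, ?_, ?_, ?_⟩ dZ
  · rw [e1, e4, show T ^ 2 / T = T by field_simp]; exact hT.integral h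
  · rw [e2, e5, show (X - (4 - Y) - γ - (0 - T)) ^ 2 = X * (T * Y) by linear_combination hP.rel,
      mul_div_cancel_right₀ _ (mul_ne_zero hT0 hY0)]
    exact hX.integral h
  · rw [e3, e4, e5, show (T * Y) ^ 2 / (T * (T * Y)) = Y by field_simp]; exact hY.integral h

theorem norm_of_pow {ζ : ℂ} (h : ζ ^ 12 = 1) : ‖ζ‖ = 1 :=
  Complex.norm_eq_one_of_pow_eq_one h (by norm_num)

theorem pairH {Γ : Subgroup PSL} {ζ : ℂ} (h2 : 1 + ζ ≠ 0) (h : Conjugate Γ (grpH ζ)) :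
    ∃ f g : SL2, Rep Γ (toM f) (toM g) ∧ PP 2 (ζ - 1) (toM f) (toM g) 0 (1 + ζ) := by
  obtain ⟨f, g, a1, a2, a3, a4, a5⟩ := pair_of_conj (by simp [det, mM]) (det_H h2) h
  rw [mM_of] at a2 a3
  rw [mM_of, mM_of] at a4 a5
  refine ⟨f, g, a1, toM_det f, toM_det g, ?_, ?_, ?_, ?_⟩
  · generalize tr (toM f) = x at a2
    simp only [det, tr] at a2
    exact mul_right_cancel₀ I_ne_zero (by linear_combination a2 + I_mul_I)
  · generalize gam (toM f) (toM g) = x at a5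
    simp only [gamh, det, tr, adj, mul_a, mul_b, mul_c, mul_d] at a5
    exact mul_right_cancel₀ (mul_ne_zero I_ne_zero h2)
      (by linear_combination (-1 / 2 : ℂ) * a5 + (1 - ζ ^ 2) / 2 * I_mul_I)
  · generalize tr (toM g) = x at a3
    simp only [det, tr] at a3
    exact mul_right_cancel₀ h2 (by linear_combination (-1 / 2 : ℂ) * a3)
  · generalize tr (toM f * toM g) = x at a4
    simp only [det, tr, mul_a, mul_d] at a4
    exact mul_right_cancel₀ (mul_ne_zero I_ne_zero h2)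
      (by linear_combination (-1 / 2 : ℂ) * a4 - (1 + ζ) ^ 2 / 2 * I_mul_I)

theorem suffH {Γ : Subgroup PSL} {ζ : ℂ} (hζ : ζ ∈ ({I, -I, -om, -om ^ 2, om} : Set ℂ))
    (h : Conjugate Γ (grpH ζ)) : IsOrbifoldGroup Γ ∧ IsTan Γ := by
  have key : ∀ {τ : ℂ} {s : ℤ} (hq : Quad τ s) (a b : ℤ), ζ = a + b * τ → ζ ^ 12 = 1 →
      ζ.im ≠ 0 → ∀ F G, Mod hq F G → (∀ f g : M2, det f = 1 → det g = 1 → tr f ^ 2 = 2 →
        gam f g = ζ - 1 → ∃ f1, Cj f g f1 ∧ Cm f f1 F G) → IsOrbifoldGroup Γ ∧ IsTan Γ := by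
    intro τ s hq a b e h12 him F G hM hm
    have n1 : 1 + ζ ≠ 0 := fun h => him (by simpa using congrArg Complex.im h)
    have n2 : ζ - 1 ≠ 0 := fun h => him (by simpa using congrArg Complex.im h)
    obtain ⟨f, g, hR, hP⟩ := pairH n1 h
    exact ⟨orb_of_pair hq hR hP n2 n1 two_ne_zero ⟨2, 0, by simp⟩ ⟨a - 1, b, by rw [e]; push_cast; ring⟩ ⟨0, 0, by simp⟩
      ⟨a + 1, b, by rw [e]; push_cast; ring⟩ hM (hm _ _ hP.df hP.dg hP.tf hP.gm),
      isTan_of_pair hR hP.tf hP.gm (norm_of_pow h12)⟩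
  have o12 : om ^ 12 = 1 := by rw [show om ^ 12 = (om ^ 3) ^ 4 by ring, om_cube, one_pow]
  have i12 : I ^ 12 = 1 := by rw [show I ^ 12 = (I ^ 4) ^ 3 by ring, I_pow_four, one_pow]
  simp only [Set.mem_insert_iff, Set.mem_singleton_iff] at hζ
  rcases hζ with e | e | e | e | e
  · exact key quadI 0 1 (by simp [e]) (by rw [e, i12]) (by simp [e]) _ _ modD
      fun f g a b c d => tan_modD a b c d (Or.inl e)
  · exact key quadI 0 (-1) (by simp [e]) (by rw [e]; linear_combination i12) (by simp [e]) _ _ modD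
      fun f g a b c d => tan_modD a b c d (Or.inr e)
  · exact key quadW 0 (-1) (by simp [e]) (by rw [e]; linear_combination o12) (by simp [e, om_im])
      _ _ modAc fun f g a b c d => tan_modAc a b c d (Or.inl e)
  · have e' : ζ = (1 : ℤ) + (1 : ℤ) * om := by rw [e]; push_cast; linear_combination -om_sq
    exact key quadW 1 1 e' (by rw [e]; linear_combination (om ^ 12 + 1) * o12)
      (by simp [e', om_im]) _ _ modA fun f g a b c d => tan_modA a b c d (Or.inl e)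
  · exact key quadW 0 1 (by simp [e]) (by rw [e, o12]) (by simp [e, om_im])
      _ _ modAc fun f g a b c d => tan_modAc a b c d (Or.inr e)

theorem suffF {Γ : Subgroup PSL} (h : Conjugate Γ grpF) : IsOrbifoldGroup Γ ∧ IsTan Γ := by
  obtain ⟨f, g, a1, a2, a3, a4, a5⟩ := pair_of_conj (by simp [det, mM]) (by simp [det, mM]) h
  rw [mM_of] at a2 a3
  rw [mM_of, mM_of] at a4 a5
  have hP : PP 2 (om - 1) (toM f) (toM g) 2 (om ^ 2) := by
    refine ⟨toM_det f, toM_det g, ?_, ?_, ?_, ?_⟩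
    · generalize tr (toM f) = x at a2
      simp only [det, tr] at a2
      exact mul_right_cancel₀ I_ne_zero (by linear_combination a2 + I_mul_I)
    · generalize gam (toM f) (toM g) = x at a5
      simp only [gamh, det, tr, adj, mul_a, mul_b, mul_c, mul_d] at a5
      linear_combination -a5 + (x - om ^ 2 + om * I - 2 * om) * I_mul_I + om_sq
    · generalize tr (toM g) = x at a3
      simp only [det, tr] at a3
      exact mul_right_cancel₀ I_ne_zero (by linear_combination a3 + I_mul_I)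
    · generalize tr (toM f * toM g) = x at a4
      simp only [det, tr, mul_a, mul_d] at a4
      linear_combination -a4 + (x ^ 2 - I ^ 2 - 1 + 2 * I * om - om ^ 2) * I_mul_I
  have n0 : om ≠ 0 := by simpa using om_ne (a := 0) (b := 1) (by norm_num)
  exact ⟨orb_of_pair quadW a1 hP
    (by convert om_ne (a := -1) (b := 1) (by norm_num) using 1; push_cast; ring)
    (pow_ne_zero _ n0) two_ne_zero ⟨2, 0, by simp⟩ ⟨-1, 1, by push_cast; ring⟩ ⟨2, 0, by simp⟩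
    ⟨-1, -1, by push_cast; linear_combination om_sq⟩ modAc
    (tan_modAc hP.df hP.dg hP.tf hP.gm (Or.inr rfl)),
    isTan_of_pair a1 hP.tf hP.gm (Complex.norm_eq_one_of_pow_eq_one om_cube (by norm_num))⟩

theorem pair4 {Γ : Subgroup PSL} {μ : ℂ} (h0 : μ ≠ 0) (h : Conjugate Γ (fam4 μ)) :
    ∃ f g : SL2, Rep Γ (toM f) (toM g) ∧ tr (toM f) ^ 2 = 2 ∧ gam (toM f) (toM g) = -2 := by
  obtain ⟨f, g, a1, a2, -, -, a5⟩ := pair_of_conj (by simp [det, mM]) (by simp [det, mM, h0]) h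
  rw [mM_of] at a2
  rw [mM_of, mM_of] at a5
  refine ⟨f, g, a1, ?_, ?_⟩
  · generalize tr (toM f) = x at a2
    simp only [det, tr] at a2
    exact mul_right_cancel₀ I_ne_zero (by linear_combination a2 + I_mul_I)
  · generalize gam (toM f) (toM g) = x at a5
    simp only [gamh, det, tr, adj, mul_a, mul_b, mul_c, mul_d] at a5
    exact mul_right_cancel₀ (mul_ne_zero I_ne_zero h0) (by linear_combination -a5 + μ * I_mul_I)

theorem fam2_of {Γ : Subgroup PSL} {f g : M2} (hR : RepC Γ f g) (hf : det f = 1)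
    (hg : det g = 1) (hx : tr f ^ 2 = 0) (hγ : gam f g = -2) :
    ∃ μ : ℂ, μ ≠ 0 ∧ Conjugate Γ (fam2 μ) := by
  have h0 : tr f = 0 := by simpa using hx
  have h1 := fricke _ _ hf hg
  rw [hγ, h0] at h1
  obtain ⟨a, ha⟩ : ∃ a, a = (tr g - I * tr (f * g)) / 2 := ⟨_, rfl⟩
  obtain ⟨d, hd⟩ : ∃ d, d = (tr g + I * tr (f * g)) / 2 := ⟨_, rfl⟩
  have had : 2 * (a * d) = 1 := by
    rw [ha, hd]; linear_combination (-1 / 2 : ℂ) * h1 - tr (f * g) ^ 2 / 2 * I_mul_I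
  have hy : tr g = a + d := by rw [ha, hd]; ring
  have hz : tr (f * g) ^ 2 = -(d - a) ^ 2 := by
    rw [ha, hd]; linear_combination tr (f * g) ^ 2 * I_mul_I
  have a0 : a ≠ 0 := by rintro rfl; simp at had
  have m0 : 2 * a ^ 2 ≠ 0 := mul_ne_zero two_ne_zero (pow_ne_zero _ a0)
  have e : det ⟨2 * a ^ 2, 2 * a ^ 2, -1, 1⟩ = 2 * (2 * a ^ 2) := by simp only [det]; ring
  have d0 : det ⟨2 * a ^ 2, 2 * a ^ 2, -1, 1⟩ ≠ 0 := by rw [e]; exact mul_ne_zero two_ne_zero m0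
  refine ⟨2 * a ^ 2, m0, (conj_iff Γ _ _ (by simp [det, mM]) (by rwa [mM_of])).2 ?_⟩
  rw [mM_of, mM_of]
  refine hR.model hf hg (by simp [det]) d0 (by rw [hγ]; norm_num) ?_ ?_ ?_ ?_
  · rw [hx]; simp [tr]
  · rw [hy]; simp only [det, tr]
    linear_combination (4 * a ^ 2 + 2 * a * d + 1) * had
  · rw [hz]; simp only [det, tr, mul_a, mul_d]
    linear_combination (-4 * a ^ 2 + 2 * a * d + 1) * had
  · rw [hγ]; simp only [gamh, det, tr, adj, mul_a, mul_b, mul_c, mul_d]; ring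

theorem pair2 {Γ : Subgroup PSL} {μ : ℂ} (h0 : μ ≠ 0) (h : Conjugate Γ (fam2 μ)) :
    ∃ f g : SL2, Rep Γ (toM f) (toM g) ∧ tr (toM f) ^ 2 = 0 ∧ gam (toM f) (toM g) = -2 := by
  have e : det ⟨μ, μ, -1, 1⟩ = 2 * μ := by simp only [det]; ring
  obtain ⟨f, g, a1, a2, -, -, a5⟩ := pair_of_conj (by simp [det, mM])
    (by rw [mM_of, e]; exact mul_ne_zero two_ne_zero h0) h
  rw [mM_of] at a2
  rw [mM_of, mM_of] at a5
  refine ⟨f, g, a1, ?_, ?_⟩
  · generalize tr (toM f) = x at a2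
    simp only [det, tr] at a2
    linear_combination -a2
  · generalize gam (toM f) (toM g) = x at a5
    simp only [gamh, det, tr, adj, mul_a, mul_b, mul_c, mul_d] at a5
    exact mul_right_cancel₀ h0 (by linear_combination (-1 / 2 : ℂ) * a5)

theorem isGMT_of_pair {Γ : Subgroup PSL} {f g : SL2} (hR : Rep Γ (toM f) (toM g))
    (hx : tr (toM f) ^ 2 = 2 ∨ tr (toM f) ^ 2 = 0) (hγ : gam (toM f) (toM g) = -2) : IsGMT Γ := by
  have e : (f⁻¹ * g⁻¹ * f * g).1.trace = 0 := by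
    rw [toM_gam] at hγ; linear_combination hγ
  refine ⟨f, g, hR.closure, ?_, ?_⟩
  · rw [← toM_tr]
    rcases hx with h | h <;> rw [h] <;> norm_num
  · rw [e, ← toM_tr]
    rcases hx with h | h <;> rw [h] <;> norm_num

theorem gmt_bound {τ l m : ℂ} {g : M2} {X Y : ℂ} (h : PP τ (-2) ⟨l, 0, 0, m⟩ g X Y)
    (hτ : ‖τ - 1‖ = 1) (h2 : τ ≠ 2) (hl : 1 < ‖l‖) :
    ∃ g2 X2 Y2, Eqv ⟨l, 0, 0, m⟩ g ⟨l, 0, 0, m⟩ g2 ∧ PP τ (-2) ⟨l, 0, 0, m⟩ g2 X2 Y2 ∧
      ‖X2‖ ^ 2 ≤ 16 ∧ ‖Y2‖ ^ 2 ≤ 16 := by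
  have hlm : l * m = 1 := by simpa [det] using h.df
  have l0 : l ≠ 0 := left_ne_zero_of_mul_eq_one hlm
  obtain rfl : m = l⁻¹ := eq_inv_of_mul_eq_one_right hlm
  have htr : (l + l⁻¹) ^ 2 = τ := h.tf
  have hγ := h.gm
  rw [gam_diag _ _ hlm g h.dg] at hγ
  have hd : g.a * g.d - g.b * g.c = 1 := h.dg
  have had : g.a * g.d * (τ - 4) = τ - 2 := by
    linear_combination (τ - 4) * hd - hγ - (g.b * g.c) * (htr - 4 * hlm)
  have t0 : g.a * g.d ≠ 0 := by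
    intro h0; rw [h0, zero_mul] at had; exact h2 (by linear_combination -had)
  have he0 : 0 < ‖g.a * g.d‖ := norm_pos_iff.2 t0
  have hτ' : (τ.re - 1) ^ 2 + τ.im ^ 2 = 1 := by
    have := congrArg (· ^ 2) hτ
    simp only [← normSq_eq_norm_sq, normSq_apply, sub_re, sub_im, one_re, one_im] at this
    linear_combination this
  have he : ‖g.a * g.d‖ ≤ 1 / 2 := by
    have e1 := congrArg normSq had
    rw [normSq_mul, normSq_eq_norm_sq (g.a * g.d)] at e1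
    have e2 : normSq (τ - 4) = 16 - 6 * τ.re := by
      simp only [normSq_apply, sub_re, sub_im, re_ofNat, im_ofNat]; linear_combination hτ'
    have e3 : normSq (τ - 2) = 4 - 2 * τ.re := by
      simp only [normSq_apply, sub_re, sub_im, re_ofNat, im_ofNat]; linear_combination hτ'
    rw [e2, e3] at e1
    have r0 : 0 ≤ τ.re := by nlinarith [sq_nonneg τ.im]
    have r1 : τ.re ≤ 2 := by nlinarith [sq_nonneg τ.im]
    by_contra hc
    rw [not_le] at hc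
    have : 1 / 4 < ‖g.a * g.d‖ ^ 2 := by nlinarith
    nlinarith
  have hL : ‖l‖ ^ 2 ≤ 3 := by
    have p1 := parallelogram_law_with_norm ℂ l l⁻¹
    have p2 : ‖l + l⁻¹‖ ^ 2 ≤ 2 := by
      rw [← norm_pow, htr]
      have := norm_add_le (τ - 1) 1
      rw [sub_add_cancel, hτ, norm_one] at this; linarith
    have p3 : ‖l - l⁻¹‖ ^ 2 ≤ 4 := by
      rw [← norm_pow, show (l - l⁻¹) ^ 2 = (τ - 1) - 3 by linear_combination htr - 4 * hlm]
      have := norm_sub_le (τ - 1) 3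
      rw [hτ] at this
      have e3 : ‖(3 : ℂ)‖ = 3 := by simp
      linarith
    nlinarith [sq_nonneg ‖l⁻¹‖]
  have a0 : g.a ≠ 0 := left_ne_zero_of_mul t0
  obtain ⟨n, k1, k2⟩ := exists_scale (L := ‖l‖ ^ 2) (y := ‖g.a‖ ^ 2) (c := ‖g.a * g.d‖)
    (by nlinarith) (by positivity) he0
  have hn : l ^ (n - 1) * l ^ (-(n - 1)) = 1 := by rw [← zpow_add₀ l0]; simp
  set E : M2 := ⟨l ^ (n - 1), 0, 0, l ^ (-(n - 1))⟩ with hE
  have dE : det E = 1 := by simpa [hE, det] using hn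
  set p := l ^ (n - 1) * g.a with hp
  set q := l ^ (-(n - 1)) * g.d with hq
  have npq : ‖p‖ * ‖q‖ = ‖g.a * g.d‖ := by
    rw [← norm_mul]; congr 1; rw [hp, hq]; linear_combination g.a * g.d * hn
  have np : ‖p‖ ^ 2 * ‖l‖ ^ 2 = ‖g.a‖ ^ 2 * (‖l‖ ^ 2) ^ n := by
    have nl : ‖l‖ ≠ 0 := norm_ne_zero_iff.2 l0
    rw [hp, norm_mul, norm_zpow, zpow_sub₀ nl, zpow_one, ← zpow_natCast ‖l‖ 2, ← zpow_mul,
      mul_comm _ n, zpow_mul]
    field_simp
    norm_cast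
    ring
  rw [← np] at k1 k2
  have hl2 : 0 < ‖l‖ ^ 2 := by positivity
  have b1 : ‖p‖ ^ 2 ≤ 1 / 2 := (le_of_mul_le_mul_right k2 hl2).trans he
  have b2 : ‖q‖ ^ 2 ≤ 1 / 2 * ‖l‖ ^ 2 := by
    have c1 : ‖g.a * g.d‖ * ‖q‖ ^ 2 ≤ ‖g.a * g.d‖ * (‖g.a * g.d‖ * ‖l‖ ^ 2) := by
      calc _ ≤ ‖p‖ ^ 2 * ‖l‖ ^ 2 * ‖q‖ ^ 2 := mul_le_mul_of_nonneg_right k1 (by positivity)
        _ = _ := by rw [← npq]; ring
    exact (le_of_mul_le_mul_left c1 he0).trans (mul_le_mul_of_nonneg_right he hl2.le)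
  have b3 : ∀ x y : ℂ, ‖x‖ ^ 2 + ‖y‖ ^ 2 ≤ 2 → ‖(x + y) ^ 2‖ ^ 2 ≤ 16 := by
    intro x y hxy
    have c1 := pow_le_pow_left₀ (norm_nonneg _) (norm_add_le x y) 2
    have c2 : ‖(x + y) ^ 2‖ ≤ 4 := by rw [norm_pow]; nlinarith [sq_nonneg (‖x‖ - ‖y‖)]
    nlinarith [norm_nonneg ((x + y) ^ 2)]
  have dg2 : det (E * g) = 1 := by rw [det_mul, dE, h.dg, one_mul]
  refine ⟨E * g, (p + q) ^ 2, (l * p + l⁻¹ * q) ^ 2, ⟨Wd.l _ _, ?_, Wd.l _ _, ?_⟩,
    ⟨h.df, dg2, htr, ?_, ?_, ?_⟩, b3 _ _ (by linarith), b3 _ _ ?_⟩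
  · have := (wd_diag l0 (Wd.l _ (E * g)) (n - 1)).adj.mul (Wd.r _ _)
    rwa [← mul_as, adj_mul1 dE, one_mu] at this
  · exact (wd_diag l0 (Wd.l _ _) (n - 1)).mul (Wd.r _ _)
  · rw [gam_diag _ _ hlm _ dg2, ← hγ]
    simp only [hE, mul_b, mul_c]
    linear_combination (-(l - l⁻¹) ^ 2 * g.b * g.c) * hn
  · simp only [tr, hE, mul_a, mul_d]; ring
  · simp only [tr, hE, mul_a, mul_b, mul_c, mul_d]; ring
  · rw [norm_mul l, norm_mul l⁻¹, norm_inv, mul_pow, mul_pow, inv_pow]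
    have c1 : (‖l‖ ^ 2)⁻¹ * ‖q‖ ^ 2 ≤ 1 / 2 := by
      rw [inv_mul_le_iff₀ hl2]; linarith
    nlinarith

def zeroF (s : ℤ) (k : ℤ × ℤ) : ℕ → ℤ × ℤ → ℤ × ℤ → Bool
  | 0, x, _ => x == (0, 0)
  | n + 1, x, y => x == (0, 0) || zeroF s k n y (omul s k ((2, 0) - y) - x)

def GZ (f g : M2) : Prop := ∃ h, Eqv f g f h ∧ det h = 1 ∧ tr h ^ 2 = 0 ∧ gam f h = -2

theorem GZ.eqv {f g g' : M2} (e : Eqv f g f g') (h : GZ f g') : GZ f g := by
  obtain ⟨x, k1, k2⟩ := h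
  exact ⟨x, e.trans k1, k2⟩

theorem zeroF_sound {τ : ℂ} {s : ℤ} (hq : Quad τ s) (k : ℤ × ℤ) {f : M2} :
    ∀ (n : ℕ) (x y : ℤ × ℤ) (g : M2), PP (2 - evO τ k) (-2) f g (evO τ x) (evO τ y) →
      zeroF s k n x y = true → GZ f g := by
  have z : ∀ (x y : ℤ × ℤ) (g : M2), PP (2 - evO τ k) (-2) f g (evO τ x) (evO τ y) →
      x = (0, 0) → GZ f g := by
    rintro x y g h rfl
    exact ⟨g, Eqv.rfl _ _, h.dg, by rw [h.tg]; simp [evO], h.gm⟩
  intro n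
  induction n with
  | zero => exact fun x y g h hb => z x y g h (by simpa [zeroF] using hb)
  | succ n ih =>
    intro x y g h hb
    simp only [zeroF, Bool.or_eq_true, beq_iff_eq] at hb
    rcases hb with hb | hb
    · exact z x y g h hb
    · refine (ih _ _ _ (h.shift.congr rfl ?_) hb).eqv (Eqv.shift h.df g)
      rw [evO_sub, evO_mul hq, evO_sub, show evO τ (2, 0) = 2 by simp [evO]]; ring

def gmtB (s : ℤ) (k : ℤ × ℤ) : Bool :=
  (pts s 16).all fun x => (pts s 16).all fun y =>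
    !(omul s (x + y - k) (x + y - k) == omul s ((2, 0) - k) (omul s x y)) ||
      (zeroF s k 6 x y || zeroF s k 6 x (omul s k ((2, 0) - x) - y))

theorem gmt_lox {τ : ℂ} {s : ℤ} (hq : Quad τ s) {k : ℤ × ℤ} (hk : gmtB s k = true)
    {S : Set M2} (hS : Grp S) (hO : ∀ X ∈ S, InO τ (tr X ^ 2)) {f g : M2} (hf : f ∈ S)
    (hg : g ∈ S) (hx : tr f ^ 2 = 2 - evO τ k) (hγ : gam f g = -2)
    (hn : ‖2 - evO τ k - 1‖ = 1) (him : (2 - evO τ k).im ≠ 0) : GZ f g := by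
  have e2 : evO τ (2, 0) = 2 := by simp [evO]
  have key : ∀ (S : Set M2), Grp S → (∀ X ∈ S, InO τ (tr X ^ 2)) → ∀ (l m : ℂ) (g : M2) (X Y : ℂ),
      (⟨l, 0, 0, m⟩ : M2) ∈ S → g ∈ S → PP (2 - evO τ k) (-2) ⟨l, 0, 0, m⟩ g X Y → 1 < ‖l‖ →
      GZ ⟨l, 0, 0, m⟩ g := by
    intro S hS hO l m g X Y hf hg hP hl
    obtain ⟨g2, X2, Y2, a1, a2, a3, a4⟩ := gmt_bound hP hn
      (fun h => him (by rw [h]; simp)) hl
    have hg2 := hS.wd hf hg a1.h4 a2.dg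
    have b1 := hO _ hg2
    have b2 := hO _ (hS.good.mul hf hg2)
    rw [a2.tg] at b1
    rw [a2.tfg] at b2
    obtain ⟨x, hx, rfl⟩ := mem_pts hq (B := 16) (by norm_num) b1 (by exact_mod_cast a3)
    obtain ⟨y, hy, rfl⟩ := mem_pts hq (B := 16) (by norm_num) b2 (by exact_mod_cast a4)
    simp only [gmtB, List.all_eq_true] at hk
    have h1 := hk x hx y hy
    have h2 : omul s (x + y - k) (x + y - k) = omul s ((2, 0) - k) (omul s x y) := by
      apply evO_inj hq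
      rw [evO_mul hq, evO_mul hq, evO_mul hq, evO_sub, evO_sub, evO_add, e2]
      linear_combination a2.rel
    simp only [h2, beq_self_eq_true, Bool.not_true, Bool.false_or, Bool.or_eq_true] at h1
    refine GZ.eqv a1 ?_
    rcases h1 with h1 | h1
    · exact zeroF_sound hq k _ _ _ _ a2 h1
    · refine (zeroF_sound hq k _ _ _ _ (a2.inv.congr rfl ?_) h1).eqv (Eqv.inv _ _)
      rw [evO_sub, evO_mul hq, evO_sub, e2]; ring
  have df := hS.good.det hf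
  have hP : PP (2 - evO τ k) (-2) f g _ _ := ⟨df, hS.good.det hg, hx, hγ, rfl, rfl⟩
  obtain ⟨P, dP, h | h⟩ := exists_normal f df
  · obtain ⟨l, m, _, e⟩ := h
    have hP' := hP.cj dP
    have hS' := hS.cj dP
    have hO' : ∀ X ∈ cj P '' S, InO τ (tr X ^ 2) := by
      rintro _ ⟨X, hX, rfl⟩
      rw [tr_cj _ _ dP]; exact hO X hX
    have hf' : cj P f ∈ cj P '' S := ⟨f, hf, rfl⟩
    have hg' : cj P g ∈ cj P '' S := ⟨g, hg, rfl⟩
    have main : GZ (cj P f) (cj P g) := by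
      rw [e] at hP' hf' ⊢
      have hlm : l * m = 1 := by simpa [det] using hP'.df
      have hnm : ‖l‖ * ‖m‖ = 1 := by rw [← norm_mul, hlm, norm_one]
      rcases lt_trichotomy 1 ‖l‖ with hl | hl | hl
      · exact key _ hS' hO' l m _ _ _ hf' hg' hP' hl
      · exfalso
        have hm : m = (starRingEnd ℂ) l := by
          have : l * (starRingEnd ℂ) l = 1 := by
            rw [mul_conj, normSq_eq_norm_sq, ← hl]; simp
          exact mul_left_cancel₀ (left_ne_zero_of_mul_eq_one hlm) (hlm.trans this.symm)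
        apply him
        rw [← hP'.tf, tr, hm, add_conj]
        norm_cast
      · have hm : 1 < ‖m‖ := by nlinarith [norm_nonneg l, norm_nonneg m]
        have ea : adj ⟨l, 0, 0, m⟩ = ⟨m, 0, 0, l⟩ := by simp [adj]
        have dg := hP'.dg
        obtain ⟨x, a1, a2, a3, a4⟩ := key _ hS' hO' m l _ _ _ (ea ▸ hS'.good.adj hf') hg'
          ⟨by simpa [det, mul_comm] using hlm, dg, by rw [← hP'.tf]; simp [tr, add_comm],
            by rw [← ea, gam_symm (by rw [det_adj, hP'.df]) dg, gam_inv dg hP'.df,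
              gam_symm dg hP'.df, hP'.gm], rfl, rfl⟩ hm
        rw [← ea] at a1 a4
        have i1 := Eqv.invl (adj ⟨l, 0, 0, m⟩) x
        rw [adj_adj] at i1
        refine ⟨x, (Eqv.invl _ _).trans (a1.trans i1), a2, a3, ?_⟩
        rwa [gam_symm (by rw [det_adj, hP'.df]) a2, gam_inv a2 hP'.df, gam_symm a2 hP'.df] at a4
    obtain ⟨x, a1, a2, a3, a4⟩ := main
    have dP' : det (adj P) = 1 := by rw [det_adj, dP]
    have b1 := a1.cj dP'
    rw [cj_cj _ _ dP, cj_cj _ _ dP] at b1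
    refine ⟨_, b1, by rw [det_cj dP', a2], by rw [tr_cj _ _ dP', a3], ?_⟩
    rw [← a4, ← gam_cj (adj P) (cj P f) x dP', cj_cj _ _ dP]
  · exfalso
    obtain ⟨e, t, h⟩ := h
    have h1 := (hP.cj dP).df
    have h2 := (hP.cj dP).tf
    rw [h] at h1 h2
    simp only [det, tr] at h1 h2
    apply him
    rw [← h2, show (e + e) ^ 2 = 4 by linear_combination 4 * h1]
    simp

theorem gB1 : gmtB 0 (1, -1) = true := by decide +kernel
theorem gB2 : gmtB 0 (1, 1) = true := by decide +kernel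
theorem gB3 : gmtB 1 (0, -1) = true := by decide +kernel
theorem gB4 : gmtB 1 (2, 1) = true := by decide +kernel
theorem gB5 : gmtB 1 (1, 1) = true := by decide +kernel
theorem gB6 : gmtB 1 (1, -1) = true := by decide +kernel

/-- Model lattices for the loxodromic parameters. -/
theorem gmt_mod {η : ℂ} (h : η = I ∨ η = -I ∨ η = -om ^ 2 ∨ η = om ^ 2 ∨ η = -om ∨ η = om) :
    ∃ (τ : ℂ) (s : ℤ) (hq : Quad τ s) (k : ℤ × ℤ) (F G : M2), gmtB s k = true ∧ Mod hq F G ∧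
      1 + η = 2 - evO τ k ∧ (2 - evO τ k).im ≠ 0 ∧ ∀ x y : M2, det x = 1 → det y = 1 →
        tr x ^ 2 = 1 + η → gam x y = -2 → ∃ f1, Cj x y f1 ∧ Cm x f1 F G := by
  have key : ∀ {τ : ℂ} {s : ℤ} (hq : Quad τ s) (k : ℤ × ℤ) (F G : ZM) (a z c : Z12),
      gmtB s k = true → Mod hq (evM F) (evM G) → parB F G a a z c = true →
      1 + η = 2 - evO τ k → (2 - evO τ k).im ≠ 0 → ev a = 2 - evO τ k →
      (a.mul a).beq z = true → (a.add a).beq (c.add ⟨4, 0, 0, 0⟩) = true →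
      ∃ (τ : ℂ) (s : ℤ) (hq : Quad τ s) (k : ℤ × ℤ) (F G : M2), gmtB s k = true ∧ Mod hq F G ∧
      1 + η = 2 - evO τ k ∧ (2 - evO τ k).im ≠ 0 ∧ ∀ x y : M2, det x = 1 → det y = 1 →
        tr x ^ 2 = 1 + η → gam x y = -2 → ∃ f1, Cj x y f1 ∧ Cm x f1 F G := by
    intro τ s hq k F G a z c b1 b2 b3 b4 b5 b6 b7 b8
    have c7 := congrArg ev (Z12.eq_of_beq b7)
    have c8 := congrArg ev (Z12.eq_of_beq b8)
    rw [ev_mul] at c7
    rw [ev_add, ev_add, show ev ⟨4, 0, 0, 0⟩ = 4 by simp [ev]] at c8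
    exact ⟨τ, s, hq, k, _, _, b1, b2, b4, b5, fun x y dx dy h1 h2 =>
      cm_conj b3 dx dy (by rw [h1, b4, b6]) (ev a) (Or.inl (by rw [h2]; ring))
        (by rw [sq, c7]) (by linear_combination c8)⟩
  rcases h with e | e | e | e | e | e
  · exact key quadI (1, -1) fE gE ⟨1, 0, 0, 1⟩ ⟨0, 0, 0, 2⟩ ⟨-2, 0, 0, 2⟩ gB1 modE
      (by decide +kernel) (by simp only [evO]; push_cast; linear_combination e) (by simp [evO])
      (by rw [evG, evO]; push_cast; ring) (by decide) (by decide)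
  · exact key quadI (1, 1) fEc gEc ⟨1, 0, 0, -1⟩ ⟨0, 0, 0, -2⟩ ⟨-2, 0, 0, -2⟩ gB2 modEc
      (by decide +kernel) (by simp only [evO]; push_cast; linear_combination e) (by simp [evO])
      (by rw [evG, evO]; push_cast; ring) (by decide) (by decide)
  · exact key quadW (0, -1) fB gB ⟨1, 0, 1, 0⟩ ⟨0, 0, 3, 0⟩ ⟨-2, 0, 2, 0⟩ gB3 modB
      (by decide +kernel) (by simp only [evO]; push_cast; linear_combination e - om_sq)
      (by simp [evO, om_im]) (by rw [evW, evO]; push_cast; ring) (by decide) (by decide)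
  · exact key quadW (2, 1) fCc gCc ⟨1, 0, -1, 0⟩ ⟨0, 0, -1, 0⟩ ⟨-2, 0, -2, 0⟩ gB4 modCc
      (by decide +kernel) (by simp only [evO]; push_cast; linear_combination e + om_sq)
      (by simp [evO, om_im]) (by rw [evW, evO]; push_cast; ring) (by decide) (by decide)
  · exact key quadW (1, 1) fBc gBc ⟨2, 0, -1, 0⟩ ⟨3, 0, -3, 0⟩ ⟨0, 0, -2, 0⟩ gB5 modBc
      (by decide +kernel) (by simp only [evO]; push_cast; linear_combination e)
      (by simp [evO, om_im]) (by rw [evW, evO]; push_cast; ring) (by decide) (by decide)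
  · exact key quadW (1, -1) fC gC ⟨0, 0, 1, 0⟩ ⟨-1, 0, 1, 0⟩ ⟨-4, 0, 2, 0⟩ gB6 modC
      (by decide +kernel) (by simp only [evO]; push_cast; linear_combination e)
      (by simp [evO, om_im]) (by rw [evW, evO]; push_cast; ring) (by decide) (by decide)

theorem gmt_nec {Γ : Subgroup PSL} (hd : IsDiscrete (Γ : Set PSL)) (hne : Nonelementary Γ)
    (h : IsGMT Γ) : ∃ μ : ℂ, μ ≠ 0 ∧ (Conjugate Γ (fam4 μ) ∨ Conjugate Γ (fam2 μ)) := by
  obtain ⟨f, g, rfl, h0, he⟩ := h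
  have hS := grp_lifts hd
  have hf : toM f ∈ lifts (Subgroup.closure ({(f : PSL), (g : PSL)} : Set PSL)) :=
    ⟨f, Subgroup.subset_closure (Set.mem_insert _ _), rfl⟩
  have hg : toM g ∈ lifts (Subgroup.closure ({(f : PSL), (g : PSL)} : Set PSL)) :=
    ⟨g, Subgroup.subset_closure (Set.mem_insert_of_mem _ rfl), rfl⟩
  have hR := (rep_closure f g).repC
  have hel := not_elem f g hne
  have e : gam (toM f) (toM g) + 2 = (f⁻¹ * g⁻¹ * f * g).1.trace := by rw [toM_gam]; ring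
  obtain ⟨h1, h2⟩ := hS.good.gmt_main hf hg hel (by rw [toM_tr]; exact sub_ne_zero.2 h0)
    (by rw [e, toM_tr]; exact he)
  generalize Subgroup.closure ({(f : PSL), (g : PSL)} : Set PSL) = Γ at hS hf hg hR
  generalize toM f = x at hf hR hel h1 h2
  generalize toM g = y at hg hR hel h1
  have hγ : gam x y = -2 := by linear_combination h1
  have dx := hS.good.det hf
  have dy := hS.good.det hg
  have hn : ‖tr x ^ 2 - 1‖ = 1 := by
    rcases h2 with h2 | h2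
    · exact Complex.norm_eq_one_of_pow_eq_one h2 (by norm_num)
    · exact Complex.norm_eq_one_of_pow_eq_one h2 (by norm_num)
  rcases roots46 h2 with e | e | e
  · obtain ⟨μ, m1, m2⟩ := fam4_of hR hel dx dy (by linear_combination e) hγ
    exact ⟨μ, m1, Or.inl m2⟩
  · obtain ⟨μ, m1, m2⟩ := fam2_of hR dx dy (by linear_combination e) hγ
    exact ⟨μ, m1, Or.inr m2⟩
  · obtain ⟨τ, s, hq, k, F, G, b1, b2, b4, b5, b6⟩ := gmt_mod e
    obtain ⟨f1, c1, c2⟩ := b6 x y dx dy (by ring) hγ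
    have b4' : tr x ^ 2 = 2 - evO τ k := by linear_combination b4
    have d1 : det f1 = 1 := by
      rcases c1 with rfl | rfl
      · exact (conj_par dx dy).1
      · rw [det_adj]; exact (conj_par dx dy).1
    obtain ⟨w, a1, a2, a3, a4⟩ := gmt_lox hq b1 hS (c2.inO b2 hS hf (hS.wd hf hg c1.wd d1)) hf hg
      b4' hγ (by rw [← b4']; exact hn) b5
    obtain ⟨μ, m1, m2⟩ := fam2_of ((hR.eqv a1).eqv (Eqv.swap _ _)) a2 dx a3
      (by rw [gam_symm a2 dx, a4])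
    exact ⟨μ, m1, Or.inr m2⟩

theorem suffG {Γ : Subgroup PSL} {η μ : ℂ}
    (hη : η ∈ ({I, -I, om, -om, om ^ 2, -om ^ 2} : Set ℂ)) (hμ : (μ + 1) ^ 2 = 2 * μ * (1 + η))
    (h : Conjugate Γ (fam2 μ)) : μ ≠ 0 ∧ IsOrbifoldGroup Γ := by
  have h0 : μ ≠ 0 := by rintro rfl; simp at hμ
  refine ⟨h0, ?_⟩
  have e : det ⟨μ, μ, -1, 1⟩ = 2 * μ := by simp only [det]; ring
  obtain ⟨f, g, a1, a2, a3, a4, a5⟩ := pair_of_conj (by simp [det, mM])
    (by rw [mM_of, e]; exact mul_ne_zero two_ne_zero h0) h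
  rw [mM_of] at a2 a3
  rw [mM_of, mM_of] at a4 a5
  have hP : PP (1 + η) (-2) (toM g) (toM f) 0 (1 - η) := by
    refine ⟨toM_det g, toM_det f, ?_, ?_, ?_, ?_⟩
    · generalize tr (toM g) = x at a3
      simp only [det, tr] at a3
      exact mul_right_cancel₀ h0 (by linear_combination (1 / 2 : ℂ) * a3 + (1 / 2 : ℂ) * hμ)
    · rw [gam_symm (toM_det g) (toM_det f)]
      generalize gam (toM f) (toM g) = x at a5
      simp only [gamh, det, tr, adj, mul_a, mul_b, mul_c, mul_d] at a5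
      exact mul_right_cancel₀ h0 (by linear_combination (-1 / 2 : ℂ) * a5)
    · generalize tr (toM f) = x at a2
      simp only [det, tr] at a2
      linear_combination -a2
    · rw [tr_comm]
      generalize tr (toM f * toM g) = x at a4
      simp only [det, tr, mul_a, mul_d] at a4
      exact mul_right_cancel₀ h0 (by linear_combination (-1 / 2 : ℂ) * a4 - (1 / 2 : ℂ) * hμ)
  simp only [Set.mem_insert_iff, Set.mem_singleton_iff] at hη
  obtain ⟨τ, s, hq, k, F, G, -, b2, b4, b5, b6⟩ := gmt_mod (η := η) (by tauto)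
  have hk : 1 - η = evO τ k := by linear_combination -b4
  refine orb_of_pair hq (a1.congr (Wd.r _ _) (Wd.l _ _) (Wd.r _ _) (Wd.l _ _)) hP (by norm_num)
    ?_ ?_ ?_ ⟨-2, 0, by simp⟩ ⟨0, 0, by simp⟩ ⟨k.1, k.2, hk⟩ b2 (b6 _ _ hP.df hP.dg hP.tf hP.gm)
  · intro h1; apply b5; rw [← hk, h1]; simp
  · intro h1; apply b5; rw [← b4, h1]; simp
  · rw [b4]; exact InO.sub ⟨2, 0, by simp⟩ ⟨k.1, k.2, rfl⟩

end Pool.Agent.Lib.MP_743898_gt
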