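import Pool.Agent.Lib.MP_743898_gt.CData

set_option autoImplicit false

/-! Generating pairs up to conjugacy, and the use of the model lattices. -/

namespace Pool.Agent.Lib.MP_743898_gt

open M2 Complex Cl

/-- The two pairs generate the same group. -/
structure Eqv (f g f' g' : M2) : Prop where
  h1 : Wd f' g' f
  h2 : Wd f' g' g
  h3 : Wd f g f'
  h4 : Wd f g g'

theorem Eqv.rfl (f g : M2) : Eqv f g f g := ⟨Wd.l _ _, Wd.r _ _, Wd.l _ _, Wd.r _ _⟩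
theorem Eqv.trans {f g f' g' f'' g'' : M2} (h : Eqv f g f' g') (k : Eqv f' g' f'' g'') :
    Eqv f g f'' g'' :=
  ⟨Wd.sub k.h1 k.h2 h.h1, Wd.sub k.h1 k.h2 h.h2, Wd.sub h.h3 h.h4 k.h3, Wd.sub h.h3 h.h4 k.h4⟩
theorem Eqv.cj {f g f' g' P : M2} (hP : det P = 1) (h : Eqv f g f' g') :
    Eqv (cj P f) (cj P g) (cj P f') (cj P g') :=
  ⟨h.h1.cj hP, h.h2.cj hP, h.h3.cj hP, h.h4.cj hP⟩
theorem Eqv.shift {f : M2} (hf : det f = 1) (g : M2) : Eqv f g f (f * g) :=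
  ⟨Wd.l _ _, by
    have := (Wd.l f (f * g)).adj.mul (Wd.r _ _)
    rwa [← mul_as, adj_mul1 hf, one_mu] at this, Wd.l _ _, (Wd.l _ _).mul (Wd.r _ _)⟩
theorem Eqv.inv (f g : M2) : Eqv f g f (adj g) :=
  ⟨Wd.l _ _, by simpa only [adj_adj] using (Wd.r f (adj g)).adj, Wd.l _ _, (Wd.r _ _).adj⟩
theorem Eqv.invl (f g : M2) : Eqv f g (adj f) g :=
  ⟨by simpa only [adj_adj] using (Wd.l (adj f) g).adj, Wd.r _ _, (Wd.l _ _).adj, Wd.r _ _⟩
theorem Eqv.swap (f g : M2) : Eqv f g g f := ⟨Wd.r _ _, Wd.l _ _, Wd.r _ _, Wd.l _ _⟩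
theorem Eqv.sc (f g : M2) {t u : ℂ} (ht : t ≠ 0) (hu : u ≠ 0) : Eqv f g (sc t f) (sc u g) :=
  ⟨Wd.of_sc ht (Wd.l _ _), Wd.of_sc hu (Wd.r _ _), (Wd.l _ _).sc ht, (Wd.r _ _).sc hu⟩

/-- `Γ` is conjugate to the group generated by `F` and `G`. -/
def RepC (Γ : Subgroup PSL) (F G : M2) : Prop := ∃ P, det P = 1 ∧ Rep Γ (cj P F) (cj P G)

theorem Rep.repC {Γ : Subgroup PSL} {F G : M2} (h : Rep Γ F G) : RepC Γ F G := by
  have e : ∀ X, cj one2 X = X := fun X => by rw [cj, adj_one2, one_mu, mu_one]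
  exact ⟨one2, det_one2, by rwa [e, e]⟩

theorem RepC.eqv {Γ : Subgroup PSL} {F G F' G' : M2} (h : RepC Γ F G) (k : Eqv F G F' G') :
    RepC Γ F' G' := by
  obtain ⟨P, hP, h⟩ := h
  have := k.cj hP
  exact ⟨P, hP, h.congr this.h1 this.h2 this.h3 this.h4⟩

theorem RepC.cj {Γ : Subgroup PSL} {F G Q : M2} (h : RepC Γ F G) (hQ : det Q = 1) :
    RepC Γ (cj Q F) (cj Q G) := by
  obtain ⟨P, hP, h⟩ := h
  refine ⟨adj Q * P, by rw [det_mul, det_adj, hQ, hP, one_mul], ?_⟩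
  rwa [← cj_cj', ← cj_cj', cj_cj _ _ hQ, cj_cj _ _ hQ]

theorem RepC.model {Γ : Subgroup PSL} {f g F G : M2} (h : RepC Γ f g) (hf : det f = 1)
    (hg : det g = 1) (hF : det F ≠ 0) (hG : det G ≠ 0) (h0 : gam f g ≠ 0)
    (hx : tr f ^ 2 * det F = tr F ^ 2) (hy : tr g ^ 2 * det G = tr G ^ 2)
    (hz : tr (f * g) ^ 2 * (det F * det G) = tr (F * G) ^ 2)
    (hc : gam f g * (det F * det G) = gamh F G) : RepC Γ F G := by
  obtain ⟨P, t, u, hP, ht, hu, rfl, rfl⟩ := conj_model f g F G hf hg hF hG h0 hx hy hz hc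
  exact (h.eqv (Eqv.sc f g ht hu)).cj hP

theorem RepC.model' {Γ : Subgroup PSL} {X Y F G : M2} (h : RepC Γ X Y) (hX : det X ≠ 0)
    (hY : det Y ≠ 0) (hF : det F ≠ 0) (hG : det G ≠ 0) (h0 : gamh X Y ≠ 0)
    (hx : tr X ^ 2 * det F = tr F ^ 2 * det X) (hy : tr Y ^ 2 * det G = tr G ^ 2 * det Y)
    (hz : tr (X * Y) ^ 2 * (det F * det G) = tr (F * G) ^ 2 * (det X * det Y))
    (hc : gamh X Y * (det F * det G) = gamh F G * (det X * det Y)) : RepC Γ F G := by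
  obtain ⟨t, ht0, ht⟩ := exists_normalize hX
  obtain ⟨u, hu0, hu⟩ := exists_normalize hY
  have ht' := ht
  have hu' := hu
  rw [det_sc] at ht' hu'
  refine (h.eqv (Eqv.sc X Y ht0 hu0)).model ht hu hF hG ?_ ?_ ?_ ?_ ?_
  · rw [← gamh_one ht hu, gamh_sc]
    exact mul_ne_zero (mul_ne_zero (pow_ne_zero _ ht0) (pow_ne_zero _ hu0)) h0
  · rw [tr_sc]; linear_combination t ^ 2 * hx + tr F ^ 2 * ht'
  · rw [tr_sc]; linear_combination u ^ 2 * hy + tr G ^ 2 * hu'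
  · rw [sc_mul, mul_sc, sc_sc, tr_sc]
    linear_combination t ^ 2 * u ^ 2 * hz + tr (F * G) ^ 2 * (u ^ 2 * det Y * ht' + hu')
  · rw [← gamh_one ht hu, gamh_sc]
    linear_combination t ^ 2 * u ^ 2 * hc + gamh F G * (u ^ 2 * det Y * ht' + hu')

/-- Certificate that `(F,G)` generates a conjugate of the group generated by `(M,N)`. -/
def identB (F G M N : ZM) (w1 w2 w3 w4 : List ℕ) : Bool :=
  let X := ZM.word F G w1
  let Y := ZM.word F G w2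
  F.prop (ZM.word X Y w3) && G.prop (ZM.word X Y w4) && X.det.nz && Y.det.nz && M.det.nz &&
    N.det.nz && (zgam X Y).nz &&
    ((X.tr.mul X.tr).mul M.det).beq ((M.tr.mul M.tr).mul X.det) &&
    ((Y.tr.mul Y.tr).mul N.det).beq ((N.tr.mul N.tr).mul Y.det) &&
    (((X.mul Y).tr.mul (X.mul Y).tr).mul (M.det.mul N.det)).beq
      (((M.mul N).tr.mul (M.mul N).tr).mul (X.det.mul Y.det)) &&
    ((zgam X Y).mul (M.det.mul N.det)).beq ((zgam M N).mul (X.det.mul Y.det))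

theorem RepC.ident {Γ : Subgroup PSL} {F G M N : ZM} (w1 w2 w3 w4 : List ℕ)
    (hb : identB F G M N w1 w2 w3 w4 = true) (h : RepC Γ (evM F) (evM G)) :
    RepC Γ (evM M) (evM N) := by
  simp only [identB, Bool.and_eq_true] at hb
  obtain ⟨⟨⟨⟨⟨⟨⟨⟨⟨⟨a1, a2⟩, a3⟩, a4⟩, a5⟩, a6⟩, a7⟩, a8⟩, a9⟩, a10⟩, a11⟩ := hb
  have b8 := congrArg ev (Z12.eq_of_beq a8)
  have b9 := congrArg ev (Z12.eq_of_beq a9)
  have b10 := congrArg ev (Z12.eq_of_beq a10)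
  have b11 := congrArg ev (Z12.eq_of_beq a11)
  simp only [ev_mul, ev_zgam, ← evM_det, ← evM_tr, evM_mul, ← sq] at b8 b9 b10 b11
  exact (h.eqv ⟨wd_of_prop a1, wd_of_prop a2, (wd0_word F G w1).wd, (wd0_word F G w2).wd⟩).model'
    (by rw [evM_det]; exact ev_ne a3) (by rw [evM_det]; exact ev_ne a4)
    (by rw [evM_det]; exact ev_ne a5) (by rw [evM_det]; exact ev_ne a6)
    (by rw [← ev_zgam]; exact ev_ne a7) b8 b9 b10 b11

/-- The pair is conjugate to multiples of the pair `(F,G)`. -/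
def Cm (f g F G : M2) : Prop :=
  ∃ P t u, det P = 1 ∧ t ≠ 0 ∧ u ≠ 0 ∧ cj P (sc t f) = F ∧ cj P (sc u g) = G

/-- Squared traces and commutator parameter of a model pair. -/
def parB (F G : ZM) (x y z c : Z12) : Bool :=
  quotB F x && quotB G y && quotB (F.mul G) z && (zgam F G).beq (c.mul (F.det.mul G.det)) && c.nz

theorem cm_of_par {F G : ZM} {x y z c : Z12} (h : parB F G x y z c = true) {f g : M2}
    (hf : det f = 1) (hg : det g = 1) (hx : tr f ^ 2 = ev x) (hy : tr g ^ 2 = ev y)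
    (hz : tr (f * g) ^ 2 = ev z) (hc : gam f g = ev c) : Cm f g (evM F) (evM G) := by
  simp only [parB, Bool.and_eq_true] at h
  obtain ⟨⟨⟨⟨a1, a2⟩, a3⟩, a4⟩, a5⟩ := h
  obtain ⟨b1, b2⟩ := quotB_sound a1
  obtain ⟨b3, b4⟩ := quotB_sound a2
  obtain ⟨_, b6⟩ := quotB_sound a3
  have b7 := congrArg ev (Z12.eq_of_beq a4)
  rw [evM_mul, det_mul] at b6
  simp only [ev_mul, ev_zgam, ← evM_det] at b7
  exact conj_model f g _ _ hf hg b1 b3 (by rw [hc]; exact ev_ne a5) (by rw [hx, b2])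
    (by rw [hy, b4]) (by rw [hz, b6]) (by rw [hc, b7])

theorem RepC.cm {Γ : Subgroup PSL} {f g F G : M2} (h : RepC Γ f g) (k : Cm f g F G) :
    RepC Γ F G := by
  obtain ⟨P, t, u, hP, ht, hu, rfl, rfl⟩ := k
  exact (h.eqv (Eqv.sc f g ht hu)).cj hP

theorem Cm.inO {τ : ℂ} {s : ℤ} {h : Quad τ s} {f g F G : M2} (k : Cm f g F G) (hM : Mod h F G)
    {S : Set M2} (hS : Grp S) (hf : f ∈ S) (hg : g ∈ S) : ∀ X ∈ S, InO τ (tr X ^ 2) := by
  obtain ⟨P, t, u, hP, ht, hu, rfl, rfl⟩ := k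
  have hS' := hS.cj hP
  have hsub : ∀ X, Wd (cj P (sc t f)) (cj P (sc u g)) X → det X = 1 → X ∈ cj P '' S := by
    intro X hX dX
    have e := (Eqv.sc f g ht hu).cj hP
    exact hS'.wd ⟨f, hf, rfl⟩ ⟨g, hg, rfl⟩ (Wd.sub e.h3 e.h4 hX) dX
  intro X hX
  rw [← tr_cj P X hP]
  exact inO_of_fi h hM.tr hM.int hM.big hS'.good hsub (hM.fi _ hS'.good hsub) ⟨X, hX, rfl⟩

theorem Cm.cof {τ : ℂ} {s : ℤ} {h : Quad τ s} {f g F G : M2} (k : Cm f g F G) (hM : Mod h F G) :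
    Cof f g ∧ Big f g := by
  obtain ⟨P, t, u, hP, ht, hu, rfl, rfl⟩ := k
  have hP' : det (adj P) = 1 := by rw [det_adj, hP]
  have e := Eqv.sc f g ht hu
  constructor
  · have := hM.cof.cj hP'
    rw [cj_cj _ _ hP, cj_cj _ _ hP] at this
    exact this.sub e.h3 e.h4
  · obtain ⟨X, Y, a1, a2, a3, a4, a5, a6, a7⟩ := hM.big
    have b1 := a1.cj hP'
    have b2 := a2.cj hP'
    rw [cj_cj _ _ hP, cj_cj _ _ hP] at b1 b2
    exact ⟨_, _, Wd.sub e.h3 e.h4 b1, Wd.sub e.h3 e.h4 b2, by rw [det_cj hP', a3],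
      by rw [det_cj hP', a4], by rwa [tr_cj _ _ hP'], by rwa [tr_cj _ _ hP'],
      by rwa [gam_cj _ _ _ hP']⟩

theorem Big.sub {F G F' G' : M2} (hF : Wd F' G' F) (hG : Wd F' G' G) (h : Big F G) :
    Big F' G' := by
  obtain ⟨X, Y, a1, a2, a⟩ := h
  exact ⟨X, Y, Wd.sub hF hG a1, Wd.sub hF hG a2, a⟩

/-- Parameters of the pair `(f, g f g⁻¹)`. -/
theorem conj_par {f g : M2} (hf : det f = 1) (hg : det g = 1) :
    det (g * f * adj g) = 1 ∧ tr (g * f * adj g) = tr f ∧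
    tr (f * adj (g * f * adj g)) = gam f g + 2 ∧
    tr (f * (g * f * adj g)) = tr f ^ 2 - (gam f g + 2) := by
  have h1 : tr (g * f * adj g) = tr f := by rw [tr_comm, ← mul_as, adj_mul1 hg, one_mu]
  have h2 : tr (f * adj (g * f * adj g)) = gam f g + 2 := by
    rw [adj_mu, adj_mu, adj_adj, gam]; simp only [mul_as]; ring
  refine ⟨by rw [det_mul, det_mul, det_adj, hf, hg]; ring, h1, h2, ?_⟩
  rw [tr_mul_adj, h1] at h2
  linear_combination -h2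

theorem gam_shift {f g : M2} (hf : det f = 1) (hg : det g = 1) : gam f (f * g) = gam f g := by
  rw [fricke _ _ hf hg, fricke _ _ hf (by rw [det_mul, hf, hg, one_mul]), ← mul_as,
    tr_sq_mul _ _ hf]
  ring

theorem gam_inv {f g : M2} (hf : det f = 1) (hg : det g = 1) : gam f (adj g) = gam f g := by
  rw [fricke _ _ hf hg, fricke _ _ hf (by rw [det_adj, hg]), tr_mul_adj, tr_adj]
  ring

/-- A pair with prescribed squared traces. -/
structure PP (τ γ : ℂ) (f g : M2) (X Y : ℂ) : Prop where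
  df : det f = 1
  dg : det g = 1
  tf : tr f ^ 2 = τ
  gm : gam f g = γ
  tg : tr g ^ 2 = X
  tfg : tr (f * g) ^ 2 = Y

theorem PP.prod {τ γ : ℂ} {f g : M2} {X Y : ℂ} (h : PP τ γ f g X Y) :
    tr f * tr g * tr (f * g) = τ + X + Y - 4 - γ := by
  have := fricke _ _ h.df h.dg
  rw [h.gm, h.tf, h.tg, h.tfg] at this
  linear_combination this

theorem PP.rel {τ γ : ℂ} {f g : M2} {X Y : ℂ} (h : PP τ γ f g X Y) :
    (τ + X + Y - 4 - γ) ^ 2 = τ * X * Y := by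
  rw [← h.prod, ← h.tf, ← h.tg, ← h.tfg]; ring

theorem PP.shift {τ γ : ℂ} {f g : M2} {X Y : ℂ} (h : PP τ γ f g X Y) :
    PP τ γ f (f * g) Y ((τ - 2) * Y - 2 * (τ - 4 - γ) - X) := by
  refine ⟨h.df, by rw [det_mul, h.df, h.dg, one_mul], h.tf, by rw [gam_shift h.df h.dg, h.gm],
    h.tfg, ?_⟩
  rw [← mul_as, tr_sq_mul _ _ h.df]
  linear_combination tr (f * g) ^ 2 * h.tf + τ * h.tfg - 2 * h.prod + h.tg

theorem PP.inv {τ γ : ℂ} {f g : M2} {X Y : ℂ} (h : PP τ γ f g X Y) :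
    PP τ γ f (adj g) X ((τ - 2) * X - 2 * (τ - 4 - γ) - Y) := by
  refine ⟨h.df, by rw [det_adj, h.dg], h.tf, by rw [gam_inv h.df h.dg, h.gm],
    by rw [tr_adj, h.tg], ?_⟩
  rw [tr_mul_adj]
  linear_combination tr g ^ 2 * h.tf + τ * h.tg - 2 * h.prod + h.tfg

theorem PP.cj {τ γ : ℂ} {f g : M2} {X Y : ℂ} (h : PP τ γ f g X Y) {P : M2} (hP : det P = 1) :
    PP τ γ (cj P f) (cj P g) X Y :=
  ⟨by rw [det_cj hP, h.df], by rw [det_cj hP, h.dg], by rw [tr_cj _ _ hP, h.tf],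
    by rw [gam_cj _ _ _ hP, h.gm], by rw [tr_cj _ _ hP, h.tg],
    by rw [cj_mul _ _ _ hP, tr_cj _ _ hP, h.tfg]⟩

theorem PP.congr {τ γ : ℂ} {f g : M2} {X Y X' Y' : ℂ} (h : PP τ γ f g X Y) (h1 : X = X')
    (h2 : Y = Y') : PP τ γ f g X' Y' := h1 ▸ h2 ▸ h

theorem wd_diag {F G : M2} {l : ℂ} (hl : l ≠ 0) (h : Wd F G ⟨l, 0, 0, l⁻¹⟩) (n : ℤ) :
    Wd F G ⟨l ^ n, 0, 0, l ^ (-n)⟩ := by
  induction n using Int.induction_on with
  | zero => simpa [one2] using Wd.one F G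
  | succ i ih =>
    convert ih.mul h using 1
    ext <;> simp [zpow_add₀ hl, mul_comm]
  | pred i ih =>
    convert ih.mul h.adj using 1
    ext <;> simp [zpow_sub₀ hl, zpow_add₀ hl, adj, div_eq_mul_inv, mul_comm]

theorem exists_scale {L y c : ℝ} (hL : 1 < L) (hy : 0 < y) (hc : 0 < c) :
    ∃ n : ℤ, c ≤ y * L ^ n ∧ y * L ^ n ≤ c * L := by
  obtain ⟨n, h1, h2⟩ := exists_mem_Ico_zpow (x := c / y) (by positivity) hL
  have hL0 : 0 < L := by linarith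
  refine ⟨n + 1, ?_, ?_⟩
  · rw [div_lt_iff₀ hy] at h2; linarith
  · rw [le_div_iff₀ hy] at h1
    rw [zpow_add₀ hL0.ne', zpow_one]
    nlinarith

/-! Arithmetic in the rings of integers, in coordinates. -/

def omul (s : ℤ) (x y : ℤ × ℤ) : ℤ × ℤ :=
  (x.1 * y.1 - x.2 * y.2, x.1 * y.2 + x.2 * y.1 - s * x.2 * y.2)
def onm (s : ℤ) (x : ℤ × ℤ) : ℤ := x.1 * x.1 - s * x.1 * x.2 + x.2 * x.2
noncomputable def evO (τ : ℂ) (x : ℤ × ℤ) : ℂ := x.1 + x.2 * τ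

theorem evO_mul {τ : ℂ} {s : ℤ} (h : Quad τ s) (x y : ℤ × ℤ) :
    evO τ (omul s x y) = evO τ x * evO τ y := by
  simp only [evO, omul]; push_cast; linear_combination (-(x.2 * y.2 : ℂ)) * h.eq
theorem evO_add (τ : ℂ) (x y : ℤ × ℤ) : evO τ (x + y) = evO τ x + evO τ y := by
  simp only [evO, Prod.fst_add, Prod.snd_add]; push_cast; ring
theorem evO_sub (τ : ℂ) (x y : ℤ × ℤ) : evO τ (x - y) = evO τ x - evO τ y := by
  simp only [evO, Prod.fst_sub, Prod.snd_sub]; push_cast; ring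
theorem evO_nm {τ : ℂ} {s : ℤ} (h : Quad τ s) (x : ℤ × ℤ) :
    ‖evO τ x‖ ^ 2 = onm s x := by
  have e : evO τ x * (starRingEnd ℂ) (evO τ x) = (onm s x : ℂ) := by
    simp only [evO, onm, map_add, map_mul, map_intCast, h.cnj]
    push_cast
    linear_combination (-(x.2 : ℂ) ^ 2) * h.eq
  rw [mul_conj, normSq_eq_norm_sq] at e
  exact_mod_cast e
theorem evO_inj {τ : ℂ} {s : ℤ} (h : Quad τ s) {x y : ℤ × ℤ} (e : evO τ x = evO τ y) : x = y := by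
  have h1 := evO_nm h (x - y)
  rw [evO_sub, e, sub_self, norm_zero] at h1
  have h2 : onm s (x - y) = 0 := by exact_mod_cast (by simpa using h1.symm : (onm s (x - y) : ℝ) = 0)
  simp only [onm, Prod.fst_sub, Prod.snd_sub] at h2
  rcases h.cases with rfl | rfl
  · exact Prod.ext (by nlinarith) (by nlinarith)
  · exact Prod.ext (by nlinarith [sq_nonneg (x.1 - y.1 - 2 * (x.2 - y.2))])
      (by nlinarith [sq_nonneg (2 * (x.1 - y.1) - (x.2 - y.2))])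

def rng : List ℤ := [-7, -6, -5, -4, -3, -2, -1, 0, 1, 2, 3, 4, 5, 6, 7]
def pts (s B : ℤ) : List (ℤ × ℤ) :=
  (rng.flatMap fun a => rng.map fun b => (a, b)).filter fun x => decide (onm s x ≤ B)

theorem mem_pts {τ : ℂ} {s : ℤ} (h : Quad τ s) {B : ℤ} (hB : B ≤ 47) {z : ℂ} (hz : InO τ z)
    (hn : ‖z‖ ^ 2 ≤ B) : ∃ x ∈ pts s B, z = evO τ x := by
  obtain ⟨a, b, rfl⟩ := hz
  refine ⟨(a, b), ?_, rfl⟩
  have h1 := evO_nm h (a, b)
  have h2 : onm s (a, b) ≤ B := by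
    have : (onm s (a, b) : ℝ) ≤ B := h1 ▸ hn
    exact_mod_cast this
  have key : ∀ c : ℤ, 3 * c ^ 2 ≤ 4 * 47 → c ∈ rng := by
    intro c hc
    have k1 : c ≤ 7 := by nlinarith
    have k2 : -7 ≤ c := by nlinarith
    interval_cases c <;> simp [rng]
  simp only [pts, List.mem_filter, List.mem_flatMap, List.mem_map, decide_eq_true_eq]
  simp only [onm] at h2
  refine ⟨⟨a, key a ?_, b, key b ?_, rfl⟩, h2⟩
  · rcases h.cases with rfl | rfl <;> nlinarith [sq_nonneg b, sq_nonneg (a - 2 * b)]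
  · rcases h.cases with rfl | rfl <;> nlinarith [sq_nonneg a, sq_nonneg (2 * a - b)]

end Pool.Agent.Lib.MP_743898_gt
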