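import Pool.Agent.Lib.MP_743898_gt.CBian

set_option autoImplicit false

/-! Groups whose orbit of infinity misses a disc. -/

namespace Pool.Agent.Lib.MP_743898_gt

open M2 Complex Cl

def Avoid (F G : M2) : Prop :=
  ∃ (p : ℂ) (ρ : ℝ), 0 < ρ ∧ ∀ W, Wd F G W → ρ * ‖W.c‖ ≤ ‖W.a - p * W.c‖

def trv (k x y : ℂ) : M2 := ⟨1 - k * x * y, k * x ^ 2, -(k * y ^ 2), 1 + k * x * y⟩

theorem pw_trv (k x y : ℂ) (n : ℕ) : pw (trv k x y) n = trv (n * k) x y := by
  induction n with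
  | zero => ext <;> simp [pw, trv, one2]
  | succ n ih => rw [pw, ih]; ext <;> simp [trv] <;> ring

theorem cj_trv {R : M2} (h : det R = 1) (k x y : ℂ) :
    cj (adj R) (trv k x y) = trv k (R.a * x + R.b * y) (R.c * x + R.d * y) := by
  simp only [det] at h
  ext <;> simp only [cj, adj, trv, mul_a, mul_b, mul_c, mul_d]
  · linear_combination h
  · ring
  · ring
  · linear_combination h

theorem exists_gi (z : ℂ) : ∃ w, GI w ∧ ‖w - z‖ ≤ 1 := by
  refine ⟨(round z.re : ℤ) + (round z.im : ℤ) * I, ⟨_, _, rfl⟩, ?_⟩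
  refine (norm_le_abs_re_add_abs_im _).trans ?_
  have a1 := abs_sub_round z.re
  have a2 := abs_sub_round z.im
  rw [abs_sub_comm] at a1 a2
  simp only [sub_re, add_re, intCast_re, mul_re, I_re, mul_zero, intCast_im, I_im, mul_one,
    sub_self, add_zero, sub_im, add_im, mul_im, zero_add]
  linarith

theorem not_avoid {F G R : M2} {B : Subring ℂ} (hB : ∀ x, GI x → x ∈ B) (dR : det R = 1)
    (h : ∀ U, Ent B U → det U = 1 → ∃ n, 0 < n ∧ Wd F G (cj (adj R) (pw U n))) :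
    ¬ Avoid F G := by
  rintro ⟨p, ρ, hρ, hA⟩
  obtain ⟨K, k1, k2, k3, k4⟩ := exists_bd R
  have hK : 0 ≤ K := (norm_nonneg _).trans k1
  set t : ℝ := 2 * K + 2 * K * (1 + ‖p‖) / ρ + 1 with ht
  obtain ⟨x, hx, ex⟩ := exists_gi (t * (R.d * p - R.b))
  obtain ⟨y, hy, ey⟩ := exists_gi (t * (-R.c * p + R.a))
  obtain ⟨n, hn, k⟩ := h (trv 1 x y)
    ⟨hB _ (GI.one.sub ((GI.one.mul hx).mul hy)), hB _ (by simpa [trv, sq] using hx.mul hx),
      hB _ (by simpa [trv, sq] using (hy.mul hy).neg), hB _ (GI.one.add ((GI.one.mul hx).mul hy))⟩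
    (by simp only [det, trv]; ring)
  rw [pw_trv, cj_trv dR] at k
  simp only [det] at dR
  have bd : ∀ a b : ℂ, ‖a‖ ≤ K → ‖b‖ ≤ K →
      ‖a * (x - t * (R.d * p - R.b)) + b * (y - t * (-R.c * p + R.a))‖ ≤ 2 * K := by
    intro a b ha hb
    refine (norm_add_le _ _).trans ?_
    rw [norm_mul, norm_mul]
    have h1 := mul_le_mul ha ex (norm_nonneg _) hK
    have h2 := mul_le_mul hb ey (norm_nonneg _) hK
    linarith
  have b1 := bd _ _ k1 k2
  have b2 := bd _ _ k3 k4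
  have e1 : R.a * x + R.b * y
      = t * p + (R.a * (x - t * (R.d * p - R.b)) + R.b * (y - t * (-R.c * p + R.a))) := by
    linear_combination (t * p) * dR
  have e2 : R.c * x + R.d * y
      = t + (R.c * (x - t * (R.d * p - R.b)) + R.d * (y - t * (-R.c * p + R.a))) := by
    linear_combination (t : ℂ) * dR
  generalize R.a * (x - t * (R.d * p - R.b)) + R.b * (y - t * (-R.c * p + R.a)) = η1 at b1 e1
  generalize R.c * (x - t * (R.d * p - R.b)) + R.d * (y - t * (-R.c * p + R.a)) = η2 at b2 e2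
  generalize R.a * x + R.b * y = v1 at e1 k
  generalize R.c * x + R.d * y = v2 at e2 k
  have q0 : 0 ≤ 2 * K * (1 + ‖p‖) / ρ := by positivity
  have c1 : ‖v1 - p * v2‖ ≤ 2 * K * (1 + ‖p‖) := by
    rw [show v1 - p * v2 = η1 - p * η2 by rw [e1, e2]; ring]
    refine (norm_sub_le _ _).trans ?_
    rw [norm_mul]
    nlinarith [norm_nonneg p]
  have c2 : t - 2 * K ≤ ‖v2‖ := by
    have h1 : ‖(t : ℂ)‖ ≤ ‖v2‖ + ‖η2‖ := by
      rw [show (t : ℂ) = v2 - η2 by rw [e2]; ring]; exact norm_sub_le _ _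
    rw [Complex.norm_real, Real.norm_eq_abs] at h1
    linarith [le_abs_self t]
  have c3 : 1 ≤ ‖v2‖ := by linarith
  have c4 : ‖v1 - p * v2‖ + ρ ≤ ρ * ‖v2‖ := by
    have h1 : ρ * (2 * K * (1 + ‖p‖) / ρ) = 2 * K * (1 + ‖p‖) := by field_simp
    have h2 : 2 * K * (1 + ‖p‖) / ρ + 1 ≤ ‖v2‖ := by linarith
    nlinarith
  obtain ⟨m, hm⟩ := exists_nat_gt (1 / ρ)
  have k' := hA _ (k.pw m)
  rw [pw_trv] at k'
  simp only [trv] at k'
  have e3 : 1 - (m : ℂ) * (n * 1) * v1 * v2 - p * -(m * (n * 1) * v2 ^ 2)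
      = 1 - (m * n : ℕ) * (v2 * (v1 - p * v2)) := by push_cast; ring
  rw [e3, norm_neg, show (m : ℂ) * (n * 1) = (m * n : ℕ) by push_cast; ring, norm_mul,
    Complex.norm_natCast, norm_pow] at k'
  have k2' := k'.trans (norm_sub_le _ _)
  rw [norm_one, norm_mul, norm_mul, Complex.norm_natCast] at k2'
  have hN : (m : ℝ) ≤ (m * n : ℕ) := by exact_mod_cast Nat.le_mul_of_pos_right m hn
  rw [div_lt_iff₀ hρ] at hm
  generalize ((m * n : ℕ) : ℝ) = N at hN k2'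
  have hm0 : (0 : ℝ) ≤ m := Nat.cast_nonneg m
  have h5 : N * ‖v2‖ * ρ ≤ 1 := by
    have : N * ‖v2‖ * (‖v1 - p * v2‖ + ρ) ≤ N * ‖v2‖ * (ρ * ‖v2‖) :=
      mul_le_mul_of_nonneg_left c4 (by have : 0 ≤ N := hm0.trans hN; positivity)
    nlinarith
  have h6 : N * ρ ≤ N * ‖v2‖ * ρ := by
    have : 0 ≤ N * ρ := mul_nonneg (hm0.trans hN) hρ.le
    nlinarith
  nlinarith

/-! The free case. -/

noncomputable def mx (z : ℂ) : ℝ := max |z.re| |z.im|

theorem mx_neg (z : ℂ) : mx (-z) = mx z := by simp [mx]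

theorem mx_le_norm (z : ℂ) : mx z ≤ ‖z‖ := max_le (abs_re_le_norm z) (abs_im_le_norm z)

theorem mx_sub (a b : ℂ) : mx (a - b) ≤ mx a + mx b := by
  refine max_le ?_ ?_
  · rw [sub_re]; exact (abs_sub _ _).trans (add_le_add (le_max_left _ _) (le_max_left _ _))
  · rw [sub_im]; exact (abs_sub _ _).trans (add_le_add (le_max_right _ _) (le_max_right _ _))

theorem mx_mul {u v : ℂ} {h : ℝ} (h0 : 0 < h) (hu : h < mx u) (hv : h ≤ mx v) :
    2 * h ^ 2 < ‖u * v‖ + mx (u * v) := by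
  have n1 : ‖u * (starRingEnd ℂ) v‖ = ‖u * v‖ := by simp
  have r1 := abs_re_le_norm (u * (starRingEnd ℂ) v)
  have r2 := abs_im_le_norm (u * (starRingEnd ℂ) v)
  rw [n1] at r1 r2
  have r3 : |(u * v).re| ≤ mx (u * v) := le_max_left _ _
  have r4 : |(u * v).im| ≤ mx (u * v) := le_max_right _ _
  simp only [mul_re, mul_im, conj_re, conj_im] at r1 r2 r3 r4
  have key : ∀ a b : ℝ, h < |a| → h ≤ |b| → 2 * h ^ 2 < |2 * a * b| := by
    intro a b ha hb
    rw [abs_mul, abs_mul, abs_two]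
    nlinarith
  rcases lt_max_iff.1 hu with a | a <;> rcases le_max_iff.1 hv with b | b
  · refine (key _ _ a b).trans_le ?_
    rw [show 2 * u.re * v.re = (u.re * v.re - u.im * -v.im) + (u.re * v.re - u.im * v.im) by ring]
    exact (abs_add_le _ _).trans (add_le_add r1 r3)
  · refine (key _ _ a b).trans_le ?_
    rw [show 2 * u.re * v.im = -(u.re * -v.im + u.im * v.re) + (u.re * v.im + u.im * v.re) by ring]
    exact (abs_add_le _ _).trans (add_le_add (by rwa [abs_neg]) r4)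
  · refine (key _ _ a b).trans_le ?_
    rw [show 2 * u.im * v.re = (u.re * -v.im + u.im * v.re) + (u.re * v.im + u.im * v.re) by ring]
    exact (abs_add_le _ _).trans (add_le_add r2 r4)
  · refine (key _ _ a b).trans_le ?_
    rw [show 2 * u.im * v.im = (u.re * v.re - u.im * -v.im) + -(u.re * v.re - u.im * v.im) by ring]
    exact (abs_add_le _ _).trans (add_le_add r1 (by rwa [abs_neg]))

inductive Inn (μ : ℂ) : ℂ → Prop
  | zero : Inn μ 0
  | step {z l : ℂ} : Inn μ z → GI l → l ≠ 0 → Inn μ (-μ / (z + l))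

theorem Inn.rot {μ z : ℂ} (h : Inn μ z) : Inn μ (I * z) ∧ Inn μ (-I * z) := by
  induction h with
  | zero => simp only [mul_zero]; exact ⟨Inn.zero, Inn.zero⟩
  | @step z l _ hl l0 ih =>
    constructor
    · have := Inn.step ih.2 (GI.i.neg.mul hl) (mul_ne_zero (neg_ne_zero.2 I_ne_zero) l0)
      rwa [← mul_add, show -μ / (-I * (z + l)) = I * (-μ / (z + l)) by
        rw [div_mul_eq_div_div_swap, div_neg, div_I]; ring] at this
    · have := Inn.step ih.1 (GI.i.mul hl) (mul_ne_zero I_ne_zero l0)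
      rwa [← mul_add, show -μ / (I * (z + l)) = -I * (-μ / (z + l)) by
        rw [div_mul_eq_div_div_swap, div_I]; ring] at this

structure Free (μ e : ℂ) (h : ℝ) : Prop where
  pos : 0 < h
  gap : ∀ l, GI l → l ≠ 0 → 2 * h ≤ mx (l * e)
  kap : ‖μ * e ^ 2‖ + mx (μ * e ^ 2) ≤ 2 * h ^ 2
  rad : ‖μ‖ * ‖e‖ ≤ 3 / 5 * h

theorem Free.out {μ e : ℂ} {h : ℝ} (hF : Free μ e h) {z l : ℂ} (hz : mx (z * e) < h) (hl : GI l)
    (l0 : l ≠ 0) : h < mx ((z + l) * e) ∧ z + l ≠ 0 := by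
  have h1 := hF.gap l hl l0
  have h2 := mx_sub ((z + l) * e) (z * e)
  rw [show (z + l) * e - z * e = l * e by ring] at h2
  have h3 : h < mx ((z + l) * e) := by linarith
  refine ⟨h3, fun h0 => ?_⟩
  rw [h0] at h3
  simp only [mx, zero_mul, zero_re, abs_zero, zero_im, max_self] at h3
  linarith [hF.pos]

theorem Free.inn {μ e : ℂ} {h : ℝ} (hF : Free μ e h) {z : ℂ} (hz : Inn μ z) :
    mx (z * e) < h ∧ ‖z‖ ≤ 3 / 5 := by
  induction hz with
  | zero => simpa [mx] using ⟨hF.pos, by norm_num⟩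
  | @step z l _ hl l0 ih =>
    obtain ⟨h1, h2⟩ := hF.out ih.1 hl l0
    constructor
    · by_contra hc
      have := mx_mul hF.pos h1 (not_lt.1 hc)
      rw [show (z + l) * e * (-μ / (z + l) * e) = -(μ * e ^ 2) by field_simp, norm_neg,
        mx_neg] at this
      linarith [hF.kap]
    · have h3 := h1.trans_le (mx_le_norm _)
      have h4 := hF.rad
      have h5 : ‖-μ / (z + l)‖ * ‖(z + l) * e‖ = ‖μ‖ * ‖e‖ := by
        rw [← norm_mul, ← norm_mul, ← norm_neg (μ * e)]; congr 1; field_simp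
      have h6 := hF.pos
      nlinarith [norm_nonneg (-μ / (z + l))]

def Orb (μ x y : ℂ) : Prop := y = 0 ∨ ∃ z l, Inn μ z ∧ GI l ∧ x = (z + l) * y

theorem Orb.io {μ e : ℂ} {h : ℝ} (hF : Free μ e h) {x y : ℂ} (H : Orb μ x y) :
    Orb μ (-μ * y) x := by
  rcases H with rfl | ⟨z, l, h1, h2, rfl⟩
  · exact Or.inr ⟨0, 0, Inn.zero, GI.zero, by simp⟩
  · by_cases l0 : l = 0
    · subst l0
      cases h1 with
      | zero => left; simp
      | @step z l h3 h4 h5 =>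
        have := (hF.out (hF.inn h3).1 h4 h5).2
        exact Or.inr ⟨z, l, h3, h4, by field_simp; ring⟩
    · have := (hF.out (hF.inn h1).1 h2 l0).2
      exact Or.inr ⟨_, 0, h1.step h2 l0, GI.zero, by field_simp; ring⟩

theorem Orb.sig {μ x y : ℂ} (H : Orb μ x y) : Orb μ (y - x) y := by
  rcases H with rfl | ⟨z, l, h1, h2, rfl⟩
  · exact Or.inl rfl
  · exact Or.inr ⟨_, 1 - l, h1.rot.1.rot.1, GI.one.sub h2, by linear_combination -z * y * I_mul_I⟩

def St (O : ℂ → ℂ → Prop) (X : M2) : Prop :=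
  ∀ x y, O x y → O (X.a * x + X.b * y) (X.c * x + X.d * y)

theorem st_wd0 {O : ℂ → ℂ → Prop} {F G : M2} (h1 : St O F) (h2 : St O (adj F)) (h3 : St O G)
    (h4 : St O (adj G)) {W : M2} (hW : Wd0 F G W) : St O W ∧ St O (adj W) := by
  have m : ∀ X Y, St O X → St O Y → St O (X * Y) := by
    intro X Y hX hY x y h
    convert hX _ _ (hY x y h) using 1 <;> simp only [mul_a, mul_b, mul_c, mul_d] <;> ring
  induction hW with
  | one => rw [adj_one2]; exact ⟨fun x y h => by simpa [one2] using h,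
      fun x y h => by simpa [one2] using h⟩
  | l => exact ⟨h1, h2⟩
  | r => exact ⟨h3, h4⟩
  | mul _ _ a b => exact ⟨m _ _ a.1 b.1, by rw [adj_mu]; exact m _ _ b.2 a.2⟩
  | adj _ a => exact ⟨a.2, by rw [adj_adj]; exact a.1⟩

theorem Free.avoid {μ e : ℂ} {h : ℝ} (hF : Free μ e h) : Avoid ⟨I, 0, 0, 1⟩ ⟨1, μ, 1, 0⟩ := by
  refine ⟨(1 + I) / 2, 1 / 10, by norm_num, ?_⟩
  rintro _ ⟨t, -, W, hW, rfl⟩
  have := (st_wd0 (O := Orb μ) ?_ ?_ ?_ ?_ hW).1 1 0 (Or.inl rfl)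
  · simp only [mul_one, mul_zero, add_zero] at this
    simp only [sc]
    rcases this with h0 | ⟨z, _, h1, ⟨m, n, rfl⟩, h3⟩
    · rw [h0, mul_zero, norm_zero, mul_zero]; exact norm_nonneg _
    · rw [h3, show t * ((z + (m + n * I)) * W.c) - (1 + I) / 2 * (t * W.c)
        = ((m + n * I - (1 + I) / 2) + z) * (t * W.c) by ring, norm_mul _ (t * W.c)]
      refine mul_le_mul_of_nonneg_right ?_ (norm_nonneg _)
      have a1 := (hF.inn h1).2
      have a2 : 7 / 10 ≤ ‖(m : ℂ) + n * I - (1 + I) / 2‖ := by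
        refine le_of_sq_le_sq ?_ (norm_nonneg _)
        rw [← normSq_eq_norm_sq, normSq_apply]
        have b1 : ((m : ℂ) + n * I - (1 + I) / 2).re = m - 1 / 2 := by simp
        have b2 : ((m : ℂ) + n * I - (1 + I) / 2).im = n - 1 / 2 := by simp
        have b3 : ∀ k : ℤ, (0 : ℝ) ≤ k * (k - 1) := fun k => by
          have : 0 ≤ k * (k - 1) := by
            rcases le_or_gt k 0 with h | h <;> nlinarith
          exact_mod_cast this
        rw [b1, b2]
        nlinarith [b3 m, b3 n]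
      have a3 := norm_sub_le ((m : ℂ) + n * I - (1 + I) / 2 + z) z
      rw [add_sub_cancel_right] at a3
      linarith
  · rintro x y (rfl | ⟨z, l, h1, h2, rfl⟩)
    · left; simp
    · exact Or.inr ⟨_, _, h1.rot.1, GI.i.mul h2, by simp only; ring⟩
  · rintro x y (rfl | ⟨z, l, h1, h2, rfl⟩)
    · left; simp [adj]
    · exact Or.inr ⟨_, _, h1.rot.2, GI.i.neg.mul h2,
        by simp only [adj]; linear_combination (z + l) * y * I_mul_I⟩
  · intro x y H
    convert (H.io hF).sig using 1 <;> simp only <;> ring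
  · intro x y H
    convert H.sig.io hF using 1 <;> simp only [adj] <;> ring

theorem gap_of {a b : ℤ} (h : ∀ m n : ℤ, m ≠ 0 ∨ n ≠ 0 → a ≤ |m * a - n * b| ∨ a ≤ |m * b + n * a|)
    (l : ℂ) (hl : GI l) (l0 : l ≠ 0) : 2 * ((a : ℝ) / 2) ≤ mx (l * (a + b * I)) := by
  obtain ⟨m, n, rfl⟩ := hl
  have : m ≠ 0 ∨ n ≠ 0 := by
    by_contra hc
    push Not at hc
    simp [hc.1, hc.2] at l0
  have e1 : (((m : ℂ) + n * I) * (a + b * I)).re = ((m * a - n * b : ℤ) : ℝ) := by simp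
  have e2 : (((m : ℂ) + n * I) * (a + b * I)).im = ((m * b + n * a : ℤ) : ℝ) := by simp
  rw [mx, e1, e2, mul_div_cancel₀ _ two_ne_zero, le_max_iff]
  exact_mod_cast h m n this

theorem free_big {μ : ℂ} (h : ‖μ‖ ≤ 1 / 4) : Free μ 1 (1 / 2) := by
  refine ⟨by norm_num, fun l hl l0 => ?_, ?_, ?_⟩
  · simpa using gap_of (a := 1) (b := 0) (fun m n h => by
      simp only [mul_one, mul_zero, sub_zero, zero_add]
      exact h.imp Int.one_le_abs Int.one_le_abs) l hl l0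
  · have := mx_le_norm μ
    simp only [one_pow, mul_one]
    linarith
  · simp only [norm_one]; linarith

theorem free_32 {s : ℤ} (hs : s = 1 ∨ s = -1) : Free (3 + 2 * s * I)⁻¹ (10 - s * I) 5 := by
  have hs2 : (s : ℝ) ^ 2 = 1 := by rcases hs with rfl | rfl <;> norm_num
  have e0 : (3 + 2 * s * I : ℂ)⁻¹ = (3 - 2 * s * I) / 13 := by
    refine inv_eq_of_mul_eq_one_right ?_
    rcases hs with rfl | rfl <;> push_cast <;> linear_combination (-4 / 13 : ℂ) * I_mul_I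
  have n1 : ‖(3 + 2 * s * I : ℂ)⁻¹‖ ≤ 278 / 1000 := by
    refine le_of_sq_le_sq ?_ (by norm_num)
    rw [e0, ← normSq_eq_norm_sq, normSq_div, normSq_apply, normSq_apply]
    simp
    nlinarith
  have n2 : ‖(10 - s * I : ℂ)‖ ≤ 1005 / 100 := by
    refine le_of_sq_le_sq ?_ (by norm_num)
    rw [← normSq_eq_norm_sq, normSq_apply]
    simp
    nlinarith
  refine ⟨by norm_num, fun l hl l0 => ?_, ?_, ?_⟩
  · have := gap_of (a := 10) (b := -s) (fun m n h => by
      simp only [le_abs]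
      rcases hs with rfl | rfl <;> omega) l hl l0
    push_cast at this
    rw [neg_mul, ← sub_eq_add_neg] at this
    linarith
  · have a1 : ‖(3 + 2 * s * I : ℂ)⁻¹ * (10 - s * I) ^ 2‖ ≤ 278 / 1000 * (1005 / 100) ^ 2 := by
      rw [norm_mul, norm_pow]; gcongr
    have a2 : mx ((3 + 2 * s * I : ℂ)⁻¹ * (10 - s * I) ^ 2) ≤ 20 := by
      have : (3 + 2 * s * I : ℂ)⁻¹ * (10 - s * I) ^ 2 = ((257 / 13 : ℝ) : ℂ)
          + ((-258 / 13 * s : ℝ) : ℂ) * I := by
        rw [e0]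
        rcases hs with rfl | rfl <;> push_cast
        · linear_combination (43 / 13 - 2 / 13 * I) * I_mul_I
        · linear_combination (43 / 13 + 2 / 13 * I) * I_mul_I
      rw [this, mx]
      simp only [add_re, ofReal_re, mul_re, I_re, mul_zero, ofReal_im, I_im, mul_one, sub_self,
        add_zero, add_im, mul_im, zero_add]
      rcases hs with rfl | rfl <;> norm_num [abs_le]
    linarith
  · nlinarith [norm_nonneg (3 + 2 * s * I : ℂ)⁻¹, norm_nonneg (10 - s * I : ℂ)]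

/-! The case `μ = 1/3`. -/

noncomputable def hf (a b1 b2 c : ℤ) (x y : ℂ) : ℝ :=
  3 * a * normSq x + 6 * ((b1 - b2 * I) * x * (starRingEnd ℂ) y).re + c * normSq y

def Val (a b1 b2 c : ℤ) : Prop := 2 ∣ a ∧ 2 ∣ c ∧ 3 * (b1 ^ 2 + b2 ^ 2) - a * c = 2 ∧ 0 < a

theorem Val.pos {a b1 b2 c : ℤ} (h : Val a b1 b2 c) : 0 < c := by
  obtain ⟨⟨a', rfl⟩, ⟨c', rfl⟩, h3, h4⟩ := h
  by_contra hc
  have h5 : 2 * a' * (2 * c') ≤ 0 := by nlinarith
  have h6 : b1 ^ 2 + b2 ^ 2 ≤ 0 := by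
    have : 3 * (b1 ^ 2 + b2 ^ 2) ≤ 2 := by linarith
    omega
  have h7 : b1 ^ 2 + b2 ^ 2 = 0 := by nlinarith [sq_nonneg b1, sq_nonneg b2]
  rw [h7] at h3
  have : 4 * (a' * c') = -2 := by linear_combination -h3
  omega

def Pull (X : M2) : Prop := ∀ a b1 b2 c, Val a b1 b2 c → ∃ a' b1' b2' c', Val a' b1' b2' c' ∧
  ∃ s : ℝ, 0 < s ∧ ∀ x y, hf a b1 b2 c (X.a * x + X.b * y) (X.c * x + X.d * y)
    = s * hf a' b1' b2' c' x y

theorem Pull.mul {X Y : M2} (hX : Pull X) (hY : Pull Y) : Pull (X * Y) := by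
  intro a b1 b2 c h
  obtain ⟨a', b1', b2', c', h', s, hs, e⟩ := hX a b1 b2 c h
  obtain ⟨a'', b1'', b2'', c'', h'', s', hs', e'⟩ := hY a' b1' b2' c' h'
  refine ⟨_, _, _, _, h'', s * s', mul_pos hs hs', fun x y => ?_⟩
  rw [mul_assoc, ← e', ← e]
  congr 1 <;> simp only [mul_a, mul_b, mul_c, mul_d] <;> ring

theorem pull_sig : Pull ⟨-1, 1, 0, 1⟩ := by
  rintro a b1 b2 c ⟨h1, h2, h3, h4⟩
  refine ⟨a, -(a + b1), -b2, 3 * a + 6 * b1 + c, ⟨h1, by omega, by linear_combination h3, h4⟩,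
    1, one_pos, fun x y => ?_⟩
  simp [hf, normSq_apply]; ring

theorem pull_io : Pull ⟨0, -3⁻¹, 1, 0⟩ := by
  intro a b1 b2 c h
  have hc := h.pos
  obtain ⟨h1, h2, h3, h4⟩ := h
  refine ⟨c, -b1, b2, a, ⟨h2, h1, by linear_combination h3, hc⟩, 1 / 3, by norm_num,
    fun x y => ?_⟩
  have : (-3⁻¹ : ℂ) = ((-1 / 3 : ℝ) : ℂ) := by push_cast; ring
  rw [this]
  simp only [hf, normSq_apply, add_re, add_im, mul_re, mul_im, ofReal_re, ofReal_im, conj_re,
    conj_im, sub_re, sub_im, intCast_re, intCast_im, I_re, I_im, zero_re, zero_im, one_re, one_im]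
  push_cast; ring

theorem avoid3 : Avoid ⟨I, 0, 0, 1⟩ ⟨1, 3⁻¹, 1, 0⟩ := by
  have p1 : Pull ⟨I, 0, 0, 1⟩ := by
    rintro a b1 b2 c ⟨h1, h2, h3, h4⟩
    refine ⟨a, b2, -b1, c, ⟨h1, h2, by linear_combination h3, h4⟩, 1, one_pos, fun x y => ?_⟩
    simp [hf, normSq_apply]; ring
  have p2 : Pull (adj ⟨I, 0, 0, 1⟩) := by
    rintro a b1 b2 c ⟨h1, h2, h3, h4⟩
    refine ⟨a, -b2, b1, c, ⟨h1, h2, by linear_combination h3, h4⟩, 1, one_pos, fun x y => ?_⟩
    simp [hf, normSq_apply, adj]; ring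
  have p3 : Pull ⟨1, 3⁻¹, 1, 0⟩ := by
    convert pull_sig.mul pull_io using 1
    ext <;> simp
  have p4 : Pull (adj ⟨1, 3⁻¹, 1, 0⟩) := by
    convert pull_io.mul pull_sig using 1
    ext <;> simp [adj]
  have key : ∀ W, Wd0 ⟨I, 0, 0, 1⟩ ⟨1, 3⁻¹, 1, 0⟩ W → Pull W ∧ Pull (adj W) := by
    intro W hW
    have o : Pull one2 := fun a b1 b2 c h => ⟨a, b1, b2, c, h, 1, one_pos, by simp [one2]⟩
    induction hW with
    | one => rw [adj_one2]; exact ⟨o, o⟩
    | l => exact ⟨p1, p2⟩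
    | r => exact ⟨p3, p4⟩
    | mul _ _ a b => exact ⟨a.1.mul b.1, by rw [adj_mu]; exact b.2.mul a.2⟩
    | adj _ a => exact ⟨a.2, by rw [adj_adj]; exact a.1⟩
  refine ⟨(1 + I) / 2, 1 / 3, by norm_num, ?_⟩
  rintro _ ⟨t, -, W, hW, rfl⟩
  obtain ⟨a, b1, b2, c, h, s, hs, e⟩ := (key W hW).1 2 (-1) (-1) 2
    ⟨by norm_num, by norm_num, by norm_num, by norm_num⟩
  have e1 := e 1 0
  have ha : (0 : ℝ) < a := by exact_mod_cast h.2.2.2
  have e2 : hf 2 (-1) (-1) 2 W.a W.c = 6 * normSq (W.a - (1 + I) / 2 * W.c) - normSq W.c := by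
    have : ((1 + I) / 2 : ℂ) = ((1 / 2 : ℝ) : ℂ) + ((1 / 2 : ℝ) : ℂ) * I := by push_cast; ring
    rw [this]
    simp only [hf, normSq_apply, add_re, add_im, mul_re, mul_im, ofReal_re, ofReal_im, conj_re,
      conj_im, sub_re, sub_im, intCast_re, intCast_im, I_re, I_im]
    push_cast; ring
  simp only [mul_one, mul_zero, add_zero] at e1
  rw [e2] at e1
  have e3 : 0 ≤ s * hf a b1 b2 c 1 0 := by
    simp only [hf, map_one, map_zero, mul_zero, zero_re, add_zero, mul_one]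
    positivity
  simp only [sc]
  rw [show t * W.a - (1 + I) / 2 * (t * W.c) = t * (W.a - (1 + I) / 2 * W.c) by ring, norm_mul,
    norm_mul, mul_left_comm]
  refine mul_le_mul_of_nonneg_left (le_of_sq_le_sq ?_ (norm_nonneg _)) (norm_nonneg _)
  rw [mul_pow, ← normSq_eq_norm_sq, ← normSq_eq_norm_sq]
  linarith [normSq_nonneg W.c]

end Pool.Agent.Lib.MP_743898_gt
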