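import Pool.Agent.Lib.MP_743898_gt.CPair

set_option autoImplicit false

/-! Classification of Tan pairs. -/

namespace Pool.Agent.Lib.MP_743898_gt

open M2 Complex Cl

theorem evW (a c : ℤ) : ev ⟨a, 0, c, 0⟩ = a + c * (om + 1) := by simp [ev, om_eq]
theorem evG (a d : ℤ) : ev ⟨a, 0, 0, d⟩ = a + d * I := by simp [ev, zt3]

/-- `f1` is the conjugate of `f` by `g`, or its inverse. -/
def Cj (f g f1 : M2) : Prop := f1 = g * f * adj g ∨ f1 = adj (g * f * adj g)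

theorem Cj.wd {f g f1 : M2} (h : Cj f g f1) : Wd f g f1 := by
  have := ((Wd.r f g).mul (Wd.l _ _)).mul (Wd.r _ _).adj
  rcases h with rfl | rfl
  · exact this
  · exact this.adj

theorem Cj.cj {f g f1 P : M2} (hP : det P = 1) (h : Cj f g f1) :
    Cj (cj P f) (cj P g) (cj P f1) := by
  rcases h with rfl | rfl
  · left; rw [cj_adj, cj_mul _ _ _ hP, cj_mul _ _ _ hP]
  · right; rw [cj_adj, cj_mul _ _ _ hP, cj_mul _ _ _ hP, cj_adj]

theorem cm_conj {F G : ZM} {x z c : Z12} (h : parB F G x x z c = true) {f g : M2}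
    (hf : det f = 1) (hg : det g = 1) (hx : tr f ^ 2 = ev x) (w : ℂ)
    (hw : w = ev x - (gam f g + 2) ∨ w = gam f g + 2) (hz : w ^ 2 = ev z)
    (hc : 2 * ev x + w ^ 2 - ev x * w - 4 = ev c) :
    ∃ f1, Cj f g f1 ∧ Cm f f1 (evM F) (evM G) := by
  obtain ⟨a1, a2, a3, a4⟩ := conj_par hf hg
  have key : ∀ f1, det f1 = 1 → tr f1 = tr f → tr (f * f1) = w → Cm f f1 (evM F) (evM G) := by
    intro f1 b1 b2 b3
    refine cm_of_par h hf b1 hx (by rw [b2, hx]) (by rw [b3, hz]) ?_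
    rw [fricke _ _ hf b1, b2, b3, ← hc, ← hx]; ring
  rcases hw with hw | hw
  · exact ⟨_, Or.inl rfl, key _ a1 a2 (by rw [a4, hx, hw])⟩
  · exact ⟨_, Or.inr rfl, key _ (by rw [det_adj, a1]) (by rw [tr_adj, a2]) (by rw [a3, hw])⟩

theorem om_cube : om ^ 3 = 1 := by linear_combination (om - 1) * om_sq

theorem tan_modA {f g : M2} {ζ : ℂ} (hf : det f = 1) (hg : det g = 1) (hx : tr f ^ 2 = 2)
    (hγ : gam f g = ζ - 1) (hζ : ζ = -om ^ 2 ∨ ζ = om ^ 2) :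
    ∃ f1, Cj f g f1 ∧ Cm f f1 (evM fA) (evM gA) := by
  refine cm_conj (x := ⟨2, 0, 0, 0⟩) (z := ⟨0, 0, -1, 0⟩) (c := ⟨-2, 0, 1, 0⟩) (by decide +kernel)
    hf hg (by rw [hx, evW]; simp) (-om) ?_ ?_ ?_
  · rw [hγ, evW]
    rcases hζ with rfl | rfl
    · left; push_cast; linear_combination -om_sq
    · right; linear_combination -om_sq
  · rw [evW]; push_cast; linear_combination om_sq
  · rw [evW, evW]; push_cast; linear_combination om_sq

theorem tan_modAc {f g : M2} {ζ : ℂ} (hf : det f = 1) (hg : det g = 1) (hx : tr f ^ 2 = 2)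
    (hγ : gam f g = ζ - 1) (hζ : ζ = -om ∨ ζ = om) :
    ∃ f1, Cj f g f1 ∧ Cm f f1 (evM fAc) (evM gAc) := by
  refine cm_conj (x := ⟨2, 0, 0, 0⟩) (z := ⟨-1, 0, 1, 0⟩) (c := ⟨-1, 0, -1, 0⟩) (by decide +kernel)
    hf hg (by rw [hx, evW]; simp) (1 + om) ?_ ?_ ?_
  · rw [hγ, evW]
    rcases hζ with rfl | rfl
    · left; push_cast; ring
    · right; ring
  · rw [evW]; push_cast; linear_combination om_sq
  · rw [evW, evW]; push_cast; linear_combination om_sq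

theorem tan_modD {f g : M2} {ζ : ℂ} (hf : det f = 1) (hg : det g = 1) (hx : tr f ^ 2 = 2)
    (hγ : gam f g = ζ - 1) (hζ : ζ = I ∨ ζ = -I) :
    ∃ f1, Cj f g f1 ∧ Cm f f1 (evM fD) (evM gD) := by
  refine cm_conj (x := ⟨2, 0, 0, 0⟩) (z := ⟨0, 0, 0, 2⟩) (c := ⟨-2, 0, 0, 0⟩) (by decide +kernel)
    hf hg (by rw [hx, evW]; simp) (1 + I) ?_ ?_ ?_
  · rw [hγ, evW]
    rcases hζ with rfl | rfl
    · right; ring
    · left; push_cast; ring
  · rw [evG]; push_cast; linear_combination I_mul_I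
  · rw [evW, evW]; push_cast; linear_combination I_mul_I

noncomputable def lam : ℝ := 2 + √3

theorem tanW_bound {γ : ℂ} {f g f1 F G : M2} {X Y : ℂ} (h : PP 2 γ f g X Y) (hκ : γ + 2 ≠ 0)
    (h1 : Cj f g f1) (h2 : Cm f f1 F G) (hb : F.b = 0) (hc : F.c = 0)
    (hC : Wd F G ⟨lam, 0, 0, (lam : ℂ)⁻¹⟩) :
    ∃ g2 u v, Eqv f g f g2 ∧ PP 2 γ f g2 (γ + 2 + u) (γ + 2 + v) ∧
      ‖u‖ ^ 2 ≤ 14 * ‖γ + 2‖ ^ 2 ∧ ‖v‖ ^ 2 ≤ 14 * ‖γ + 2‖ ^ 2 := by
  obtain ⟨P, t, u, hP, ht, hu, rfl, rfl⟩ := h2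
  have h0 := h.cj hP
  have h1' := h1.cj hP
  rw [cj_sc] at hb hc hC
  rw [cj_sc] at hC
  have key : ∃ g2 u v, Eqv (cj P f) (cj P g) (cj P f) g2 ∧
      PP 2 γ (cj P f) g2 (γ + 2 + u) (γ + 2 + v) ∧
      ‖u‖ ^ 2 ≤ 14 * ‖γ + 2‖ ^ 2 ∧ ‖v‖ ^ 2 ≤ 14 * ‖γ + 2‖ ^ 2 := by
    generalize cj P f = f0 at h0 h1' hb hc hC
    generalize cj P g = g0 at h0 h1'
    generalize cj P f1 = f2 at h1' hC
    obtain ⟨l, b, c, m⟩ := f0
    obtain rfl : b = 0 := by simpa [sc, ht] using hb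
    obtain rfl : c = 0 := by simpa [sc, ht] using hc
    have hlm : l * m = 1 := by simpa [det] using h0.df
    have htr : (l + m) ^ 2 = 2 := h0.tf
    have hγ := h0.gm
    rw [gam_diag l m hlm g0 h0.dg] at hγ
    have hd : g0.a * g0.d - g0.b * g0.c = 1 := h0.dg
    have had : 2 * (g0.a * g0.d) = γ + 2 := by
      linear_combination 2 * hd + hγ + (g0.b * g0.c) * (htr - 4 * hlm)
    have hl0 : 0 < lam := by unfold lam; positivity
    have hlc : (lam : ℂ) ≠ 0 := by exact_mod_cast hl0.ne'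
    have ha : g0.a ≠ 0 := by intro h0; apply hκ; rw [← had, h0]; ring
    have hk : 0 < ‖γ + 2‖ := norm_pos_iff.2 hκ
    have hs3 := s3
    have hs1 := s3_lo
    have hs2 := s3_hi
    obtain ⟨n, k1, k2⟩ := exists_scale (L := lam ^ 2) (y := ‖g0.a‖ ^ 2)
      (c := ‖γ + 2‖ / 2 * (2 - √3)) (by unfold lam; nlinarith) (by positivity)
      (mul_pos (by positivity) (by linarith))
    have hE := wd_diag hlc hC n
    set E : M2 := ⟨(lam : ℂ) ^ n, 0, 0, (lam : ℂ) ^ (-n)⟩ with hEd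
    have hn : (lam : ℂ) ^ n * (lam : ℂ) ^ (-n) = 1 := by
      rw [← zpow_add₀ hlc]; simp
    have dE : det E = 1 := by simpa [hEd, det] using hn
    have hcomm : g0 * E * ⟨l, 0, 0, m⟩ * adj (g0 * E) = g0 * ⟨l, 0, 0, m⟩ * adj g0 := by
      rw [adj_mu]
      have : E * ⟨l, 0, 0, m⟩ * adj E = ⟨l, 0, 0, m⟩ := by
        ext <;> simp only [hEd, adj, mul_a, mul_b, mul_c, mul_d]
        · linear_combination l * hn
        · ring
        · ring
        · linear_combination m * hn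
      calc _ = g0 * (E * ⟨l, 0, 0, m⟩ * adj E) * adj g0 := by simp only [mul_as]
        _ = _ := by rw [this]
    have hj : Cj ⟨l, 0, 0, m⟩ (g0 * E) f2 := by unfold Cj; rwa [hcomm]
    set p := g0.a * (lam : ℂ) ^ n with hp
    set q := g0.d * (lam : ℂ) ^ (-n) with hq
    have hpq : 2 * (p * q) = γ + 2 := by rw [← had, hp, hq]; linear_combination 2 * g0.a * g0.d * hn
    have np : ‖p‖ ^ 2 = ‖g0.a‖ ^ 2 * (lam ^ 2) ^ n := by
      rw [hp, norm_mul, norm_zpow, norm_real, Real.norm_of_nonneg hl0.le, mul_pow, ← zpow_natCast,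
        ← zpow_natCast, ← zpow_natCast, ← zpow_mul, ← zpow_mul, mul_comm n]
    rw [← np] at k1 k2
    have npq : 2 * (‖p‖ * ‖q‖) = ‖γ + 2‖ := by rw [← hpq]; simp
    have b1 : ‖p‖ ^ 2 ≤ ‖γ + 2‖ / 2 * (2 + √3) := by
      refine k2.trans (le_of_eq ?_)
      unfold lam
      linear_combination (-(‖γ + 2‖ / 2) * (2 + √3)) * hs3
    have b2 : ‖q‖ ^ 2 ≤ ‖γ + 2‖ / 2 * (2 + √3) := by
      have c1 : 0 < ‖γ + 2‖ / 2 * (2 - √3) := mul_pos (by positivity) (by linarith)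
      refine le_of_mul_le_mul_left ?_ c1
      calc ‖γ + 2‖ / 2 * (2 - √3) * ‖q‖ ^ 2 ≤ ‖p‖ ^ 2 * ‖q‖ ^ 2 :=
            mul_le_mul_of_nonneg_right k1 (by positivity)
        _ = _ := by
            rw [← npq]; linear_combination (‖p‖ * ‖q‖) ^ 2 * hs3
    have b3 : ∀ w : ℂ, ‖w‖ ≤ ‖p‖ ^ 2 + ‖q‖ ^ 2 → ‖w‖ ^ 2 ≤ 14 * ‖γ + 2‖ ^ 2 := by
      intro w hw
      have c1 : ‖w‖ ≤ ‖γ + 2‖ * (2 + √3) := by linarith
      have c2 := pow_le_pow_left₀ (norm_nonneg w) c1 2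
      have c3 : (2 + √3 : ℝ) ^ 2 ≤ 14 := by nlinarith
      rw [mul_pow] at c2
      nlinarith [sq_nonneg ‖γ + 2‖]
    have hl4 : (l ^ 2) ^ 2 = -1 := by
      linear_combination l ^ 2 * htr - (l * m + 1 + 2 * l ^ 2) * hlm
    have nl : ‖l ^ 2‖ = 1 := by
      have := congrArg norm hl4
      rw [norm_pow, norm_neg, norm_one] at this
      exact (pow_eq_one_iff_of_nonneg (norm_nonneg _) two_ne_zero).1 this
    refine ⟨g0 * E, p ^ 2 + q ^ 2, l ^ 2 * (p ^ 2 - q ^ 2), ⟨Wd.l _ _, ?_, Wd.l _ _, ?_⟩,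
      ⟨h0.df, by rw [det_mul, h0.dg, dE, one_mul], htr, ?_, ?_, ?_⟩, b3 _ ?_, b3 _ ?_⟩
    · have := (Wd.r ⟨l, 0, 0, m⟩ (g0 * E)).mul
        (Wd.sub ((Wd.l _ _).sc ht) (hj.wd.sc hu) hE).adj
      rwa [mul_as, mul_adj1 dE, mu_one] at this
    · exact (Wd.r _ _).mul (Wd.sub ((Wd.l _ _).sc ht) (h1'.wd.sc hu) hE)
    · rw [gam_diag l m hlm _ (by rw [det_mul, h0.dg, dE, one_mul]), ← hγ]
      simp only [hEd, mul_b, mul_c]
      linear_combination (-(l - m) ^ 2 * g0.b * g0.c) * hn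
    · simp only [tr, hEd, mul_a, mul_d]
      linear_combination hpq
    · simp only [tr, hEd, mul_a, mul_b, mul_c, mul_d]
      linear_combination hpq + q ^ 2 * htr + (2 * p * q - 2 * q ^ 2) * hlm
    · rw [← norm_pow, ← norm_pow]; exact norm_add_le _ _
    · rw [norm_mul, nl, one_mul]
      rw [← norm_pow, ← norm_pow]; exact norm_sub_le _ _
  obtain ⟨g2, u, v, k1, k2, k3⟩ := key
  have hP' : det (adj P) = 1 := by rw [det_adj, hP]
  have k4 := k1.cj hP'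
  have k5 := k2.cj hP'
  rw [cj_cj _ _ hP] at k4 k5
  rw [cj_cj _ _ hP] at k4
  exact ⟨_, u, v, k4, k5, k3⟩

/-- Normal forms of a Tan pair. -/
def TanNF (γ : ℂ) (f g : M2) (w : ℂ) : Prop :=
  ∃ g3, Eqv f g f g3 ∧ (PP 2 γ f g3 0 (γ + 2) ∨ PP 2 γ f g3 (-(γ + 2)) (γ + 2 + w))

theorem TanNF.eqv {γ : ℂ} {f g g' : M2} {w : ℂ} (e : Eqv f g f g') (h : TanNF γ f g' w) :
    TanNF γ f g w := by
  obtain ⟨g3, k1, k2⟩ := h
  exact ⟨g3, e.trans k1, k2⟩

theorem tan_shift {γ : ℂ} {f g : M2} {u v : ℂ} (h : PP 2 γ f g (γ + 2 + u) (γ + 2 + v)) :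
    PP 2 γ f (f * g) (γ + 2 + v) (γ + 2 + -u) := h.shift.congr rfl (by ring)
theorem tan_inv {γ : ℂ} {f g : M2} {u v : ℂ} (h : PP 2 γ f g (γ + 2 + u) (γ + 2 + v)) :
    PP 2 γ f (adj g) (γ + 2 + u) (γ + 2 + -v) := h.inv.congr rfl (by ring)
theorem tan_rel {γ : ℂ} {f g : M2} {u v : ℂ} (h : PP 2 γ f g (γ + 2 + u) (γ + 2 + v)) :
    u ^ 2 + v ^ 2 = (γ + 2) ^ 2 := by linear_combination h.rel

theorem tan_zero {γ : ℂ} {f g : M2} {u v : ℂ} (h : PP 2 γ f g (γ + 2 + u) (γ + 2 + v))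
    (h0 : u = 0 ∨ v = 0) : ∃ g3, Eqv f g f g3 ∧ PP 2 γ f g3 0 (γ + 2) := by
  have k1 : ∀ {g : M2}, PP 2 γ f g (γ + 2 + 0) (γ + 2 + -(γ + 2)) →
      ∃ g3, Eqv f g f g3 ∧ PP 2 γ f g3 0 (γ + 2) := fun h =>
    ⟨_, Eqv.shift h.df _, (tan_shift h).congr (by ring) (by ring)⟩
  have k2 : ∀ {g : M2} {v : ℂ}, PP 2 γ f g (γ + 2 + 0) (γ + 2 + v) →
      ∃ g3, Eqv f g f g3 ∧ PP 2 γ f g3 0 (γ + 2) := by
    intro g v h
    have : (v + (γ + 2)) * (v - (γ + 2)) = 0 := by linear_combination tan_rel h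
    rcases mul_eq_zero.1 this with e | e
    · exact k1 (h.congr rfl (by linear_combination e))
    · obtain ⟨g3, a1, a2⟩ := k1 ((tan_inv h).congr rfl (by linear_combination -e))
      exact ⟨g3, (Eqv.inv f g).trans a1, a2⟩
  rcases h0 with rfl | rfl
  · exact k2 h
  · obtain ⟨g3, a1, a2⟩ := k2 (tan_shift h)
    exact ⟨g3, (Eqv.shift h.df g).trans a1, a2⟩

theorem tan_nf {γ : ℂ} {f g : M2} {u v w : ℂ} (h : PP 2 γ f g (γ + 2 + u) (γ + 2 + v))
    (hw : w ^ 2 = -3 * (γ + 2) ^ 2)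
    (h0 : u = 0 ∨ v = 0 ∨ u = 2 * (γ + 2) ∨ u = -(2 * (γ + 2)) ∨ v = 2 * (γ + 2) ∨
      v = -(2 * (γ + 2))) : TanNF γ f g w := by
  have k1 : ∀ {g : M2} {v : ℂ}, PP 2 γ f g (γ + 2 + -(2 * (γ + 2))) (γ + 2 + v) →
      TanNF γ f g w := by
    intro g v h
    have : (v - w) * (v + w) = 0 := by linear_combination tan_rel h - hw
    rcases mul_eq_zero.1 this with e | e
    · exact ⟨g, Eqv.rfl _ _, Or.inr (h.congr (by ring) (by linear_combination e))⟩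
    · exact ⟨_, Eqv.inv _ _, Or.inr ((tan_inv h).congr (by ring) (by linear_combination -e))⟩
  have k2 : ∀ {g : M2} {u : ℂ}, PP 2 γ f g (γ + 2 + u) (γ + 2 + -(2 * (γ + 2))) →
      TanNF γ f g w := fun h => (k1 (tan_shift h)).eqv (Eqv.shift h.df _)
  rcases h0 with e | e | rfl | rfl | rfl | rfl
  · obtain ⟨g3, a1, a2⟩ := tan_zero h (Or.inl e)
    exact ⟨g3, a1, Or.inl a2⟩
  · obtain ⟨g3, a1, a2⟩ := tan_zero h (Or.inr e)
    exact ⟨g3, a1, Or.inl a2⟩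
  · exact (k2 (tan_shift h)).eqv (Eqv.shift h.df _)
  · exact k1 h
  · exact (k2 (tan_inv h)).eqv (Eqv.inv _ _)
  · exact k2 h

def dioB (k : ℤ × ℤ) : Bool :=
  (pts 1 (14 * onm 1 k)).all fun u => (pts 1 (14 * onm 1 k)).all fun v =>
    !(omul 1 u u + omul 1 v v == omul 1 k k) ||
      (u == (0, 0) || v == (0, 0) || u == k + k || u + (k + k) == (0, 0) || v == k + k ||
        v + (k + k) == (0, 0))

theorem InO.sub {τ x y : ℂ} (hx : InO τ x) (hy : InO τ y) : InO τ (x - y) := by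
  obtain ⟨a, b, rfl⟩ := hx
  obtain ⟨c, d, rfl⟩ := hy
  exact ⟨a - c, b - d, by push_cast; ring⟩

theorem dio_sound {k : ℤ × ℤ} (hk : dioB k = true) (hB : 14 * onm 1 k ≤ 47) {κ u v : ℂ}
    (hκ : κ = evO om k) (hu : InO om u) (hv : InO om v) (bu : ‖u‖ ^ 2 ≤ 14 * ‖κ‖ ^ 2)
    (bv : ‖v‖ ^ 2 ≤ 14 * ‖κ‖ ^ 2) (e : u ^ 2 + v ^ 2 = κ ^ 2) :
    u = 0 ∨ v = 0 ∨ u = 2 * κ ∨ u = -(2 * κ) ∨ v = 2 * κ ∨ v = -(2 * κ) := by
  subst hκ
  rw [evO_nm quadW] at bu bv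
  obtain ⟨x, hx, rfl⟩ := mem_pts quadW hB hu (by push_cast; exact bu)
  obtain ⟨y, hy, rfl⟩ := mem_pts quadW hB hv (by push_cast; exact bv)
  simp only [dioB, List.all_eq_true] at hk
  have h1 := hk x hx y hy
  have h2 : omul 1 x x + omul 1 y y = omul 1 k k := by
    apply evO_inj quadW
    rw [evO_add, evO_mul quadW, evO_mul quadW, evO_mul quadW]
    linear_combination e
  have z0 : evO om (0, 0) = 0 := by simp [evO]
  simp only [h2, beq_self_eq_true, Bool.not_true, Bool.false_or, Bool.or_eq_true, beq_iff_eq] at h1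
  rcases h1 with ((((rfl | rfl) | rfl) | h1) | rfl) | h1
  · exact Or.inl z0
  · exact Or.inr (Or.inl z0)
  · right; right; left; rw [evO_add]; ring
  · right; right; right; left
    have := congrArg (evO om) h1
    rw [evO_add, evO_add, z0] at this; linear_combination this
  · right; right; right; right; left; rw [evO_add]; ring
  · right; right; right; right; right
    have := congrArg (evO om) h1
    rw [evO_add, evO_add, z0] at this; linear_combination this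

theorem dio1 : dioB (1, 1) = true := by decide +kernel
theorem dio2 : dioB (0, -1) = true := by decide +kernel
theorem dio3 : dioB (2, 1) = true := by decide +kernel
theorem dio4 : dioB (1, -1) = true := by decide +kernel

def zC : ZM := ⟨⟨2, 2, 0, -1⟩, ⟨0, 0, 0, 0⟩, ⟨0, 0, 0, 0⟩, ⟨2, -2, 0, 1⟩⟩

theorem evM_zC : evM zC = ⟨lam, 0, 0, (lam : ℂ)⁻¹⟩ := by
  have e1 : ev ⟨2, 2, 0, -1⟩ = lam := by
    apply Complex.ext
    · have := ev_re ⟨2, 2, 0, -1⟩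
      simp only [lam, ofReal_re]; push_cast at this; linarith
    · have := ev_im ⟨2, 2, 0, -1⟩
      simp only [ofReal_im]; push_cast at this; linarith
  have e2 : ev ⟨2, 2, 0, -1⟩ * ev ⟨2, -2, 0, 1⟩ = 1 := by rw [← ev_mul, ← ev_one]; rfl
  rw [e1] at e2
  ext
  · exact e1
  · exact ev_zero
  · exact ev_zero
  · exact eq_inv_of_mul_eq_one_right e2

theorem tanW_nf {S : Set M2} (hS : Grp S) {f g : M2} (hf : f ∈ S) (hg : g ∈ S) {ζ : ℂ}
    (hx : tr f ^ 2 = 2) (hγ : gam f g = ζ - 1)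
    (hζ : ζ = -om ^ 2 ∨ ζ = om ^ 2 ∨ ζ = -om ∨ ζ = om) {w : ℂ}
    (hw : w ^ 2 = -3 * (ζ - 1 + 2) ^ 2) : TanNF (ζ - 1) f g w := by
  have df := hS.good.det hf
  have dg := hS.good.det hg
  have hP : PP 2 (ζ - 1) f g _ _ := ⟨df, dg, hx, hγ, rfl, rfl⟩
  have main : ∀ (F G : ZM) (k : ℤ × ℤ), Mod quadW (evM F) (evM G) →
      (∃ f1, Cj f g f1 ∧ Cm f f1 (evM F) (evM G)) → F.b = ⟨0, 0, 0, 0⟩ → F.c = ⟨0, 0, 0, 0⟩ →
      zC.prop (ZM.word F G [3, 2, 1, 0, 0, 1, 2, 3]) = true → dioB k = true →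
      14 * onm 1 k ≤ 47 → onm 1 k ≠ 0 → ζ - 1 + 2 = evO om k → TanNF (ζ - 1) f g w := by
    rintro F G k hM ⟨f1, h1, h2⟩ hb hc hC hk hB hk0 hκ
    have d1 : det f1 = 1 := by
      rcases h1 with rfl | rfl
      · exact (conj_par df dg).1
      · rw [det_adj]; exact (conj_par df dg).1
    have hO := h2.inO hM hS hf (hS.wd hf hg h1.wd d1)
    have hκ0 : ζ - 1 + 2 ≠ 0 := by
      intro h0
      have := evO_nm quadW k
      rw [← hκ, h0] at this
      apply hk0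
      exact_mod_cast (by simpa using this.symm : (onm 1 k : ℝ) = 0)
    obtain ⟨g2, u, v, a1, a2, a3, a4⟩ := tanW_bound hP hκ0 h1 h2 (by simp [evM, hb, ev_zero])
      (by simp [evM, hc, ev_zero]) (evM_zC ▸ wd_of_prop hC)
    have hg2 : g2 ∈ S := hS.wd hf hg a1.h4 a2.dg
    have b1 := hO _ hg2
    have b2 := hO _ (hS.good.mul hf hg2)
    rw [a2.tg] at b1
    rw [a2.tfg] at b2
    have b3 : InO om (ζ - 1 + 2) := ⟨k.1, k.2, hκ⟩
    have b4 := b1.sub b3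
    have b5 := b2.sub b3
    rw [add_sub_cancel_left] at b4 b5
    exact (tan_nf a2 hw (dio_sound hk hB hκ b4 b5 a3 a4 (tan_rel a2))).eqv a1
  rcases hζ with e | e | e | e
  · exact main fA gA (2, 1) modA (tan_modA df dg hx hγ (Or.inl e)) rfl rfl (by decide +kernel) dio3
      (by decide) (by decide) (by rw [e, evO]; push_cast; linear_combination -om_sq)
  · exact main fA gA (0, -1) modA (tan_modA df dg hx hγ (Or.inr e)) rfl rfl (by decide +kernel) dio2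
      (by decide) (by decide) (by rw [e, evO]; push_cast; linear_combination om_sq)
  · exact main fAc gAc (1, -1) modAc (tan_modAc df dg hx hγ (Or.inl e)) rfl rfl
      (by decide +kernel) dio4 (by decide) (by decide) (by rw [e, evO]; push_cast; ring)
  · exact main fAc gAc (1, 1) modAc (tan_modAc df dg hx hγ (Or.inr e)) rfl rfl
      (by decide +kernel) dio1 (by decide) (by decide) (by rw [e, evO]; push_cast; ring)

theorem dioI (a b c d : ℤ) (e4 : a ^ 2 - b ^ 2 + c ^ 2 - d ^ 2 = 0) (e5 : (a * b + c * d) ^ 2 = 1) :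
    (a = 0 ∧ b = 0) ∨ (c = 0 ∧ d = 0) := by
  have e6 : ((a - d) ^ 2 + (b + c) ^ 2) * ((a + d) ^ 2 + (b - c) ^ 2) = 4 := by
    linear_combination (a ^ 2 - b ^ 2 + c ^ 2 - d ^ 2) * e4 + 4 * e5
  have e7 : a ^ 2 + b ^ 2 + c ^ 2 + d ^ 2 ≤ 2 := by
    have p1 : 0 ≤ (a - d) ^ 2 + (b + c) ^ 2 := by positivity
    have p2 : 0 ≤ (a + d) ^ 2 + (b - c) ^ 2 := by positivity
    have s : (a - d) ^ 2 + (b + c) ^ 2 + ((a + d) ^ 2 + (b - c) ^ 2)
        = 2 * (a ^ 2 + b ^ 2 + c ^ 2 + d ^ 2) := by ring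
    generalize (a - d) ^ 2 + (b + c) ^ 2 = x at e6 p1 s
    generalize (a + d) ^ 2 + (b - c) ^ 2 = y at e6 p2 s
    have q1 : 1 ≤ x := by
      rcases p1.lt_or_eq with h | h
      · exact h
      · rw [← h] at e6; simp at e6
    have q2 : 1 ≤ y := by
      rcases p2.lt_or_eq with h | h
      · exact h
      · rw [← h] at e6; simp at e6
    have : x + y ≤ 5 := by nlinarith
    omega
  have key : ∀ x : ℤ, x ^ 2 ≤ 2 → -1 ≤ x ∧ x ≤ 1 := fun x hx => by constructor <;> nlinarith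
  have ba := key a (by linarith [sq_nonneg b, sq_nonneg c, sq_nonneg d])
  have bb := key b (by linarith [sq_nonneg a, sq_nonneg c, sq_nonneg d])
  have bc := key c (by linarith [sq_nonneg b, sq_nonneg a, sq_nonneg d])
  have bd := key d (by linarith [sq_nonneg b, sq_nonneg c, sq_nonneg a])
  obtain ⟨a1, a2⟩ := ba
  obtain ⟨b1, b2⟩ := bb
  obtain ⟨c1, c2⟩ := bc
  obtain ⟨d1, d2⟩ := bd
  clear e6
  interval_cases a <;> interval_cases b <;> interval_cases c <;> interval_cases d <;> simp_all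

theorem tanI_nf {S : Set M2} (hS : Grp S) {f g : M2} (hf : f ∈ S) (hg : g ∈ S) {ζ : ℂ}
    (hx : tr f ^ 2 = 2) (hγ : gam f g = ζ - 1) (hζ : ζ = I ∨ ζ = -I) :
    ∃ g3, Eqv f g f g3 ∧ PP 2 (ζ - 1) f g3 0 (ζ - 1 + 2) := by
  have df := hS.good.det hf
  have dg := hS.good.det hg
  obtain ⟨f1, h1, h2⟩ := tan_modD df dg hx hγ hζ
  have d1 : det f1 = 1 := by
    rcases h1 with rfl | rfl
    · exact (conj_par df dg).1
    · rw [det_adj]; exact (conj_par df dg).1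
  have hO := h2.inO modD hS hf (hS.wd hf hg h1.wd d1)
  have b3 : InO I (ζ - 1 + 2) := by
    rcases hζ with rfl | rfl
    · exact ⟨1, 1, by push_cast; ring⟩
    · exact ⟨1, -1, by push_cast; ring⟩
  obtain ⟨a, b, e1⟩ := (hO _ hg).sub b3
  obtain ⟨c, d, e2⟩ := (hO _ (hS.good.mul hf hg)).sub b3
  have hP : PP 2 (ζ - 1) f g (ζ - 1 + 2 + (a + b * I)) (ζ - 1 + 2 + (c + d * I)) :=
    ⟨df, dg, hx, hγ, by rw [← e1]; ring, by rw [← e2]; ring⟩
  refine tan_zero hP ?_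
  have hr := tan_rel hP
  have e3 : a ^ 2 - b ^ 2 + c ^ 2 - d ^ 2 = 0 ∧ (a * b + c * d) ^ 2 = 1 := by
    have key : ∀ e : ℤ, e ^ 2 = 1 → ζ = e * I →
        a ^ 2 - b ^ 2 + c ^ 2 - d ^ 2 = 0 ∧ (a * b + c * d) ^ 2 = 1 := by
      intro e he hz
      have he' : (e : ℂ) ^ 2 = 1 := by exact_mod_cast he
      have := evO_inj quadI (x := (a ^ 2 - b ^ 2 + c ^ 2 - d ^ 2, 2 * (a * b + c * d)))
        (y := (0, 2 * e)) (by
          simp only [evO]; push_cast; rw [hz] at hr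
          linear_combination hr - ((b : ℂ) ^ 2 + d ^ 2 - e ^ 2) * I_mul_I - he')
      simp only [Prod.mk.injEq] at this
      refine ⟨this.1, ?_⟩
      rw [show a * b + c * d = e by linarith [this.2], he]
    rcases hζ with e | e
    · exact key 1 (by norm_num) (by simpa using e)
    · exact key (-1) (by norm_num) (by simpa using e)
  rcases dioI a b c d e3.1 e3.2 with h | h
  · left; simp [h.1, h.2]
  · right; simp [h.1, h.2]

end Pool.Agent.Lib.MP_743898_gt
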