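import Mathlib

-- part Pool.Agent.Lib.MP_743898_gt.M2
section

set_option autoImplicit false

/-! Two by two complex matrices as quadruples, and discrete groups of them. -/

namespace Pool.Agent.Lib.MP_743898_gt

/-- A two by two complex matrix. -/
@[ext] structure M2 where
  a : ℂ
  b : ℂ
  c : ℂ
  d : ℂ

namespace M2

instance : Mul M2 := ⟨fun X Y => ⟨X.a * Y.a + X.b * Y.c, X.a * Y.b + X.b * Y.d,
  X.c * Y.a + X.d * Y.c, X.c * Y.b + X.d * Y.d⟩⟩

@[simp] theorem mul_a (X Y : M2) : (X * Y).a = X.a * Y.a + X.b * Y.c := rfl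
@[simp] theorem mul_b (X Y : M2) : (X * Y).b = X.a * Y.b + X.b * Y.d := rfl
@[simp] theorem mul_c (X Y : M2) : (X * Y).c = X.c * Y.a + X.d * Y.c := rfl
@[simp] theorem mul_d (X Y : M2) : (X * Y).d = X.c * Y.b + X.d * Y.d := rfl

def adj (X : M2) : M2 := ⟨X.d, -X.b, -X.c, X.a⟩
def tr (X : M2) : ℂ := X.a + X.d
def det (X : M2) : ℂ := X.a * X.d - X.b * X.c
def sc (t : ℂ) (X : M2) : M2 := ⟨t * X.a, t * X.b, t * X.c, t * X.d⟩

/-- `tr [X, Y] - 2`. -/
def gam (X Y : M2) : ℂ := tr (X * Y * adj X * adj Y) - 2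

/-- Conjugation. -/
def cj (P X : M2) : M2 := adj P * X * P

theorem det_mul (X Y : M2) : det (X * Y) = det X * det Y := by
  simp only [det, mul_a, mul_b, mul_c, mul_d]; ring

theorem det_adj (X : M2) : det (adj X) = det X := by simp only [det, adj]; ring

theorem tr_adj (X : M2) : tr (adj X) = tr X := by simp only [tr, adj]; ring

theorem adj_adj (X : M2) : adj (adj X) = X := by ext <;> simp [adj]

theorem tr_cj (P X : M2) (hP : det P = 1) : tr (cj P X) = tr X := by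
  have : tr (cj P X) = det P * tr X := by
    simp only [tr, cj, det, adj, mul_a, mul_b, mul_c, mul_d]; ring
  rw [this, hP, one_mul]

theorem cj_mul (P X Y : M2) (hP : det P = 1) : cj P X * cj P Y = cj P (X * Y) := by
  have : cj P X * cj P Y = sc (det P) (cj P (X * Y)) := by
    ext <;> simp only [sc, cj, det, adj, mul_a, mul_b, mul_c, mul_d] <;> ring
  rw [this, hP]; ext <;> simp [sc]

theorem cj_adj (P X : M2) : adj (cj P X) = cj P (adj X) := by
  ext <;> simp only [cj, adj, mul_a, mul_b, mul_c, mul_d] <;> ring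

theorem cj_cj (P X : M2) (hP : det P = 1) : cj (adj P) (cj P X) = X := by
  have : cj (adj P) (cj P X) = sc (det P ^ 2) X := by
    ext <;> simp only [sc, cj, det, adj, mul_a, mul_b, mul_c, mul_d] <;> ring
  rw [this, hP]; ext <;> simp [sc]

theorem gam_cj (P X Y : M2) (hP : det P = 1) : gam (cj P X) (cj P Y) = gam X Y := by
  simp only [gam, cj_adj, cj_mul _ _ _ hP, tr_cj _ _ hP]

/-- All entries have norm at most `R`. -/
def Bd (R : ℝ) (X : M2) : Prop := ‖X.a‖ ≤ R ∧ ‖X.b‖ ≤ R ∧ ‖X.c‖ ≤ R ∧ ‖X.d‖ ≤ R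

theorem Bd.mul {R R' : ℝ} {X Y : M2} (hX : Bd R X) (hY : Bd R' Y) : Bd (2 * R * R') (X * Y) := by
  obtain ⟨h1, h2, h3, h4⟩ := hX
  obtain ⟨k1, k2, k3, k4⟩ := hY
  have hR : 0 ≤ R := (norm_nonneg _).trans h1
  have key : ∀ p q r s : ℂ, ‖p‖ ≤ R → ‖q‖ ≤ R' → ‖r‖ ≤ R → ‖s‖ ≤ R' →
      ‖p * q + r * s‖ ≤ 2 * R * R' := by
    intro p q r s hp hq hr hs
    have e1 : ‖p * q‖ ≤ R * R' := by
      rw [norm_mul]; exact mul_le_mul hp hq (norm_nonneg _) hR
    have e2 : ‖r * s‖ ≤ R * R' := by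
      rw [norm_mul]; exact mul_le_mul hr hs (norm_nonneg _) hR
    linarith [norm_add_le (p * q) (r * s)]
  exact ⟨key _ _ _ _ h1 k1 h2 k3, key _ _ _ _ h1 k2 h2 k4, key _ _ _ _ h3 k1 h4 k3,
    key _ _ _ _ h3 k2 h4 k4⟩

theorem Bd.adj {R : ℝ} {X : M2} (hX : Bd R X) : Bd R (adj X) := by
  obtain ⟨h1, h2, h3, h4⟩ := hX
  exact ⟨h4, by simpa [M2.adj] using h2, by simpa [M2.adj] using h3, h1⟩

theorem exists_bd (X : M2) : ∃ R, Bd R X := by
  refine ⟨‖X.a‖ + ‖X.b‖ + ‖X.c‖ + ‖X.d‖, ?_, ?_, ?_, ?_⟩ <;>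
    linarith [norm_nonneg X.a, norm_nonneg X.b, norm_nonneg X.c, norm_nonneg X.d]

end M2

open M2

/-- A discrete group of matrices of determinant one. -/
structure Good (S : Set M2) : Prop where
  mul : ∀ {X Y : M2}, X ∈ S → Y ∈ S → X * Y ∈ S
  adj : ∀ {X : M2}, X ∈ S → adj X ∈ S
  det : ∀ {X : M2}, X ∈ S → det X = 1
  fin : ∀ R : ℝ, {X | X ∈ S ∧ Bd R X}.Finite

theorem Good.cj {S : Set M2} (h : Good S) (P : M2) (hP : M2.det P = 1) :
    Good (M2.cj P '' S) := by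
  refine ⟨?_, ?_, ?_, fun R => ?_⟩
  · rintro _ _ ⟨X, hX, rfl⟩ ⟨Y, hY, rfl⟩
    exact ⟨X * Y, h.mul hX hY, (cj_mul P X Y hP).symm⟩
  · rintro _ ⟨X, hX, rfl⟩
    exact ⟨M2.adj X, h.adj hX, (cj_adj P X).symm⟩
  · rintro _ ⟨X, hX, rfl⟩
    simp only [M2.cj, det_mul, det_adj, hP, h.det hX, one_mul]
  · obtain ⟨T, hT⟩ := exists_bd P
    refine ((h.fin (2 * (2 * T * R) * T)).image (M2.cj P)).subset ?_
    rintro _ ⟨⟨X, hX, rfl⟩, hb⟩
    refine ⟨X, ⟨hX, ?_⟩, rfl⟩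
    have := (hT.adj.adj.mul hb).mul hT.adj
    rwa [show M2.adj (M2.adj P) * M2.cj P X * M2.adj P = X from cj_cj P X hP] at this

theorem Good.no_small {S : Set M2} (h : Good S) (φ : M2 → ℂ) (R : ℝ)
    (hs : ∀ ε > 0, ∃ X ∈ S, Bd R X ∧ φ X ≠ 0 ∧ ‖φ X‖ < ε) : False := by
  have hfin : {X | (X ∈ S ∧ Bd R X) ∧ φ X ≠ 0}.Finite := (h.fin R).subset fun X hX => hX.1
  obtain ⟨X0, h1, h2, h3, _⟩ := hs 1 one_pos
  obtain ⟨Y, hY, hmin⟩ := Set.exists_min_image _ (fun X => ‖φ X‖) hfin ⟨X0, ⟨h1, h2⟩, h3⟩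
  obtain ⟨Z, k1, k2, k3, k4⟩ := hs ‖φ Y‖ (norm_pos_iff.2 hY.2)
  exact absurd (hmin Z ⟨⟨k1, k2⟩, k3⟩) (not_le.2 k4)

/-- A geometric decay principle. -/
theorem Good.no_decay {S : Set M2} (h : Good S) (φ : M2 → ℂ) (R ρ : ℝ) (hρ : ρ < 1)
    (I : M2 → Prop) (hI : ∀ X, I X → (∃ Y ∈ S, Bd R Y ∧ φ Y = φ X) ∧ φ X ≠ 0)
    (step : ∀ X, I X → ∃ X', I X' ∧ ‖φ X'‖ ≤ ρ * ‖φ X‖) (X0 : M2) (h0 : I X0) : False := by
  have hρ0 : 0 ≤ ρ := by
    obtain ⟨X', h1, h2⟩ := step X0 h0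
    by_contra hneg
    have := norm_pos_iff.2 (hI X0 h0).2
    nlinarith [norm_nonneg (φ X')]
  have key : ∀ m : ℕ, ∃ X, I X ∧ ‖φ X‖ ≤ ρ ^ m * ‖φ X0‖ := by
    intro m
    induction m with
    | zero => exact ⟨X0, h0, by simp⟩
    | succ m ih =>
      obtain ⟨X, h1, h2⟩ := ih
      obtain ⟨X', h3, h4⟩ := step X h1
      refine ⟨X', h3, h4.trans ?_⟩
      rw [pow_succ, mul_comm (ρ ^ m), mul_assoc]
      exact mul_le_mul_of_nonneg_left h2 hρ0
  refine h.no_small φ R fun ε hε => ?_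
  have hp := norm_pos_iff.2 (hI X0 h0).2
  obtain ⟨m, hm⟩ := exists_pow_lt_of_lt_one (div_pos hε hp) hρ
  obtain ⟨X, h1, h2⟩ := key m
  obtain ⟨⟨Y, hY, hb, he⟩, hne⟩ := hI X h1
  refine ⟨Y, hY, hb, he ▸ hne, ?_⟩
  rw [he]
  rw [lt_div_iff₀ hp] at hm
  linarith

theorem Good.no_low {S : Set M2} (h : Good S) (τ : ℂ) (hτ0 : τ ≠ 0) (hτ : ‖τ‖ < 1)
    (hcl : ∀ e : ℂ, (⟨1, 0, e, 1⟩ : M2) ∈ S → (⟨1, 0, τ * e, 1⟩ : M2) ∈ S) (e : ℂ) (he : e ≠ 0)
    (hS : (⟨1, 0, e, 1⟩ : M2) ∈ S) : False := by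
  refine h.no_decay (fun X => X.c) (1 + ‖e‖) ‖τ‖ hτ
    (fun X => ∃ e', X = ⟨1, 0, e', 1⟩ ∧ X ∈ S ∧ e' ≠ 0 ∧ ‖e'‖ ≤ ‖e‖) ?_ ?_ _
    ⟨e, rfl, hS, he, le_rfl⟩
  · rintro _ ⟨e', rfl, h1, h2, h3⟩
    have := norm_nonneg e
    refine ⟨⟨_, h1, ⟨?_, ?_, ?_, ?_⟩, rfl⟩, h2⟩ <;> simp <;> linarith
  · rintro _ ⟨e', rfl, h1, h2, h3⟩
    refine ⟨_, ⟨τ * e', rfl, hcl e' h1, mul_ne_zero hτ0 h2, ?_⟩, by simp⟩
    rw [norm_mul]
    nlinarith [norm_nonneg e', norm_nonneg τ]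

theorem Good.no_up {S : Set M2} (h : Good S) (τ : ℂ) (hτ0 : τ ≠ 0) (hτ : ‖τ‖ < 1)
    (hcl : ∀ e : ℂ, (⟨1, e, 0, 1⟩ : M2) ∈ S → (⟨1, τ * e, 0, 1⟩ : M2) ∈ S) (e : ℂ) (he : e ≠ 0)
    (hS : (⟨1, e, 0, 1⟩ : M2) ∈ S) : False := by
  refine h.no_decay (fun X => X.b) (1 + ‖e‖) ‖τ‖ hτ
    (fun X => ∃ e', X = ⟨1, e', 0, 1⟩ ∧ X ∈ S ∧ e' ≠ 0 ∧ ‖e'‖ ≤ ‖e‖) ?_ ?_ _
    ⟨e, rfl, hS, he, le_rfl⟩
  · rintro _ ⟨e', rfl, h1, h2, h3⟩
    have := norm_nonneg e
    refine ⟨⟨_, h1, ⟨?_, ?_, ?_, ?_⟩, rfl⟩, h2⟩ <;> simp <;> linarith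
  · rintro _ ⟨e', rfl, h1, h2, h3⟩
    refine ⟨_, ⟨τ * e', rfl, hcl e' h1, mul_ne_zero hτ0 h2, ?_⟩, by simp⟩
    rw [norm_mul]
    nlinarith [norm_nonneg e', norm_nonneg τ]

end Pool.Agent.Lib.MP_743898_gt
end

-- part Pool.Agent.Lib.MP_743898_gt.Jorg
section

set_option autoImplicit false

/-! The Jorgensen inequality in algebraic form. -/

namespace Pool.Agent.Lib.MP_743898_gt

open M2

theorem decay_small (φ : M2 → ℂ) (ρ : ℝ) (hρ0 : 0 ≤ ρ) (hρ : ρ < 1) (I : M2 → Prop)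
    (step : ∀ X, I X → ∃ X', I X' ∧ ‖φ X'‖ ≤ ρ * ‖φ X‖) (X0 : M2) (h0 : I X0) (ε : ℝ)
    (hε : 0 < ε) : ∃ X, I X ∧ ‖φ X‖ ≤ ε := by
  have key : ∀ m : ℕ, ∃ X, I X ∧ ‖φ X‖ ≤ ρ ^ m * ‖φ X0‖ := by
    intro m
    induction m with
    | zero => exact ⟨X0, h0, by simp⟩
    | succ m ih =>
      obtain ⟨X, h1, h2⟩ := ih
      obtain ⟨X', h3, h4⟩ := step X h1
      refine ⟨X', h3, h4.trans ?_⟩
      rw [pow_succ, mul_comm (ρ ^ m), mul_assoc]
      exact mul_le_mul_of_nonneg_left h2 hρ0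
  have hp : 0 < ‖φ X0‖ + 1 := by positivity
  obtain ⟨m, hm⟩ := exists_pow_lt_of_lt_one (div_pos hε hp) hρ
  obtain ⟨X, h1, h2⟩ := key m
  refine ⟨X, h1, h2.trans ?_⟩
  rw [lt_div_iff₀ hp] at hm
  nlinarith [pow_nonneg hρ0 m]

/-- If an element maps one fixed point of a diagonal element to the other, it swaps them,
unless the crystallographic restriction allows otherwise. -/
theorem Good.swap {S : Set M2} (h : Good S) (l m : ℂ) (hk : (⟨l, 0, 0, m⟩ : M2) ∈ S)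
    (hδ : l - m ≠ 0) (τ : ℂ) (hτ : τ = l ^ 2 + m ^ 2 ∨ τ = l ^ 2 + m ^ 2 - 2) (hτ0 : τ ≠ 0)
    (hτ1 : ‖τ‖ < 1) (X : M2) (hX : X ∈ S) (had : X.a * X.d = 0) : X.a = 0 ∧ X.d = 0 := by
  have hlm : l * m = 1 := by simpa [M2.det] using h.det hk
  have hl : l ≠ 0 := left_ne_zero_of_mul_eq_one hlm
  have hm : m ≠ 0 := right_ne_zero_of_mul_eq_one hlm
  have hbc : X.b * X.c = -1 := by
    have := h.det hX
    simp only [M2.det] at this
    linear_combination had - this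
  have hb : X.b ≠ 0 := by rintro h0; simp [h0] at hbc
  have hc : X.c ≠ 0 := by rintro h0; simp [h0] at hbc
  have hY := h.mul (h.mul (h.mul hX hk) (h.adj hX)) hk
  have hlow : ∀ e : ℂ, (⟨1, 0, e, 1⟩ : M2) ∈ S → (⟨1, 0, τ * e, 1⟩ : M2) ∈ S := by
    intro e he
    have h1 := h.mul (h.mul (h.mul hk he) (h.adj hk)) (h.mul (h.mul (h.adj hk) he) hk)
    rcases hτ with rfl | rfl
    · convert h1 using 1
      ext <;> simp [M2.adj] <;> grind
    · convert h.mul h1 (h.mul (h.adj he) (h.adj he)) using 1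
      ext <;> simp [M2.adj] <;> grind
  have hup : ∀ e : ℂ, (⟨1, e, 0, 1⟩ : M2) ∈ S → (⟨1, τ * e, 0, 1⟩ : M2) ∈ S := by
    intro e he
    have h1 := h.mul (h.mul (h.mul hk he) (h.adj hk)) (h.mul (h.mul (h.adj hk) he) hk)
    rcases hτ with rfl | rfl
    · convert h1 using 1
      ext <;> simp [M2.adj] <;> grind
    · convert h.mul h1 (h.mul (h.adj he) (h.adj he)) using 1
      ext <;> simp [M2.adj] <;> grind
  by_contra hcon
  rcases mul_eq_zero.1 had with ha | hd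
  · have hd : X.d ≠ 0 := fun hd => hcon ⟨ha, hd⟩
    refine h.no_low τ hτ0 hτ1 hlow (X.c * X.d * (l - m) * l) (by simp [hc, hd, hδ, hl]) ?_
    convert hY using 1
    ext <;> simp [M2.adj, ha] <;> grind
  · have ha : X.a ≠ 0 := fun ha => hcon ⟨ha, hd⟩
    refine h.no_up τ hτ0 hτ1 hup (-(X.a * X.b * (l - m) * m)) (by simp [hb, ha, hδ, hm]) ?_
    convert hY using 1
    ext <;> simp [M2.adj, hd] <;> grind

theorem Good.balance {S : Set M2} (h : Good S) (l m : ℂ) (hk : (⟨l, 0, 0, m⟩ : M2) ∈ S)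
    (hl1 : 1 < ‖l‖) (X : M2) (hX : X ∈ S) (hb : X.b ≠ 0) :
    ∃ Y ∈ S, Y.a = X.a ∧ Y.d = X.d ∧ Y.b * Y.c = X.b * X.c ∧ 1 ≤ ‖Y.b‖ ∧ ‖Y.b‖ ≤ ‖l‖ ^ 2 := by
  have hlm : l * m = 1 := by simpa [M2.det] using h.det hk
  have hl : l ≠ 0 := left_ne_zero_of_mul_eq_one hlm
  have hm : m = l⁻¹ := (eq_inv_of_mul_eq_one_right hlm)
  have key : ∀ j : ℤ, (⟨X.a, X.b * (l ^ 2) ^ j, X.c * (l ^ 2) ^ (-j), X.d⟩ : M2) ∈ S := by
    intro j
    induction j using Int.induction_on with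
    | zero => simpa using hX
    | succ j ih =>
      convert h.mul (h.mul hk ih) (h.adj hk) using 1
      ext <;> simp [M2.adj, hm, zpow_add₀ (pow_ne_zero 2 hl)] <;> field_simp
    | pred j ih =>
      convert h.mul (h.mul (h.adj hk) ih) hk using 1
      ext <;> simp [M2.adj, hm, zpow_sub₀ (pow_ne_zero 2 hl), zpow_add₀ (pow_ne_zero 2 hl)] <;>
        field_simp
  have hL : 1 < ‖l‖ ^ 2 := by nlinarith
  have hbp : 0 < ‖X.b‖ := norm_pos_iff.2 hb
  obtain ⟨j, h1, h2⟩ := exists_mem_Ico_zpow hbp hL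
  have hp : 0 < (‖l‖ ^ 2) ^ j := zpow_pos (by linarith) _
  refine ⟨_, key (-j), rfl, rfl, ?_, ?_, ?_⟩
  · have := zpow_ne_zero j (pow_ne_zero 2 hl)
    simp only [neg_neg, zpow_neg]
    field_simp
  · simp only [norm_mul, norm_zpow, norm_pow, zpow_neg, norm_inv]
    rw [← div_eq_mul_inv, le_div_iff₀ hp]; linarith
  · simp only [norm_mul, norm_zpow, norm_pow, zpow_neg, norm_inv]
    rw [← div_eq_mul_inv, div_le_iff₀ hp]
    rw [zpow_add₀ (by linarith), zpow_one] at h2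
    linarith

theorem Good.balance' {S : Set M2} (h : Good S) (l m : ℂ) (hk : (⟨l, 0, 0, m⟩ : M2) ∈ S)
    (hl1 : ‖l‖ ≠ 1) (X : M2) (hX : X ∈ S) (hb : X.b ≠ 0) :
    ∃ Y ∈ S, Y.a = X.a ∧ Y.d = X.d ∧ Y.b * Y.c = X.b * X.c ∧ 1 ≤ ‖Y.b‖ ∧
      ‖Y.b‖ ≤ ‖l‖ ^ 2 + ‖m‖ ^ 2 := by
  have hlm : l * m = 1 := by simpa [M2.det] using h.det hk
  rcases lt_or_gt_of_ne hl1 with h1 | h1
  · have hn : ‖l‖ * ‖m‖ = 1 := by rw [← norm_mul, hlm, norm_one]
    have hm1 : 1 < ‖m‖ := by nlinarith [norm_nonneg l, norm_nonneg m]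
    have hk' : (⟨m, 0, 0, l⟩ : M2) ∈ S := by simpa [M2.adj] using h.adj hk
    obtain ⟨Y, h1, h2, h3, h4, h5, h6⟩ := h.balance m l hk' hm1 X hX hb
    exact ⟨Y, h1, h2, h3, h4, h5, by nlinarith [norm_nonneg l]⟩
  · obtain ⟨Y, h1, h2, h3, h4, h5, h6⟩ := h.balance l m hk h1 X hX hb
    exact ⟨Y, h1, h2, h3, h4, h5, by nlinarith [norm_nonneg m]⟩

end Pool.Agent.Lib.MP_743898_gt
end

-- part Pool.Agent.Lib.MP_743898_gt.Jorg2
section

set_option autoImplicit false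

namespace Pool.Agent.Lib.MP_743898_gt

open M2

theorem Good.jorg_diag {S : Set M2} (h : Good S) (l m : ℂ) (hk : (⟨l, 0, 0, m⟩ : M2) ∈ S)
    (hδ : l - m ≠ 0) (H : M2) (hH : H ∈ S) (hn : H.b * H.c ≠ 0) (htr : tr H ≠ 0)
    (hlt : ‖l - m‖ ^ 2 * (1 + ‖H.b * H.c‖) < 1) : False := by
  have hlm : l * m = 1 := by simpa [M2.det] using h.det hk
  set ν := ‖H.b * H.c‖ with hν
  set δ := ‖l - m‖ with hδd
  have hν0 : 0 ≤ ν := norm_nonneg _
  have hδ0 : 0 < δ := norm_pos_iff.2 hδ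
  have hδ2 : δ ^ 2 < 1 := by nlinarith
  have hδ1 : δ < 1 := by nlinarith
  have hτ : l ^ 2 + m ^ 2 - 2 = (l - m) ^ 2 := by linear_combination 2 * hlm
  have hsum : l + m ≠ 0 := by
    intro h0
    have h1 : (l - m) ^ 2 = -4 := by linear_combination (l + m) * h0 - 4 * hlm
    have h2 : δ ^ 2 = 4 := by rw [hδd, ← norm_pow, h1]; simp
    linarith
  -- the basic step
  have basic : ∀ X ∈ S, tr X ≠ 0 → X.b * X.c ≠ 0 →
      ∃ X' ∈ S, tr X' ≠ 0 ∧ X'.b * X'.c ≠ 0 ∧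
        ‖X'.b * X'.c‖ ≤ δ ^ 2 * (1 + ‖X.b * X.c‖) * ‖X.b * X.c‖ ∧
        ‖X'.a‖ ≤ ‖l‖ + ‖X.b * X.c‖ * δ ∧ ‖X'.d‖ ≤ ‖m‖ + ‖X.b * X.c‖ * δ ∧
        ‖X'.b‖ = ‖X.a‖ * δ * ‖X.b‖ ∧ ‖X'.c‖ = ‖X.d‖ * δ * ‖X.c‖ := by
    intro X hX ht hne
    have hd := h.det hX
    simp only [M2.det] at hd
    have had : X.a * X.d ≠ 0 := by
      intro h0
      obtain ⟨h1, h2⟩ := h.swap l m hk hδ _ (Or.inr rfl) (by rw [hτ]; exact pow_ne_zero 2 hδ)
        (by rw [hτ, norm_pow]; exact hδ2) X hX h0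
      exact ht (by simp [tr, h1, h2])
    have ea : (X * ⟨l, 0, 0, m⟩ * M2.adj X).a = l + X.b * X.c * (l - m) := by
      simp [M2.adj]; linear_combination l * hd
    have ed : (X * ⟨l, 0, 0, m⟩ * M2.adj X).d = m - X.b * X.c * (l - m) := by
      simp [M2.adj]; linear_combination m * hd
    have eb : (X * ⟨l, 0, 0, m⟩ * M2.adj X).b = -(X.a * (l - m) * X.b) := by
      simp [M2.adj]; ring
    have ec : (X * ⟨l, 0, 0, m⟩ * M2.adj X).c = X.d * (l - m) * X.c := by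
      simp [M2.adj]; ring
    have en : (X * ⟨l, 0, 0, m⟩ * M2.adj X).b * (X * ⟨l, 0, 0, m⟩ * M2.adj X).c
        = -((l - m) ^ 2 * (X.a * X.d) * (X.b * X.c)) := by rw [eb, ec]; ring
    refine ⟨_, h.mul (h.mul hX hk) (h.adj hX), ?_, ?_, ?_, ?_, ?_, ?_, ?_⟩
    · rw [tr, ea, ed]; convert hsum using 1; ring
    · rw [en]; exact neg_ne_zero.2 (mul_ne_zero (mul_ne_zero (pow_ne_zero 2 hδ) had) hne)
    · rw [en, norm_neg, norm_mul, norm_mul, norm_pow,
        show X.a * X.d = 1 + X.b * X.c by linear_combination hd]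
      have := norm_add_le 1 (X.b * X.c)
      rw [norm_one] at this
      gcongr
    · rw [ea]; refine (norm_add_le _ _).trans ?_; rw [norm_mul]
    · rw [ed]; refine (norm_sub_le _ _).trans ?_; rw [norm_mul]
    · rw [eb, norm_neg, norm_mul, norm_mul]
    · rw [ec, norm_mul, norm_mul]
  set ρ := δ ^ 2 * (1 + ν) with hρ
  have hρ0 : 0 ≤ ρ := by positivity
  have shrink : ∀ t : ℝ, 0 ≤ t → t ≤ ν → δ ^ 2 * (1 + t) * t ≤ ρ * t := by
    intro t h0 h1; rw [hρ]; gcongr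
  by_cases hl1 : ‖l‖ = 1
  · have hm1 : ‖m‖ = 1 := by
      have : ‖l‖ * ‖m‖ = 1 := by rw [← norm_mul, hlm, norm_one]
      rwa [hl1, one_mul] at this
    obtain ⟨X1, ⟨a1, a2, a3, a4⟩, a5⟩ := decay_small (fun X => X.b * X.c) ρ hρ0 hlt
      (fun X => X ∈ S ∧ tr X ≠ 0 ∧ X.b * X.c ≠ 0 ∧ ‖X.b * X.c‖ ≤ ν)
      (by
        rintro X ⟨h1, h2, h3, h4⟩
        obtain ⟨X', k1, k2, k3, k4, _⟩ := basic X h1 h2 h3
        have := shrink _ (norm_nonneg _) h4
        exact ⟨X', ⟨k1, k2, k3, by nlinarith [norm_nonneg (X.b * X.c)]⟩, k4.trans this⟩)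
      H ⟨hH, htr, hn, le_rfl⟩ (1 - δ) (by linarith)
    obtain ⟨X2, b1, b2, b3, b4, b5, b6, _, _⟩ := basic X1 a1 a2 a3
    have hs1 := shrink _ (norm_nonneg _) a4
    refine h.no_decay (fun X => X.b * X.c) (2 + ‖X2.b‖ + ‖X2.c‖) ρ hlt
      (fun X => X ∈ S ∧ tr X ≠ 0 ∧ X.b * X.c ≠ 0 ∧ ‖X.b * X.c‖ ≤ ν ∧ ‖X.b * X.c‖ ≤ 1 - δ ∧
        ‖X.a‖ ≤ 2 - δ ∧ ‖X.d‖ ≤ 2 - δ ∧ ‖X.b‖ ≤ ‖X2.b‖ ∧ ‖X.c‖ ≤ ‖X2.c‖) ?_ ?_ X2 ?_
    · rintro X ⟨h1, _, h3, _, _, h6, h7, h8, h9⟩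
      have := norm_nonneg X2.b
      have := norm_nonneg X2.c
      exact ⟨⟨X, h1, ⟨by linarith, by linarith, by linarith, by linarith⟩, rfl⟩, h3⟩
    · rintro X ⟨h1, h2, h3, h4, h5, h6, h7, h8, h9⟩
      obtain ⟨X', k1, k2, k3, k4, k5, k6, k7, k8⟩ := basic X h1 h2 h3
      have hs := shrink _ (norm_nonneg _) h4
      have h0 := norm_nonneg (X.b * X.c)
      have hle : ‖X'.b * X'.c‖ ≤ ‖X.b * X.c‖ := by nlinarith
      have e1 : ‖X.a‖ * δ ≤ 1 := by nlinarith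
      have e2 : ‖X.d‖ * δ ≤ 1 := by nlinarith
      refine ⟨X', ⟨k1, k2, k3, hle.trans h4, hle.trans h5, by nlinarith, by nlinarith, ?_, ?_⟩,
        k4.trans hs⟩
      · rw [k7]; nlinarith [norm_nonneg X.b]
      · rw [k8]; nlinarith [norm_nonneg X.c]
    · have h0 := norm_nonneg (X1.b * X1.c)
      have hle : ‖X2.b * X2.c‖ ≤ ‖X1.b * X1.c‖ := by nlinarith
      exact ⟨b1, b2, b3, hle.trans a4, hle.trans a5, by nlinarith, by nlinarith, le_rfl, le_rfl⟩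
  · obtain ⟨X2, b1, b2, b3, b4, b5, b6, _, _⟩ := basic H hH htr hn
    refine h.no_decay (fun X => X.b * X.c) (‖l‖ + ‖m‖ + ν + (‖l‖ ^ 2 + ‖m‖ ^ 2)) ρ hlt
      (fun X => X ∈ S ∧ tr X ≠ 0 ∧ X.b * X.c ≠ 0 ∧ ‖X.b * X.c‖ ≤ ν ∧
        ‖X.a‖ ≤ ‖l‖ + ν ∧ ‖X.d‖ ≤ ‖m‖ + ν) ?_ ?_ X2 ?_
    · rintro X ⟨h1, _, h3, h4, h5, h6⟩
      obtain ⟨Y, k1, k2, k3, k4, k5, k6⟩ := h.balance' l m hk hl1 X h1 (left_ne_zero_of_mul h3)
      have := norm_nonneg l
      have := norm_nonneg m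
      have hc : ‖Y.c‖ ≤ ν := by
        rw [← k4, norm_mul] at h4
        nlinarith [norm_nonneg Y.c]
      refine ⟨⟨Y, k1, ⟨?_, ?_, ?_, ?_⟩, k4⟩, h3⟩
      · rw [k2]; nlinarith
      · linarith
      · nlinarith
      · rw [k3]; nlinarith
    · rintro X ⟨h1, h2, h3, h4, _, _⟩
      obtain ⟨X', k1, k2, k3, k4, k5, k6, _, _⟩ := basic X h1 h2 h3
      have hs := shrink _ (norm_nonneg _) h4
      have h0 := norm_nonneg (X.b * X.c)
      have hle : ‖X'.b * X'.c‖ ≤ ‖X.b * X.c‖ := by nlinarith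
      exact ⟨X', ⟨k1, k2, k3, hle.trans h4, by nlinarith, by nlinarith⟩, k4.trans hs⟩
    · exact ⟨b1, b2, b3, by nlinarith, by nlinarith, by nlinarith⟩

theorem Good.jorg_par {S : Set M2} (h : Good S) (e s : ℂ) (hk : (⟨e, s, 0, e⟩ : M2) ∈ S)
    (H : M2) (hH : H ∈ S) (hn : s * H.c ≠ 0) (hlt : ‖s * H.c‖ < 1) : False := by
  have he : e * e = 1 := by simpa [M2.det] using h.det hk
  have he1 : ‖e‖ = 1 := by
    have : ‖e‖ * ‖e‖ = 1 := by rw [← norm_mul, he, norm_one]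
    nlinarith [norm_nonneg e]
  set q := ‖s * H.c‖ with hq
  have hq0 : 0 ≤ q := norm_nonneg _
  have hs : s ≠ 0 := left_ne_zero_of_mul hn
  have hs0 : 0 < ‖s‖ := norm_pos_iff.2 hs
  set T := ‖H.a‖ + 1 / (1 - q) with hT
  have hT1 : 1 + q * T ≤ T := by
    have h1 : (1 - q) * (1 / (1 - q)) = 1 := mul_one_div_cancel (by linarith)
    have h2 : 0 ≤ (1 - q) * ‖H.a‖ := mul_nonneg (by linarith) (norm_nonneg _)
    rw [hT]; nlinarith
  have hT0 : 0 ≤ T := by nlinarith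
  have basic : ∀ X ∈ S, s * X.c ≠ 0 → ‖s * X.c‖ ≤ q → ‖X.a‖ ≤ T →
      ∃ X' ∈ S, s * X'.c ≠ 0 ∧ ‖s * X'.c‖ ≤ q * ‖s * X.c‖ ∧ ‖X'.a‖ ≤ T ∧ ‖X'.d‖ ≤ T ∧
        ‖X'.b‖ ≤ ‖s‖ * T ^ 2 := by
    intro X hX h1 h2 h3
    have hd := h.det hX
    simp only [M2.det] at hd
    have ea : (X * ⟨e, s, 0, e⟩ * M2.adj X).a = e - X.a * (s * X.c) := by
      simp [M2.adj]; linear_combination e * hd
    have ed : (X * ⟨e, s, 0, e⟩ * M2.adj X).d = e + X.a * (s * X.c) := by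
      simp [M2.adj]; linear_combination e * hd
    have eb : (X * ⟨e, s, 0, e⟩ * M2.adj X).b = s * X.a ^ 2 := by
      simp [M2.adj]; ring
    have ec : s * (X * ⟨e, s, 0, e⟩ * M2.adj X).c = -((s * X.c) * (s * X.c)) := by
      simp [M2.adj]; ring
    have hp : ‖X.a * (s * X.c)‖ ≤ T * q := by
      rw [norm_mul]; exact mul_le_mul h3 h2 (norm_nonneg _) hT0
    refine ⟨_, h.mul (h.mul hX hk) (h.adj hX), ?_, ?_, ?_, ?_, ?_⟩
    · rw [ec]; exact neg_ne_zero.2 (mul_ne_zero h1 h1)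
    · rw [ec, norm_neg, norm_mul]; exact mul_le_mul_of_nonneg_right h2 (norm_nonneg _)
    · rw [ea]; refine (norm_sub_le _ _).trans ?_; rw [he1]; linarith
    · rw [ed]; refine (norm_add_le _ _).trans ?_; rw [he1]; linarith
    · rw [eb, norm_mul, norm_pow]; gcongr
  have hTa : ‖H.a‖ ≤ T := by
    have : 0 < 1 / (1 - q) := by apply div_pos one_pos; linarith
    linarith
  obtain ⟨X2, b1, b2, b3, b4, b5, b6⟩ := basic H hH hn le_rfl hTa
  refine h.no_decay (fun X => s * X.c) (T + ‖s‖ * T ^ 2 + q / ‖s‖) q hlt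
    (fun X => X ∈ S ∧ s * X.c ≠ 0 ∧ ‖s * X.c‖ ≤ q ∧ ‖X.a‖ ≤ T ∧ ‖X.d‖ ≤ T ∧
      ‖X.b‖ ≤ ‖s‖ * T ^ 2) ?_ ?_ X2 ⟨b1, b2, by nlinarith, b4, b5, b6⟩
  · rintro X ⟨h1, h2, h3, h4, h5, h6⟩
    have e1 : 0 ≤ ‖s‖ * T ^ 2 := by positivity
    have e2 : 0 ≤ q / ‖s‖ := by positivity
    have e3 : ‖X.c‖ ≤ q / ‖s‖ := by
      rw [le_div_iff₀ hs0, mul_comm, ← norm_mul]; exact h3
    exact ⟨⟨X, h1, ⟨by linarith, by linarith, by linarith, by linarith⟩, rfl⟩, h2⟩
  · rintro X ⟨h1, h2, h3, h4, _, _⟩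
    obtain ⟨X', k1, k2, k3, k4, k5, k6⟩ := basic X h1 h2 h3 h4
    exact ⟨X', ⟨k1, k2, by nlinarith [norm_nonneg (s * X.c)], k4, k5, k6⟩, k3⟩

end Pool.Agent.Lib.MP_743898_gt
end

-- part Pool.Agent.Lib.MP_743898_gt.Tan
section

set_option autoImplicit false
set_option linter.unusedSimpArgs false

/-! The Jorgensen inequality and the Tan inequality for pairs of equal trace. -/

namespace Pool.Agent.Lib.MP_743898_gt

open M2

theorem cj_cj' (P Q X : M2) : cj Q (cj P X) = cj (P * Q) X := by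
  ext <;> simp only [cj, M2.adj, mul_a, mul_b, mul_c, mul_d] <;> ring

theorem exists_upper (k : M2) (hk : M2.det k = 1) :
    ∃ P, M2.det P = 1 ∧ (cj P k).c = 0 := by
  by_cases hc : k.c = 0
  · exact ⟨⟨1, 0, 0, 1⟩, by simp [M2.det], by simp [cj, M2.adj, hc]⟩
  · obtain ⟨r, hr⟩ := IsAlgClosed.exists_pow_nat_eq ((k.a + k.d) ^ 2 - 4) two_pos
    refine ⟨⟨(k.a + k.d + r) / 2 - k.d, -1 / k.c, k.c, 0⟩, by simp [M2.det]; field_simp, ?_⟩
    simp only [M2.det] at hk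
    simp only [cj, M2.adj, mul_a, mul_b, mul_c, mul_d]
    linear_combination (k.c / 4) * hr + k.c * hk

theorem exists_normal (k : M2) (hk : M2.det k = 1) :
    ∃ P, M2.det P = 1 ∧ ((∃ l m, l - m ≠ 0 ∧ cj P k = ⟨l, 0, 0, m⟩) ∨
      ∃ e s, cj P k = ⟨e, s, 0, e⟩) := by
  obtain ⟨P, hP, hc⟩ := exists_upper k hk
  by_cases hlm : (cj P k).a - (cj P k).d = 0
  · refine ⟨P, hP, Or.inr ⟨(cj P k).a, (cj P k).b, ?_⟩⟩
    ext
    · rfl
    · rfl
    · exact hc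
    · exact (sub_eq_zero.1 hlm).symm
  · refine ⟨P * ⟨1, -(cj P k).b / ((cj P k).a - (cj P k).d), 0, 1⟩, ?_,
      Or.inl ⟨(cj P k).a, (cj P k).d, hlm, ?_⟩⟩
    · rw [det_mul, hP]; simp [M2.det]
    · rw [← cj_cj']
      generalize cj P k = Y at hc hlm ⊢
      ext <;> simp [cj, M2.adj, hc]
      field_simp
      ring

theorem gam_diag (l m : ℂ) (hlm : l * m = 1) (H : M2) (hH : M2.det H = 1) :
    gam ⟨l, 0, 0, m⟩ H = -((l - m) ^ 2 * (H.b * H.c)) := by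
  simp only [M2.det] at hH
  simp only [gam, tr, M2.adj, mul_a, mul_b, mul_c, mul_d]
  linear_combination (2 * (H.a * H.d - H.b * H.c)) * hlm + 2 * hH

/-- The Jorgensen inequality. -/
theorem Good.jorg {S : Set M2} (h : Good S) {k H : M2} (hk : k ∈ S) (hH : H ∈ S)
    (hlt : ‖tr k ^ 2 - 4‖ + ‖gam k H‖ < 1) : gam k H = 0 ∨ tr H = 0 := by
  by_contra hcon
  push Not at hcon
  obtain ⟨hg, ht⟩ := hcon
  obtain ⟨P, hP, hn⟩ := exists_normal k (h.det hk)
  have h' := h.cj P hP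
  have hk' : M2.cj P k ∈ M2.cj P '' S := ⟨k, hk, rfl⟩
  have hH' : M2.cj P H ∈ M2.cj P '' S := ⟨H, hH, rfl⟩
  rw [← gam_cj P k H hP] at hlt hg
  rw [← tr_cj P k hP] at hlt
  rw [← tr_cj P H hP] at ht
  generalize M2.cj P H = Y at hH' hlt hg ht
  rcases hn with ⟨l, m, hδ, he⟩ | ⟨e, s, he⟩
  · rw [he] at hk' hlt hg
    have hlm : l * m = 1 := by simpa [M2.det] using h'.det hk'
    rw [gam_diag l m hlm Y (h'.det hH')] at hlt hg
    have hβ : tr ⟨l, 0, 0, m⟩ ^ 2 - 4 = (l - m) ^ 2 := by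
      simp only [tr]; linear_combination 4 * hlm
    rw [hβ, norm_neg, norm_mul, norm_pow] at hlt
    refine h'.jorg_diag l m hk' hδ Y hH' ?_ ht (by linarith)
    intro h0; exact hg (by rw [h0]; simp)
  · rw [he] at hk' hlt hg
    have hee : e * e = 1 := by simpa [M2.det] using h'.det hk'
    have hd := h'.det hH'
    have hγ : gam ⟨e, s, 0, e⟩ Y = (s * Y.c) ^ 2 := by
      simp only [M2.det] at hd
      simp only [gam, tr, M2.adj, mul_a, mul_b, mul_c, mul_d]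
      linear_combination (2 * (Y.a * Y.d - Y.b * Y.c)) * hee + 2 * hd
    rw [hγ] at hlt hg
    refine h'.jorg_par e s hk' Y hH' (fun h0 => hg (by rw [h0]; simp)) ?_
    rw [norm_pow] at hlt
    nlinarith [norm_nonneg (tr ⟨e, s, 0, e⟩ ^ 2 - 4), norm_nonneg (s * Y.c)]

theorem fricke (X Y : M2) (hX : M2.det X = 1) (hY : M2.det Y = 1) :
    gam X Y = tr X ^ 2 + tr Y ^ 2 + tr (X * Y) ^ 2 - tr X * tr Y * tr (X * Y) - 4 := by
  have : tr (X * Y * M2.adj X * M2.adj Y) = tr X ^ 2 * M2.det Y + tr Y ^ 2 * M2.det X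
      + tr (X * Y) ^ 2 - tr X * tr Y * tr (X * Y) - 2 * M2.det X * M2.det Y := by
    simp only [tr, M2.det, M2.adj, mul_a, mul_b, mul_c, mul_d]; ring
  rw [gam, this, hX, hY]; ring

theorem tr_mul_adj (X Y : M2) : tr (X * M2.adj Y) = tr X * tr Y - tr (X * Y) := by
  simp only [tr, M2.adj, mul_a, mul_b, mul_c, mul_d]; ring

theorem tr_sq_mul (X Y : M2) (hX : M2.det X = 1) :
    tr (X * X * Y) = tr X * tr (X * Y) - tr Y := by
  have : tr (X * X * Y) = tr X * tr (X * Y) - M2.det X * tr Y := by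
    simp only [tr, M2.det, mul_a, mul_b, mul_c, mul_d]; ring
  rw [this, hX, one_mul]

theorem tr_sq (X : M2) (hX : M2.det X = 1) : tr (X * X) = tr X ^ 2 - 2 := by
  have : tr (X * X) = tr X ^ 2 - 2 * M2.det X := by
    simp only [tr, M2.det, mul_a, mul_b, mul_c, mul_d]; ring
  rw [this, hX, mul_one]

theorem tr_cube_mul (X Y : M2) (hX : M2.det X = 1) :
    tr (X * X * X * Y) = (tr X ^ 2 - 1) * tr (X * Y) - tr X * tr Y := by
  have : tr (X * X * X * Y) = (tr X ^ 2 - M2.det X) * tr (X * Y) - M2.det X * tr X * tr Y := by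
    simp only [tr, M2.det, mul_a, mul_b, mul_c, mul_d]; ring
  rw [this, hX, one_mul]

theorem tr_cube (X : M2) (hX : M2.det X = 1) : tr (X * X * X) = tr X ^ 3 - 3 * tr X := by
  have : tr (X * X * X) = tr X ^ 3 - 3 * M2.det X * tr X := by
    simp only [tr, M2.det, mul_a, mul_b, mul_c, mul_d]; ring
  rw [this, hX, mul_one]

theorem gam_sq (X Y : M2) (hX : M2.det X = 1) (hY : M2.det Y = 1) :
    gam (X * X) Y = tr X ^ 2 * gam X Y := by
  rw [fricke _ _ (by rw [det_mul, hX, one_mul]) hY, fricke _ _ hX hY, tr_sq_mul _ _ hX,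
    tr_sq _ hX]
  ring

theorem gam_cube (X Y : M2) (hX : M2.det X = 1) (hY : M2.det Y = 1) :
    gam (X * X * X) Y = (tr X ^ 2 - 1) ^ 2 * gam X Y := by
  rw [fricke _ _ (by rw [det_mul, det_mul, hX, one_mul, one_mul]) hY, fricke _ _ hX hY,
    tr_cube_mul _ _ hX, tr_cube _ hX]
  ring

theorem tr_conj (X Y : M2) (hX : M2.det X = 1) : tr (X * Y * M2.adj X) = tr Y := by
  have := tr_cj (M2.adj X) Y (by rw [det_adj, hX])
  rwa [cj, adj_adj] at this

theorem tr_comm (X Y : M2) : tr (X * Y) = tr (Y * X) := by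
  simp only [tr, mul_a, mul_d]; ring

theorem tr_mul_adj_conj (X Y : M2) :
    tr (X * M2.adj (Y * X * M2.adj Y)) = gam X Y + 2 := by
  simp only [gam, tr, M2.adj, mul_a, mul_b, mul_c, mul_d]; ring

end Pool.Agent.Lib.MP_743898_gt
end

-- part Pool.Agent.Lib.MP_743898_gt.Pair
section

set_option autoImplicit false
set_option linter.unusedSimpArgs false

namespace Pool.Agent.Lib.MP_743898_gt

open M2

theorem gam_pair (A B : M2) (hA : M2.det A = 1) (hB : M2.det B = 1) (ht : tr B = tr A) :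
    gam A B = (tr (A * M2.adj B) - 2) * (tr (A * M2.adj B) - 2 - (tr A ^ 2 - 4)) := by
  rw [fricke _ _ hA hB, tr_mul_adj, ht]; ring

theorem Good.small_v {S : Set M2} (h : Good S) {A B : M2} (hA : A ∈ S) (hB : B ∈ S)
    (ht : tr B = tr A) (h1 : ‖1 - tr (A * B)‖ ≤ 1 / 10)
    (h2 : ‖tr A ^ 2 - 2‖ + ‖1 - tr (A * B)‖ < 1) : 1 - tr (A * B) = 0 := by
  by_contra hv
  have hAB := h.mul hA hB
  have dA := h.det hA
  have dB := h.det hB
  obtain ⟨v, hv'⟩ : ∃ v, v = 1 - tr (A * B) := ⟨_, rfl⟩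
  obtain ⟨a, ha⟩ : ∃ a, a = tr A ^ 2 - 2 := ⟨_, rfl⟩
  rw [← hv'] at h1 h2 hv
  rw [← ha] at h2
  have hz : tr (A * B) = 1 - v := by rw [hv']; ring
  have hx : tr A ^ 2 = a + 2 := by rw [ha]; ring
  have e0 : tr (A * B * A) = tr A * tr (A * B) - tr B := by
    rw [← tr_sq_mul _ _ dA]
    simp only [tr, mul_a, mul_b, mul_c, mul_d]; ring
  have e1 : gam (A * B * (A * B) * (A * B)) A = (v * (v - 2)) ^ 2 * ((a - 1 + v) * (1 + v)) := by
    rw [gam_cube _ _ (h.det hAB) dA, fricke _ _ (h.det hAB) dA, e0, ht, hz]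
    linear_combination (v * (v - 2)) ^ 2 * (1 + v) * hx
  have e2 : tr (A * B * (A * B) * (A * B)) ^ 2 - 4 = (v * (v - 2)) ^ 2 * ((v - 3) * (v + 1)) := by
    rw [tr_cube _ (h.det hAB), hz]; ring
  have n1 : ‖v - 2‖ ≤ 21 / 10 := (norm_sub_le _ _).trans (by simp; linarith)
  have n2 : ‖v - 3‖ ≤ 31 / 10 := (norm_sub_le _ _).trans (by simp; linarith)
  have n3 : ‖v + 1‖ ≤ 11 / 10 := (norm_add_le _ _).trans (by simp; linarith)
  have n4 : ‖1 + v‖ ≤ 11 / 10 := by rwa [add_comm]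
  have n5 : ‖a - 1 + v‖ ≤ 2 := by
    have := norm_add_le (a - 1) v
    have := norm_sub_le a 1
    simp at this
    linarith
  have := h.jorg (h.mul (h.mul hAB hAB) hAB) hA (by
    rw [e1, e2]
    simp only [norm_mul, norm_pow]
    have m1 : (‖v‖ * ‖v - 2‖) ^ 2 ≤ (1 / 10 * (21 / 10)) ^ 2 := by gcongr
    have m2 : ‖v - 3‖ * ‖v + 1‖ ≤ 31 / 10 * (11 / 10) := by gcongr
    have m3 : ‖a - 1 + v‖ * ‖1 + v‖ ≤ 2 * (11 / 10) := by gcongr
    have m4 : (‖v‖ * ‖v - 2‖) ^ 2 * (‖v - 3‖ * ‖v + 1‖)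
        ≤ (1 / 10 * (21 / 10)) ^ 2 * (31 / 10 * (11 / 10)) := by gcongr
    have m5 : (‖v‖ * ‖v - 2‖) ^ 2 * (‖a - 1 + v‖ * ‖1 + v‖)
        ≤ (1 / 10 * (21 / 10)) ^ 2 * (2 * (11 / 10)) := by gcongr
    linarith)
  rcases this with h0 | h0
  · rw [e1] at h0
    have k1 : v - 2 ≠ 0 := by
      intro k; rw [show v = 2 by linear_combination k] at h1; norm_num at h1
    have k2 : 1 + v ≠ 0 := by
      intro k; rw [show v = -1 by linear_combination k] at h1; norm_num at h1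
    have k3 : a - 1 + v ≠ 0 := by
      intro k
      have := norm_add_le a v
      rw [show a + v = 1 by linear_combination k, norm_one] at this
      linarith
    exact mul_ne_zero (pow_ne_zero 2 (mul_ne_zero hv k1)) (mul_ne_zero k3 k2) h0
  · rw [h0] at hx
    rw [show a = -2 by linear_combination -hx] at h2
    simp at h2
    linarith [norm_nonneg v]

theorem Good.braid {S : Set M2} (h : Good S) {A B : M2} (hA : A ∈ S) (hB : B ∈ S)
    (ht : tr B = tr A) (hz : tr (A * B) = 1) (h0 : tr A ^ 2 - 2 ≠ 0)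
    (h1 : ‖tr A ^ 2 - 2‖ ≤ 1 / 2) : False := by
  have dA := h.det hA
  have dB := h.det hB
  obtain ⟨a, ha⟩ : ∃ a, a = tr A ^ 2 - 2 := ⟨_, rfl⟩
  rw [← ha] at h0 h1
  have hx : tr A ^ 2 = a + 2 := by rw [ha]; ring
  have hy := h.mul hA hB
  have hW := h.mul (h.mul (h.mul (h.mul (h.adj hA) hB) hA) hA) hA
  generalize hWd : M2.adj A * B * A * A * A = W at hW
  have tW : tr W = 0 := by
    have : tr (M2.adj A * B * A * A * A) = M2.det A * (tr A * tr (A * B) - M2.det A * tr B) := by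
      simp only [tr, M2.det, M2.adj, mul_a, mul_b, mul_c, mul_d]; ring
    rw [← hWd, this, dA, hz, ht]; ring
  have tyW : tr (A * B * W) = -(tr A * a ^ 2) := by
    have : tr (A * B * (M2.adj A * B * A * A * A))
        = (tr A ^ 3 - 2 * tr A * M2.det A) * (-(tr A ^ 2 * M2.det B) - tr (A * B) ^ 2
            + tr A * tr B * tr (A * B) + 2 * M2.det A * M2.det B)
          - (tr A ^ 2 - M2.det A) * M2.det A *
            (tr A * tr B ^ 2 - tr B * tr (A * B) - tr A * M2.det B) := by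
      simp only [tr, M2.det, M2.adj, mul_a, mul_b, mul_c, mul_d]; ring
    rw [← hWd, this, dA, dB, hz, ht, ha]; ring
  generalize A * B = y at hy hz tyW
  have hh := h.mul hy hW
  obtain ⟨w, hw⟩ : ∃ w, w = a ^ 4 * (a + 2) := ⟨_, rfl⟩
  have tw : tr (y * W) ^ 2 = w := by rw [tyW, hw, ← hx]; ring
  have e0 : tr (y * W * y) = tr (y * W) := by
    have : tr (y * W * y) = tr (y * y * W) := by
      simp only [tr, mul_a, mul_b, mul_c, mul_d]; ring
    rw [this, tr_sq_mul _ _ (h.det hy), hz, tW]; ring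
  have e1 : gam (y * W * (y * W)) y = w * (w - 3) := by
    rw [gam_sq _ _ (h.det hh) (h.det hy), fricke _ _ (h.det hh) (h.det hy), e0, hz, ← tw]; ring
  have e2 : tr (y * W * (y * W)) = w - 2 := by rw [tr_sq _ (h.det hh), tw]
  have hk := h.mul hh hh
  generalize y * W * (y * W) = k at hk e1 e2
  have hg := h.mul (h.mul hy hk) (h.adj hy)
  have e3 : tr (y * k * M2.adj y) = w - 2 := by rw [tr_conj _ _ (h.det hy), e2]
  have e4 : gam k (y * k * M2.adj y) = w * (w - 3) * w := by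
    rw [gam_pair _ _ (h.det hk) (h.det hg) (by rw [e3, e2]), tr_mul_adj_conj, e1, e2]; ring
  have nw : ‖w‖ ≤ 5 / 32 := by
    rw [hw, norm_mul, norm_pow]
    have : ‖a + 2‖ ≤ 5 / 2 := (norm_add_le _ _).trans (by simp; linarith)
    calc ‖a‖ ^ 4 * ‖a + 2‖ ≤ (1 / 2) ^ 4 * (5 / 2) := by gcongr
      _ = 5 / 32 := by norm_num
  have w0 : w ≠ 0 := by
    rw [hw]
    refine mul_ne_zero (pow_ne_zero 4 h0) fun k => ?_
    rw [show a = -2 by linear_combination k] at h1; norm_num at h1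
  have n3 : ‖w - 3‖ ≤ 3 + 5 / 32 := (norm_sub_le _ _).trans (by simp; linarith)
  have n4 : ‖w - 4‖ ≤ 4 + 5 / 32 := (norm_sub_le _ _).trans (by simp; linarith)
  have := h.jorg hk hg (by
    rw [e4, e2, show (w - 2) ^ 2 - 4 = w * (w - 4) by ring]
    simp only [norm_mul]
    have m1 : ‖w‖ * ‖w - 4‖ ≤ 5 / 32 * (4 + 5 / 32) := by gcongr
    have m2 : ‖w‖ * ‖w - 3‖ * ‖w‖ ≤ 5 / 32 * (3 + 5 / 32) * (5 / 32) := by gcongr
    linarith)
  rcases this with k0 | k0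
  · rw [e4] at k0
    have : w - 3 ≠ 0 := by
      intro k; rw [show w = 3 by linear_combination k] at nw; norm_num at nw
    exact mul_ne_zero (mul_ne_zero w0 this) w0 k0
  · rw [e3] at k0
    rw [show w = 2 by linear_combination k0] at nw; norm_num at nw

theorem v_next (A X : M2) (hA : M2.det A = 1) (hX : M2.det X = 1) (ht : tr X = tr A) :
    1 - tr (A * (X * A * M2.adj X))
      = (1 - tr (A * X)) * ((1 - tr (A * X)) + (tr A ^ 2 - 2)) := by
  have h1 := tr_mul_adj A (X * A * M2.adj X)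
  rw [tr_mul_adj_conj, tr_conj _ _ hX, fricke _ _ hA hX, ht] at h1
  linear_combination -h1

/-- The Tan inequality. -/
theorem Good.tan {S : Set M2} (h : Good S) {A B : M2} (hA : A ∈ S) (hB : B ∈ S)
    (ht : tr B = tr A) (hv : 1 - tr (A * B) ≠ 0) :
    1 ≤ ‖tr A ^ 2 - 2‖ + ‖1 - tr (A * B)‖ := by
  by_contra hlt
  push Not at hlt
  obtain ⟨X, ⟨a1, a2, a3, a4⟩, a5⟩ := decay_small (fun X => 1 - tr (A * X))
    (‖tr A ^ 2 - 2‖ + ‖1 - tr (A * B)‖) (by positivity) hlt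
    (fun X => X ∈ S ∧ tr X = tr A ∧ 1 - tr (A * X) ≠ 0 ∧ ‖1 - tr (A * X)‖ ≤ ‖1 - tr (A * B)‖)
    (by
      rintro X ⟨h1, h2, h3, h4⟩
      have hX' := h.mul (h.mul h1 hA) (h.adj h1)
      have e := v_next A X (h.det hA) (h.det h1) h2
      have t' := tr_conj X A (h.det h1)
      have n : ‖1 - tr (A * (X * A * M2.adj X))‖
          ≤ (‖tr A ^ 2 - 2‖ + ‖1 - tr (A * B)‖) * ‖1 - tr (A * X)‖ := by
        rw [e, norm_mul, mul_comm]
        refine mul_le_mul_of_nonneg_right ((norm_add_le _ _).trans ?_) (norm_nonneg _)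
        linarith
      refine ⟨_, ⟨hX', t', ?_, ?_⟩, n⟩
      · intro h0
        have h5 : tr A ^ 2 - 2 = -(1 - tr (A * X)) := by
          rw [e] at h0
          linear_combination (mul_eq_zero.1 h0).resolve_left h3
        refine h.braid hA hX' t' (by linear_combination -h0) (by rw [h5]; exact neg_ne_zero.2 h3) ?_
        have : ‖tr A ^ 2 - 2‖ ≤ ‖1 - tr (A * B)‖ := by rw [h5, norm_neg]; exact h4
        linarith
      · nlinarith [norm_nonneg (1 - tr (A * X))])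
    B ⟨hB, ht, hv, le_rfl⟩ (1 / 10) (by norm_num)
  exact a3 (h.small_v hA a1 a2 a5 (by linarith))

end Pool.Agent.Lib.MP_743898_gt
end

-- part Pool.Agent.Lib.MP_743898_gt.Equal
section

set_option autoImplicit false
set_option linter.unusedSimpArgs false

/-! The equality case of the Tan inequality. -/

namespace Pool.Agent.Lib.MP_743898_gt

open M2

theorem Good.eq_step {S : Set M2} (h : Good S) {A B : M2} (hA : A ∈ S) (hB : B ∈ S)
    (ht : tr B = tr A) (hv : 1 - tr (A * B) ≠ 0)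
    (he : ‖tr A ^ 2 - 2‖ + ‖1 - tr (A * B)‖ = 1) :
    ‖(1 - tr (A * B)) + (tr A ^ 2 - 2)‖ = 1 := by
  have hX' := h.mul (h.mul hB hA) (h.adj hB)
  have e := v_next A B (h.det hA) (h.det hB) ht
  have t' := tr_conj B A (h.det hB)
  have hne : 1 - tr (A * (B * A * M2.adj B)) ≠ 0 := by
    intro h0
    have h5 : tr A ^ 2 - 2 = -(1 - tr (A * B)) := by
      rw [e] at h0
      linear_combination (mul_eq_zero.1 h0).resolve_left hv
    refine h.braid hA hX' t' (by linear_combination -h0) (by rw [h5]; exact neg_ne_zero.2 hv) ?_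
    have : ‖tr A ^ 2 - 2‖ = ‖1 - tr (A * B)‖ := by rw [h5, norm_neg]
    linarith
  have h1 := h.tan hA hX' t' hne
  rw [e, norm_mul] at h1
  have h2 := norm_add_le (1 - tr (A * B)) (tr A ^ 2 - 2)
  have h3 := norm_pos_iff.2 hv
  apply le_antisymm (by linarith)
  by_contra hlt
  push Not at hlt
  nlinarith

theorem Good.order_four {S : Set M2} (h : Good S) {A B : M2} (hA : A ∈ S) (hB : B ∈ S)
    (ht : tr B = tr A) (ha : tr A ^ 2 = 2) (v : ℂ) (hv : v = 1 - tr (A * B)) (h1 : ‖v‖ = 1) :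
    0 ≤ (2 * v.re - 1) * (v.re ^ 2 - 1) := by
  have hC := h.adj (h.mul (h.mul (h.mul (h.mul hB hA) hB) (h.adj hA)) (h.adj hB))
  have dA := h.det hA
  have dB := h.det hB
  have t1 : tr (M2.adj (B * A * B * M2.adj A * M2.adj B)) = tr A := by
    have : tr (M2.adj (B * A * B * M2.adj A * M2.adj B)) = M2.det A * M2.det B * tr B := by
      simp only [tr, M2.det, M2.adj, mul_a, mul_b, mul_c, mul_d]; ring
    rw [this, dA, dB, ht]; ring
  have t2 : 1 - tr (A * M2.adj (B * A * B * M2.adj A * M2.adj B)) = -(v ^ 3 - v ^ 2 + 1) := by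
    have : tr (A * M2.adj (B * A * B * M2.adj A * M2.adj B))
        = (tr (A * B) * tr A - M2.det A * tr B) * (tr (A * B) * tr B - M2.det B * tr A)
          - (tr (A * B) ^ 3 - 3 * M2.det A * M2.det B * tr (A * B)) := by
      simp only [tr, M2.det, M2.adj, mul_a, mul_b, mul_c, mul_d]; ring
    rw [this, dA, dB, ht, show tr (A * B) = 1 - v by rw [hv]; ring]
    linear_combination (-v ^ 2) * ha
  have hs : v.re ^ 2 + v.im ^ 2 = 1 := by
    have := Complex.sq_norm v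
    rw [h1, Complex.normSq_apply] at this
    linarith
  have hn : ‖v ^ 3 - v ^ 2 + 1‖ ^ 2 = 1 + 4 * ((2 * v.re - 1) * (v.re ^ 2 - 1)) := by
    rw [Complex.sq_norm, Complex.normSq_apply]
    simp only [pow_succ, pow_zero, one_mul, Complex.add_re, Complex.sub_re, Complex.mul_re,
      Complex.add_im, Complex.sub_im, Complex.mul_im, Complex.one_re, Complex.one_im]
    have e : v.im ^ 2 = 1 - v.re ^ 2 := by linarith
    have e4 : v.im ^ 4 = (1 - v.re ^ 2) ^ 2 := by rw [← e]; ring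
    have e6 : v.im ^ 6 = (1 - v.re ^ 2) ^ 3 := by rw [← e]; ring
    ring_nf
    rw [e6, e4, e]
    ring
  by_cases h0 : v ^ 3 - v ^ 2 + 1 = 0
  · exfalso
    rw [h0, norm_zero] at hn
    have hc : v.re ^ 2 ≤ 1 := by nlinarith [sq_nonneg v.im]
    nlinarith [sq_nonneg (v.re - 3 / 4), sq_nonneg (v.re ^ 2 - 9 / 16), sq_nonneg (v.re - 1),
      abs_le.1 (abs_le_one_iff_mul_self_le_one.2 (by nlinarith) : |v.re| ≤ 1)]
  · have h2 := h.tan hA hC t1 (by rw [t2]; exact neg_ne_zero.2 h0)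
    rw [t2, ha, sub_self, norm_zero, zero_add, norm_neg] at h2
    nlinarith

/-- Classification of the equality case for a pair of equal trace. -/
theorem Good.classify {S : Set M2} (h : Good S) {A B : M2} (hA : A ∈ S) (hB : B ∈ S)
    (ht : tr B = tr A) (a v : ℂ) (ha : a = tr A ^ 2 - 2) (hv : v = 1 - tr (A * B)) (hv0 : v ≠ 0)
    (he : ‖a‖ + ‖v‖ = 1) :
    (a = 0 ∧ (v ^ 4 = 1 ∨ v ^ 6 = 1)) ∨ ∃ r : ℝ, 0 < r ∧ r < 1 ∧ a = r ∧ v = 1 - r := by
  have hX' := h.mul (h.mul hB hA) (h.adj hB)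
  have e : 1 - tr (A * (B * A * M2.adj B)) = v * (v + a) := by
    rw [ha, hv]; exact v_next A B (h.det hA) (h.det hB) ht
  have t' := tr_conj B A (h.det hB)
  have s1 : ‖v + a‖ = 1 := by
    rw [ha, hv]; exact h.eq_step hA hB ht (hv ▸ hv0) (by rw [← ha, ← hv]; exact he)
  have n1 : ‖v * (v + a)‖ = ‖v‖ := by rw [norm_mul, s1, mul_one]
  have v1 : v * (v + a) ≠ 0 := by rw [← norm_pos_iff, n1]; exact norm_pos_iff.2 hv0
  by_cases ha0 : a = 0
  · left
    refine ⟨ha0, ?_⟩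
    have hx : tr A ^ 2 = 2 := by linear_combination ha0 - ha
    rw [ha0, norm_zero, zero_add] at he
    rw [ha0, add_zero] at e
    have p1 := h.order_four hA hB ht hx v hv he
    have p2 := h.order_four hA (h.adj hB) (by rw [tr_adj, ht]) hx (-v)
      (by rw [tr_mul_adj, ht, hv]; linear_combination hx) (by rw [norm_neg, he])
    have p4 := h.order_four hA (h.adj hX') (by rw [tr_adj, t']) hx (-(v * v))
      (by rw [tr_mul_adj, t', ← e]; linear_combination hx) (by rw [norm_neg, norm_mul, he, mul_one])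
    have hs : v.re ^ 2 + v.im ^ 2 = 1 := by
      have := Complex.sq_norm v
      rw [he, Complex.normSq_apply] at this
      linarith
    have hq : v ^ 2 + 1 = 2 * (v.re : ℂ) * v := by
      apply Complex.ext <;> simp [pow_two] <;> nlinarith
    have hre : (v * v).re = 2 * v.re ^ 2 - 1 := by simp [Complex.mul_re]; nlinarith
    simp only [Complex.neg_re, hre] at p2 p4
    have hc : v.re ^ 2 ≤ 1 := by nlinarith [sq_nonneg v.im]
    have hsq : (v ^ 2 + 1) ^ 2 = 4 * ((v.re ^ 2 : ℝ) : ℂ) * v ^ 2 := by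
      rw [hq]; push_cast; ring
    rcases eq_or_lt_of_le hc with h1 | h1
    · left
      rw [h1] at hsq
      have : (v ^ 2 - 1) ^ 2 = 0 := by push_cast at hsq; linear_combination hsq
      have := pow_eq_zero_iff (two_ne_zero) |>.1 this
      linear_combination (v ^ 2 + 1) * this
    · have q1 : v.re ≤ 1 / 2 := by nlinarith
      have q2 : -(1 / 2) ≤ v.re := by nlinarith
      have q3 : v.re ^ 2 ≤ 1 / 4 := by nlinarith
      by_cases h0 : v.re ^ 2 = 0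
      · left
        rw [h0] at hsq
        have : (v ^ 2 + 1) ^ 2 = 0 := by simpa using hsq
        have := pow_eq_zero_iff (two_ne_zero) |>.1 this
        linear_combination (v ^ 2 - 1) * this
      · right
        have q4 : 0 < v.re ^ 2 := lt_of_le_of_ne (sq_nonneg _) (Ne.symm h0)
        have q5 : v.re ^ 2 = 1 / 4 := by
          apply le_antisymm q3
          by_contra hlt
          push Not at hlt
          have : 0 < (1 - 4 * v.re ^ 2) * (v.re ^ 2 * (1 - v.re ^ 2)) := by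
            apply mul_pos (by linarith) (mul_pos q4 (by linarith))
          nlinarith
        rw [q5] at hsq
        push_cast at hsq
        linear_combination (v ^ 2 - 1) * hsq
  · right
    have s2 : ‖v * (v + a) + a‖ = 1 := by
      have := h.eq_step hA hX' t' (by rw [e]; exact v1) (by rw [e, ← ha, n1]; exact he)
      rwa [e, ← ha] at this
    have r1 : SameRay ℝ v a := sameRay_iff_norm_add.2 (by rw [s1]; linarith)
    have r2 : SameRay ℝ (v * (v + a)) a := sameRay_iff_norm_add.2 (by rw [s2, n1]; linarith)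
    have k1 := r1.norm_smul_eq
    have k2 := r2.norm_smul_eq
    rw [n1, k1] at k2
    have hap : 0 < ‖a‖ := norm_pos_iff.2 ha0
    have k3 : v = v * (v + a) := smul_right_injective ℂ hap.ne' k2
    have k4 : v + a = 1 := by
      have : v * (v + a - 1) = 0 := by linear_combination -k3
      linear_combination (mul_eq_zero.1 this).resolve_left hv0
    have k5 : a = (‖a‖ : ℂ) := by
      simp only [Complex.real_smul] at k1
      have he' : ((‖a‖ : ℝ) : ℂ) + ((‖v‖ : ℝ) : ℂ) = 1 := by exact_mod_cast he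
      linear_combination k1 - a * he' + (‖a‖ : ℂ) * k4
    refine ⟨‖a‖, hap, by linarith [norm_pos_iff.2 hv0], k5, ?_⟩
    linear_combination k4 - k5

end Pool.Agent.Lib.MP_743898_gt
end

-- part Pool.Agent.Lib.MP_743898_gt.Ext
section

set_option autoImplicit false
set_option linter.unusedSimpArgs false

/-! Elementary pairs and the extension by an involution. -/

namespace Pool.Agent.Lib.MP_743898_gt

open M2

/-- `X` maps the vector `(p, q)` to a multiple of `(p', q')`. -/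
def Par (X : M2) (p q p' q' : ℂ) : Prop :=
  ∃ t : ℂ, X.a * p + X.b * q = t * p' ∧ X.c * p + X.d * q = t * q'

/-- `A` fixes two lines (possibly equal) that `B` exchanges. -/
def Elem (A B : M2) : Prop :=
  ∃ p q p' q' : ℂ, (p ≠ 0 ∨ q ≠ 0) ∧ (p' ≠ 0 ∨ q' ≠ 0) ∧ Par A p q p q ∧ Par A p' q' p' q' ∧
    Par B p q p' q' ∧ Par B p' q' p q

theorem Par.of_cj {P X : M2} (hP : M2.det P = 1) {p q p' q' : ℂ} (h : Par (M2.cj P X) p q p' q') :
    Par X (P.a * p + P.b * q) (P.c * p + P.d * q) (P.a * p' + P.b * q') (P.c * p' + P.d * q') := by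
  obtain ⟨t, h1, h2⟩ := h
  simp only [M2.cj, M2.adj, mul_a, mul_b, mul_c, mul_d, M2.det] at h1 h2 hP
  refine ⟨t, ?_, ?_⟩
  · linear_combination P.a * h1 + P.b * h2
      - (X.a * (P.a * p + P.b * q) + X.b * (P.c * p + P.d * q)) * hP
  · linear_combination P.c * h1 + P.d * h2
      - (X.c * (P.a * p + P.b * q) + X.d * (P.c * p + P.d * q)) * hP

theorem Elem.of_cj {P A B : M2} (hP : M2.det P = 1) (h : Elem (M2.cj P A) (M2.cj P B)) :
    Elem A B := by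
  obtain ⟨p, q, p', q', h1, h2, h3, h4, h5, h6⟩ := h
  have key : ∀ p q : ℂ, (p ≠ 0 ∨ q ≠ 0) → P.a * p + P.b * q ≠ 0 ∨ P.c * p + P.d * q ≠ 0 := by
    intro p q hpq
    by_contra hcon
    push Not at hcon
    simp only [M2.det] at hP
    rcases hpq with h | h
    · exact h (by linear_combination P.d * hcon.1 - P.b * hcon.2 - p * hP)
    · exact h (by linear_combination P.a * hcon.2 - P.c * hcon.1 - q * hP)
  exact ⟨_, _, _, _, key p q h1, key p' q' h2, h3.of_cj hP, h4.of_cj hP, h5.of_cj hP,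
    h6.of_cj hP⟩

theorem Good.elem {S : Set M2} (h : Good S) {A G : M2} (hA : A ∈ S) (hG : G ∈ S)
    (h4 : tr A ^ 2 ≠ 4)
    (hc : gam A G = 0 ∨ (gam A G = tr A ^ 2 - 4 ∧ tr A ^ 2 - 2 ≠ 0 ∧ ‖tr A ^ 2 - 2‖ < 1)) :
    Elem A G := by
  obtain ⟨P, hP, hn⟩ := exists_normal A (h.det hA)
  have h' := h.cj P hP
  have hk' : M2.cj P A ∈ M2.cj P '' S := ⟨A, hA, rfl⟩
  have hH' : M2.cj P G ∈ M2.cj P '' S := ⟨G, hG, rfl⟩
  rw [← gam_cj P A G hP, ← tr_cj P A hP] at hc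
  rw [← tr_cj P A hP] at h4
  refine Elem.of_cj hP ?_
  generalize M2.cj P G = Y at hH' hc ⊢
  rcases hn with ⟨l, m, hδ, he⟩ | ⟨e, s, he⟩
  · rw [he] at hk' hc h4 ⊢
    have hlm : l * m = 1 := by simpa [M2.det] using h'.det hk'
    have hd := h'.det hH'
    rw [gam_diag l m hlm Y hd] at hc
    rcases hc with h0 | ⟨h1, h2, h3⟩
    · have h5 : Y.b * Y.c = 0 :=
        (mul_eq_zero.1 (neg_eq_zero.1 h0)).resolve_left (pow_ne_zero 2 hδ)
      rcases mul_eq_zero.1 h5 with hb | hc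
      · exact ⟨0, 1, 0, 1, by simp, by simp, ⟨m, by simp⟩, ⟨m, by simp⟩, ⟨Y.d, by simp [hb]⟩,
          ⟨Y.d, by simp [hb]⟩⟩
      · exact ⟨1, 0, 1, 0, by simp, by simp, ⟨l, by simp⟩, ⟨l, by simp⟩, ⟨Y.a, by simp [hc]⟩,
          ⟨Y.a, by simp [hc]⟩⟩
    · simp only [tr] at h1 h2 h3
      have h5 : (l - m) ^ 2 * (Y.a * Y.d) = 0 := by
        simp only [M2.det] at hd
        linear_combination -h1 + (l - m) ^ 2 * hd - 4 * hlm
      obtain ⟨ha, hd'⟩ := h'.swap l m hk' hδ ((l + m) ^ 2 - 2)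
        (Or.inl (by linear_combination 2 * hlm)) h2 h3 Y hH'
        ((mul_eq_zero.1 h5).resolve_left (pow_ne_zero 2 hδ))
      exact ⟨1, 0, 0, 1, by simp, by simp, ⟨l, by simp⟩, ⟨m, by simp⟩, ⟨Y.c, by simp [ha]⟩,
        ⟨Y.b, by simp [hd']⟩⟩
  · rw [he] at hk' h4
    have hee : e * e = 1 := by simpa [M2.det] using h'.det hk'
    exact absurd (by simp only [tr]; linear_combination 4 * hee) h4

theorem sc_one (X : M2) : sc 1 X = X := by ext <;> simp [sc]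

theorem Bd.neg {R : ℝ} {X : M2} (h : Bd R X) : Bd R (sc (-1) X) := by
  simpa [Bd, sc] using h

theorem sc_neg_neg (X : M2) : sc (-1) (sc (-1) X) = X := by ext <;> simp [sc]

theorem Good.pm {S : Set M2} (h : Good S) : Good {X | X ∈ S ∨ sc (-1) X ∈ S} := by
  refine ⟨?_, ?_, ?_, fun R => ?_⟩
  · rintro X Y (hX | hX) (hY | hY)
    · exact Or.inl (h.mul hX hY)
    · right; convert h.mul hX hY using 1; ext <;> simp [sc] <;> ring
    · right; convert h.mul hX hY using 1; ext <;> simp [sc] <;> ring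
    · left; convert h.mul hX hY using 1; ext <;> simp [sc]
  · rintro X (hX | hX)
    · exact Or.inl (h.adj hX)
    · right; convert h.adj hX using 1; ext <;> simp [sc, M2.adj]
  · rintro X (hX | hX)
    · exact h.det hX
    · have := h.det hX
      simp only [M2.det, sc] at this ⊢
      linear_combination this
  · refine ((h.fin R).union ((h.fin R).image (sc (-1)))).subset ?_
    rintro X ⟨hX | hX, hb⟩
    · exact Or.inl ⟨hX, hb⟩
    · exact Or.inr ⟨sc (-1) X, ⟨hX, Bd.neg hb⟩, sc_neg_neg X⟩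

theorem Good.extend {S : Set M2} (h : Good S) (hneg : ∀ X ∈ S, sc (-1) X ∈ S) (p q r : ℂ)
    (hφ : -(p * p) - q * r = 1) {A : M2} (hA : A ∈ S)
    (hA' : (⟨p, q, r, -p⟩ : M2) * A * M2.adj ⟨p, q, r, -p⟩ ∈ S) :
    ∃ S', Good S' ∧ A * ⟨p, q, r, -p⟩ ∈ S' ∧ (⟨p, q, r, -p⟩ : M2) * A ∈ S' := by
  set φ : M2 := ⟨p, q, r, -p⟩ with hφd
  have dφ : M2.det φ = 1 := by simp only [M2.det, hφd]; linear_combination hφ
  have tw : ∀ X : M2, φ * (φ * X * M2.adj φ) * M2.adj φ = X := by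
    intro X
    have : φ * (φ * X * M2.adj φ) * M2.adj φ = sc (M2.det φ ^ 2) X := by
      ext <;> simp [hφd, sc, M2.det, M2.adj] <;> ring
    rw [this, dφ, one_pow, sc_one]
  let S0 : Set M2 := {X | X ∈ S ∧ φ * X * M2.adj φ ∈ S}
  have m0 : ∀ X ∈ S0, ∀ Y ∈ S0, X * Y ∈ S0 := by
    rintro X ⟨h1, h2⟩ Y ⟨h3, h4⟩
    refine ⟨h.mul h1 h3, ?_⟩
    have : φ * X * M2.adj φ * (φ * Y * M2.adj φ) = sc (M2.det φ) (φ * (X * Y) * M2.adj φ) := by
      ext <;> simp [hφd, sc, M2.det, M2.adj] <;> ring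
    have h5 := h.mul h2 h4
    rwa [this, dφ, sc_one] at h5
  have a0 : ∀ X ∈ S0, M2.adj X ∈ S0 := by
    rintro X ⟨h1, h2⟩
    refine ⟨h.adj h1, ?_⟩
    convert h.adj h2 using 1
    ext <;> simp [hφd, M2.adj] <;> ring
  have n0 : ∀ X ∈ S0, sc (-1) X ∈ S0 := by
    rintro X ⟨h1, h2⟩
    refine ⟨hneg _ h1, ?_⟩
    convert hneg _ h2 using 1
    ext <;> simp [hφd, sc, M2.adj] <;> ring
  have c0 : ∀ X ∈ S0, φ * X * M2.adj φ ∈ S0 := by
    rintro X ⟨h1, h2⟩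
    exact ⟨h2, by rw [tw]; exact h1⟩
  refine ⟨{X | X ∈ S0 ∨ X * φ ∈ S0}, ⟨?_, ?_, ?_, fun R => ?_⟩, Or.inr ?_, Or.inr ?_⟩
  · rintro X Y (hX | hX) (hY | hY)
    · exact Or.inl (m0 _ hX _ hY)
    · right; convert m0 _ hX _ hY using 1; ext <;> simp <;> ring
    · right
      have : X * φ * (φ * Y * M2.adj φ) = sc (M2.det φ) (X * Y * φ) := by
        ext <;> simp [hφd, sc, M2.det, M2.adj] <;> ring
      have h5 := m0 _ hX _ (c0 _ hY)
      rwa [this, dφ, sc_one] at h5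
    · left
      have : X * φ * (φ * (Y * φ) * M2.adj φ) = sc (-1) (sc (M2.det φ ^ 2) (X * Y)) := by
        ext <;> simp [hφd, sc, M2.det, M2.adj] <;> ring
      have h5 := n0 _ (m0 _ hX _ (c0 _ hY))
      rwa [this, dφ, one_pow, sc_one, sc_neg_neg] at h5
  · rintro X (hX | hX)
    · exact Or.inl (a0 _ hX)
    · right
      have : φ * M2.adj (X * φ) * M2.adj φ = sc (-1) (sc (M2.det φ) (M2.adj X * φ)) := by
        ext <;> simp [hφd, sc, M2.det, M2.adj] <;> ring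
      have h5 := n0 _ (c0 _ (a0 _ hX))
      rwa [this, dφ, sc_one, sc_neg_neg] at h5
  · rintro X (hX | hX)
    · exact h.det hX.1
    · have := h.det hX.1
      rwa [det_mul, dφ, mul_one] at this
  · obtain ⟨T, hT⟩ := exists_bd φ
    refine ((h.fin R).union ((h.fin (2 * R * T)).image (fun Y => Y * M2.adj φ))).subset ?_
    rintro X ⟨hX | hX, hb⟩
    · exact Or.inl ⟨hX.1, hb⟩
    · refine Or.inr ⟨X * φ, ⟨hX.1, hb.mul hT⟩, ?_⟩
      have : X * φ * M2.adj φ = sc (M2.det φ) X := by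
        ext <;> simp [hφd, sc, M2.det, M2.adj] <;> ring
      simp only [this, dφ, sc_one]
  · have : A * φ * φ = sc (-1) (sc (M2.det φ) A) := by
      ext <;> simp [hφd, sc, M2.det] <;> ring
    rw [this, dφ, sc_one]
    exact n0 _ ⟨hA, hA'⟩
  · have : φ * A * φ = sc (-1) (φ * A * M2.adj φ) := by
      ext <;> simp [hφd, sc, M2.adj] <;> ring
    rw [this]
    exact n0 _ (c0 _ ⟨hA, hA'⟩)

theorem Good.tan_main {S : Set M2} (h : Good S) {A G : M2} (hA : A ∈ S) (hG : G ∈ S)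
    (hne : ¬ Elem A G) (h0 : gam A G + 1 ≠ 0) (he : ‖tr A ^ 2 - 2‖ + ‖gam A G + 1‖ = 1) :
    tr A ^ 2 = 2 ∧ gam A G + 1 ≠ 1 ∧ ((gam A G + 1) ^ 4 = 1 ∨ (gam A G + 1) ^ 6 = 1) := by
  have hB := h.adj (h.mul (h.mul hG hA) (h.adj hG))
  have := h.classify hA hB (by rw [tr_adj, tr_conj _ _ (h.det hG)]) _ (-(gam A G + 1)) rfl
    (by rw [tr_mul_adj_conj]; ring) (neg_ne_zero.2 h0) (by rw [norm_neg]; exact he)
  rcases this with ⟨h1, h2⟩ | ⟨r, r0, r1, h1, h2⟩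
  · have hx : tr A ^ 2 = 2 := by linear_combination h1
    refine ⟨hx, fun h3 => hne (h.elem hA hG (by rw [hx]; norm_num)
      (Or.inl (by linear_combination h3))), ?_⟩
    rcases h2 with h2 | h2
    · left; linear_combination h2
    · right; linear_combination h2
  · exfalso
    have hn : ‖tr A ^ 2 - 2‖ < 1 := by rw [h1, Complex.norm_real, Real.norm_eq_abs, abs_lt]; constructor <;> linarith
    refine hne (h.elem hA hG ?_ (Or.inr ⟨by linear_combination -h1 - h2, ?_, hn⟩))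
    · intro h4; rw [h4] at hn; norm_num at hn
    · rw [h1]; exact_mod_cast r0.ne'

theorem Good.gmt_main {S : Set M2} (h : Good S) {A G : M2} (hA : A ∈ S) (hG : G ∈ S)
    (hne : ¬ Elem A G) (h0 : tr A ^ 2 - 1 ≠ 0) (he : ‖tr A ^ 2 - 1‖ + ‖gam A G + 2‖ = 1) :
    gam A G + 2 = 0 ∧ ((tr A ^ 2 - 1) ^ 4 = 1 ∨ (tr A ^ 2 - 1) ^ 6 = 1) := by
  have hB := h.mul (h.mul hG hA) (h.adj hG)
  have tB := tr_conj G A (h.det hG)
  have tAB := tr_mul_adj_conj A G
  have dA := h.det hA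
  have dB := h.det hB
  generalize G * A * M2.adj G = B at hB tB tAB dB
  have g0 : gam A G ≠ 0 := by
    intro k
    rw [k] at he
    simp at he
    linarith [norm_nonneg (tr A ^ 2 - 1)]
  obtain ⟨c, hc⟩ := IsAlgClosed.exists_pow_nat_eq (-(gam A G))⁻¹ two_pos
  have hc' : c ^ 2 * gam A G = -1 := by rw [hc]; field_simp
  simp only [tr, M2.det, M2.adj, mul_a, mul_d] at tB tAB dA dB
  have hBd : B.d = A.a + A.d - B.a := by linear_combination tB
  have hφ : -(c * (A.a - B.a) * (c * (A.a - B.a))) - c * (A.b - B.b) * (c * (A.c - B.c)) = 1 := by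
    rw [hBd] at tAB dB
    linear_combination c ^ 2 * dA + c ^ 2 * dB - c ^ 2 * tAB - hc'
  obtain ⟨S', hS', k1, k2⟩ := h.pm.extend
    (fun X hX => hX.elim (fun hX => Or.inr (by rwa [sc_neg_neg])) fun hX => Or.inl hX)
    (c * (A.a - B.a)) (c * (A.b - B.b)) (c * (A.c - B.c)) hφ (Or.inl hA) (Or.inl (by
      convert h.adj hB using 1
      rw [hBd] at dB
      ext <;> simp only [M2.adj, mul_a, mul_b, mul_c, mul_d, hBd]
      · linear_combination (A.a + A.d - B.a) * hφ + c ^ 2 * (A.a - B.a) * (dA - dB)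
      · linear_combination (-B.b) * hφ + c ^ 2 * (A.b - B.b) * (dA - dB)
      · linear_combination (-B.c) * hφ + c ^ 2 * (A.c - B.c) * (dA - dB)
      · linear_combination B.a * hφ - c ^ 2 * (A.a - B.a) * (dA - dB)))
  have t1 : tr (A * ⟨c * (A.a - B.a), c * (A.b - B.b), c * (A.c - B.c), -(c * (A.a - B.a))⟩)
      = c * gam A G := by
    rw [hBd] at tAB
    simp only [tr, mul_a, mul_d]
    linear_combination c * tAB - 2 * c * dA
  have := hS'.classify k1 k2 (tr_comm _ _) (-(gam A G + 2)) (tr A ^ 2 - 1)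
    (by rw [t1]; linear_combination (-gam A G) * hc')
    (by
      simp only [tr, mul_a, mul_b, mul_c, mul_d]
      linear_combination (-(A.a ^ 2 + 2 * A.b * A.c + A.d ^ 2)) * hφ + 2 * dA)
    h0 (by rw [norm_neg]; linarith)
  rcases this with ⟨h1, h2⟩ | ⟨r, r0, r1, h1, h2⟩
  · exact ⟨neg_eq_zero.1 h1, h2⟩
  · exfalso
    have e : tr A ^ 2 - 2 = ((-r : ℝ) : ℂ) := by push_cast; linear_combination h2
    have hn : ‖tr A ^ 2 - 2‖ < 1 := by
      rw [e, Complex.norm_real, Real.norm_eq_abs, abs_lt]; constructor <;> linarith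
    refine hne (h.elem hA hG ?_ (Or.inr ⟨by linear_combination -h1 - h2, ?_, hn⟩))
    · intro h4; rw [h4] at hn; norm_num at hn
    · rw [e]; exact_mod_cast (neg_ne_zero.2 r0.ne')

end Pool.Agent.Lib.MP_743898_gt
end

-- part Pool.Agent.Lib.MP_743898_gt.Link
section

set_option autoImplicit false
set_option linter.unusedSimpArgs false

/-! Passage from subgroups of the projective special linear group to quadruples. -/

namespace Pool.Agent.Lib.MP_743898_gt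

open M2 Matrix

abbrev SL2 := Matrix.SpecialLinearGroup (Fin 2) ℂ
abbrev PSL2 := Matrix.ProjectiveSpecialLinearGroup (Fin 2) ℂ

def toM (A : SL2) : M2 := ⟨A.1 0 0, A.1 0 1, A.1 1 0, A.1 1 1⟩

theorem toM_mul (A B : SL2) : toM (A * B) = toM A * toM B := by
  ext <;> simp [toM, Matrix.mul_apply, Fin.sum_univ_two]

theorem toM_inv (A : SL2) : toM A⁻¹ = M2.adj (toM A) := by
  ext <;> simp [toM, M2.adj, Matrix.SpecialLinearGroup.coe_inv, Matrix.adjugate_fin_two]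

theorem toM_det (A : SL2) : M2.det (toM A) = 1 := by
  have := A.2
  rw [Matrix.det_fin_two] at this
  exact this

theorem toM_tr (A : SL2) : tr (toM A) = A.1.trace := by
  simp [toM, tr, Matrix.trace_fin_two]

theorem toM_gam (f g : SL2) : gam (toM f) (toM g) = (f⁻¹ * g⁻¹ * f * g).1.trace - 2 := by
  rw [← toM_tr, toM_mul, toM_mul, toM_mul, toM_inv, toM_inv]
  simp only [gam, tr, M2.adj, mul_a, mul_b, mul_c, mul_d]; ring

theorem good_of_discrete (Γ : Subgroup PSL2) (hd : IsDiscrete (Γ : Set PSL2)) :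
    Good (toM '' {A : SL2 | (A : PSL2) ∈ Γ}) := by
  refine ⟨?_, ?_, ?_, fun R => ?_⟩
  · rintro _ _ ⟨A, hA, rfl⟩ ⟨B, hB, rfl⟩
    exact ⟨A * B, Γ.mul_mem hA hB, toM_mul A B⟩
  · rintro _ ⟨A, hA, rfl⟩
    exact ⟨A⁻¹, Γ.inv_mem hA, toM_inv A⟩
  · rintro _ ⟨A, _, rfl⟩
    exact toM_det A
  · set G : Subgroup SL2 := Γ.comap (QuotientGroup.mk' _) with hG
    have hGd : IsDiscrete (G : Set SL2) := by
      rw [isDiscrete_iff_discreteTopology]
      have : DiscreteTopology Γ := isDiscrete_iff_discreteTopology.1 hd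
      refine discreteTopology_of_isOpen_singleton_one (G := G) ?_
      have hc : Continuous fun A : G => (⟨((A : SL2) : PSL2), A.2⟩ : Γ) :=
        (QuotientGroup.continuous_mk.comp continuous_subtype_val).subtype_mk _
      have h1 : IsOpen {A : G | (⟨((A : SL2) : PSL2), A.2⟩ : Γ) ∈ ({1} : Set Γ)} :=
        (isOpen_discrete _).preimage hc
      have h2 : IsOpen {A : G | (A : SL2).1 0 0 ≠ -1} := by
        refine isOpen_ne_fun ?_ continuous_const
        exact (continuous_apply_apply 0 0).comp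
          (Matrix.SpecialLinearGroup.isClosedEmbedding_val.continuous.comp continuous_subtype_val)
      convert h1.inter h2 using 1
      ext A
      simp only [Set.mem_singleton_iff, Set.mem_inter_iff, Set.mem_ofPred_eq]
      constructor
      · rintro rfl
        refine ⟨rfl, ?_⟩
        simp
        norm_num
      · rintro ⟨h3, h4⟩
        have h5 : (A : SL2) ∈ Subgroup.center SL2 :=
          (QuotientGroup.eq_one_iff _).1 (congrArg Subtype.val h3)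
        obtain ⟨r, hr, hr'⟩ := Matrix.SpecialLinearGroup.mem_center_iff.1 h5
        have h6 : r = 1 := by
          simp only [Fintype.card_fin] at hr
          rcases sq_eq_one_iff.1 hr with h | h
          · exact h
          · exfalso; apply h4; rw [← hr', h]; simp
        apply Subtype.ext
        apply Subtype.ext
        rw [← hr', h6]; simp
    have : T2Space SL2 := Matrix.SpecialLinearGroup.isClosedEmbedding_val.isEmbedding.t2Space
    have ht := G.tendsto_coe_cofinite_of_discrete hGd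
    have hK : IsCompact {A : SL2 | ∀ i j, A.1 i j ∈ Metric.closedBall (0 : ℂ) R} := by
      have h1 : IsCompact {A : Matrix (Fin 2) (Fin 2) ℂ |
          ∀ i j, A i j ∈ Metric.closedBall (0 : ℂ) R} :=
        isCompact_pi_infinite fun i => isCompact_pi_infinite fun j => isCompact_closedBall _ _
      exact Matrix.SpecialLinearGroup.isClosedEmbedding_val.isCompact_preimage h1
    have hfin := ht hK.compl_mem_cocompact
    rw [Filter.mem_map, Filter.mem_cofinite] at hfin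
    refine (hfin.image fun A : G => toM A).subset ?_
    rintro _ ⟨⟨A, hA, rfl⟩, h1, h2, h3, h4⟩
    refine ⟨⟨A, hA⟩, ?_, rfl⟩
    simp only [Set.mem_compl_iff, Set.mem_preimage, not_not, Set.mem_ofPred_eq,
      mem_closedBall_zero_iff]
    intro i j
    fin_cases i <;> fin_cases j
    · exact h1
    · exact h2
    · exact h3
    · exact h4

theorem smul_of_par (A : SL2) {p q p' q' : ℂ} (h1 : (![p, q] : Fin 2 → ℂ) ≠ 0)
    (h2 : (![p', q'] : Fin 2 → ℂ) ≠ 0) (h : Par (toM A) p q p' q') :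
    (A : PSL2) • Projectivization.mk ℂ ![p, q] h1 = Projectivization.mk ℂ ![p', q'] h2 := by
  obtain ⟨t, k1, k2⟩ := h
  rw [Matrix.ProjectiveSpecialLinearGroup.smul_proj_mk, Projectivization.smul_mk,
    Projectivization.mk_eq_mk_iff']
  refine ⟨t, ?_⟩
  change _ = A.1 *ᵥ ![p, q]
  ext i
  fin_cases i
  · simpa [toM, Matrix.mulVec, dotProduct, Fin.sum_univ_two] using k1.symm
  · simpa [toM, Matrix.mulVec, dotProduct, Fin.sum_univ_two] using k2.symm

open Pointwise in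
theorem not_elem (f g : SL2)
    (hne : ∀ p : Projectivization ℂ (Fin 2 → ℂ),
      (MulAction.orbit (Subgroup.closure ({(f : PSL2), (g : PSL2)} : Set PSL2)) p).Infinite) :
    ¬ Elem (toM f) (toM g) := by
  rintro ⟨p, q, p', q', h1, h2, h3, h4, h5, h6⟩
  have key : ∀ p q : ℂ, (p ≠ 0 ∨ q ≠ 0) → (![p, q] : Fin 2 → ℂ) ≠ 0 := by
    intro p q h h0
    rcases h with h | h
    · exact h (congrFun h0 0)
    · exact h (congrFun h0 1)
  set x := Projectivization.mk ℂ ![p, q] (key p q h1) with hx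
  set y := Projectivization.mk ℂ ![p', q'] (key p' q' h2) with hy
  have hle : Subgroup.closure ({(f : PSL2), (g : PSL2)} : Set PSL2)
      ≤ MulAction.stabilizer PSL2 ({x, y} : Set (Projectivization ℂ (Fin 2 → ℂ))) := by
    rw [Subgroup.closure_le]
    rintro _ (rfl | rfl)
    · change (f : PSL2) • ({x, y} : Set _) = {x, y}
      rw [Set.smul_set_insert, Set.smul_set_singleton, smul_of_par f _ _ h3, smul_of_par f _ _ h4]
    · change (g : PSL2) • ({x, y} : Set _) = {x, y}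
      rw [Set.smul_set_insert, Set.smul_set_singleton, smul_of_par g _ _ h5, smul_of_par g _ _ h6,
        Set.pair_comm]
  refine hne x ((Set.toFinite ({x, y} : Set _)).subset ?_)
  rintro _ ⟨γ, rfl⟩
  have h7 : (γ : PSL2) • ({x, y} : Set _) = {x, y} := hle γ.2
  rw [← h7]
  exact Set.smul_mem_smul_set (Set.mem_insert _ _)

end Pool.Agent.Lib.MP_743898_gt
end
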